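import Pool.Agent.HCF.Defs

namespace Pool.Agent.HCF

open Pool.Agent.HCH

variable {K R : Type} [Field K] [CommRing R] [Algebra K R]

theorem adiv_supp (W : Ideal R) (g : R) (e : ℕ) (P : PrimeSpectrum R)
    (h : adiv K W g e P ≠ 0) : dm K P.asIdeal = e ∧ W ⊔ Ideal.span {g} ≤ P.asIdeal := by
  unfold adiv at h
  split_ifs at h with h1
  · exact ⟨h1, le_of_od _ _ h⟩
  · exact absurd rfl h

theorem fdiv_supp (W : Ideal R) (g : R) (e : ℕ) (P : PrimeSpectrum R)
    (h : fdiv K W g e P ≠ 0) : dm K P.asIdeal = e ∧ W ⊔ Ideal.span {g} ≤ P.asIdeal := by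
  unfold fdiv at h
  split_ifs at h with h1
  · exact adiv_supp W g e P h
  · exact absurd rfl h

theorem adiv_finite [Algebra.FiniteType K R] (W : Ideal R) [W.IsPrime] (g : R) (hg : g ∉ W)
    (e : ℕ) (hd : dm K W = e + 1) : {P : PrimeSpectrum R | adiv K W g e P ≠ 0}.Finite := by
  apply (finite_div W g hg e hd).subset
  intro P hP
  have h1 := adiv_supp W g e P hP
  refine ⟨h1.1, ?_⟩
  intro h2
  apply hP
  simp [adiv, od, h2]

theorem fdiv_eq [Algebra.FiniteType K R] (W : Ideal R) [W.IsPrime] (g : R) (hg : g ∉ W)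
    (e : ℕ) (hd : dm K W = e + 1) : ⇑(fdiv K W g e) = adiv K W g e := by
  have h := adiv_finite W g hg e hd
  unfold fdiv
  rw [dif_pos h]
  rfl

theorem fdiv_apply [Algebra.FiniteType K R] (W : Ideal R) [W.IsPrime] (g : R) (hg : g ∉ W)
    (e : ℕ) (hd : dm K W = e + 1) (P : PrimeSpectrum R) (hP : dm K P.asIdeal = e) :
    fdiv K W g e P = od (W ⊔ Ideal.span {g}) P := by
  rw [fdiv_eq W g hg e hd]
  simp [adiv, hP]

open Classical in
theorem gys_single (h : R) (e : ℕ) (E : PrimeSpectrum R) (n : ℤ) :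
    gys K h e (Finsupp.single E n) = n • (if h ∈ E.asIdeal then 0 else fdiv K E.asIdeal h e) := by
  simp [gys]

open Classical in
theorem gys_eq_sum (h : R) (e : ℕ) (z : PrimeSpectrum R →₀ ℤ) :
    gys K h e z =
      z.sum (fun E n => n • (if h ∈ E.asIdeal then 0 else fdiv K E.asIdeal h e)) := by
  rfl

theorem gys_mem (h : R) (e : ℕ) (G : AddSubgroup (PrimeSpectrum R →₀ ℤ))
    (z : PrimeSpectrum R →₀ ℤ)
    (H : ∀ E : PrimeSpectrum R, z E ≠ 0 → h ∉ E.asIdeal → fdiv K E.asIdeal h e ∈ G) :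
    gys K h e z ∈ G := by
  classical
  rw [gys_eq_sum]
  apply AddSubgroup.sum_mem
  intro E hE
  dsimp only
  split_ifs with h1
  · simp
  · exact G.zsmul_mem (H E (Finsupp.mem_support_iff.mp hE) h1) _

theorem gys_supp (h : R) (e : ℕ) (z : PrimeSpectrum R →₀ ℤ) (Q : PrimeSpectrum R)
    (hQ : gys K h e z Q ≠ 0) : dm K Q.asIdeal = e ∧ h ∈ Q.asIdeal ∧
      ∃ E : PrimeSpectrum R, z E ≠ 0 ∧ h ∉ E.asIdeal ∧ E.asIdeal ≤ Q.asIdeal := by
  classical
  rw [gys_eq_sum, Finsupp.sum, Finsupp.finsetSum_apply] at hQ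
  obtain ⟨E, hE, hne⟩ := Finset.exists_ne_zero_of_sum_ne_zero hQ
  by_cases h1 : h ∈ E.asIdeal
  · simp [h1] at hne
  · rw [if_neg h1, Finsupp.smul_apply] at hne
    have h2 : fdiv K E.asIdeal h e Q ≠ 0 := fun h3 => hne (by rw [h3, smul_zero])
    have h3 := fdiv_supp _ _ _ _ h2
    exact ⟨h3.1, h3.2 (Submodule.mem_sup_right (Ideal.mem_span_singleton_self h)),
      E, Finsupp.mem_support_iff.mp hE, h1, le_sup_left.trans h3.2⟩

theorem pt_apply (e : ℕ) (z : PrimeSpectrum R →₀ ℤ) (P : PrimeSpectrum R)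
    (hP : dm K P.asIdeal = e) : pt K e z P = z P := by
  classical
  simp [pt, Finsupp.filterAddHom, hP]

theorem pt_apply_ne (e : ℕ) (z : PrimeSpectrum R →₀ ℤ) (P : PrimeSpectrum R)
    (hP : dm K P.asIdeal ≠ e) : pt K e z P = 0 := by
  classical
  simp [pt, Finsupp.filterAddHom, hP]

theorem pt_single (e : ℕ) (P : PrimeSpectrum R) (n : ℤ) (hP : dm K P.asIdeal = e) :
    pt K e (Finsupp.single P n) = Finsupp.single P n := by
  classical
  ext Q
  by_cases h : dm K Q.asIdeal = e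
  · rw [pt_apply e _ Q h]
  · rw [pt_apply_ne e _ Q h, Finsupp.single_apply, if_neg]
    rintro rfl
    exact h hP

theorem pt_single_ne (e : ℕ) (P : PrimeSpectrum R) (n : ℤ) (hP : dm K P.asIdeal ≠ e) :
    pt K e (Finsupp.single P n) = 0 := by
  classical
  ext Q
  by_cases h : dm K Q.asIdeal = e
  · rw [pt_apply e _ Q h, Finsupp.single_apply, if_neg]
    · rfl
    · rintro rfl
      exact hP h
  · rw [pt_apply_ne e _ Q h]
    rfl

theorem Rt_supp [Algebra.FiniteType K R] (I : Ideal R) (e : ℕ) (z : PrimeSpectrum R →₀ ℤ)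
    (hz : z ∈ Rt K I e) (P : PrimeSpectrum R) (hP : z P ≠ 0) :
    dm K P.asIdeal = e ∧ I ≤ P.asIdeal := by
  have key : ∀ z ∈ Rt K I e, ∀ P : PrimeSpectrum R, z P ≠ 0 →
      dm K P.asIdeal = e ∧ I ≤ P.asIdeal := by
    intro z hz
    unfold Rt at hz
    induction hz using AddSubgroup.closure_induction with
    | mem z hz =>
      obtain ⟨W, g, hI, hd, hg, rfl⟩ := hz
      intro P hP
      have h1 := fdiv_supp _ _ _ _ hP
      exact ⟨h1.1, hI.trans (le_sup_left.trans h1.2)⟩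
    | zero => intro P hP; exact absurd rfl hP
    | add a b _ _ ha hb =>
      intro P hP
      by_cases h1 : a P = 0
      · exact hb P (fun h2 => hP (by simp [h1, h2]))
      · exact ha P h1
    | neg a _ ha =>
      intro P hP
      exact ha P (fun h2 => hP (by simp [h2]))
  exact key z hz P hP

theorem Rt_mono (I J : Ideal R) (h : I ≤ J) (e : ℕ) : Rt K J e ≤ Rt K I e := by
  unfold Rt
  apply AddSubgroup.closure_mono
  rintro z ⟨W, g, hI, hd, hg, rfl⟩
  exact ⟨W, g, h.trans hI, hd, hg, rfl⟩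

theorem fdiv_mem_Rt (I : Ideal R) (e : ℕ) (W : PrimeSpectrum R) (g : R) (hI : I ≤ W.asIdeal)
    (hd : dm K W.asIdeal = e + 1) (hg : g ∉ W.asIdeal) : fdiv K W.asIdeal g e ∈ Rt K I e :=
  AddSubgroup.subset_closure ⟨W, g, hI, hd, hg, rfl⟩

end Pool.Agent.HCF
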