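import Pool.Agent.HCF.F4

namespace Pool.Agent.HCF

open Pool.Agent.HCH

variable {K R : Type} [Field K] [CommRing R] [Algebra K R] [Algebra.FiniteType K R]

/-
For x ∉ P the submodule of R ⧸ P spanned by the class of x is isomorphic to R ⧸ P.
PROOF. The map R ⧸ P → R ⧸ P, r ↦ r x, is injective (R ⧸ P is a domain) with range the span
(LinearEquiv.ofInjective and LinearMap.range_toSpanSingleton; or Ideal.Quotient facts).
-/
theorem span_equiv (P : PrimeSpectrum R) (x : R) (hx : x ∉ P.asIdeal) :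
    Nonempty ((R ⧸ P.asIdeal) ≃ₗ[R]
      Submodule.span R {(Ideal.Quotient.mk P.asIdeal x : R ⧸ P.asIdeal)}) := by
  have hv : (Ideal.Quotient.mk P.asIdeal x : R ⧸ P.asIdeal) ≠ 0 :=
    fun h => hx (Ideal.Quotient.eq_zero_iff_mem.1 h)
  have hinj : Function.Injective
      (LinearMap.mulLeft R (Ideal.Quotient.mk P.asIdeal x : R ⧸ P.asIdeal)) :=
    fun a b hab => mul_left_cancel₀ hv hab
  have hr : LinearMap.range (LinearMap.mulLeft R (Ideal.Quotient.mk P.asIdeal x : R ⧸ P.asIdeal)) =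
      Submodule.span R {(Ideal.Quotient.mk P.asIdeal x : R ⧸ P.asIdeal)} := by
    apply le_antisymm
    · rintro _ ⟨y, rfl⟩
      obtain ⟨r, rfl⟩ := Ideal.Quotient.mk_surjective y
      have h1 : (LinearMap.mulLeft R (Ideal.Quotient.mk P.asIdeal x : R ⧸ P.asIdeal))
          (Ideal.Quotient.mk P.asIdeal r) = r • (Ideal.Quotient.mk P.asIdeal x : R ⧸ P.asIdeal) := by
        rw [LinearMap.mulLeft_apply, mul_comm, Algebra.smul_def]
        rfl
      rw [h1]
      exact Submodule.smul_mem _ _ (Submodule.mem_span_singleton_self _)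
    · rw [Submodule.span_le, Set.singleton_subset_iff]
      exact ⟨1, by rw [LinearMap.mulLeft_apply, mul_one]⟩
  exact ⟨(LinearEquiv.ofInjective _ hinj).trans (LinearEquiv.ofEq _ _ hr)⟩

/-
PROOF. (R ⧸ P) ⧸ (span of x) ≃ R ⧸ (P + (x)): DoubleQuot or Submodule.quotientQuotientEquivQuotient;
the kernel of the surjection R → (R ⧸ P) ⧸ span {x} is P + (x).
-/
theorem quot_equiv (P : PrimeSpectrum R) (x : R) :
    Nonempty (((R ⧸ P.asIdeal) ⧸
      Submodule.span R {(Ideal.Quotient.mk P.asIdeal x : R ⧸ P.asIdeal)}) ≃ₗ[R]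
      (R ⧸ (P.asIdeal ⊔ Ideal.span {x}))) := by
  set L := Submodule.span R {(Ideal.Quotient.mk P.asIdeal x : R ⧸ P.asIdeal)} with hL
  have hs : Function.Surjective (L.mkQ ∘ₗ Algebra.linearMap R (R ⧸ P.asIdeal)) := by
    intro y
    obtain ⟨z, rfl⟩ := L.mkQ_surjective y
    obtain ⟨r, rfl⟩ := Ideal.Quotient.mk_surjective z
    exact ⟨r, rfl⟩
  have hk : LinearMap.ker (L.mkQ ∘ₗ Algebra.linearMap R (R ⧸ P.asIdeal)) =
      P.asIdeal ⊔ Ideal.span {x} := by
    ext r
    have h1 : r ∈ LinearMap.ker (L.mkQ ∘ₗ Algebra.linearMap R (R ⧸ P.asIdeal)) ↔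
        (Ideal.Quotient.mk P.asIdeal r : R ⧸ P.asIdeal) ∈ L := by
      rw [LinearMap.mem_ker, LinearMap.comp_apply]
      exact (Submodule.Quotient.mk_eq_zero L)
    rw [h1, hL, Submodule.mem_span_singleton]
    constructor
    · rintro ⟨c, hc⟩
      have h2 : Ideal.Quotient.mk P.asIdeal (c * x) = Ideal.Quotient.mk P.asIdeal r := by
        rw [map_mul, ← hc, Algebra.smul_def]
        rfl
      have h3 : r - c * x ∈ P.asIdeal := by
        rw [← Ideal.Quotient.eq_zero_iff_mem, map_sub, h2, sub_self]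
      have h4 : r = (r - c * x) + c * x := by ring
      rw [h4]
      exact add_mem (Ideal.mem_sup_left h3)
        (Ideal.mem_sup_right (Ideal.mul_mem_left _ _ (Ideal.mem_span_singleton_self x)))
    · intro hr
      obtain ⟨p, hp, q, hq, rfl⟩ := Submodule.mem_sup.1 hr
      obtain ⟨c, rfl⟩ := Ideal.mem_span_singleton'.1 hq
      refine ⟨c, ?_⟩
      rw [map_add, Ideal.Quotient.eq_zero_iff_mem.2 hp, zero_add, map_mul, Algebra.smul_def]
      rfl
  have e := LinearMap.quotKerEquivOfSurjective _ hs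
  rw [hk] at e
  exact ⟨e.symm⟩

/-
PROOF. N = ⊥: a = 0, w1 = 0 (Fil.triv), (R ⧸ P) ⧸ ⊥ ≃ R ⧸ P (Submodule.quotEquivOfEqBot), Fil.prime.
N ≠ ⊥: choose x ∈ R ∖ P with class in N, L = span {x} ≤ N. Let N' = N.map L.mkQ in (R ⧸ P) ⧸ L.
It is a finite R-module (R is noetherian: Algebra.FiniteType.isNoetherianRing K R), and J = P + (x)
kills it (x n ∈ L for every n ∈ R ⧸ P). All primes containing J have dimension < dm P ≤ e + 1
(dm_le_of_sup), so they are good (dimension ≤ e). Fil.exists gives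
Fil Gd a' N' wa, and Fil Gd b ((R ⧸ P) ⧸ N) wb (also killed by J since x ∈ N).
(1) 0 → L → N → N' → 0 exact (L as a submodule of N: use the comap or the inclusion
 Submodule.inclusion; the map N → N' is the restriction of L.mkQ), L ≃ R ⧸ P (span_equiv), so by
 Fil.prime, Fil.exact: Fil Gd (1 + a') N (single P 1 + wa). w1 := single P 1 + wa, w2 := wb.
(2) 0 → N' → (R ⧸ P) ⧸ L → (R ⧸ P) ⧸ N → 0 exact, so Fil Gd _ ((R ⧸ P) ⧸ L) (wa + wb), and by
 quot_equiv, Fil.congr, Fil.good_quot: pt K e (wa + wb) ∈ G.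
Then w1 + w2 - single P 1 = wa + wb.
-/
theorem Fil.base (G : AddSubgroup (PrimeSpectrum R →₀ ℤ)) (e : ℕ) (P : PrimeSpectrum R)
    (hP : Gd K G e P) (N : Submodule R (R ⧸ P.asIdeal)) :
    ∃ (a b : ℕ) (w1 w2 : PrimeSpectrum R →₀ ℤ), Fil (Gd K G e) a N w1 ∧
      Fil (Gd K G e) b ((R ⧸ P.asIdeal) ⧸ N) w2 ∧ pt K e (w1 + w2 - Finsupp.single P 1) ∈ G := by
  classical
  have : IsNoetherianRing R := Algebra.FiniteType.isNoetherianRing K R
  by_cases hN : N = ⊥
  · subst hN
    refine ⟨0, 1, 0, Finsupp.single P 1, Fil.triv, ?_, ?_⟩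
    · exact Fil.congr (Submodule.quotEquivOfEqBot ⊥ rfl).symm (Fil.prime P hP)
    · rw [zero_add, sub_self, map_zero]
      exact G.zero_mem
  · obtain ⟨y, hyN, hy0⟩ := Submodule.exists_mem_ne_zero_of_ne_bot hN
    obtain ⟨x, rfl⟩ := Ideal.Quotient.mk_surjective y
    have hx : x ∉ P.asIdeal := fun h => hy0 (Ideal.Quotient.eq_zero_iff_mem.2 h)
    obtain ⟨φ⟩ := span_equiv P x hx
    obtain ⟨ψ⟩ := quot_equiv P x
    have hLN' : Submodule.span R {(Ideal.Quotient.mk P.asIdeal x : R ⧸ P.asIdeal)} ≤ N := by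
      rw [Submodule.span_le, Set.singleton_subset_iff]
      exact hyN
    have hJL' : ∀ j ∈ P.asIdeal ⊔ Ideal.span {x}, ∀ n : R ⧸ P.asIdeal,
        j • n ∈ Submodule.span R {(Ideal.Quotient.mk P.asIdeal x : R ⧸ P.asIdeal)} := by
      intro j hj n
      obtain ⟨p, hp, q, hq, rfl⟩ := Submodule.mem_sup.1 hj
      obtain ⟨c, rfl⟩ := Ideal.mem_span_singleton'.1 hq
      obtain ⟨r, rfl⟩ := Ideal.Quotient.mk_surjective n
      have h1 : (p + c * x) • (Ideal.Quotient.mk P.asIdeal r : R ⧸ P.asIdeal) =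
          (c * r) • (Ideal.Quotient.mk P.asIdeal x : R ⧸ P.asIdeal) := by
        have h2 : (p + c * x) • (Ideal.Quotient.mk P.asIdeal r : R ⧸ P.asIdeal) =
            Ideal.Quotient.mk P.asIdeal ((p + c * x) * r) := by
          rw [map_mul, Algebra.smul_def]
          rfl
        have h3 : (c * r) • (Ideal.Quotient.mk P.asIdeal x : R ⧸ P.asIdeal) =
            Ideal.Quotient.mk P.asIdeal ((c * r) * x) := by
          rw [map_mul _ (c * r) x, Algebra.smul_def]
          rfl
        rw [h2, h3, Ideal.Quotient.eq]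
        have h4 : (p + c * x) * r - c * r * x = p * r := by ring
        rw [h4]
        exact Ideal.mul_mem_right _ _ hp
      rw [h1]
      exact Submodule.smul_mem _ _ (Submodule.mem_span_singleton_self _)
    generalize Submodule.span R {(Ideal.Quotient.mk P.asIdeal x : R ⧸ P.asIdeal)} = L at φ ψ hLN' hJL'
    have hgood : ∀ Q : PrimeSpectrum R, P.asIdeal ⊔ Ideal.span {x} ≤ Q.asIdeal → Gd K G e Q := by
      intro Q hQ
      have h1 := dm_le_of_sup (K := K) P.asIdeal x hx Q hQ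
      have h2 := hP.1
      refine ⟨by omega, fun h3 => ?_⟩
      omega
    have hann1 : P.asIdeal ⊔ Ideal.span {x} ≤ Module.annihilator R (N.map L.mkQ) := by
      intro j hj
      rw [Module.mem_annihilator]
      rintro ⟨m, hm⟩
      obtain ⟨n, hn, rfl⟩ := Submodule.mem_map.1 hm
      apply Subtype.ext
      show j • L.mkQ n = 0
      rw [← map_smul, Submodule.mkQ_apply, Submodule.Quotient.mk_eq_zero]
      exact hJL' j hj n
    have hann2 : P.asIdeal ⊔ Ideal.span {x} ≤ Module.annihilator R ((R ⧸ P.asIdeal) ⧸ N) := by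
      intro j hj
      rw [Module.mem_annihilator]
      intro m
      obtain ⟨n, rfl⟩ := N.mkQ_surjective m
      rw [← map_smul, Submodule.mkQ_apply, Submodule.Quotient.mk_eq_zero]
      exact hLN' (hJL' j hj n)
    obtain ⟨a', wa, ha⟩ := Fil.exists (S := Gd K G e) (N.map L.mkQ)
      (fun Q hQ => hgood Q (hann1.trans hQ))
    obtain ⟨b, wb, hb⟩ := Fil.exists (S := Gd K G e) ((R ⧸ P.asIdeal) ⧸ N)
      (fun Q hQ => hgood Q (hann2.trans hQ))
    have h1 : Fil (Gd K G e) (1 + a') N (Finsupp.single P 1 + wa) := by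
      refine Fil.exact (Submodule.inclusion hLN') (L.mkQ.submoduleMap N)
        (Submodule.inclusion_injective hLN') (L.mkQ.submoduleMap_surjective N) ?_
        (Fil.congr φ (Fil.prime P hP)) ha
      intro y
      have h3 : (L.mkQ.submoduleMap N) y = 0 ↔ (y : R ⧸ P.asIdeal) ∈ L := by
        rw [← Submodule.Quotient.mk_eq_zero L]
        constructor
        · intro h
          exact congrArg Subtype.val h
        · intro h
          exact Subtype.ext h
      rw [h3]
      constructor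
      · intro h
        exact ⟨⟨y, h⟩, rfl⟩
      · rintro ⟨z, rfl⟩
        exact z.2
    have h2 : Fil (Gd K G e) (a' + b) ((R ⧸ P.asIdeal) ⧸ L) (wa + wb) := by
      refine Fil.exact (N.map L.mkQ).subtype (Submodule.factor hLN')
        (Submodule.subtype_injective _) (Submodule.factor_surjective hLN') ?_ ha hb
      intro z
      obtain ⟨m, rfl⟩ := L.mkQ_surjective z
      have h3 : Submodule.factor hLN' (L.mkQ m) = 0 ↔ m ∈ N := by
        rw [← Submodule.Quotient.mk_eq_zero N]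
        exact Iff.rfl
      rw [h3]
      constructor
      · intro h
        exact ⟨⟨L.mkQ m, Submodule.mem_map_of_mem h⟩, rfl⟩
      · rintro ⟨⟨z, hz⟩, h⟩
        obtain ⟨n, hn, rfl⟩ := Submodule.mem_map.1 hz
        have h4 : L.mkQ n = L.mkQ m := h
        rw [Submodule.mkQ_apply, Submodule.mkQ_apply, Submodule.Quotient.eq] at h4
        have h5 : m = n - (n - m) := by abel
        rw [h5]
        exact N.sub_mem hn (hLN' h4)
    refine ⟨1 + a', b, Finsupp.single P 1 + wa, wb, h1, hb, ?_⟩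
    have h3 : Finsupp.single P 1 + wa + wb - Finsupp.single P 1 = wa + wb := by abel
    rw [h3]
    exact Fil.good_quot G e P hP x hx (Fil.congr ψ h2)

end Pool.Agent.HCF
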