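import Pool.Agent.HCF.C1

namespace Pool.Agent.HCF

open Pool.Agent.HCH

variable {K R : Type} [Field K] [CommRing R] [Algebra K R] [Algebra.FiniteType K R]

/-- `0 → N ⊓ L → N → N.map L.mkQ → 0` -/
theorem c2_exact1 {M : Type} [AddCommGroup M] [Module R M] (L N : Submodule R M) :
    ∃ (f : N.comap L.subtype →ₗ[R] N) (g : N →ₗ[R] N.map L.mkQ), Function.Injective f ∧
      Function.Surjective g ∧ Function.Exact f g := by
  refine ⟨LinearMap.codRestrict N (L.subtype ∘ₗ (N.comap L.subtype).subtype) (fun m => m.2),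
    L.mkQ.submoduleMap N, ?_, LinearMap.submoduleMap_surjective _ _, ?_⟩
  · intro a b hab
    apply Subtype.ext
    apply Subtype.ext
    exact congrArg (fun z : N => (z : M)) hab
  · intro y
    constructor
    · intro hy
      have h1 : L.mkQ (y : M) = 0 := congrArg (fun z : N.map L.mkQ => (z : M ⧸ L)) hy
      have h2 : (y : M) ∈ L := (Submodule.Quotient.mk_eq_zero L).1 h1
      exact ⟨⟨⟨y, h2⟩, y.2⟩, rfl⟩
    · rintro ⟨x, rfl⟩
      apply Subtype.ext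
      exact (Submodule.Quotient.mk_eq_zero L).2 x.1.2

/-- `0 → L ⧸ (N ⊓ L) → M ⧸ N → (M ⧸ L) ⧸ N.map L.mkQ → 0` -/
theorem c2_exact2 {M : Type} [AddCommGroup M] [Module R M] (L N : Submodule R M) :
    ∃ (f : (L ⧸ N.comap L.subtype) →ₗ[R] (M ⧸ N)) (g : (M ⧸ N) →ₗ[R] ((M ⧸ L) ⧸ N.map L.mkQ)),
      Function.Injective f ∧ Function.Surjective g ∧ Function.Exact f g := by
  have hle : N ≤ LinearMap.ker ((N.map L.mkQ).mkQ ∘ₗ L.mkQ) := by
    intro n hn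
    exact (Submodule.Quotient.mk_eq_zero (N.map L.mkQ)).2 ⟨n, hn, rfl⟩
  refine ⟨Submodule.mapQ (N.comap L.subtype) N L.subtype le_rfl,
    N.liftQ ((N.map L.mkQ).mkQ ∘ₗ L.mkQ) hle, ?_, ?_, ?_⟩
  · rw [injective_iff_map_eq_zero]
    intro x hx
    obtain ⟨l, rfl⟩ := Submodule.Quotient.mk_surjective _ x
    have h1 : (Submodule.Quotient.mk (l : M) : M ⧸ N) = 0 := hx
    exact (Submodule.Quotient.mk_eq_zero _).2 ((Submodule.Quotient.mk_eq_zero N).1 h1)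
  · intro y
    obtain ⟨y, rfl⟩ := Submodule.Quotient.mk_surjective _ y
    obtain ⟨m, rfl⟩ := Submodule.Quotient.mk_surjective _ y
    exact ⟨Submodule.Quotient.mk m, rfl⟩
  · intro y
    obtain ⟨m, rfl⟩ := Submodule.Quotient.mk_surjective _ y
    constructor
    · intro hy
      have h1 : (Submodule.Quotient.mk (L.mkQ m) : (M ⧸ L) ⧸ N.map L.mkQ) = 0 := hy
      obtain ⟨n, hn, hnm⟩ := (Submodule.Quotient.mk_eq_zero _).1 h1
      have h2 : m - n ∈ L := (Submodule.Quotient.eq L).1 hnm.symm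
      refine ⟨Submodule.Quotient.mk ⟨m - n, h2⟩, ?_⟩
      show (Submodule.Quotient.mk (m - n) : M ⧸ N) = Submodule.Quotient.mk m
      rw [Submodule.Quotient.eq]
      have h3 : m - n - m = -n := by abel
      rw [h3]
      exact N.neg_mem hn
    · rintro ⟨x, hx⟩
      obtain ⟨l, rfl⟩ := Submodule.Quotient.mk_surjective _ x
      rw [← hx]
      show (Submodule.Quotient.mk (L.mkQ (l : M)) : (M ⧸ L) ⧸ N.map L.mkQ) = 0
      have h1 : L.mkQ (l : M) = 0 := (Submodule.Quotient.mk_eq_zero L).2 l.2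
      rw [h1]
      rfl

/-
PROOF. Induction on n, all M and N. n = 0: everything trivial (N, M ⧸ N subsingletons).
n + 1: L ≤ M, P, w', e : R ⧸ P ≃ L, Gd P, Fil n (M ⧸ L) w', w = w' + single P 1.
Let N1 = N.map L.mkQ ≤ M ⧸ L. Induction hypothesis: Fil a1 N1 u1, Fil b1 ((M ⧸ L) ⧸ N1) u2,
pt (w' - u1 - u2) ∈ G. Let L1 = N ⊓ L seen in L ≃ R ⧸ P (Submodule.comap of L.subtype and of e).
Fil.base (transported by Fil.congr): Fil a2 L1 v1, Fil b2 (L ⧸ L1) v2, pt (v1 + v2 - single P 1) ∈ G.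
Exact sequences: 0 → N ⊓ L → N → N1 → 0 and 0 → L ⧸ (N ⊓ L) → M ⧸ N → (M ⧸ L) ⧸ N1 → 0
((M ⧸ L) ⧸ N1 ≃ M ⧸ (N ⊔ L)). So by Fil.exact Fil (a2 + a1) N (v1 + u1) and
Fil (b2 + b1) (M ⧸ N) (v2 + u2), and
w - (v1 + u1) - (v2 + u2) = (w' - u1 - u2) - (v1 + v2 - single P 1).
Suggested: L1 := N.comap L.subtype : Submodule R L; map L1 → N by m ↦ ⟨m, _⟩; map
L ⧸ L1 → M ⧸ N by Submodule.mapQ L1 N L.subtype le_rfl (injective); map
M ⧸ N → (M ⧸ L) ⧸ N1 by N.liftQ (N1.mkQ ∘ L.mkQ).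
-/
theorem Fil.sub (G : AddSubgroup (PrimeSpectrum R →₀ ℤ)) (e : ℕ) {n : ℕ} {M : Type}
    [AddCommGroup M] [Module R M] {w : PrimeSpectrum R →₀ ℤ} (h : Fil (Gd K G e) n M w)
    (N : Submodule R M) :
    ∃ (a b : ℕ) (w1 w2 : PrimeSpectrum R →₀ ℤ), Fil (Gd K G e) a N w1 ∧
      Fil (Gd K G e) b (M ⧸ N) w2 ∧ pt K e (w - w1 - w2) ∈ G := by
  induction n generalizing M w with
  | zero =>
    obtain ⟨hs, rfl⟩ := h
    exact ⟨0, 0, 0, 0, Fil.triv, Fil.triv, by rw [sub_zero, sub_zero, map_zero]; exact G.zero_mem⟩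
  | succ n ih =>
    obtain ⟨L, P, w', ⟨eq⟩, hP, hL, rfl⟩ := h
    obtain ⟨a1, b1, u1, u2, hu1, hu2, hu⟩ := ih hL (N.map L.mkQ)
    obtain ⟨a2, b2, v1, v2, hv1, hv2, hv⟩ := Fil.base G e P hP
      ((N.comap L.subtype).map (eq.symm : L →ₗ[R] (R ⧸ P.asIdeal)))
    have k1 : Fil (Gd K G e) a2 (N.comap L.subtype) v1 :=
      Fil.congr (eq.symm.submoduleMap (N.comap L.subtype)).symm hv1
    have k2 : Fil (Gd K G e) b2 (L ⧸ N.comap L.subtype) v2 :=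
      Fil.congr (Submodule.Quotient.equiv (N.comap L.subtype) _ eq.symm rfl).symm hv2
    obtain ⟨f1, g1, hf1, hg1, hfg1⟩ := c2_exact1 L N
    obtain ⟨f2, g2, hf2, hg2, hfg2⟩ := c2_exact2 L N
    refine ⟨a2 + a1, b2 + b1, v1 + u1, v2 + u2, Fil.exact f1 g1 hf1 hg1 hfg1 k1 hu1,
      Fil.exact f2 g2 hf2 hg2 hfg2 k2 hu2, ?_⟩
    have h5 : w' + Finsupp.single P 1 - (v1 + u1) - (v2 + u2) =
        (w' - u1 - u2) - (v1 + v2 - Finsupp.single P 1) := by abel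
    rw [h5, map_sub]
    exact G.sub_mem hu hv

end Pool.Agent.HCF
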