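import Pool.Agent.HCF.C2

namespace Pool.Agent.HCF

open Pool.Agent.HCH

variable {K R : Type} [Field K] [CommRing R] [Algebra K R] [Algebra.FiniteType K R]

/-- a nonzero element of `R ⧸ P` has annihilator `P` -/
theorem c3_ann (P : PrimeSpectrum R) (y : R ⧸ P.asIdeal) (hy : y ≠ 0) (r : R) :
    r • y = 0 ↔ r ∈ P.asIdeal := by
  rw [Algebra.smul_def, mul_eq_zero]
  constructor
  · rintro (h | h)
    · exact Ideal.Quotient.eq_zero_iff_mem.1 h
    · exact absurd h hy
  · intro h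
    exact Or.inl (Ideal.Quotient.eq_zero_iff_mem.2 h)

/-- a submodule of `R ⧸ P` isomorphic to `R ⧸ P1` is spanned by the class of an element outside
`P`, and `P1 = P` -/
theorem c3_sub (P P1 : PrimeSpectrum R) (N : Submodule R (R ⧸ P.asIdeal))
    (e : (R ⧸ P1.asIdeal) ≃ₗ[R] N) : P1 = P ∧ ∃ x : R, x ∉ P.asIdeal ∧
      N = Submodule.span R {(Ideal.Quotient.mk P.asIdeal x : R ⧸ P.asIdeal)} := by
  have h1 : (1 : R ⧸ P1.asIdeal) ≠ 0 := one_ne_zero
  have hy : ((e 1 : N) : R ⧸ P.asIdeal) ≠ 0 := by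
    intro h
    apply h1
    apply e.injective
    rw [map_zero]
    exact Subtype.ext h
  have hP : P1 = P := by
    apply PrimeSpectrum.ext
    ext r
    rw [← c3_ann P1 1 h1 r, ← c3_ann P _ hy r]
    constructor
    · intro h
      have h2 : ((e (r • (1 : R ⧸ P1.asIdeal)) : N) : R ⧸ P.asIdeal) = 0 := by
        rw [h, map_zero]; rfl
      rw [map_smul] at h2
      exact h2
    · intro h
      apply e.injective
      rw [map_zero, map_smul]
      exact Subtype.ext h
  refine ⟨hP, ?_⟩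
  obtain ⟨x, hx⟩ := Ideal.Quotient.mk_surjective ((e 1 : N) : R ⧸ P.asIdeal)
  refine ⟨x, ?_, ?_⟩
  · intro hxP
    apply hy
    rw [← hx]
    exact Ideal.Quotient.eq_zero_iff_mem.2 hxP
  · apply le_antisymm
    · intro z hz
      obtain ⟨q, hq⟩ := e.surjective ⟨z, hz⟩
      obtain ⟨r, hr⟩ := Ideal.Quotient.mk_surjective q
      rw [Submodule.mem_span_singleton]
      refine ⟨r, ?_⟩
      rw [hx]
      have h3 : q = r • (1 : R ⧸ P1.asIdeal) := by
        rw [← hr, ← Algebra.algebraMap_eq_smul_one]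
        rfl
      have h4 : ((e q : N) : R ⧸ P.asIdeal) = z := by rw [hq]
      rw [h3, map_smul] at h4
      exact h4
    · rw [Submodule.span_singleton_le_iff_mem, hx]
      exact (e 1).2

/-
PROOF. R ⧸ P is not trivial, so n = n' + 1: N ≤ R ⧸ P, P1, w', N ≃ R ⧸ P1, Gd P1,
Fil n' ((R ⧸ P) ⧸ N) w', w = w' + single P1 1. The element y = image of 1 in N ⊂ R ⧸ P is not zero
and its annihilator is P1; in R ⧸ P the annihilator of a nonzero element is P. So P1 = P, and N is
the span of y = class of some x ∉ P. By quot_equiv and Fil.congr: Fil n' (R ⧸ (P + (x))) w', and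
Fil.good_quot gives pt K e w' ∈ G.
-/
theorem Fil.uniq_prime (G : AddSubgroup (PrimeSpectrum R →₀ ℤ)) (e : ℕ) {n : ℕ}
    (P : PrimeSpectrum R) {w : PrimeSpectrum R →₀ ℤ}
    (h : Fil (Gd K G e) n (R ⧸ P.asIdeal) w) : pt K e (w - Finsupp.single P 1) ∈ G := by
  cases n with
  | zero =>
    exfalso
    have h1 : Subsingleton (R ⧸ P.asIdeal) := h.1
    exact one_ne_zero (Subsingleton.elim (1 : R ⧸ P.asIdeal) 0)
  | succ n =>
    obtain ⟨N, P1, w', ⟨g⟩, hS, hF, hw⟩ := h
    obtain ⟨hP, x, hx, hN⟩ := c3_sub P P1 N g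
    subst hN
    obtain ⟨f⟩ := quot_equiv P x
    have h2 := Fil.congr f hF
    have h3 := Fil.good_quot G e P (hP ▸ hS) x hx h2
    rw [hw, hP, add_sub_cancel_right]
    exact h3

/-
PROOF. Induction on n for all M, w, w', n'. n = 0: M trivial; the second filtration: n' = 0 gives
w' = 0; n' + 1 would give R ⧸ P ≃ N ≤ M trivial, impossible (P ≠ ⊤). n + 1: N ≤ M, P, w1,
N ≃ R ⧸ P, Fil n (M ⧸ N) w1, w = w1 + single P 1. Fil.sub for the second filtration and N:
Fil a N wa, Fil b (M ⧸ N) wb, pt (w' - wa - wb) ∈ G. Induction: pt (w1 - wb) ∈ G. Fil.uniq_prime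
(transport wa by Fil.congr): pt (wa - single P 1) ∈ G.
w - w' = (w1 - wb) - (wa - single P 1) - (w' - wa - wb).
-/
theorem Fil.uniq (G : AddSubgroup (PrimeSpectrum R →₀ ℤ)) (e : ℕ) {n n' : ℕ} {M : Type}
    [AddCommGroup M] [Module R M] {w w' : PrimeSpectrum R →₀ ℤ}
    (h : Fil (Gd K G e) n M w) (h' : Fil (Gd K G e) n' M w') : pt K e (w - w') ∈ G := by
  induction n generalizing M w w' n' with
  | zero =>
    obtain ⟨hM, hw⟩ := h
    cases n' with
    | zero =>
      obtain ⟨-, hw'⟩ := h'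
      rw [hw, hw', sub_zero, map_zero]
      exact G.zero_mem
    | succ n' =>
      exfalso
      obtain ⟨N, P, u, ⟨f⟩, -, -, -⟩ := h'
      have h1 : (1 : R ⧸ P.asIdeal) ≠ 0 := one_ne_zero
      apply h1
      apply f.injective
      exact Subtype.ext (Subsingleton.elim _ _)
  | succ n ih =>
    obtain ⟨N, P, w1, ⟨f⟩, hS, hF, hw⟩ := h
    obtain ⟨a, b, wa, wb, ha, hb, hab⟩ := Fil.sub G e h' N
    have h1 := ih hF hb
    have h2 := Fil.uniq_prime G e P (Fil.congr f.symm ha)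
    have h3 : w - w' = (w1 - wb) - (wa - Finsupp.single P 1) - (w' - wa - wb) := by
      rw [hw]; abel
    rw [h3, map_sub, map_sub]
    exact G.sub_mem (G.sub_mem h1 h2) hab

end Pool.Agent.HCF
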