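import Pool.Agent.HCH.S1
import Pool.Agent.HCH.A2m
import Pool.Agent.HCH.B2

/-!
Descent in the codimension for the conjecture of Hartshorne on Chow groups of hypersurfaces:
cycles with finite support, the Gysin map of a principal divisor and filtrations of modules.
-/

namespace Pool.Agent.HCF

open Pool.Agent.HCH

variable {R : Type} [CommRing R]

open Classical in
/-- The divisor `adiv` as a function of finite support. -/
noncomputable def fdiv (K : Type) [Field K] [Algebra K R] (W : Ideal R) (g : R) (e : ℕ) :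
    PrimeSpectrum R →₀ ℤ :=
  if h : {P : PrimeSpectrum R | adiv K W g e P ≠ 0}.Finite then
    Finsupp.ofSupportFinite (adiv K W g e) h else 0

/-- Cycles of dimension `e` on `V(I)` rationally equivalent to zero. -/
noncomputable def Rt (K : Type) [Field K] [Algebra K R] (I : Ideal R) (e : ℕ) :
    AddSubgroup (PrimeSpectrum R →₀ ℤ) :=
  AddSubgroup.closure {z | ∃ (W : PrimeSpectrum R) (g : R), I ≤ W.asIdeal ∧
    dm K W.asIdeal = e + 1 ∧ g ∉ W.asIdeal ∧ z = fdiv K W.asIdeal g e}

open Classical in
/-- The intersection of a cycle of dimension `e + 1` with the divisor of `h`: the components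
contained in `V(h)` are left out. -/
noncomputable def gys (K : Type) [Field K] [Algebra K R] (h : R) (e : ℕ) :
    (PrimeSpectrum R →₀ ℤ) →+ (PrimeSpectrum R →₀ ℤ) :=
  Finsupp.liftAddHom (fun E : PrimeSpectrum R => zmultiplesHom (PrimeSpectrum R →₀ ℤ)
    (if h ∈ E.asIdeal then 0 else fdiv K E.asIdeal h e))

open Classical in
/-- The part of dimension `e` of a cycle. -/
noncomputable def pt (K : Type) [Field K] [Algebra K R] (e : ℕ) :
    (PrimeSpectrum R →₀ ℤ) →+ (PrimeSpectrum R →₀ ℤ) :=
  Finsupp.filterAddHom (fun P : PrimeSpectrum R => dm K P.asIdeal = e)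

/-- `M` has a filtration of length `n` with subquotients `R / P`, where `P` runs through the
multiset of primes `w` and every `P` satisfies `S`. -/
def Fil (S : PrimeSpectrum R → Prop) : ℕ → ∀ (M : Type) [AddCommGroup M] [Module R M],
    (PrimeSpectrum R →₀ ℤ) → Prop
  | 0, M, _, _, w => Subsingleton M ∧ w = 0
  | n + 1, M, _, _, w => ∃ (N : Submodule R M) (P : PrimeSpectrum R) (w' : PrimeSpectrum R →₀ ℤ),
      Nonempty ((R ⧸ P.asIdeal) ≃ₗ[R] N) ∧ S P ∧ Fil S n (M ⧸ N) w' ∧
        w = w' + Finsupp.single P 1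

/-- `P` has dimension at most `e + 1`, and if it has dimension `e + 1` then `G` contains the
divisors of all functions on `V(P)`. -/
def Gd (K : Type) [Field K] [Algebra K R] (G : AddSubgroup (PrimeSpectrum R →₀ ℤ)) (e : ℕ)
    (P : PrimeSpectrum R) : Prop :=
  dm K P.asIdeal ≤ e + 1 ∧ (dm K P.asIdeal = e + 1 → ∀ x ∉ P.asIdeal, fdiv K P.asIdeal x e ∈ G)

end Pool.Agent.HCF
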