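import Pool.Agent.HCF.Defs

namespace Pool.Agent.HCF

variable {R : Type} [CommRing R] {S S' : PrimeSpectrum R → Prop}

/-
PROOF. Induction on n, all M. n = 0: Subsingleton transported along f. n + 1: N, P, w', e : R/P = N.
Take N' = N.map f (Submodule.map), N ≃ N' (f.submoduleMap N), M / N ≃ M' / N'
(Submodule.Quotient.equiv N N' f rfl) and the induction hypothesis for the quotients.
-/
theorem Fil.congr {n : ℕ} {M M' : Type} [AddCommGroup M] [Module R M] [AddCommGroup M']
    [Module R M'] (f : M ≃ₗ[R] M') {w : PrimeSpectrum R →₀ ℤ} (h : Fil S n M w) :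
    Fil S n M' w := by
  induction n generalizing M M' w with
  | zero =>
    obtain ⟨h1, h2⟩ := h
    exact ⟨f.symm.toEquiv.subsingleton, h2⟩
  | succ n ih =>
    obtain ⟨N, P, w', ⟨e⟩, hP, hF, hw⟩ := h
    exact ⟨N.map (f : M →ₗ[R] M'), P, w', ⟨e.trans (f.submoduleMap N)⟩, hP,
      ih (Submodule.Quotient.equiv N (N.map (f : M →ₗ[R] M')) f rfl) hF, hw⟩

/- PROOF. Induction on n. -/
theorem Fil.mono (hS : ∀ P, S P → S' P) {n : ℕ} {M : Type} [AddCommGroup M] [Module R M]
    {w : PrimeSpectrum R →₀ ℤ} (h : Fil S n M w) : Fil S' n M w := by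
  induction n generalizing M w with
  | zero => exact h
  | succ n ih =>
    obtain ⟨N, P, w', e, hP, hF, hw⟩ := h
    exact ⟨N, P, w', e, hS P hP, ih hF, hw⟩

/-
PROOF. Induction on n. For n + 1: N = R/P inside M, so J kills R / P, hence J ≤ P (apply to the
class of 1); and J ≤ annihilator of M / N.
-/
theorem Fil.ann {n : ℕ} {M : Type} [AddCommGroup M] [Module R M]
    {w : PrimeSpectrum R →₀ ℤ} (J : Ideal R) (hJ : J ≤ Module.annihilator R M)
    (h : Fil S n M w) : Fil (fun P => S P ∧ J ≤ P.asIdeal) n M w := by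
  induction n generalizing M w with
  | zero => exact h
  | succ n ih =>
    obtain ⟨N, P, w', ⟨e⟩, hP, hF, hw⟩ := h
    refine ⟨N, P, w', ⟨e⟩, ⟨hP, ?_⟩, ih ?_ hF, hw⟩
    · intro j hj
      have h1 : e (j • (1 : R ⧸ P.asIdeal)) = 0 := by
        rw [map_smul]
        apply Subtype.ext
        rw [Submodule.coe_smul, Submodule.coe_zero]
        exact Module.mem_annihilator.1 (hJ hj) _
      have h2 : j • (1 : R ⧸ P.asIdeal) = 0 := e.map_eq_zero_iff.1 h1
      have h3 : Ideal.Quotient.mk P.asIdeal j = 0 := by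
        rw [Algebra.smul_def, mul_one] at h2
        exact h2
      exact Ideal.Quotient.eq_zero_iff_mem.1 h3
    · intro j hj
      rw [Module.mem_annihilator]
      intro x
      obtain ⟨m, rfl⟩ := Submodule.Quotient.mk_surjective N x
      rw [← Submodule.Quotient.mk_smul, Module.mem_annihilator.1 (hJ hj) m,
        Submodule.Quotient.mk_zero]

/-
PROOF. Induction on a, for all A and B. a = 0: A is trivial, so g is injective, B ≃ C
(LinearEquiv.ofBijective), Fil.congr and Nat.zero_add. a + 1: N ≤ A, P, w1', e : R/P ≃ N,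
Fil (A / N) w1'. Let N' = N.map f ≤ B; N ≃ N' since f is injective
(Submodule.equivMapOfInjective). The sequence A / N → B / N' → C (maps Submodule.mapQ N N' f and
N'.liftQ g) is again exact with injective first and surjective second map: injective: f a ∈ N.map f
implies a ∈ N; exact: if g b = 0 then b = f a. So Fil (a + b) (B / N') (w1' + w2) and the
definition of Fil for a + 1 + b = (a + b) + 1 applies with N', P, w' = w1' + w2.
-/
theorem Fil.exact {a b : ℕ} {A B C : Type} [AddCommGroup A] [Module R A] [AddCommGroup B]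
    [Module R B] [AddCommGroup C] [Module R C] (f : A →ₗ[R] B) (g : B →ₗ[R] C)
    (hf : Function.Injective f) (hg : Function.Surjective g) (hfg : Function.Exact f g)
    {w1 w2 : PrimeSpectrum R →₀ ℤ} (h1 : Fil S a A w1) (h2 : Fil S b C w2) :
    Fil S (a + b) B (w1 + w2) := by
  induction a generalizing A B w1 with
  | zero =>
    obtain ⟨hA, rfl⟩ := h1
    rw [Nat.zero_add, zero_add]
    have hinj : Function.Injective g := by
      rw [injective_iff_map_eq_zero]
      intro x hx
      obtain ⟨y, rfl⟩ := (hfg x).1 hx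
      rw [Subsingleton.elim y 0, map_zero]
    exact Fil.congr (LinearEquiv.ofBijective g ⟨hinj, hg⟩).symm h2
  | succ a ih =>
    obtain ⟨N, P, w', ⟨e⟩, hP, hF, rfl⟩ := h1
    rw [Nat.succ_add]
    have hle : N ≤ (N.map f).comap f := Submodule.le_comap_map f N
    have hker : N.map f ≤ LinearMap.ker g := by
      rintro _ ⟨x, -, rfl⟩
      rw [LinearMap.mem_ker]
      exact (hfg (f x)).2 ⟨x, rfl⟩
    refine ⟨N.map f, P, w' + w2, ⟨e.trans (Submodule.equivMapOfInjective f hf N)⟩, hP, ?_, ?_⟩
    · refine ih (Submodule.mapQ N (N.map f) f hle) ((N.map f).liftQ g hker) ?_ ?_ ?_ hF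
      · rw [injective_iff_map_eq_zero]
        intro x hx
        obtain ⟨m, rfl⟩ := Submodule.Quotient.mk_surjective N x
        rw [Submodule.mapQ_apply, Submodule.Quotient.mk_eq_zero] at hx
        obtain ⟨y, hy, hxy⟩ := hx
        rw [Submodule.Quotient.mk_eq_zero]
        rwa [← hf hxy]
      · intro c
        obtain ⟨b, rfl⟩ := hg c
        exact ⟨Submodule.Quotient.mk b, by rw [Submodule.liftQ_apply]⟩
      · intro x
        obtain ⟨b, rfl⟩ := Submodule.Quotient.mk_surjective (N.map f) x
        rw [Submodule.liftQ_apply]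
        constructor
        · intro hb
          obtain ⟨y, rfl⟩ := (hfg b).1 hb
          exact ⟨Submodule.Quotient.mk y, by rw [Submodule.mapQ_apply]⟩
        · rintro ⟨y, hy⟩
          obtain ⟨m, rfl⟩ := Submodule.Quotient.mk_surjective N y
          rw [Submodule.mapQ_apply] at hy
          have h3 : f m - b ∈ N.map f := (Submodule.Quotient.eq _).1 hy
          have h4 : g (f m - b) = 0 := hker h3
          rw [map_sub, (hfg (f m)).2 ⟨m, rfl⟩, zero_sub, neg_eq_zero] at h4
          exact h4
    · rw [add_right_comm]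

/- PROOF. Induction on n: w' P ≥ 0 and single P 1 ≥ 0; if w P ≠ 0 then P occurs. -/
theorem Fil.supp {n : ℕ} {M : Type} [AddCommGroup M] [Module R M]
    {w : PrimeSpectrum R →₀ ℤ} (h : Fil S n M w) (P : PrimeSpectrum R) :
    0 ≤ w P ∧ (w P ≠ 0 → S P) := by
  classical
  induction n generalizing M w with
  | zero =>
    obtain ⟨-, rfl⟩ := h
    exact ⟨le_refl _, fun hne => absurd rfl hne⟩
  | succ n ih =>
    obtain ⟨N, Q, w', e, hQ, hF, rfl⟩ := h
    obtain ⟨h1, h2⟩ := ih hF
    rw [Finsupp.add_apply, Finsupp.single_apply]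
    split_ifs with hQP
    · subst hQP
      exact ⟨by omega, fun _ => hQ⟩
    · rw [add_zero]
      exact ⟨h1, h2⟩

/- PROOF. n = 1: take N = ⊤ in R / P, P, w' = 0; the quotient by ⊤ is trivial. -/
theorem Fil.prime (P : PrimeSpectrum R) (hP : S P) :
    Fil S 1 (R ⧸ P.asIdeal) (Finsupp.single P 1) := by
  refine ⟨⊤, P, 0, ⟨Submodule.topEquiv.symm⟩, hP, ⟨?_, rfl⟩, ?_⟩
  · exact Submodule.Quotient.subsingleton_iff.2 rfl
  · rw [zero_add]

/- PROOF. The case n = 0, w = 0. -/
theorem Fil.triv {M : Type} [AddCommGroup M] [Module R M] [Subsingleton M] :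
    Fil S 0 M 0 := ⟨inferInstance, rfl⟩

end Pool.Agent.HCF
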