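import Pool.Agent.HCF.F0

namespace Pool.Agent.HCF

variable {R : Type} [CommRing R]

/-
PROOF. Use IsNoetherianRing.induction_on_isQuotientEquivQuotientPrime (Mathlib,
RingTheory/Ideal/AssociatedPrime/Finiteness) with the statement: for N, if S P for all primes
P ≥ annihilator R N then ∃ n w, Fil S n N w. Trivial module: Fil.triv. N ≃ R / P: the annihilator is P,
so S P; Fil.prime and Fil.congr. Exact sequence N1 → N2 → N3: the annihilator of N2 is contained
in those of N1 and N3 (injective map / surjective map: LinearMap.annihilator_le_of_injective,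
LinearMap.annihilator_le_of_surjective), so the hypotheses pass to N1, N3; Fil.exact.
-/
theorem Fil.exists [IsNoetherianRing R] {S : PrimeSpectrum R → Prop} (M : Type) [AddCommGroup M]
    [Module R M] [Module.Finite R M]
    (hS : ∀ P : PrimeSpectrum R, Module.annihilator R M ≤ P.asIdeal → S P) :
    ∃ (n : ℕ) (w : PrimeSpectrum R →₀ ℤ), Fil S n M w := by
  revert hS
  induction ‹Module.Finite R M› using
    IsNoetherianRing.induction_on_isQuotientEquivQuotientPrime R with
  | subsingleton N => exact fun _ => ⟨0, 0, Fil.triv⟩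
  | quotient N p f =>
    intro hS
    refine ⟨1, Finsupp.single p 1, Fil.congr f.symm (Fil.prime p (hS p ?_))⟩
    rw [f.annihilator_eq, Ideal.annihilator_quotient]
  | exact N₁ N₂ N₃ f g hf hg hfg h₁ h₃ =>
    intro hS
    obtain ⟨a, w1, hw1⟩ := h₁ fun P hP =>
      hS P ((LinearMap.annihilator_le_of_injective f hf).trans hP)
    obtain ⟨b, w2, hw2⟩ := h₃ fun P hP =>
      hS P ((LinearMap.annihilator_le_of_surjective g hg).trans hP)
    exact ⟨a + b, w1 + w2, Fil.exact f g hf hg hfg hw1 hw2⟩

end Pool.Agent.HCF
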