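import Pool.Agent.HCF.F0
import Pool.Agent.HCH.A2

namespace Pool.Agent.HCF

open Pool.Agent.HCH

variable {R : Type} [CommRing R]

/-
PROOF. Induction on n. n = 0: M trivial, the localisation is trivial (IsLocalizedModule / every
element is mk m s with m = 0), length 0 (Module.length_eq_zero). n + 1: exact sequence
0 → N → M → M / N → 0, localise at Q: LocalizedModule.map is exact
(LocalizedModule.map_exact, map_injective, map_surjective), so
length M_Q = length N_Q + length (M/N)_Q (Module.length_eq_add_of_exact), and N_Q ≃ (R/P)_Q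
(localise the equivalence). Length of (R/P)_Q over R_Q:
 if P = Q: 1, if P is not contained in Q: 0 (an element of P outside Q kills it).
One of the two holds by hQ. For the value of (R/P)_Q: (R/P)_Q ≃ R_Q / P R_Q over R_Q, see Fil.quot:
for P = Q it is mlt Q Q = 1 (mlt_self in HCH/A2), for P not in Q it is mlt_eq_zero.
So it is best to prove first the lemma loc_quot below.
-/
theorem loc_quot (J : Ideal R) (Q : PrimeSpectrum R) :
    Module.length (Localization.AtPrime Q.asIdeal)
      (LocalizedModule Q.asIdeal.primeCompl (R ⧸ J)) = mlt J Q := by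
  unfold mlt
  have e0 := IsLocalizedModule.linearEquiv Q.asIdeal.primeCompl
    (LocalizedModule.mkLinearMap Q.asIdeal.primeCompl (R ⧸ J))
    (Submodule.toLocalizedQuotient' (Localization.AtPrime Q.asIdeal) Q.asIdeal.primeCompl
      (Algebra.linearMap R (Localization.AtPrime Q.asIdeal)) J)
  have e1 := e0.extendScalarsOfIsLocalization Q.asIdeal.primeCompl
    (Localization.AtPrime Q.asIdeal)
  rw [e1.length_eq, Ideal.localized'_eq_map]

/-- The length of the localisation is additive in the extension given by a submodule. -/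
theorem loc_add (Q : PrimeSpectrum R) {M : Type} [AddCommGroup M] [Module R M]
    (N : Submodule R M) :
    Module.length (Localization.AtPrime Q.asIdeal) (LocalizedModule Q.asIdeal.primeCompl M) =
      Module.length (Localization.AtPrime Q.asIdeal)
        (LocalizedModule Q.asIdeal.primeCompl N) +
      Module.length (Localization.AtPrime Q.asIdeal)
        (LocalizedModule Q.asIdeal.primeCompl (M ⧸ N)) := by
  let f := IsLocalizedModule.map Q.asIdeal.primeCompl
    (LocalizedModule.mkLinearMap Q.asIdeal.primeCompl N)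
    (LocalizedModule.mkLinearMap Q.asIdeal.primeCompl M) N.subtype
  let g := IsLocalizedModule.map Q.asIdeal.primeCompl
    (LocalizedModule.mkLinearMap Q.asIdeal.primeCompl M)
    (LocalizedModule.mkLinearMap Q.asIdeal.primeCompl (M ⧸ N)) N.mkQ
  have hf : Function.Injective f :=
    IsLocalizedModule.map_injective _ _ _ N.subtype N.injective_subtype
  have hg : Function.Surjective g :=
    IsLocalizedModule.map_surjective _ _ _ N.mkQ N.mkQ_surjective
  have hex : Function.Exact f g :=
    LocalizedModule.map_exact Q.asIdeal.primeCompl N.subtype N.mkQ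
      (LinearMap.exact_subtype_mkQ N)
  exact Module.length_eq_add_of_exact
    (f.extendScalarsOfIsLocalization Q.asIdeal.primeCompl (Localization.AtPrime Q.asIdeal))
    (g.extendScalarsOfIsLocalization Q.asIdeal.primeCompl (Localization.AtPrime Q.asIdeal))
    hf hg hex

/-- The length of the localisation is invariant under isomorphisms. -/
theorem loc_equiv (Q : PrimeSpectrum R) {M N : Type} [AddCommGroup M] [Module R M]
    [AddCommGroup N] [Module R N] (e : M ≃ₗ[R] N) :
    Module.length (Localization.AtPrime Q.asIdeal) (LocalizedModule Q.asIdeal.primeCompl M) =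
      Module.length (Localization.AtPrime Q.asIdeal)
        (LocalizedModule Q.asIdeal.primeCompl N) := by
  have e0 := IsLocalizedModule.linearEquiv Q.asIdeal.primeCompl
    (LocalizedModule.mkLinearMap Q.asIdeal.primeCompl M)
    (LocalizedModule.mkLinearMap Q.asIdeal.primeCompl N ∘ₗ e.toLinearMap)
  exact (e0.extendScalarsOfIsLocalization Q.asIdeal.primeCompl
    (Localization.AtPrime Q.asIdeal)).length_eq

theorem Fil.length {S : PrimeSpectrum R → Prop} {n : ℕ} {M : Type} [AddCommGroup M] [Module R M]
    {w : PrimeSpectrum R →₀ ℤ} (h : Fil S n M w) (Q : PrimeSpectrum R)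
    (hQ : ∀ P : PrimeSpectrum R, S P → P.asIdeal ≤ Q.asIdeal → P = Q) :
    ∃ k : ℕ, w Q = k ∧ Module.length (Localization.AtPrime Q.asIdeal)
      (LocalizedModule Q.asIdeal.primeCompl M) = k := by
  induction n generalizing M w with
  | zero =>
    obtain ⟨hM, hw⟩ := h
    refine ⟨0, ?_, ?_⟩
    · rw [hw]; simp
    · rw [Nat.cast_zero, Module.length_eq_zero_iff]
      infer_instance
  | succ n ih =>
    obtain ⟨N, P, w', ⟨e⟩, hP, hF, hw⟩ := h
    obtain ⟨k, hk, hl⟩ := ih hF
    have h1 := loc_add Q N
    have h2 := (loc_equiv Q e).symm.trans (loc_quot P.asIdeal Q)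
    rw [h2, hl] at h1
    by_cases hPQ : P.asIdeal ≤ Q.asIdeal
    · have hPe : P = Q := hQ P hP hPQ
      refine ⟨k + 1, ?_, ?_⟩
      · rw [hw, Finsupp.add_apply, hk, hPe, Finsupp.single_eq_same]
        push_cast
        ring
      · rw [h1, hPe, mlt_self]
        push_cast
        ring
    · refine ⟨k, ?_, ?_⟩
      · have hne : P ≠ Q := fun h => hPQ (by rw [h])
        rw [hw, Finsupp.add_apply, hk, Finsupp.single_eq_of_ne hne.symm, add_zero]
      · rw [h1, mlt_eq_zero _ _ hPQ, zero_add]

/- PROOF. From Fil.length and loc_quot. -/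
theorem Fil.quot {S : PrimeSpectrum R → Prop} {n : ℕ} {w : PrimeSpectrum R →₀ ℤ} (J : Ideal R)
    (h : Fil S n (R ⧸ J) w) (Q : PrimeSpectrum R)
    (hQ : ∀ P : PrimeSpectrum R, S P → P.asIdeal ≤ Q.asIdeal → P = Q) : w Q = od J Q := by
  obtain ⟨k, hk, hl⟩ := Fil.length h Q hQ
  rw [loc_quot] at hl
  rw [hk]
  unfold od
  rw [hl]
  rfl

end Pool.Agent.HCF
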