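import Pool.Agent.HCF.B0
import Pool.Agent.HCF.F2
import Pool.Agent.HCF.F3

namespace Pool.Agent.HCF

open Pool.Agent.HCH

variable {K R : Type} [Field K] [CommRing R] [Algebra K R] [Algebra.FiniteType K R]

/- PROOF. HCH.eq_of_dm_le. -/
theorem eq_of_le (P Q : PrimeSpectrum R) (h : P.asIdeal ≤ Q.asIdeal)
    (hd : dm K P.asIdeal ≤ dm K Q.asIdeal) : P = Q :=
  PrimeSpectrum.ext (eq_of_dm_le (K := K) P.asIdeal Q.asIdeal h hd)

/- PROOF. W < P since g is in P and not in W; HCH.dm_lt. -/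
theorem dm_le_of_sup (W : Ideal R) [W.IsPrime] (g : R) (hg : g ∉ W) (P : PrimeSpectrum R)
    (hP : W ⊔ Ideal.span {g} ≤ P.asIdeal) : dm K P.asIdeal < dm K W := by
  have hg' : g ∈ P.asIdeal :=
    hP (Submodule.mem_sup_right (Ideal.mem_span_singleton_self g))
  refine dm_lt W P.asIdeal (lt_of_le_of_ne (le_sup_left.trans hP) fun h => hg ?_)
  rw [h]
  exact hg'

/-
PROOF. Ext P. If dm P = k: pt_apply, fdiv_apply (B0), Fil.quot with Q = P: if S P' and P' ≤ P then
dm P' ≤ k = dm P, eq_of_le. If dm P ≠ k both sides are zero (pt_apply_ne; fdiv_supp).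
-/
theorem Fil.pt_fdiv {k : ℕ} {S : PrimeSpectrum R → Prop} (hS : ∀ P, S P → dm K P.asIdeal ≤ k)
    (W : Ideal R) [W.IsPrime] (g : R) (hg : g ∉ W) (hd : dm K W = k + 1) {n : ℕ}
    {w : PrimeSpectrum R →₀ ℤ} (h : Fil S n (R ⧸ (W ⊔ Ideal.span {g})) w) :
    pt K k w = fdiv K W g k := by
  ext P
  by_cases hP : dm K P.asIdeal = k
  · rw [pt_apply k w P hP, fdiv_apply W g hg k hd P hP]
    refine Fil.quot _ h P fun P' hP' hle => eq_of_le (K := K) P' P hle ?_
    rw [hP]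
    exact hS P' hP'
  · rw [pt_apply_ne k w P hP]
    by_contra h1
    exact hP (fdiv_supp W g k P (Ne.symm h1)).1

/-
PROOF. By Fil.ann (J = W + (g), the annihilator of R ⧸ J is J: Ideal.annihilator_quotient) and
Fil.supp every P with w P ≠ 0 contains W + (g), so dm P < dm W ≤ k (dm_le_of_sup): so w P = 0 if
dm P = k.
-/
theorem Fil.pt_zero {k : ℕ} {S : PrimeSpectrum R → Prop}
    (W : Ideal R) [W.IsPrime] (g : R) (hg : g ∉ W) (hd : dm K W ≤ k) {n : ℕ}
    {w : PrimeSpectrum R →₀ ℤ} (h : Fil S n (R ⧸ (W ⊔ Ideal.span {g})) w) :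
    pt K k w = 0 := by
  ext P
  by_cases hP : dm K P.asIdeal = k
  · rw [pt_apply k w P hP]
    by_contra hne
    have h1 := Fil.ann (W ⊔ Ideal.span {g}) (by rw [Ideal.annihilator_quotient]) h
    have h2 := (Fil.supp h1 P).2 hne
    have h3 := dm_le_of_sup (K := K) W g hg P h2.2
    omega
  · rw [pt_apply_ne k w P hP]
    rfl

/-
PROOF. By Fil.ann with J = W + (g), the filtration has the property S P and J ≤ P, so dm P ≤ e for
all its primes; if dm W = e + 1 then pt K e w = fdiv K W g e by Fil.pt_fdiv and W is good; if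
dm W ≤ e then pt K e w = 0 by Fil.pt_zero.
-/
theorem Fil.good_quot (G : AddSubgroup (PrimeSpectrum R →₀ ℤ)) (e : ℕ)
    {S : PrimeSpectrum R → Prop} (W : PrimeSpectrum R)
    (hW : Gd K G e W) (g : R) (hg : g ∉ W.asIdeal) {n : ℕ}
    {w : PrimeSpectrum R →₀ ℤ} (h : Fil S n (R ⧸ (W.asIdeal ⊔ Ideal.span {g})) w) :
    pt K e w ∈ G := by
  by_cases hd : dm K W.asIdeal = e + 1
  · have h1 := Fil.ann (W.asIdeal ⊔ Ideal.span {g}) (by rw [Ideal.annihilator_quotient]) h
    have h2 : pt K e w = fdiv K W.asIdeal g e := by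
      refine Fil.pt_fdiv (fun P hP => ?_) W.asIdeal g hg hd h1
      have h3 := dm_le_of_sup (K := K) W.asIdeal g hg P hP.2
      omega
    rw [h2]
    exact hW.2 hd g hg
  · have h1 : dm K W.asIdeal ≤ e := by
      have h2 := hW.1
      omega
    rw [Fil.pt_zero W.asIdeal g hg h1 h]
    exact G.zero_mem

end Pool.Agent.HCF
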