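import Pool.Agent.HCF.B0
import Pool.Agent.HCH.S2

namespace Pool.Agent.HCF

open Pool.Agent.HCH

variable {K R : Type} [Field K] [CommRing R] [Algebra K R] [Algebra.FiniteType K R]

/-
PROOF. ⇒: AddSubgroup.closure_induction; the coercion Finsupp → functions is additive; generators:
fdiv_eq. ⇐: show by closure_induction on ARat that every Z in ARat K f e is the coercion of an
element of Rt (generators fdiv_eq), then use injectivity of the coercion (DFunLike.coe_injective).
-/
theorem Rt_iff (f : R) (e : ℕ) (z : PrimeSpectrum R →₀ ℤ) :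
    z ∈ Rt K (Ideal.span {f}) e ↔ (⇑z : PrimeSpectrum R → ℤ) ∈ ARat K f e := by
  constructor
  · intro hz
    unfold Rt at hz
    induction hz using AddSubgroup.closure_induction with
    | mem z hz =>
      obtain ⟨W, g, hI, hd, hg, rfl⟩ := hz
      have := W.isPrime
      rw [fdiv_eq W.asIdeal g hg e hd]
      exact AddSubgroup.subset_closure ⟨W, g, (Ideal.span_singleton_le_iff_mem _).mp hI, hd, hg,
        rfl⟩
    | zero => exact (ARat K f e).zero_mem
    | add a b _ _ ha hb => exact (ARat K f e).add_mem ha hb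
    | neg a _ ha => exact (ARat K f e).neg_mem ha
  · intro hz
    have key : ∀ Z ∈ ARat K f e, ∃ z' ∈ Rt K (Ideal.span {f}) e,
        (⇑z' : PrimeSpectrum R → ℤ) = Z := by
      intro Z hZ
      unfold ARat at hZ
      induction hZ using AddSubgroup.closure_induction with
      | mem Z hZ =>
        obtain ⟨W, g, hf, hd, hg, rfl⟩ := hZ
        have := W.isPrime
        exact ⟨fdiv K W.asIdeal g e, fdiv_mem_Rt _ e W g
          ((Ideal.span_singleton_le_iff_mem _).mpr hf) hd hg, fdiv_eq W.asIdeal g hg e hd⟩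
      | zero => exact ⟨0, (Rt K (Ideal.span {f}) e).zero_mem, rfl⟩
      | add a b _ _ ha hb =>
        obtain ⟨a', ha', rfl⟩ := ha
        obtain ⟨b', hb', rfl⟩ := hb
        exact ⟨a' + b', (Rt K (Ideal.span {f}) e).add_mem ha' hb', rfl⟩
      | neg a _ ha =>
        obtain ⟨a', ha', rfl⟩ := ha
        exact ⟨-a', (Rt K (Ideal.span {f}) e).neg_mem ha', rfl⟩
    obtain ⟨z', hz', he⟩ := key _ hz
    rwa [DFunLike.coe_injective he] at hz'

theorem t1_coe (N : ℕ) (p : PrimeSpectrum R) :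
    (⇑((N : ℤ) • Finsupp.single p (1 : ℤ)) : PrimeSpectrum R → ℤ) = (N : ℤ) • cls p := by
  classical
  rw [Finsupp.coe_smul]
  congr 1
  funext Q
  rw [Finsupp.single_apply]
  unfold cls
  by_cases h : p = Q
  · rw [if_pos h, if_pos h.symm]
  · rw [if_neg h, if_neg (Ne.symm h)]

/- PROOF. From Rt_iff: the coercion of (N : ℤ) • single p 1 is (N : ℤ) • cls p. -/
theorem AT_iff (f : R) (e : ℕ) : AT K f e ↔ ∀ p : PrimeSpectrum R, f ∈ p.asIdeal →
    dm K p.asIdeal = e → ∃ N : ℕ, 0 < N ∧ (N : ℤ) • Finsupp.single p (1 : ℤ) ∈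
      Rt K (Ideal.span {f}) e := by
  unfold AT
  simp only [Rt_iff, t1_coe]

/-
A finite sum of torsion elements is torsion. PROOF. If every generator is torsion modulo G, then so
is every element of the subgroup T: closure_induction with products of the N.
-/
theorem tors_closure {A : Type} [AddCommGroup A] (G : AddSubgroup A) (T : Set A)
    (hT : ∀ t ∈ T, ∃ N : ℕ, 0 < N ∧ (N : ℤ) • t ∈ G) (x : A)
    (hx : x ∈ G ⊔ AddSubgroup.closure T) : ∃ N : ℕ, 0 < N ∧ (N : ℤ) • x ∈ G := by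
  obtain ⟨y, hy, z, hz, rfl⟩ := AddSubgroup.mem_sup.mp hx
  have key : ∃ N : ℕ, 0 < N ∧ (N : ℤ) • z ∈ G := by
    clear hx
    induction hz using AddSubgroup.closure_induction with
    | mem z hz => exact hT z hz
    | zero => exact ⟨1, one_pos, by rw [smul_zero]; exact G.zero_mem⟩
    | add a b _ _ ha hb =>
      obtain ⟨N1, hN1, h1⟩ := ha
      obtain ⟨N2, hN2, h2⟩ := hb
      refine ⟨N1 * N2, Nat.mul_pos hN1 hN2, ?_⟩
      have e : ((N1 * N2 : ℕ) : ℤ) • (a + b) = (N2 : ℤ) • ((N1 : ℤ) • a) +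
          (N1 : ℤ) • ((N2 : ℤ) • b) := by
        rw [smul_add, smul_smul, smul_smul, Nat.cast_mul, mul_comm (N2 : ℤ) (N1 : ℤ)]
      rw [e]
      exact G.add_mem (G.zsmul_mem h1 _) (G.zsmul_mem h2 _)
    | neg a _ ha =>
      obtain ⟨N1, hN1, h1⟩ := ha
      exact ⟨N1, hN1, by rw [smul_neg]; exact G.neg_mem h1⟩
  obtain ⟨N, hN, h⟩ := key
  refine ⟨N, hN, ?_⟩
  rw [smul_add]
  exact G.add_mem (G.zsmul_mem hy _) h

end Pool.Agent.HCF
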