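import Pool.Agent.HCH.A2
import Pool.Agent.HCH.B2
import Pool.Agent.HCH.B3
import Pool.Agent.HCH.S1

namespace Pool.Agent.HCF

open Pool.Agent.HCH MvPolynomial

section T5aAux

variable {K B : Type} [Field K] [CommRing B] [Algebra K B] {m : ℕ}

/-- The homomorphism `x_0 ↦ T`, `x_{i+1} ↦` the constant `π x_{i+1}`. -/
private noncomputable def t5aPhi (π : MvPolynomial (Fin (m + 1)) K →ₐ[K] B) :
    MvPolynomial (Fin (m + 1)) K →ₐ[K] Polynomial B :=
  aeval (Fin.cons (α := fun _ => Polynomial B) Polynomial.X (fun i => Polynomial.C (π (X i.succ))))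

/-- The substitution `x_0 ↦ t`. -/
private noncomputable def t5aSub (K : Type) [Field K] (m : ℕ) (t : K) :
    MvPolynomial (Fin (m + 1)) K →ₐ[K] MvPolynomial (Fin (m + 1)) K :=
  aeval (Fin.cons (α := fun _ => MvPolynomial (Fin (m + 1)) K) (C t) (fun i => X i.succ))

private theorem t5aPhi_zero (π : MvPolynomial (Fin (m + 1)) K →ₐ[K] B) :
    t5aPhi π (X 0) = Polynomial.X := by
  rw [t5aPhi, aeval_X, Fin.cons_zero]

private theorem t5aPhi_succ (π : MvPolynomial (Fin (m + 1)) K →ₐ[K] B) (i : Fin m) :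
    t5aPhi π (X i.succ) = Polynomial.C (π (X i.succ)) := by
  rw [t5aPhi, aeval_X, Fin.cons_succ]

private theorem t5aSub_zero (t : K) : t5aSub K m t (X 0) = C t := by
  rw [t5aSub, aeval_X, Fin.cons_zero]

private theorem t5aSub_succ (t : K) (i : Fin m) : t5aSub K m t (X i.succ) = X i.succ := by
  rw [t5aSub, aeval_X, Fin.cons_succ]

/-- `Φ` followed by the evaluation at `t` is `π`. -/
private theorem t5a_eval (π : MvPolynomial (Fin (m + 1)) K →ₐ[K] B) (t : K)
    (ht : π (X 0) = algebraMap K B t) (g : MvPolynomial (Fin (m + 1)) K) :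
    Polynomial.eval (algebraMap K B t) (t5aPhi π g) = π g := by
  have h : (((Polynomial.aeval (algebraMap K B t)).restrictScalars K).comp (t5aPhi π) :
      MvPolynomial (Fin (m + 1)) K →ₐ[K] B) = π := by
    apply MvPolynomial.algHom_ext
    intro i
    refine Fin.cases ?_ (fun i => ?_) i
    · rw [AlgHom.comp_apply, t5aPhi_zero, AlgHom.restrictScalars_apply, Polynomial.aeval_X, ht]
    · rw [AlgHom.comp_apply, t5aPhi_succ, AlgHom.restrictScalars_apply, Polynomial.aeval_C]
      rfl
  have h2 := DFunLike.congr_fun h g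
  rw [AlgHom.comp_apply, AlgHom.restrictScalars_apply, Polynomial.aeval_def,
    Polynomial.eval₂_eq_eval_map] at h2
  simpa using h2

private theorem t5a_sub (π : MvPolynomial (Fin (m + 1)) K →ₐ[K] B) (t : K)
    (ht : π (X 0) = algebraMap K B t) (g : MvPolynomial (Fin (m + 1)) K) :
    t5aPhi π (t5aSub K m t g) = Polynomial.C (π g) := by
  have h : (t5aPhi π).comp (t5aSub K m t) = (Polynomial.CAlgHom (R := K) (A := B)).comp π := by
    apply MvPolynomial.algHom_ext
    intro i
    refine Fin.cases ?_ (fun i => ?_) i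
    · rw [AlgHom.comp_apply, AlgHom.comp_apply, t5aSub_zero, ht]
      have : (C t : MvPolynomial (Fin (m + 1)) K) = algebraMap K _ t := rfl
      rw [this, AlgHom.commutes]
      rfl
    · rw [AlgHom.comp_apply, AlgHom.comp_apply, t5aSub_succ, t5aPhi_succ]
      rfl
  exact DFunLike.congr_fun h g

private theorem t5a_mem (t : K) (g : MvPolynomial (Fin (m + 1)) K) :
    g - t5aSub K m t g ∈ Ideal.span {X 0 - C t} := by
  have h : (Ideal.Quotient.mkₐ K (Ideal.span {(X 0 - C t : MvPolynomial (Fin (m + 1)) K)})).comp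
      (t5aSub K m t) = Ideal.Quotient.mkₐ K (Ideal.span {X 0 - C t}) := by
    apply MvPolynomial.algHom_ext
    intro i
    refine Fin.cases ?_ (fun i => ?_) i
    · rw [AlgHom.comp_apply, t5aSub_zero]
      simp only [Ideal.Quotient.mkₐ_eq_mk]
      rw [eq_comm, Ideal.Quotient.eq]
      exact Ideal.mem_span_singleton_self _
    · rw [AlgHom.comp_apply, t5aSub_succ]
  have h2 := DFunLike.congr_fun h g
  rw [AlgHom.comp_apply] at h2
  simp only [Ideal.Quotient.mkₐ_eq_mk] at h2
  exact Ideal.Quotient.eq.1 h2.symm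

private theorem t5a_surj (π : MvPolynomial (Fin (m + 1)) K →ₐ[K] B) (hπ : Function.Surjective π)
    (t : K) (ht : π (X 0) = algebraMap K B t) : Function.Surjective (t5aPhi π) := by
  intro q
  induction q using Polynomial.induction_on' with
  | add p q hp hq =>
    obtain ⟨a, ha⟩ := hp
    obtain ⟨b, hb⟩ := hq
    exact ⟨a + b, by rw [map_add, ha, hb]⟩
  | monomial n b =>
    obtain ⟨g, hg⟩ := hπ b
    refine ⟨t5aSub K m t g * X 0 ^ n, ?_⟩
    rw [map_mul, map_pow, t5aPhi_zero, t5a_sub π t ht, hg, Polynomial.C_mul_X_pow_eq_monomial]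

end T5aAux

/-
A prime containing X 0 - t is the divisor of a function on the cylinder over it.
PROOF. Let p ∋ X 0 - C t, dm p = e, B = MvPolynomial (Fin (m + 1)) K ⧸ p (a domain), and let
Φ : MvPolynomial (Fin (m + 1)) K →ₐ B[T] (Polynomial B) with X 0 ↦ T, X i.succ ↦ C (class of X i.succ).
W = ker Φ is prime (B[T] is a domain). K[x] ⧸ W ≃ range of Φ = B[T] (Φ is surjective: B is generated
by the classes of the X i.succ, since the class of X 0 is the constant t), so
dm W = trdeg B + 1 = e + 1 (Algebra.trdeg of a polynomial ring over a domain: for example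
MvPolynomial / Polynomial trdeg lemmas, or HCH/C4). X 0 - C t ∉ W (T - t ≠ 0).
W ⊔ span {X 0 - C t} = p: Φ followed by T ↦ t (evaluation) is the quotient map to B; if g ∈ p, write
g = g(X 0 := t) + (X 0 - t) q; g(X 0 := t) has image under Φ equal to C (class of g) = 0.
So adiv K W (X 0 - C t) e Q for dm Q = e is od p Q = (if Q = p then 1 else 0): mlt_self and
mlt_eq_zero (if p ≤ Q then Q = p by eq_of_dm_le). Hence cls p = adiv K W (X 0 - C t) e ∈ ARat K 0 e.
-/
theorem cls_special {K : Type} [Field K] {m : ℕ} (e : ℕ) (t : K)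
    (p : PrimeSpectrum (MvPolynomial (Fin (m + 1)) K)) (hp : X 0 - C t ∈ p.asIdeal)
    (hd : dm K p.asIdeal = e) : cls p ∈ ARat K (0 : MvPolynomial (Fin (m + 1)) K) e := by
  have hpp := p.isPrime
  set π : MvPolynomial (Fin (m + 1)) K →ₐ[K] (MvPolynomial (Fin (m + 1)) K ⧸ p.asIdeal) :=
    Ideal.Quotient.mkₐ K p.asIdeal with hπdef
  have hπ : Function.Surjective π := Ideal.Quotient.mkₐ_surjective K p.asIdeal
  have hker : ∀ g, π g = 0 ↔ g ∈ p.asIdeal := fun g => Ideal.Quotient.eq_zero_iff_mem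
  have ht : π (X 0) = algebraMap K _ t := by
    have h1 := (hker _).2 hp
    rw [map_sub, sub_eq_zero] at h1
    rw [h1]
    exact π.commutes t
  have hWp : (RingHom.ker (t5aPhi π)).IsPrime := RingHom.ker_isPrime _
  let W : PrimeSpectrum (MvPolynomial (Fin (m + 1)) K) := ⟨RingHom.ker (t5aPhi π), hWp⟩
  have hW : ∀ g, g ∈ W.asIdeal ↔ t5aPhi π g = 0 := fun g => RingHom.mem_ker
  -- the dimension
  have hdW : dm K W.asIdeal = e + 1 := by
    have e0 := (Ideal.quotientKerAlgEquivOfSurjective (t5a_surj π hπ t ht)).trdeg_eq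
    have e2 := trdeg_add_eq K (MvPolynomial (Fin (m + 1)) K ⧸ p.asIdeal)
      (A := Polynomial (MvPolynomial (Fin (m + 1)) K ⧸ p.asIdeal))
    rw [Polynomial.trdeg_of_isDomain] at e2
    have f1 : Algebra.trdeg K (MvPolynomial (Fin (m + 1)) K ⧸ p.asIdeal) < Cardinal.aleph0 :=
      trdeg_lt_aleph0_of_finiteType
    rw [← hd]
    unfold dm
    change Cardinal.toNat (Algebra.trdeg K (MvPolynomial (Fin (m + 1)) K ⧸ RingHom.ker (t5aPhi π))) = _
    rw [e0, ← e2, Cardinal.toNat_add f1 Cardinal.one_lt_aleph0, Cardinal.one_toNat]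
  have hnot : X 0 - C t ∉ W.asIdeal := by
    rw [hW, map_sub, t5aPhi_zero]
    have h1 : t5aPhi π (C t) = Polynomial.C (algebraMap K _ t) := (t5aPhi π).commutes t
    rw [h1]
    exact Polynomial.X_sub_C_ne_zero _
  have hsup : W.asIdeal ⊔ Ideal.span {X 0 - C t} = p.asIdeal := by
    apply le_antisymm
    · refine sup_le ?_ ((Ideal.span_singleton_le_iff_mem _).2 hp)
      intro g hg
      rw [← hker, ← t5a_eval π t ht, (hW g).1 hg, Polynomial.eval_zero]
    · intro g hg
      have h1 : t5aSub K m t g ∈ W.asIdeal := by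
        rw [hW, t5a_sub π t ht, (hker g).2 hg, Polynomial.C_0]
      have h2 := t5a_mem t g
      have h3 : g = t5aSub K m t g + (g - t5aSub K m t g) := by ring
      rw [h3]
      exact Submodule.add_mem_sup h1 h2
  have hcls : cls p = adiv K W.asIdeal (X 0 - C t) e := by
    funext Q
    unfold adiv cls
    rw [hsup]
    have hQp := Q.isPrime
    by_cases hQ : Q = p
    · subst hQ
      rw [if_pos rfl, if_pos hd]
      unfold od
      rw [mlt_self]
      rfl
    · rw [if_neg hQ]
      by_cases hdQ : dm K Q.asIdeal = e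
      · rw [if_pos hdQ]
        unfold od
        rw [mlt_eq_zero]
        · rfl
        · intro hle
          apply hQ
          have := eq_of_dm_le (K := K) p.asIdeal Q.asIdeal hle (by rw [hd, hdQ])
          exact (PrimeSpectrum.ext this).symm
      · rw [if_neg hdQ]
  rw [hcls]
  exact AddSubgroup.subset_closure ⟨W, X 0 - C t, zero_mem _, hdW, hnot, rfl⟩

end Pool.Agent.HCF
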