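import Pool.Agent.HCH.F2
import Pool.Agent.HCH.G8
import Pool.Agent.HCF.T5a

namespace Pool.Agent.HCF

open Pool.Agent.HCH MvPolynomial

theorem t5_aux (m : ℕ) : ∀ (K : Type) [Field K] [IsAlgClosed K] [CharZero K] (e : ℕ), e < m →
    AT K (0 : MvPolynomial (Fin m) K) e := by
  induction m with
  | zero => intro K _ _ _ e he; omega
  | succ m ih =>
    intro K _ _ _ e he
    rcases Nat.eq_zero_or_pos e with rfl | he'
    · intro p hp hd
      rcases comap_lam_or p with ⟨t, ht⟩ | ⟨q, rfl⟩
      · exact ⟨1, one_pos, by simpa using cls_special 0 t p ht hd⟩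
      · exfalso
        have h1 := dm_lam q.asIdeal
        have h2 : dm K (q.asIdeal.comap (lamR K m)) = 0 := hd
        omega
    · apply generic_tors _ _ he'
      · intro t p hp ht hd
        exact ⟨1, one_pos, by simpa using cls_special e t p ht hd⟩
      · rw [map_zero]
        have : CharZero (RatFunc K) :=
          charZero_of_injective_algebraMap (algebraMap K (RatFunc K)).injective
        have : CharZero (AlgebraicClosure (RatFunc K)) :=
          charZero_of_injective_algebraMap
            (algebraMap (RatFunc K) (AlgebraicClosure (RatFunc K))).injective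
        apply descend_AT (L := AlgebraicClosure (RatFunc K))
        rw [map_zero]
        exact ih (AlgebraicClosure (RatFunc K)) (e - 1) (by omega)

/-
The Chow groups of affine space. PROOF. Induction on m for all K, e. m = 0: no e < 0.
m + 1, e = 0: let dm p = 0. By comap_lam_or (HCH/B4): either X 0 - C t ∈ p: cls_special, N = 1; or
p = comap lamR q, then dm K p = dm (RatFunc K) q + 1 (dm_lam in HCH/B4b) contradicts dm p = 0.
m + 1, e ≥ 1: generic_tors (HCH/F2) with f = 0: special fibres by cls_special; generic fibre:
lamR K m 0 = 0 and AT (RatFunc K) 0 (e - 1) by descend_AT (HCH/G8) with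
L = AlgebraicClosure (RatFunc K) (CharZero (RatFunc K), ext .. 0 = 0) and the induction hypothesis for
L, e - 1 < m.
-/
theorem aff_AT {K : Type} [Field K] [IsAlgClosed K] [CharZero K] (m e : ℕ) (he : e < m) :
    AT K (0 : MvPolynomial (Fin m) K) e :=
  t5_aux m K e he

end Pool.Agent.HCF
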