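import Pool.Agent.HCF.X3
import Pool.Agent.HCF.T1
import Pool.Agent.HCF.T5

namespace Pool.Agent.HCF

open Pool.Agent.HCH MvPolynomial

/-
PROOF. aff_AT (T5) with e + 1: AT K 0 (e + 1); AT_iff: N • single V 1 ∈ Rt K (span {0}) (e + 1).
gys_Rt (X3) with h = f: N • gys K f e (single V 1) ∈ Rt K (span {0} ⊔ span {f}) e = Rt K (span {f}) e,
gys_single: gys K f e (single V 1) = fdiv K V f e as f ∉ V.
-/
theorem gys_tors {K : Type} [Field K] [IsAlgClosed K] [CharZero K] (m e : ℕ) (he : e + 1 < m)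
    (f : MvPolynomial (Fin m) K) (V : PrimeSpectrum (MvPolynomial (Fin m) K))
    (hd : dm K V.asIdeal = e + 1) (hf : f ∉ V.asIdeal) :
    ∃ N : ℕ, 0 < N ∧ (N : ℤ) • fdiv K V.asIdeal f e ∈ Rt K (Ideal.span {f}) e := by
  obtain ⟨N, hN, h1⟩ := (AT_iff (K := K) (0 : MvPolynomial (Fin m) K) (e + 1)).1
    (aff_AT m (e + 1) he) V (Ideal.zero_mem _) hd
  refine ⟨N, hN, ?_⟩
  have h2 := gys_Rt (K := K) (Ideal.span {(0 : MvPolynomial (Fin m) K)}) f e _ h1
  rw [map_zsmul, gys_single, if_neg hf, one_smul] at h2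
  have h3 : Ideal.span {(0 : MvPolynomial (Fin m) K)} ⊔ Ideal.span {f} = Ideal.span {f} := by
    rw [Ideal.span_singleton_eq_bot.2 rfl, bot_sup_eq]
  rw [h3] at h2
  exact h2

end Pool.Agent.HCF
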