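import Pool.Agent.HCH.Stmt

/-!
Linear changes of coordinates, suspensions `G + ∑ y_l ^ D` and linear sections of Fermat
hypersurfaces.
-/

namespace Pool.Agent.HCF

open MvPolynomial Pool.Agent.HCH

variable {K : Type} [Field K]

/-- The linear substitution `x_a ↦ ∑ k, A a k * x_k`. -/
noncomputable def lin {m : ℕ} (A : Matrix (Fin m) (Fin m) K) :
    MvPolynomial (Fin m) K →ₐ[K] MvPolynomial (Fin m) K :=
  aeval fun a => ∑ k, C (A a k) * X k

open Classical in
/-- `V` is the form `G` in some of the variables plus the sum of the `D`-th powers of the other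
variables. -/
def IsSusp (D : ℕ) {m M : ℕ} (G : MvPolynomial (Fin m) K) (V : MvPolynomial (Fin M) K) : Prop :=
  ∃ ι : Fin m → Fin M, Function.Injective ι ∧
    V = rename ι G + ∑ l ∈ Finset.univ.filter (fun l => l ∉ Set.range ι), X l ^ D

/-- `V` is a sum of `m + c` powers `L_l ^ D` of linear forms, so `V(V)` is a linear section of
codimension `c` of the Fermat hypersurface of degree `D`. -/
def FermatSec (D c : ℕ) {m : ℕ} (V : MvPolynomial (Fin m) K) : Prop :=
  ∃ L : Fin (m + c) → MvPolynomial (Fin m) K, (∀ l, (L l).IsHomogeneous 1) ∧ V = ∑ l, L l ^ D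

end Pool.Agent.HCF
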