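import Pool.Agent.HCF.N0
import Pool.Agent.MP_4aec10_nt.Der

namespace Pool.Agent.HCF

open MvPolynomial

/-- A matrix with algebraically independent entries over the field generated by `S`. -/
theorem exists_generic (m : ℕ) (S : Set ℂ) (hS : S.Countable) :
    ∃ k : Subfield ℂ, S ⊆ k ∧ ∃ A : Matrix (Fin m) (Fin m) ℂ, A.det ≠ 0 ∧ ∀ a b, ∃ D : Derivation k ℂ ℂ,
      D (A a b) = 1 ∧ ∀ a' b', (a', b') ≠ (a, b) → D (A a' b') = 0 := by
  classical
  let k : Subfield ℂ := Subfield.closure S
  have hk : Cardinal.mk k ≤ Cardinal.aleph0 := by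
    refine (Subfield.cardinalMk_closure_le_max (s := S)).trans ?_
    exact max_le hS.le_aleph0 le_rfl
  obtain ⟨B, hB⟩ := exists_isTranscendenceBasis k ℂ
  have hC : Cardinal.aleph0 < Cardinal.mk ℂ := by
    rw [Cardinal.mk_complex]
    exact Cardinal.aleph0_lt_continuum
  have hcard := IsAlgClosed.cardinal_eq_cardinal_transcendence_basis_of_aleph0_lt' _ hB hk hC
  have hinf : Infinite B := by
    rw [Cardinal.infinite_iff, ← hcard]
    exact hC.le
  let t : (Fin m × Fin m) ↪ B :=
    ((Fintype.equivFin (Fin m × Fin m)).toEmbedding.trans Fin.valEmbedding).trans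
      (Infinite.natEmbedding B)
  have hind : AlgebraicIndependent k (fun p : Fin m × Fin m => (t p : ℂ)) :=
    hB.1.comp t t.injective
  refine ⟨k, Subfield.subset_closure, Matrix.of fun a b => (t (a, b) : ℂ), ?_, ?_⟩
  · intro h0
    have h1 := Matrix.det_mvPolynomialX_ne_zero (Fin m) k
    apply h1
    apply hind
    rw [map_zero]
    rw [← h0]
    rw [AlgHom.map_det]
    congr 1
    ext a b
    simp [Matrix.mvPolynomialX]
  · intro a b
    obtain ⟨D, hD1, hD2⟩ := Pool.Agent.MP_4aec10_nt.exists_derivation B hB (t (a, b))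
    refine ⟨D, hD1, ?_⟩
    intro a' b' hne
    exact hD2 (t (a', b')) (fun h => hne (t.injective h))

end Pool.Agent.HCF
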