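import Pool.Agent.HCF.N1
import Pool.Agent.HCH.E4

namespace Pool.Agent.HCF

open MvPolynomial Pool.Agent.HCH

theorem eval_lin {K : Type} [Field K] {m : ℕ} (A : Matrix (Fin m) (Fin m) K)
    (F : MvPolynomial (Fin m) K) (x : Fin m → K) :
    eval x (lin A F) = eval (A.mulVec x) F := by
  have h : (eval x).comp (lin A : MvPolynomial (Fin m) K →+* MvPolynomial (Fin m) K) =
      eval (A.mulVec x) := by
    apply MvPolynomial.ringHom_ext
    · intro a
      simp [lin]
    · intro a
      simp [lin, Matrix.mulVec, dotProduct]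
  exact congrArg (fun φ : MvPolynomial (Fin m) K →+* K => φ F) h

theorem pderiv_lin {K : Type} [Field K] {m : ℕ} (A : Matrix (Fin m) (Fin m) K)
    (F : MvPolynomial (Fin m) K) (k : Fin m) :
    pderiv k (lin A F) = ∑ a, lin A (pderiv a F) * C (A a k) := by
  classical
  have h := chain (lin A : MvPolynomial (Fin m) K →ₐ[K] MvPolynomial (Fin m) K).toRingHom
    (RingHom.id K) (fun a => (lin A).commutes a) F k
  change pderiv k (lin A F) = ∑ a, lin A (pderiv a F) * pderiv k (lin A (X a)) at h
  rw [h]
  apply Finset.sum_congr rfl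
  intro a _
  congr 1
  unfold lin
  rw [aeval_X, map_sum, Finset.sum_eq_single k]
  · rw [pderiv_C_mul, pderiv_X_self, mul_one]
  · intro b _ hb
    rw [pderiv_C_mul, pderiv_X_of_ne hb, mul_zero]
  · intro hk
    exact absurd (Finset.mem_univ k) hk

theorem lin_homog {K : Type} [Field K] {m d : ℕ} (A : Matrix (Fin m) (Fin m) K)
    (F : MvPolynomial (Fin m) K) (hF : F.IsHomogeneous d) : (lin A F).IsHomogeneous d := by
  have := hF.aeval (fun a => ∑ k, C (A a k) * X k) (n := 1) (fun a => by
    apply IsHomogeneous.sum
    intro k _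
    have := (isHomogeneous_C (Fin m) (A a k)).mul (isHomogeneous_X K k)
    rwa [zero_add] at this)
  rwa [one_mul] at this

/-- Coordinates in which a smooth hypersurface is transversal to all coordinate subspaces. -/
theorem good_lin {m d : ℕ} (F : MvPolynomial (Fin m) ℂ) (hF : F.IsHomogeneous d) (hd : 1 ≤ d)
    (hs : Smooth F) : ∃ A : Matrix (Fin m) (Fin m) ℂ, A.det ≠ 0 ∧
      ∀ x : Fin m → ℂ, (∀ k, x k * eval x (pderiv k (lin A F)) = 0) → x = 0 := by
  classical
  obtain ⟨k, hk, A, hdet, hD⟩ := exists_generic m (Set.range fun n => coeff n F)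
    (Set.countable_range _)
  refine ⟨A, hdet, ?_⟩
  intro x hx
  by_contra hne
  obtain ⟨b, hb⟩ : ∃ b, x b ≠ 0 := by
    by_contra hcon
    push Not at hcon
    exact hne (funext hcon)
  obtain ⟨F0, hF0⟩ : ∃ F0 : MvPolynomial (Fin m) k, MvPolynomial.map (algebraMap k ℂ) F0 = F := by
    have h1 : F ∈ Set.range (MvPolynomial.map (σ := Fin m) (algebraMap k ℂ)) := by
      rw [mem_range_map_iff_coeffs_subset]
      intro c hc
      have h2 : c ∈ (k : Set ℂ) := by
        obtain ⟨n, _, rfl⟩ := mem_coeffs_iff.mp hc
        exact hk ⟨n, rfl⟩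
      exact ⟨⟨c, h2⟩, rfl⟩
    exact h1
  set p : Fin m → ℂ := A.mulVec x with hp
  set g : Fin m → ℂ := fun j => eval x (pderiv j (lin A F)) with hg
  have hgj : ∀ j, g j = ∑ a, eval p (pderiv a F) * A a j := by
    intro j
    simp only [hg]
    rw [pderiv_lin, map_sum]
    apply Finset.sum_congr rfl
    intro a _
    rw [map_mul, eval_lin, eval_C]
  -- Euler
  have hFp : eval p F = 0 := by
    have h1 := (lin_homog A F hF).sum_X_mul_pderiv
    have h2 := congrArg (eval x) h1
    rw [map_sum, map_nsmul, eval_lin] at h2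
    have h3 : ∑ j, eval x (X j * pderiv j (lin A F)) = 0 := by
      apply Finset.sum_eq_zero
      intro j _
      rw [map_mul, eval_X]
      exact hx j
    rw [h3, nsmul_eq_mul] at h2
    have h4 : (d : ℂ) ≠ 0 := by
      rw [Nat.cast_ne_zero]
      omega
    rcases mul_eq_zero.mp h2.symm with h5 | h5
    · exact absurd h5 h4
    · exact h5
  have hpd : ∀ a, eval p (pderiv a F) = 0 := by
    intro a
    obtain ⟨D, hD1, hD2⟩ := hD a b
    have hev : ∀ G : MvPolynomial (Fin m) k, aeval p G = eval p (MvPolynomial.map (algebraMap k ℂ) G) := by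
      intro G
      rw [eval_map, aeval_def]
    have h1 := e4_chain D p F0
    rw [hev, hF0, hFp, map_zero] at h1
    have h2 : ∀ a', aeval p (pderiv a' F0) = eval p (pderiv a' F) := by
      intro a'
      rw [hev, ← hF0, pderiv_map]
    have h3 : ∀ a', D (p a') = (if a' = a then x b else 0) + ∑ j, A a' j * D (x j) := by
      intro a'
      rw [hp, Matrix.mulVec, dotProduct, map_sum]
      have h4 : ∀ j, D (A a' j * x j) = A a' j * D (x j) + (if a' = a ∧ j = b then x j else 0) := by
        intro j
        rw [Derivation.leibniz, smul_eq_mul, smul_eq_mul]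
        congr 1
        by_cases hj : a' = a ∧ j = b
        · rw [if_pos hj, hj.1, hj.2, hD1, mul_one]
        · rw [if_neg hj, hD2 a' j, mul_zero]
          intro h5
          exact hj ⟨congrArg Prod.fst h5, congrArg Prod.snd h5⟩
      rw [Finset.sum_congr rfl (fun j _ => h4 j), Finset.sum_add_distrib, add_comm]
      congr 1
      by_cases ha : a' = a
      · simp [ha]
      · simp [ha]
    have h5 : ∑ a', aeval p (pderiv a' F0) * D (p a') =
        eval p (pderiv a F) * x b + ∑ j, g j * D (x j) := by
      have h6 : ∀ a', aeval p (pderiv a' F0) * D (p a') =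
          (if a' = a then eval p (pderiv a' F) * x b else 0) +
          ∑ j, eval p (pderiv a' F) * A a' j * D (x j) := by
        intro a'
        rw [h2, h3, mul_add, Finset.mul_sum]
        congr 1
        · split_ifs
          · rfl
          · rw [mul_zero]
        · apply Finset.sum_congr rfl
          intro j _
          ring
      rw [Finset.sum_congr rfl (fun a' _ => h6 a'), Finset.sum_add_distrib, Finset.sum_comm]
      congr 1
      · simp
      · apply Finset.sum_congr rfl
        intro j _
        rw [hgj, Finset.sum_mul]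
    have h7 : ∑ j, g j * D (x j) = 0 := by
      apply Finset.sum_eq_zero
      intro j _
      rcases mul_eq_zero.mp (hx j) with h8 | h8
      · rw [h8, map_zero, mul_zero]
      · change eval x (pderiv j (lin A F)) * D (x j) = 0
        rw [h8, zero_mul]
    rw [h5, h7, add_zero] at h1
    rcases mul_eq_zero.mp h1.symm with h8 | h8
    · exact h8
    · exact absurd h8 hb
  have hp0 : p = 0 := hs p hpd
  have : x = 0 := by
    have hu : IsUnit A.det := isUnit_iff_ne_zero.mpr hdet
    have h9 : A⁻¹.mulVec (A.mulVec x) = x := by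
      rw [Matrix.mulVec_mulVec, Matrix.nonsing_inv_mul A hu, Matrix.one_mulVec]
    rw [← h9, ← hp, hp0, Matrix.mulVec_zero]
  exact hne this

/-- In such coordinates the pull-back under `x_k ↦ x_k ^ e` is smooth. -/
theorem smooth_expand {m e : ℕ} (he : 1 ≤ e) (G : MvPolynomial (Fin m) ℂ)
    (hG : ∀ x : Fin m → ℂ, (∀ k, x k * eval x (pderiv k G) = 0) → x = 0) :
    Smooth (expand e G) := by
  classical
  intro u hu
  have hev : ∀ H : MvPolynomial (Fin m) ℂ, eval u (expand e H) = eval (fun k => u k ^ e) H := by
    intro H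
    have h : (eval u).comp (expand e : MvPolynomial (Fin m) ℂ →ₐ[ℂ]
        MvPolynomial (Fin m) ℂ).toRingHom = eval (fun k => u k ^ e) := by
      apply MvPolynomial.ringHom_ext
      · intro a
        simp
      · intro a
        simp
    exact congrArg (fun φ : MvPolynomial (Fin m) ℂ →+* ℂ => φ H) h
  have hpd : ∀ k, pderiv k (expand e G) = expand e (pderiv k G) * (C (e : ℂ) * X k ^ (e - 1)) := by
    intro k
    have h := chain (expand e : MvPolynomial (Fin m) ℂ →ₐ[ℂ] MvPolynomial (Fin m) ℂ).toRingHom
      (RingHom.id ℂ) (fun a => (expand e).commutes a) G k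
    change pderiv k (expand e G) = ∑ a, expand e (pderiv a G) * pderiv k (expand e (X a)) at h
    rw [h, Finset.sum_eq_single k]
    · rw [expand_X, pderiv_pow, pderiv_X_self, mul_one]
      simp
    · intro b _ hb
      rw [expand_X, pderiv_pow, pderiv_X_of_ne hb, mul_zero, mul_zero]
    · intro hk
      exact absurd (Finset.mem_univ k) hk
  have h0 : (fun k => u k ^ e) = 0 := by
    apply hG
    intro k
    have h1 := hu k
    rw [hpd, map_mul, hev, map_mul, eval_C, map_pow, eval_X] at h1
    have h2 : (e : ℂ) ≠ 0 := by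
      rw [Nat.cast_ne_zero]
      omega
    rcases mul_eq_zero.mp h1 with h3 | h3
    · rw [h3, mul_zero]
    · rcases mul_eq_zero.mp h3 with h4 | h4
      · exact absurd h4 h2
      · have h5 : u k ^ e = 0 := by
          have h6 : u k ^ e = u k ^ (e - 1) * u k := by
            rw [← pow_succ]
            congr 1
            omega
          rw [h6, h4, zero_mul]
        rw [h5, zero_mul]
  funext k
  have := congrFun h0 k
  exact pow_eq_zero_iff (by omega) |>.mp this

end Pool.Agent.HCF
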