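import Pool.Agent.HCF.N0

namespace Pool.Agent.HCF

open MvPolynomial Pool.Agent.HCH

theorem pderiv_rename_ne {K : Type} [Field K] {m M : ℕ} (ι : Fin m → Fin M)
    (G : MvPolynomial (Fin m) K) (l : Fin M) (hl : l ∉ Set.range ι) :
    pderiv l (rename ι G) = 0 := by
  classical
  apply pderiv_eq_zero_of_notMem_vars
  intro h
  obtain ⟨a, _, ha⟩ := Finset.mem_image.mp (vars_rename ι G h)
  exact hl ⟨a, ha⟩

theorem smooth_susp {m M D : ℕ} (hD : 2 ≤ D) (G : MvPolynomial (Fin m) ℂ)
    (V : MvPolynomial (Fin M) ℂ) (h : IsSusp D G V) (hG : Smooth G) : Smooth V := by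
  classical
  obtain ⟨ι, hι, rfl⟩ := h
  intro x hx
  have hout : ∀ l, l ∉ Set.range ι → x l = 0 := by
    intro l hl
    have h1 := hx l
    rw [map_add, pderiv_rename_ne ι G l hl, zero_add, map_sum, Finset.sum_eq_single l] at h1
    · rw [pderiv_pow, pderiv_X_self, mul_one, map_mul, map_natCast, map_pow, eval_X] at h1
      have h2 : (D : ℂ) ≠ 0 := by
        rw [Nat.cast_ne_zero]
        omega
      rcases mul_eq_zero.mp h1 with h3 | h3
      · exact absurd h3 h2
      · exact (pow_eq_zero_iff (by omega)).mp h3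
    · intro b _ hb
      rw [pderiv_pow, pderiv_X_of_ne hb, mul_zero]
    · intro hl'
      exact absurd (Finset.mem_filter.mpr ⟨Finset.mem_univ l, hl⟩) hl'
  have hin : (fun a => x (ι a)) = 0 := by
    apply hG
    intro a
    have h1 := hx (ι a)
    rw [map_add, pderiv_rename hι, map_sum, Finset.sum_eq_zero, add_zero, eval_rename] at h1
    · exact h1
    · intro b hb
      have hb' := (Finset.mem_filter.mp hb).2
      have hne : b ≠ ι a := fun h => hb' ⟨a, h.symm⟩
      rw [pderiv_pow, pderiv_X_of_ne hne, mul_zero]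
  funext l
  by_cases hl : l ∈ Set.range ι
  · obtain ⟨a, rfl⟩ := hl
    exact congrFun hin a
  · exact hout l hl

/-- A sum of powers of linear forms is a linear section of a Fermat hypersurface. -/
theorem fermat_of_sum {K : Type} [Field K] {m N D : ℕ} (hD : 1 ≤ D) (G : MvPolynomial (Fin m) K)
    (L : Fin N → MvPolynomial (Fin m) K) (hL : ∀ l, (L l).IsHomogeneous 1)
    (h : G = ∑ l, L l ^ D) : FermatSec D N G := by
  refine ⟨Fin.addCases (fun _ => 0) L, ?_, ?_⟩
  · intro l
    refine Fin.addCases (fun i => ?_) (fun i => ?_) l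
    · simp only [Fin.addCases_left]
      exact isHomogeneous_zero _ _ _
    · simp only [Fin.addCases_right]
      exact hL i
  · rw [Fin.sum_univ_add]
    simp only [Fin.addCases_left, Fin.addCases_right]
    have h0 : ∑ _x : Fin m, (0 : MvPolynomial (Fin m) K) ^ D = 0 :=
      Finset.sum_eq_zero (fun i _ => zero_pow (by omega))
    rw [h0, zero_add]
    exact h

theorem fermat_susp {K : Type} [Field K] {m M c D : ℕ} (G : MvPolynomial (Fin m) K)
    (V : MvPolynomial (Fin M) K) (h : IsSusp D G V) (hG : FermatSec D c G) :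
    FermatSec D c V := by
  classical
  obtain ⟨ι, hι, rfl⟩ := h
  obtain ⟨L, hL, hLG⟩ := hG
  have hcard : Fintype.card (Fin (M + c)) = Fintype.card (Fin (m + c) ⊕ {l // l ∉ Set.range ι}) := by
    rw [Fintype.card_sum, Fintype.card_fin, Fintype.card_fin, Fintype.card_subtype_compl]
    have h1 : Fintype.card {x // x ∈ Set.range ι} = m := by
      have := Set.card_range_of_injective hι
      rw [Fintype.card_fin] at this
      exact this
    have h2 : m ≤ M := by
      have := Fintype.card_le_of_injective ι hι
      simpa using this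
    rw [h1, Fintype.card_fin]
    omega
  let e := Fintype.equivOfCardEq hcard
  refine ⟨fun l => Sum.elim (fun i => rename ι (L i)) (fun j => X j.1) (e l), ?_, ?_⟩
  · intro l
    rcases he : e l with i | j
    · simp only [he, Sum.elim_inl]
      exact (hL i).rename_isHomogeneous
    · simp only [he, Sum.elim_inr]
      exact isHomogeneous_X K j.1
  · rw [Equiv.sum_comp e (fun s => (Sum.elim (fun i => rename ι (L i))
      (fun j : {l // l ∉ Set.range ι} => (X j.1 : MvPolynomial (Fin M) K)) s) ^ D),
      Fintype.sum_sum_type]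
    simp only [Sum.elim_inl, Sum.elim_inr]
    rw [hLG, map_sum]
    simp only [map_pow]
    congr 1
    exact Finset.sum_subtype _ (fun x => by simp) _

end Pool.Agent.HCF
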