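import Pool.Agent.HCH.E1
import Pool.Agent.HCH.D1

namespace Pool.Agent.HCF

open MvPolynomial Pool.Agent.HCH

/-- The dimension of the singular locus of an arbitrary hyperplane section. -/
theorem sg_rhoI {K : Type} [Field K] {m d : ℕ} (F : MvPolynomial (Fin (m + 1)) K)
    (hF : F.IsHomogeneous d) (hd : 2 ≤ d) (r : ℕ) (h : SgLe F r) : SgLe (rhoI F) (r + 1) := by
  intro P' hP' hpd
  have hrd : ∀ f, (rhoI : MvPolynomial (Fin (m + 1)) K →ₐ[K] MvPolynomial (Fin m) K) f ∈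
      P'.asIdeal ↔ f ∈ (PrimeSpectrum.comap ((rhoI :
        MvPolynomial (Fin (m + 1)) K →ₐ[K] MvPolynomial (Fin m) K) :
        MvPolynomial (Fin (m + 1)) K →+* MvPolynomial (Fin m) K) P').asIdeal := by
    intro f
    exact Iff.rfl
  obtain ⟨P, hPdef⟩ : ∃ P, P = PrimeSpectrum.comap ((rhoI :
        MvPolynomial (Fin (m + 1)) K →ₐ[K] MvPolynomial (Fin m) K) :
        MvPolynomial (Fin (m + 1)) K →+* MvPolynomial (Fin m) K) P' := ⟨_, rfl⟩
  have hPh : HgI P.asIdeal := by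
    rw [hPdef]
    exact (lq_homog lq_rhoI P').mpr hP'
  have hdm : dm K P.asIdeal = dm K P'.asIdeal := by
    rw [hPdef]
    exact dm_comap (rhoI : MvPolynomial (Fin (m + 1)) K →ₐ[K] MvPolynomial (Fin m) K)
      (lq_surj lq_rhoI) P'.asIdeal
  simp only [← hPdef] at hrd
  have hGh : (pderiv (Fin.last m) F).IsHomogeneous (d - 1) := hF.pderiv
  obtain ⟨hs1, hs2⟩ := form_span (pderiv (Fin.last m) F) hGh (by omega)
  obtain ⟨Q, hQh, hPQ, hGQ, hdQ⟩ := exists_min P hPh (pderiv (Fin.last m) F) hs1 hs2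
  have hall : ∀ k, pderiv k F ∈ Q.asIdeal := by
    intro k
    refine Fin.lastCases hGQ (fun j => ?_) k
    have h1 := hpd j
    rw [pderiv_rhoI] at h1
    exact hPQ ((hrd _).mp h1)
  have hfin := h Q hQh hall
  rw [← hdm]
  omega

end Pool.Agent.HCF
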