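import Pool.Agent.HCF.U2

namespace Pool.Agent.HCF

open MvPolynomial Pool.Agent.HCH

theorem push_hom {K R R' : Type} [Field K] [CommRing R] [CommRing R'] [Algebra K R] [Algebra K R']
    [Algebra.FiniteType K R] [Algebra.FiniteType K R'] (φ : R →ₐ[K] R')
    (hfin : φ.toRingHom.Finite) (f : R) (e : ℕ)
    (hl : ∀ p : PrimeSpectrum R, f ∈ p.asIdeal → ∃ P, PrimeSpectrum.comap φ.toRingHom P = p)
    (h : AT K (φ f) e) : AT K f e := by
  letI := φ.toRingHom.toAlgebra
  have h1 : Module.Finite R R' := hfin
  have h2 : IsScalarTower K R R' := IsScalarTower.of_algebraMap_eq (fun x => (φ.commutes x).symm)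
  exact push_AT (R' := R') f e hl h

/-- The covering `x_k ↦ x_k ^ k`. -/
theorem expand_finite {K : Type} [Field K] {m e : ℕ} (he : 1 ≤ e) :
    (expand e : MvPolynomial (Fin m) K →ₐ[K] MvPolynomial (Fin m) K).toRingHom.Finite := by
  apply RingHom.IsIntegral.to_finite
  · intro x
    induction x using MvPolynomial.induction_on with
    | C a =>
      have : (C a : MvPolynomial (Fin m) K) =
          (expand e : MvPolynomial (Fin m) K →ₐ[K] MvPolynomial (Fin m) K).toRingHom (C a) := by
        change C a = expand e (C a)
        rw [expand_C]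
      rw [this]
      exact RingHom.isIntegralElem_map _
    | add p q hp hq => exact hp.add _ hq
    | mul_X p i hp =>
      apply hp.mul
      refine ⟨Polynomial.X ^ e - Polynomial.C (X i), ?_, ?_⟩
      · exact Polynomial.monic_X_pow_sub_C _ (by omega)
      · rw [Polynomial.eval₂_sub, Polynomial.eval₂_pow, Polynomial.eval₂_X, Polynomial.eval₂_C]
        change X i ^ e - expand e (X i) = 0
        rw [expand_X, sub_self]
  · apply RingHom.FiniteType.of_comp_finiteType (f := algebraMap K (MvPolynomial (Fin m) K))
    have : (expand e : MvPolynomial (Fin m) K →ₐ[K] MvPolynomial (Fin m) K).toRingHom.comp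
        (algebraMap K (MvPolynomial (Fin m) K)) = algebraMap K (MvPolynomial (Fin m) K) := by
      ext a
      simp
    rw [this]
    exact RingHom.finiteType_algebraMap.mpr inferInstance

theorem deh_expand {K : Type} [Field K] {m e : ℕ} (F : MvPolynomial (Fin (m + 1)) K) :
    deh (expand e F) = expand e (deh F) := by
  have h : (deh : MvPolynomial (Fin (m + 1)) K →ₐ[K] MvPolynomial (Fin m) K).comp (expand e) =
      (expand e).comp (deh : MvPolynomial (Fin (m + 1)) K →ₐ[K] MvPolynomial (Fin m) K) := by
    apply MvPolynomial.algHom_ext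
    intro k
    refine Fin.lastCases ?_ (fun j => ?_) k
    · simp [deh]
    · simp [deh]
  exact congrArg (fun φ : MvPolynomial (Fin (m + 1)) K →ₐ[K] MvPolynomial (Fin m) K => φ F) h

theorem AT_expand {K : Type} [Field K] {m e : ℕ} (he : 1 ≤ e) (f : MvPolynomial (Fin m) K)
    (k : ℕ) (h : AT K (expand e f) k) : AT K f k := by
  apply push_hom (expand e) (expand_finite he) f k _ h
  intro p _
  have hint : (expand e : MvPolynomial (Fin m) K →ₐ[K] MvPolynomial (Fin m) K).toRingHom.IsIntegral :=
    (expand_finite he).to_isIntegral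
  exact hint.comap_surjective (expand_injective (by omega)) p

/-- Torsion of the Chow group of the affine part descends along the covering. -/
theorem AT_cover {K : Type} [Field K] {m e : ℕ} (he : 1 ≤ e) (F : MvPolynomial (Fin (m + 1)) K)
    (k : ℕ) (h : AT K (deh (expand e F)) k) : AT K (deh F) k := by
  rw [deh_expand] at h
  exact AT_expand he _ k h

end Pool.Agent.HCF
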