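import Pool.Agent.HCF.S2a

namespace Pool.Agent.HCF

open Pool.Agent.HCH Polynomial

variable {K A : Type} [Field K] [CommRing A] [Algebra K A] [Algebra.FiniteType K A] (f : A)

/-
The component over a subvariety p of V(f), y = 0 and g arbitrary. PROOF.
E = kernel of A[X][X] → (A ⧸ p)[X], outer X ↦ 0, inner X ↦ X:
E = comap of ((Polynomial.mapRingHom (mk p)).comp (evalRingHom 0)), a prime since (A ⧸ p)[X] is a
domain. X ∈ E, C X ∉ E, low E = comap (mapRingHom (mk p)) ⊥ = p.map C. The dimension: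
A[X][X] ⧸ E ≃ (A ⧸ p)[X], transcendence degree + 1 (compare HCH/C4 or the lemma in T5a).
rel f = C (C f) - X * C X ∈ E since f ∈ p.
-/
theorem exists_cyl (e : ℕ) (p : PrimeSpectrum A) (hf : f ∈ p.asIdeal)
    (hd : dm K p.asIdeal = e) :
    ∃ E : PrimeSpectrum (Polynomial (Polynomial A)), rel f ∈ E.asIdeal ∧
      dm K E.asIdeal = e + 1 ∧ X ∈ E.asIdeal ∧ C X ∉ E.asIdeal ∧
      (low E).asIdeal = p.asIdeal.map (C : A →+* Polynomial A) := by
  have hp : p.asIdeal.IsPrime := p.2
  set B := A ⧸ p.asIdeal with hB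
  let mk : A →ₐ[K] B := Ideal.Quotient.mkₐ K p.asIdeal
  let ψ : Polynomial (Polynomial A) →ₐ[K] Polynomial B :=
    (Polynomial.mapAlgHom mk).comp (ev K (0 : Polynomial A))
  have hψ : ∀ q : Polynomial (Polynomial A), ψ q = (q.eval 0).map (mk : A →+* B) := by
    intro q
    show Polynomial.mapAlgHom mk (ev K (0 : Polynomial A) q) = _
    rw [ev_apply, Polynomial.coe_mapAlgHom]
  have hmk : Function.Surjective (mk : A →+* B) := Ideal.Quotient.mk_surjective
  have hsurj : Function.Surjective ψ := by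
    intro b
    obtain ⟨a, ha⟩ := Polynomial.map_surjective (mk : A →+* B) hmk b
    refine ⟨C a, ?_⟩
    rw [hψ, eval_C, ha]
  have hker : RingHom.ker (mk : A →+* B) = p.asIdeal := by
    ext a
    rw [RingHom.mem_ker]
    exact Ideal.Quotient.eq_zero_iff_mem
  let E : PrimeSpectrum (Polynomial (Polynomial A)) :=
    PrimeSpectrum.comap (ψ : Polynomial (Polynomial A) →+* Polynomial B) ⟨⊥, Ideal.isPrime_bot⟩
  have hE : ∀ q, q ∈ E.asIdeal ↔ ψ q = 0 := fun q => Iff.rfl
  refine ⟨E, ?_, ?_, ?_, ?_, ?_⟩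
  · rw [hE, hψ]
    unfold rel
    have : (C (C f) - X * C X : Polynomial (Polynomial A)).eval 0 = C f := by simp
    rw [this, map_C]
    have h1 : (mk : A →+* B) f = 0 := by
      rw [← RingHom.mem_ker, hker]
      exact hf
    rw [h1, C_0]
  · have h1 : dm K E.asIdeal = dm K (⊥ : Ideal (Polynomial B)) := dm_comap ψ hsurj ⊥
    rw [h1]
    unfold dm
    have h2 : Algebra.trdeg K (Polynomial B ⧸ (⊥ : Ideal (Polynomial B))) =
        Algebra.trdeg K (Polynomial B) :=
      (AlgEquiv.quotientBot K (Polynomial B)).trdeg_eq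
    have hfs : FaithfulSMul K B :=
      (faithfulSMul_iff_algebraMap_injective _ _).mpr (algebraMap K B).injective
    have h3 := trdeg_add_eq K B (A := Polynomial B)
    rw [Polynomial.trdeg_of_isDomain] at h3
    have h4 : Algebra.trdeg K B < Cardinal.aleph0 := trdeg_lt_aleph0_of_finiteType
    have h5 : Cardinal.toNat (Algebra.trdeg K B) = e := hd
    rw [h2, ← h3, Cardinal.toNat_add h4 Cardinal.one_lt_aleph0, h5, map_one]
  · rw [hE, hψ, eval_X, Polynomial.map_zero]
  · rw [hE, hψ, eval_C, map_X]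
    exact X_ne_zero
  · have h1 : (low E).asIdeal = RingHom.ker (Polynomial.mapRingHom (mk : A →+* B)) := by
      ext q
      rw [mem_low, hE, hψ, eval_C, RingHom.mem_ker, coe_mapRingHom]
    rw [h1, Polynomial.ker_mapRingHom, hker]

end Pool.Agent.HCF
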