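import Pool.Agent.HCF.S2b

namespace Pool.Agent.HCF

open Pool.Agent.HCH Polynomial

variable {A : Type} [CommRing A] (f : A)

/-
PROOF. mlt_low with J = W ⊔ span {φ}, J1 = low W ⊔ span {φ1}. h1: φ1: C φ1 = C X ^ n * φ - (element of
W). h2: for w ∈ W: low_red: C X ^ a * w - C p ∈ span {rel f} ≤ W, so C p ∈ W, p ∈ low W. For
b * φ: low_red for b: C X ^ c * b ≡ C p', and C X ^ n * φ - C φ1 ∈ W: C X ^ a * (that) ≡ C p'' with
p'' ∈ low W; so C X ^ (a + c + n) * b * φ ≡ C (p' * (X ^ a * φ1 + p'')).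
-/
theorem od_low (W : PrimeSpectrum (Polynomial (Polynomial A))) (hW : rel f ∈ W.asIdeal)
    (φ : Polynomial (Polynomial A)) (φ1 : Polynomial A) (n : ℕ)
    (hφ : C X ^ n * φ - C φ1 ∈ W.asIdeal) (E : PrimeSpectrum (Polynomial (Polynomial A)))
    (hE : rel f ∈ E.asIdeal) (hX : C X ∉ E.asIdeal) :
    od (W.asIdeal ⊔ Ideal.span {φ}) E = od ((low W).asIdeal ⊔ Ideal.span {φ1}) (low E) := by
  obtain ⟨m, pf, hm⟩ := low_red f φ
  have hrel : ∀ x ∈ Ideal.span {rel f}, x ∈ W.asIdeal := fun x hx =>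
    (Ideal.span_le.2 (Set.singleton_subset_iff.2 hW)) hx
  have hC : C φ1 ∈ W.asIdeal ⊔ Ideal.span {φ} := by
    have h1 : C φ1 = C X ^ n * φ - (C X ^ n * φ - C φ1) := by ring
    rw [h1]
    refine Ideal.sub_mem _ ?_ ?_
    · exact (le_sup_right : Ideal.span {φ} ≤ _)
        (Ideal.mul_mem_left _ _ (Ideal.mem_span_singleton_self φ))
    · exact (le_sup_left : W.asIdeal ≤ _) hφ
  have hd : X ^ n * pf - X ^ m * φ1 ∈ (low W).asIdeal := by
    rw [mem_low]
    have h1 : (C (X ^ n * pf - X ^ m * φ1) : Polynomial (Polynomial A)) =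
        C X ^ m * (C X ^ n * φ - C φ1) - C X ^ n * (C X ^ m * φ - C pf) := by
      rw [C_sub, C_mul, C_mul, C_pow, C_pow]
      ring
    rw [h1]
    exact Ideal.sub_mem _ (Ideal.mul_mem_left _ _ hφ) (Ideal.mul_mem_left _ _ (hrel _ hm))
  unfold od
  rw [mlt_low f E hE hX (W.asIdeal ⊔ Ideal.span {φ}) ((le_sup_left : W.asIdeal ≤ _) hW)
    ((low W).asIdeal ⊔ Ideal.span {φ1})]
  · intro p hp
    have h1 : (low W).asIdeal ⊔ Ideal.span {φ1} ≤
        (W.asIdeal ⊔ Ideal.span {φ}).comap (C : Polynomial A →+* Polynomial (Polynomial A)) := by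
      refine sup_le ?_ ?_
      · intro q hq
        exact (le_sup_left : W.asIdeal ≤ _) hq
      · rw [Ideal.span_le, Set.singleton_subset_iff]
        exact hC
    exact h1 hp
  · intro r hr
    obtain ⟨w, hw, v, hv, hwv⟩ := Submodule.mem_sup.1 hr
    obtain ⟨b, hb⟩ := Ideal.mem_span_singleton'.1 hv
    obtain ⟨a, pw, ha⟩ := low_red f w
    obtain ⟨c, pb, hc⟩ := low_red f b
    have hpw : pw ∈ (low W).asIdeal := by
      rw [mem_low]
      have h1 : (C pw : Polynomial (Polynomial A)) = C X ^ a * w - (C X ^ a * w - C pw) := by ring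
      rw [h1]
      exact Ideal.sub_mem _ (Ideal.mul_mem_left _ _ hw) (hrel _ ha)
    refine ⟨a + c + m + n, X ^ (c + m + n) * pw + X ^ a * pb * (X ^ n * pf), ?_, ?_⟩
    · refine Ideal.add_mem _ ?_ ?_
      · exact (le_sup_left : (low W).asIdeal ≤ _) (Ideal.mul_mem_left _ _ hpw)
      · refine Ideal.mul_mem_left _ _ ?_
        have h1 : X ^ n * pf = (X ^ n * pf - X ^ m * φ1) + X ^ m * φ1 := by ring
        rw [h1]
        refine Ideal.add_mem _ ((le_sup_left : (low W).asIdeal ≤ _) hd) ?_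
        exact (le_sup_right : Ideal.span {φ1} ≤ _)
          (Ideal.mul_mem_left _ _ (Ideal.mem_span_singleton_self φ1))
    · have h1 : C X ^ (a + c + m + n) * r -
          C (X ^ (c + m + n) * pw + X ^ a * pb * (X ^ n * pf)) =
          C X ^ (c + m + n) * (C X ^ a * w - C pw) +
            (C X ^ (n + a) * (C X ^ m * φ)) * (C X ^ c * b - C pb) +
            (C X ^ (n + a) * C pb) * (C X ^ m * φ - C pf) := by
        rw [← hwv, ← hb, C_add, C_mul, C_mul, C_mul, C_mul, C_pow, C_pow, C_pow]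
        ring
      rw [h1]
      exact Ideal.add_mem _ (Ideal.add_mem _ (Ideal.mul_mem_left _ _ ha)
        (Ideal.mul_mem_left _ _ hc)) (Ideal.mul_mem_left _ _ hm)

/-
PROOF. swH is bijective: mlt_surj with the surjective homomorphism swH (kernel 0) and J = W + (φ):
J.map swH = sw W ⊔ span {swH φ}, comap swH (sw E) = E.
-/
theorem od_sw (W : PrimeSpectrum (Polynomial (Polynomial A))) (φ : Polynomial (Polynomial A))
    (E : PrimeSpectrum (Polynomial (Polynomial A))) :
    od ((sw W).asIdeal ⊔ Ideal.span {swH A φ}) (sw E) = od (W.asIdeal ⊔ Ideal.span {φ}) E := by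
  have hs : Function.Surjective (swH A) := (swH_bij A).2
  have hk : RingHom.ker (swH A) ≤ (sw W).asIdeal ⊔ Ideal.span {swH A φ} := by
    rw [(RingHom.injective_iff_ker_eq_bot (swH A)).1 (swH_bij A).1]
    exact bot_le
  have h1 := mlt_surj (swH A) hs ((sw W).asIdeal ⊔ Ideal.span {swH A φ}) hk E
  have h2 : ((sw W).asIdeal ⊔ Ideal.span {swH A φ}).map (swH A) =
      W.asIdeal ⊔ Ideal.span {φ} := by
    rw [Ideal.map_sup, Ideal.map_span, Set.image_singleton, swH_swH]
    congr 1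
    exact Ideal.map_comap_of_surjective (swH A) hs W.asIdeal
  rw [h2] at h1
  unfold od
  rw [h1]
  rfl

/- PROOF. A[X][X] ⧸ sw E ≃ A[X][X] ⧸ E over K; HCH.dm_comap (B2) for swH as a K-algebra map. -/
theorem dm_sw {K : Type} [Field K] [Algebra K A]
    (E : PrimeSpectrum (Polynomial (Polynomial A))) :
    dm K (sw E).asIdeal = dm K E.asIdeal := by
  let φ : Polynomial (Polynomial A) →ₐ[K] Polynomial (Polynomial A) :=
    { swH A with
      commutes' := by
        intro k
        rw [Polynomial.algebraMap_apply, Polynomial.algebraMap_apply]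
        exact swH_CC A _ }
  exact dm_comap φ (swH_bij A).2 E.asIdeal

end Pool.Agent.HCF
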