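import Pool.Agent.HCF.S1
import Pool.Agent.HCF.S2c
import Pool.Agent.HCF.S10a

namespace Pool.Agent.HCF

open Pool.Agent.HCH Polynomial

variable {K A : Type} [Field K] [CommRing A] [Algebra K A] [Algebra.FiniteType K A] (f : A)

/-
PROOF. swz (single E 1) = single (sw E) 1 (Finsupp.mapDomain_single) and C X ∈ sw E (swH_CX), so the
second term of rho is 0 (mo_single). mo (single E 1) = single (low E) 1. Let h = X - C a,
a = c⁻¹ f; h ∉ low E = p.map C (coefficient of X is 1, Ideal.mem_map_C_iff), so
gys K h e (single (low E) 1) = fdiv K (low E) h e (gys_single). rs_apply at Q: if dm Q ≠ e both sides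
are 0. If dm Q = e: od (p.map C ⊔ span {h}) (comap (ev a) Q) = od p Q by mlt_surj for ev a (the ideal
contains ker = span {h}; its image is p). od p Q = (if Q = p then 1 else 0): mlt_self, mlt_eq_zero and
eq_of_dm_le. dm (low E) = e + 1 (dm_low).
-/
theorem rho_cyl (c : K) (e : ℕ) (p : PrimeSpectrum A) (hd : dm K p.asIdeal = e)
    (E : PrimeSpectrum (Polynomial (Polynomial A))) (hr : rel f ∈ E.asIdeal)
    (hE : dm K E.asIdeal = e + 1) (hy : X ∈ E.asIdeal) (hg : C X ∉ E.asIdeal)
    (hl : (low E).asIdeal = p.asIdeal.map (C : A →+* Polynomial A)) :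
    rho K f c e (Finsupp.single E 1) = Finsupp.single p 1 := by
  classical
  have hpp : p.asIdeal ≠ ⊤ := p.isPrime.ne_top
  set a : A := algebraMap K A c⁻¹ * f with ha
  set h : Polynomial A := X - C a with hh
  have hmo : mo A (Finsupp.single E 1) = Finsupp.single (low E) 1 := by
    rw [mo_single, if_neg hg, one_smul]
  have hsw : mo A (swz A (Finsupp.single E 1)) = 0 := by
    have h1 : swz A (Finsupp.single E 1) = Finsupp.single (sw E) 1 := by
      unfold swz
      exact Finsupp.mapDomain_single
    have h2 : (C X : Polynomial (Polynomial A)) ∈ (sw E).asIdeal := by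
      rw [mem_sw, swH_CX]
      exact hy
    rw [h1, mo_single, if_pos h2, smul_zero]
  have hhl : h ∉ (low E).asIdeal := by
    rw [hl, Ideal.mem_map_C_iff]
    intro h1
    apply hpp
    rw [Ideal.eq_top_iff_one]
    have h2 := h1 1
    rwa [hh, coeff_sub, coeff_X_one, coeff_C, if_neg one_ne_zero, sub_zero] at h2
  have hdl : dm K (low E).asIdeal = e + 1 := by
    rw [dm_low f E hr hg, hE]
  have hrho : rho K f c e (Finsupp.single E 1) =
      rs (ev K a) (ev_surj K _) (fdiv K (low E).asIdeal h e) := by
    rw [rho_apply, hmo, hsw, map_zero, map_zero, sub_zero, gys_single, if_neg hhl, one_smul]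
  rw [hrho]
  ext Q
  rw [rs_apply]
  have hdQ : dm K (PrimeSpectrum.comap (ev K a : Polynomial A →+* A) Q).asIdeal =
      dm K Q.asIdeal := dm_comap (ev K a) (ev_surj K a) Q.asIdeal
  by_cases hQ : dm K Q.asIdeal = e
  · have := (low E).isPrime
    rw [fdiv_apply (low E).asIdeal h hhl e hdl _ (hdQ.trans hQ)]
    have hJ : od ((low E).asIdeal ⊔ Ideal.span {h})
        (PrimeSpectrum.comap (ev K a : Polynomial A →+* A) Q) = od p.asIdeal Q := by
      unfold od
      congr 2
      have h1 := mlt_surj (ev K a : Polynomial A →+* A) (ev_surj K a)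
        ((low E).asIdeal ⊔ Ideal.span {h}) (by
          rw [ev_ker]
          exact le_sup_right) Q
      rw [← h1]
      have h2 : ((low E).asIdeal ⊔ Ideal.span {h}).map (ev K a : Polynomial A →+* A) =
          p.asIdeal := by
        rw [hl, Ideal.map_sup, Ideal.map_map, Ideal.map_span, Set.image_singleton]
        have h3 : (ev K a : Polynomial A →+* A).comp (C : A →+* Polynomial A) =
            RingHom.id A := by
          apply RingHom.ext
          intro x
          change ev K a (C x) = x
          rw [ev_apply, eval_C]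
        have h4 : (ev K a : Polynomial A →+* A) h = 0 := by
          change ev K a h = 0
          rw [ev_apply, hh, eval_sub, eval_X, eval_C, sub_self]
        rw [h3, h4, Ideal.map_id, Ideal.span_singleton_eq_bot.mpr rfl, sup_bot_eq]
      rw [h2]
    rw [hJ]
    by_cases hQp : p = Q
    · subst hQp
      rw [Finsupp.single_eq_same]
      unfold od
      rw [mlt_self]
      rfl
    · rw [Finsupp.single_apply, if_neg hQp]
      by_contra h5
      have h6 := le_of_od _ _ h5
      have h7 := p.isPrime
      have h8 := Q.isPrime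
      exact hQp (PrimeSpectrum.ext (eq_of_dm_le (K := K) p.asIdeal Q.asIdeal h6
        (by rw [hd, hQ])))
  · have hQp : p ≠ Q := by
      rintro rfl
      exact hQ hd
    rw [Finsupp.single_apply, if_neg hQp]
    by_contra h5
    have h6 := fdiv_supp _ _ _ _ h5
    exact hQ (hdQ.symm.trans h6.1)

end Pool.Agent.HCF
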