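import Pool.Agent.HCF.S9
import Pool.Agent.HCF.S10
import Pool.Agent.HCF.G1

namespace Pool.Agent.HCF

open Pool.Agent.HCH Polynomial

/-
PROOF. AT_iff. Let p ∋ f, dm p = e, E from exists_cyl. N • single E 1 ∈ Rt K (span {rel f}) (e + 1);
rho_Rt: T; K is infinite (algebraically closed), choose c ≠ 0, c ∉ T. rho_cyl: N • single p 1 =
rho (N • single E 1) ∈ JJ K f e. tors_closure (T1) with G = Rt K (span {f}) e and the generators
fdiv K V f e, which are torsion by gys_tors (G1): N' • (N • single p 1) ∈ Rt.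
-/
theorem stepB {K : Type} [Field K] [IsAlgClosed K] [CharZero K] (m e : ℕ) (he : e + 1 < m)
    (f : MvPolynomial (Fin m) K)
    (h : AT K (rel f : Polynomial (Polynomial (MvPolynomial (Fin m) K))) (e + 1)) :
    AT K f e := by
  classical
  rw [AT_iff] at h ⊢
  intro p hfp hdp
  obtain ⟨E, hr, hE, hy, hg, hl⟩ := exists_cyl f e p hfp hdp
  obtain ⟨N, hN, hNE⟩ := h E hr hE
  obtain ⟨T, hT⟩ := rho_Rt f e _ hNE
  have hinf : Infinite K := IsAlgClosed.instInfinite
  obtain ⟨c, hc⟩ := Infinite.exists_notMem_finset (insert 0 T)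
  rw [Finset.mem_insert, not_or] at hc
  have h1 := hT c hc.1 hc.2
  rw [map_zsmul, rho_cyl f c e p hdp E hr hE hy hg hl] at h1
  obtain ⟨N', hN', h2⟩ := tors_closure (Rt K (Ideal.span {f}) e)
    {z | ∃ V : PrimeSpectrum (MvPolynomial (Fin m) K),
      dm K V.asIdeal = e + 1 ∧ f ∉ V.asIdeal ∧ z = fdiv K V.asIdeal f e}
    (by
      rintro t ⟨V, hdV, hfV, rfl⟩
      exact gys_tors m e he f V hdV hfV) _ h1
  refine ⟨N' * N, Nat.mul_pos hN' hN, ?_⟩
  rw [Nat.cast_mul, mul_smul]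
  exact h2

end Pool.Agent.HCF
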