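import Pool.Agent.HCF.U2b
import Pool.Agent.HCF.T1

namespace Pool.Agent.HCF

open Pool.Agent.HCH

variable {K R R' : Type} [Field K] [CommRing R] [CommRing R'] [Algebra K R] [Algebra K R']
  [Algebra R R'] [IsScalarTower K R R'] [Algebra.FiniteType K R] [Algebra.FiniteType K R']
  [Module.Finite R R']

/-
PROOF. AT_iff on both sides. p prime of R with f ∈ p, dm p = e; choose P over p (hl), dm P = e
(dm_un), algebraMap f ∈ P; (N : ℤ) • single P 1 ∈ Rt K (span {algebraMap f}) e, which is
Rt K ((span {f}).map _) e (Ideal.map_span). psh_Rt and psh_single: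
(N * rdeg) • single p 1 ∈ Rt K (span {f}) e, rdeg_pos.
-/
theorem push_AT (f : R) (e : ℕ) (hl : ∀ p : PrimeSpectrum R, f ∈ p.asIdeal →
      ∃ P : PrimeSpectrum R', un R P = p) (h : AT K (algebraMap R R' f) e) : AT K f e := by
  rw [AT_iff] at h ⊢
  intro p hf hd
  obtain ⟨P, rfl⟩ := hl p hf
  have hdP : dm K P.asIdeal = e := by rw [← dm_un (K := K) (R := R) P]; exact hd
  have hfP : algebraMap R R' f ∈ P.asIdeal := hf
  obtain ⟨N, hN, hz⟩ := h P hfP hdP
  have hmap : (Ideal.span {f}).map (algebraMap R R') = Ideal.span {algebraMap R R' f} := by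
    rw [Ideal.map_span, Set.image_singleton]
  rw [← hmap] at hz
  have h1 := psh_Rt (Ideal.span {f}) e _ hz
  have hr := rdeg_pos (K := K) (R := R) P
  have h2 : psh R R' ((N : ℤ) • Finsupp.single P (1 : ℤ)) =
      ((N * (rdeg R P).toNat : ℕ) : ℤ) • Finsupp.single (un R P) (1 : ℤ) := by
    rw [map_zsmul, psh_single, one_smul, Finsupp.smul_single, Finsupp.smul_single]
    congr 1
    push_cast
    rw [Int.toNat_of_nonneg hr.le, smul_eq_mul, smul_eq_mul, mul_one]
  rw [h2] at h1
  exact ⟨N * (rdeg R P).toNat, Nat.mul_pos hN (by omega), h1⟩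

/-
The case of an isomorphism. PROOF. push_AT with the algebra structure given by φ
(φ.toRingHom.toAlgebra; Module.Finite of a surjective homomorphism), P = comap of φ.symm.
-/
theorem AT_equiv {R R' : Type} [CommRing R] [CommRing R'] [Algebra K R] [Algebra K R']
    [Algebra.FiniteType K R] [Algebra.FiniteType K R'] (φ : R ≃ₐ[K] R') (f : R) (e : ℕ)
    (h : AT K (φ f) e) : AT K f e := by
  letI : Algebra R R' := (φ : R →+* R').toAlgebra
  have : IsScalarTower K R R' := IsScalarTower.of_algebraMap_eq fun x => (φ.commutes x).symm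
  have : Module.Finite R R' :=
    Module.Finite.of_surjective (Algebra.linearMap R R') φ.surjective
  refine push_AT (R' := R') f e (fun p _ => ?_) h
  refine ⟨PrimeSpectrum.comap (φ.symm : R' →+* R) p, ?_⟩
  ext x
  change φ.symm (φ x) ∈ p.asIdeal ↔ x ∈ p.asIdeal
  rw [AlgEquiv.symm_apply_apply]

end Pool.Agent.HCF
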