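import Mathlib

namespace Pool.Agent.HCF

open Polynomial

/-
PROOF. Let η with η ^ d = -1 and the d-th roots of unity μ = nthRootsFinset d (1 : K).
M = ∏ ζ ∈ μ.erase 1, (C u + C ((1 - ζ) η) * X).
-/
theorem exists_M {K : Type} [Field K] [IsAlgClosed K] [CharZero K] (d : ℕ) (hd : 2 ≤ d)
    (A : Type) [CommRing A] [IsDomain A] [Algebra K A] :
    ∃ (η : K) (M : Polynomial (Polynomial A)), η ≠ 0 ∧ 1 ≤ M.natDegree ∧ IsUnit M.leadingCoeff ∧
      C X * M = (C X + C (C (algebraMap K A η)) * X) ^ d + X ^ d := by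
  classical
  have hd0 : 0 < d := by omega
  have hdK : NeZero ((d : ℕ) : K) := ⟨by exact_mod_cast hd0.ne'⟩
  obtain ⟨η, hη⟩ := IsAlgClosed.exists_pow_nat_eq (-1 : K) hd0
  have hη0 : η ≠ 0 := by
    rintro rfl
    rw [zero_pow hd0.ne'] at hη
    exact (neg_ne_zero.2 one_ne_zero) hη.symm
  obtain ⟨z, hz⟩ : ∃ z : K, IsPrimitiveRoot z d := HasEnoughRootsOfUnity.exists_primitiveRoot K d
  set φ : K →+* Polynomial (Polynomial A) :=
    (C : Polynomial A →+* Polynomial (Polynomial A)).comp
      ((C : A →+* Polynomial A).comp (algebraMap K A)) with hφ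
  have hφi : Function.Injective φ := φ.injective
  have hφz : IsPrimitiveRoot (φ z) d := hz.map_of_injective hφi
  have hcard : (nthRootsFinset d (1 : K)).card = d := hz.card_nthRootsFinset
  have hμ : nthRootsFinset d (1 : Polynomial (Polynomial A)) =
      (nthRootsFinset d (1 : K)).image φ := by
    symm
    apply Finset.eq_of_subset_of_card_le
    · intro w hw
      obtain ⟨v, hv, rfl⟩ := Finset.mem_image.1 hw
      rw [mem_nthRootsFinset hd0] at hv ⊢
      rw [← map_pow, hv, map_one]
    · rw [Finset.card_image_of_injective _ hφi, hcard, hφz.card_nthRootsFinset]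
  have h1mem : (1 : K) ∈ nthRootsFinset d (1 : K) := by
    rw [mem_nthRootsFinset hd0, one_pow]
  set M : Polynomial (Polynomial A) := ∏ ζ ∈ (nthRootsFinset d (1 : K)).erase 1,
    (C (C (algebraMap K A ((1 - ζ) * η))) * X + C X) with hM
  have hcoef : ∀ ζ ∈ (nthRootsFinset d (1 : K)).erase 1, (1 - ζ) * η ≠ 0 := by
    intro ζ hζ
    have h1 := (Finset.mem_erase.1 hζ).1
    exact mul_ne_zero (sub_ne_zero.2 (Ne.symm h1)) hη0
  have hcoef' : ∀ ζ ∈ (nthRootsFinset d (1 : K)).erase 1,
      (C (algebraMap K A ((1 - ζ) * η)) : Polynomial A) ≠ 0 := by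
    intro ζ hζ
    rw [Ne, C_eq_zero]
    exact (map_ne_zero_iff _ (algebraMap K A).injective).2 (hcoef ζ hζ)
  refine ⟨η, M, hη0, ?_, ?_, ?_⟩
  · rw [hM, natDegree_prod]
    · rw [Finset.sum_congr rfl fun ζ hζ => natDegree_linear (hcoef' ζ hζ)]
      rw [Finset.sum_const, Finset.card_erase_of_mem h1mem, hcard]
      simp
      omega
    · intro ζ hζ h0
      have h1 := natDegree_linear (b := (X : Polynomial A)) (hcoef' ζ hζ)
      rw [h0, natDegree_zero] at h1
      exact zero_ne_one h1
  · rw [hM, leadingCoeff_prod]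
    apply Finset.prod_induction _ IsUnit (fun a b ha hb => ha.mul hb) isUnit_one
    intro ζ hζ
    rw [leadingCoeff_linear (hcoef' ζ hζ)]
    exact ((IsUnit.mk0 _ (hcoef ζ hζ)).map (algebraMap K A)).map C
  · have h1 : (C X + C (C (algebraMap K A η)) * X : Polynomial (Polynomial A)) ^ d + X ^ d =
        (C X + φ η * X) ^ d - (φ η * X) ^ d := by
      have e : (φ η * X : Polynomial (Polynomial A)) ^ d = - X ^ d := by
        rw [mul_pow, ← map_pow, hη, map_neg, map_one]
        ring
      rw [e]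
      have e2 : φ η = C (C (algebraMap K A η)) := rfl
      rw [e2]
      ring
    rw [h1, hφz.pow_sub_pow_eq_prod_sub_mul _ _ hd0, hμ, Finset.prod_image (fun a _ b _ h => hφi h),
      ← Finset.mul_prod_erase _ _ h1mem]
    congr 1
    · rw [map_one]
      ring
    · rw [hM]
      apply Finset.prod_congr rfl
      intro ζ _
      have e : (C (C (algebraMap K A ((1 - ζ) * η))) : Polynomial (Polynomial A)) =
          φ ((1 - ζ) * η) := rfl
      rw [e, map_mul, map_sub, map_one]
      ring

end Pool.Agent.HCF
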