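import Pool.Agent.HCF.W1
import Pool.Agent.HCF.W2a
import Pool.Agent.HCF.U2

namespace Pool.Agent.HCF

open Pool.Agent.HCH Polynomial

private theorem w2_push {K R R' : Type} [Field K] [CommRing R] [CommRing R'] [Algebra K R]
    [Algebra K R'] [Algebra.FiniteType K R] [Algebra.FiniteType K R'] (φ : R →ₐ[K] R')
    (hfin : (φ : R →+* R').Finite) (hinj : Function.Injective φ) (f : R) (e : ℕ)
    (h : AT K (φ f) e) : AT K f e := by
  let _ : Algebra R R' := (φ : R →+* R').toAlgebra
  have : IsScalarTower K R R' := IsScalarTower.of_algebraMap_eq (fun x => (φ.commutes x).symm)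
  have : Module.Finite R R' := hfin
  have : FaithfulSMul R R' := (faithfulSMul_iff_algebraMap_injective R R').2 hinj
  refine push_AT (K := K) (R' := R') f e ?_ h
  intro p _
  exact Algebra.IsIntegral.comap_surjective R R' p

/-
Step (a). PROOF. Let M be as in exists_M, Θ = aeval (- M) : B[X] → B[X], B = A[X]: finite (comp_finite
for - M) and injective (comp_inj). Θ (rel f) = C (C f) - (- M) * C X = C (C f) + C X * M. push_AT (U2)
for the algebra structure Θ.toRingHom.toAlgebra (IsScalarTower over K), lying over: injective and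
integral (Ideal.exists_ideal_over_prime_of_isIntegral or the surjectivity of comap). So
AT K (C (C f) + C X * M) (e + 1) implies AT K (rel f) (e + 1). And
C (C f) + C X * M = C (C f) + (C X + η X) ^ d + X ^ d is the image of C (C f) + (C X) ^ d + X ^ d under
the automorphism of A[X][X] with C X ↦ C X + η X, X ↦ X, identity on A (construct it with aevalAeval or
evalEval, inverse with - η): AT_equiv (U2).
-/
theorem stepA {K : Type} [Field K] [IsAlgClosed K] [CharZero K] (d : ℕ) (hd : 2 ≤ d)
    (A : Type) [CommRing A] [IsDomain A] [Algebra K A] [Algebra.FiniteType K A] (f : A) (e : ℕ)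
    (h : AT K (C (C f) + C X ^ d + X ^ d : Polynomial (Polynomial A)) e) :
    AT K (rel f) e := by
  obtain ⟨η, M, hη, hM1, hMu, hM⟩ := exists_M (K := K) d hd A
  -- the automorphism
  have hψ : ∃ ψ : Polynomial (Polynomial A) ≃ₐ[K] Polynomial (Polynomial A),
      ψ (C X) = C X - C (C (algebraMap K A η)) * X ∧ ψ X = X ∧ ∀ a : A, ψ (C (C a)) = C (C a) := by
    refine ⟨(((Polynomial.Bivariate.swap (R := A)).restrictScalars K).trans
      ((Polynomial.algEquivAevalXAddC (-(C (algebraMap K A η) * X) : Polynomial A)).restrictScalars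
        K)).trans ((Polynomial.Bivariate.swap (R := A)).restrictScalars K), ?_, ?_, ?_⟩
    · change Polynomial.Bivariate.swap (Polynomial.algEquivAevalXAddC
        (-(C (algebraMap K A η) * X) : Polynomial A) (Polynomial.Bivariate.swap (C X))) = _
      rw [Polynomial.Bivariate.swap_X]
      have h1 : Polynomial.algEquivAevalXAddC (-(C (algebraMap K A η) * X) : Polynomial A) X =
          X + C (-(C (algebraMap K A η) * X)) := Polynomial.aeval_X _
      rw [h1, map_add, Polynomial.Bivariate.swap_Y, map_neg C, map_mul C, map_neg, map_mul,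
        Polynomial.Bivariate.swap_C_C, Polynomial.Bivariate.swap_X]
      ring
    · change Polynomial.Bivariate.swap (Polynomial.algEquivAevalXAddC
        (-(C (algebraMap K A η) * X) : Polynomial A) (Polynomial.Bivariate.swap X)) = _
      rw [Polynomial.Bivariate.swap_Y]
      have h1 : Polynomial.algEquivAevalXAddC (-(C (algebraMap K A η) * X) : Polynomial A) (C X) =
          C X := Polynomial.aeval_C _ _
      rw [h1, Polynomial.Bivariate.swap_X]
    · intro a
      change Polynomial.Bivariate.swap (Polynomial.algEquivAevalXAddC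
        (-(C (algebraMap K A η) * X) : Polynomial A) (Polynomial.Bivariate.swap (C (C a)))) = _
      rw [Polynomial.Bivariate.swap_C_C]
      have h1 : Polynomial.algEquivAevalXAddC (-(C (algebraMap K A η) * X) : Polynomial A)
          (C (C a)) = C (C a) := Polynomial.aeval_C _ _
      rw [h1, Polynomial.Bivariate.swap_C_C]
  obtain ⟨ψ, hψX, hψY, hψC⟩ := hψ
  have h1 : AT K (C (C f) + (C X + C (C (algebraMap K A η)) * X) ^ d + X ^ d :
      Polynomial (Polynomial A)) e := by
    apply AT_equiv ψ
    have h2 : ψ (C (C f) + (C X + C (C (algebraMap K A η)) * X) ^ d + X ^ d) =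
        C (C f) + C X ^ d + X ^ d := by
      rw [map_add, map_add, map_pow, map_pow, map_add, map_mul, hψC, hψC, hψX, hψY]
      ring
    rw [h2]
    exact h
  have hM1' : 1 ≤ (-M).natDegree := by rwa [natDegree_neg]
  have hMu' : IsUnit (-M).leadingCoeff := by
    rw [leadingCoeff_neg]
    exact hMu.neg
  refine w2_push (K := K) ((Polynomial.aeval (R := Polynomial A) (-M)).restrictScalars K)
    (comp_finite (-M) hM1' hMu') (comp_inj (-M) hM1') (rel f) e ?_
  have h3 : ((Polynomial.aeval (R := Polynomial A) (-M)).restrictScalars K) (rel f) =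
      C (C f) + (C X + C (C (algebraMap K A η)) * X) ^ d + X ^ d := by
    change Polynomial.aeval (-M) (rel f) = _
    unfold rel
    rw [map_sub, map_mul, aeval_C, aeval_C, aeval_X, add_assoc, ← hM]
    change C (C f) - -M * C X = _
    ring
  rw [h3]
  exact h1

end Pool.Agent.HCF
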