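import Pool.Agent.HCF.W3a
import Pool.Agent.HCF.W2
import Pool.Agent.HCF.S11

namespace Pool.Agent.HCF

open Pool.Agent.HCH

theorem aff_desc {K : Type} [Field K] [IsAlgClosed K] [CharZero K] {m : ℕ} (d : ℕ) (hd : 2 ≤ d)
    (f : MvPolynomial (Fin m) K) (e : ℕ) (he : e + 1 < m) (h : AT K (suspA d f) (e + 1)) :
    AT K f e := by
  obtain ⟨φ, hφ⟩ := exists_equiv (K := K) d m f
  apply stepB m e he f
  apply stepA d hd _ f (e + 1)
  apply AT_equiv φ.symm
  rw [← hφ, AlgEquiv.symm_apply_apply]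
  exact h

end Pool.Agent.HCF
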