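import Pool.Agent.HCF.N0
import Pool.Agent.HCF.W3

namespace Pool.Agent.HCF

open MvPolynomial Pool.Agent.HCH

variable {K : Type} [Field K]

theorem isSusp_trans {D m M N : ℕ} {f : MvPolynomial (Fin m) K} {g : MvPolynomial (Fin M) K}
    {h : MvPolynomial (Fin N) K} (h1 : IsSusp D f g) (h2 : IsSusp D g h) : IsSusp D f h := by
  classical
  obtain ⟨ι, hι, rfl⟩ := h1
  obtain ⟨κ, hκ, rfl⟩ := h2
  refine ⟨κ ∘ ι, hκ.comp hι, ?_⟩
  rw [map_add, rename_rename, add_assoc]
  congr 1
  rw [map_sum]
  have h3 : (Finset.univ.filter fun l => l ∉ Set.range (κ ∘ ι)) =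
      (Finset.univ.filter fun l => l ∉ Set.range ι).image κ ∪
        Finset.univ.filter fun l => l ∉ Set.range κ := by
    ext l
    simp only [Finset.mem_filter, Finset.mem_univ, true_and, Finset.mem_union, Finset.mem_image,
      Set.mem_range, Function.comp_apply, not_exists]
    constructor
    · intro hl
      by_cases hk : ∃ x, κ x = l
      · obtain ⟨x, rfl⟩ := hk
        left
        exact ⟨x, fun y hy => hl y (by rw [hy]), rfl⟩
      · right
        intro x hx
        exact hk ⟨x, hx⟩
    · rintro (⟨x, hx, rfl⟩ | hl) y hy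
      · exact hx y (hκ hy)
      · exact hl _ hy
  rw [h3, Finset.sum_union, Finset.sum_image (fun x _ y _ hxy => hκ hxy)]
  · congr 1
    apply Finset.sum_congr rfl
    intro x _
    rw [map_pow, rename_X]
  · rw [Finset.disjoint_left]
    intro l hl hl'
    obtain ⟨x, _, rfl⟩ := Finset.mem_image.mp hl
    exact (Finset.mem_filter.mp hl').2 ⟨x, rfl⟩

theorem isSusp_suspA {D m : ℕ} (f : MvPolynomial (Fin m) K) : IsSusp D f (suspA D f) := by
  classical
  refine ⟨Fin.succ ∘ Fin.succ, (Fin.succ_injective _).comp (Fin.succ_injective _), ?_⟩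
  unfold suspA
  rw [add_assoc]
  congr 1
  have h3 : (Finset.univ.filter fun l : Fin (m + 2) => l ∉ Set.range (Fin.succ ∘ Fin.succ)) =
      {0, 1} := by
    ext l
    simp only [Finset.mem_filter, Finset.mem_univ, true_and, Set.mem_range, Function.comp_apply,
      not_exists, Finset.mem_insert, Finset.mem_singleton]
    constructor
    · intro hl
      refine Fin.cases (fun _ => Or.inl rfl) (fun i => ?_) l (motive := fun l => (∀ x : Fin m, ¬ x.succ.succ = l) → l = 0 ∨ l = 1) hl
      intro hl
      refine Fin.cases (fun _ => Or.inr rfl) (fun j => ?_) i (motive := fun i => (∀ x : Fin m, ¬ x.succ.succ = i.succ) → i.succ = 0 ∨ i.succ = 1) hl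
      intro hl
      exact absurd rfl (hl j)
    · rintro (rfl | rfl) x hx
      · exact Fin.succ_ne_zero _ hx
      · have : x.succ = 0 := Fin.succ_injective _ hx
        exact Fin.succ_ne_zero _ this
  rw [h3, Finset.sum_pair]
  intro h
  exact absurd (congrArg Fin.val h) (by simp)

/-- Two suspensions of the same form in the same number of variables differ by a permutation of
the variables. -/
theorem isSusp_perm {D m M : ℕ} {f : MvPolynomial (Fin m) K} {g h : MvPolynomial (Fin M) K}
    (h1 : IsSusp D f g) (h2 : IsSusp D f h) : ∃ σ : Equiv.Perm (Fin M), rename σ g = h := by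
  classical
  obtain ⟨ι, hι, rfl⟩ := h1
  obtain ⟨κ, hκ, rfl⟩ := h2
  let e : {x // x ∈ Set.range ι} ≃ {x // x ∈ Set.range κ} :=
    (Equiv.ofInjective ι hι).symm.trans (Equiv.ofInjective κ hκ)
  refine ⟨e.extendSubtype, ?_⟩
  have h3 : ∀ a, e.extendSubtype (ι a) = κ a := by
    intro a
    rw [Equiv.extendSubtype_apply_of_mem e (ι a) ⟨a, rfl⟩]
    have : (Equiv.ofInjective ι hι).symm ⟨ι a, ⟨a, rfl⟩⟩ = a := by
      rw [Equiv.symm_apply_eq]
      rfl
    simp only [e, Equiv.trans_apply, this]
    rfl
  rw [map_add, rename_rename, map_sum]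
  congr 1
  · congr 2
    funext a
    exact h3 a
  · refine Finset.sum_bij (fun l _ => e.extendSubtype l) ?_ ?_ ?_ ?_
    · intro l hl
      have hl' := (Finset.mem_filter.mp hl).2
      exact Finset.mem_filter.mpr ⟨Finset.mem_univ _, e.extendSubtype_not_mem l hl'⟩
    · intro a _ b _ hab
      exact e.extendSubtype.injective hab
    · intro l hl
      have hl' := (Finset.mem_filter.mp hl).2
      refine ⟨e.extendSubtype.symm l, ?_, by simp⟩
      rw [Finset.mem_filter]
      refine ⟨Finset.mem_univ _, ?_⟩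
      rintro ⟨a, ha⟩
      apply hl'
      refine ⟨a, ?_⟩
      rw [← h3 a, ha, Equiv.apply_symm_apply]
    · intro l _
      rw [map_pow, rename_X]

/-- The `r`-fold suspension. -/
noncomputable def susA {m : ℕ} (D : ℕ) (f : MvPolynomial (Fin m) K) :
    ∀ r : ℕ, MvPolynomial (Fin (m + 2 * r)) K
  | 0 => f
  | r + 1 => suspA D (susA D f r)

theorem isSusp_self {D m : ℕ} (f : MvPolynomial (Fin m) K) : IsSusp D f f := by
  classical
  refine ⟨id, Function.injective_id, ?_⟩
  have : (Finset.univ.filter fun l : Fin m => l ∉ Set.range (id : Fin m → Fin m)) = ∅ := by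
    ext l
    simp
  rw [this, Finset.sum_empty, add_zero, rename_id, AlgHom.id_apply]

theorem isSusp_susA {m : ℕ} (D : ℕ) (f : MvPolynomial (Fin m) K) (r : ℕ) :
    IsSusp D f (susA D f r) := by
  induction r with
  | zero => exact isSusp_self f
  | succ r ih => exact isSusp_trans ih (isSusp_suspA _)

theorem AT_susA [IsAlgClosed K] [CharZero K] {m : ℕ} (D : ℕ) (hD : 2 ≤ D)
    (f : MvPolynomial (Fin m) K) (e r : ℕ) (he : e + 1 < m) (h : AT K (susA D f r) (e + r)) :
    AT K f e := by
  induction r with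
  | zero => exact h
  | succ r ih =>
    apply ih
    exact aff_desc D hD (susA D f r) (e + r) (by omega) h

/-- The torsion of the Chow group descends from suspensions. -/
theorem AT_susp [IsAlgClosed K] [CharZero K] {m M : ℕ} (D : ℕ) (hD : 2 ≤ D)
    (f : MvPolynomial (Fin m) K) (g : MvPolynomial (Fin M) K) (hg : IsSusp D f g) (e r : ℕ)
    (he : e + 1 < m) (hM : M = m + 2 * r) (h : AT K g (e + r)) : AT K f e := by
  subst hM
  obtain ⟨σ, hσ⟩ := isSusp_perm (isSusp_susA D f r) hg
  apply AT_susA D hD f e r he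
  apply AT_equiv (renameEquiv K σ) (susA D f r) (e + r)
  change AT K (rename σ (susA D f r)) (e + r)
  rw [hσ]
  exact h

end Pool.Agent.HCF
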