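import Pool.Agent.HCF.N2
import Pool.Agent.HCF.N5
import Pool.Agent.HCF.N6
import Pool.Agent.HCH.H2
import Pool.Agent.HCH.P3
import Pool.Agent.HCH.P4
import Pool.Agent.HCH.P6
import Pool.Agent.HCH.E7
import Pool.Agent.HCH.J1

namespace Pool.Agent.HCF

open MvPolynomial Pool.Agent.HCH

theorem susp_deh {K : Type} [Field K] {m M D : ℕ} (G : MvPolynomial (Fin (m + 1)) K)
    (V : MvPolynomial (Fin (M + 1)) K) (h : IsSusp D G V) :
    ∃ σ : Equiv.Perm (Fin (M + 1)), IsSusp D (deh G) (deh (rename σ V)) := by
  classical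
  obtain ⟨ι, hι, rfl⟩ := h
  let σ : Equiv.Perm (Fin (M + 1)) := Equiv.swap (ι (Fin.last m)) (Fin.last M)
  have hσ : σ (ι (Fin.last m)) = Fin.last M := Equiv.swap_apply_left _ _
  have hne : ∀ a : Fin m, σ (ι a.castSucc) ≠ Fin.last M := by
    intro a ha
    rw [← hσ] at ha
    have := hι (σ.injective ha)
    exact (Fin.castSucc_lt_last a).ne this
  let κ : Fin m → Fin M := fun a => (σ (ι a.castSucc)).castPred (hne a)
  have hκ : ∀ a, (κ a).castSucc = σ (ι a.castSucc) := fun a => Fin.castSucc_castPred _ _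
  have hκi : Function.Injective κ := by
    intro a b hab
    have := congrArg Fin.castSucc hab
    rw [hκ, hκ] at this
    exact Fin.castSucc_injective _ (hι (σ.injective this))
  refine ⟨σ, κ, hκi, ?_⟩
  rw [map_add, rename_rename, map_add]
  congr 1
  · have h1 : ((deh : MvPolynomial (Fin (M + 1)) K →ₐ[K] MvPolynomial (Fin M) K).comp
        (rename (σ ∘ ι))) = (rename κ).comp
        (deh : MvPolynomial (Fin (m + 1)) K →ₐ[K] MvPolynomial (Fin m) K) := by
      apply MvPolynomial.algHom_ext
      intro k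
      refine Fin.lastCases ?_ (fun j => ?_) k
      · rw [AlgHom.comp_apply, rename_X, Function.comp_apply, hσ]
        simp [deh]
      · rw [AlgHom.comp_apply, rename_X, Function.comp_apply, ← hκ]
        simp [deh]
    exact congrArg (fun φ : MvPolynomial (Fin (m + 1)) K →ₐ[K] MvPolynomial (Fin M) K => φ G) h1
  · rw [map_sum, map_sum]
    symm
    refine Finset.sum_bij (fun l _ => σ.symm l.castSucc) ?_ ?_ ?_ ?_
    · intro l hl
      have hl' := (Finset.mem_filter.mp hl).2
      rw [Finset.mem_filter]
      refine ⟨Finset.mem_univ _, ?_⟩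
      rintro ⟨a, ha⟩
      have ha' : σ (ι a) = l.castSucc := by rw [ha, Equiv.apply_symm_apply]
      refine Fin.lastCases (fun ha' => ?_) (fun j ha' => ?_) a
        (motive := fun a => σ (ι a) = l.castSucc → False) ha'
      · rw [hσ] at ha'
        exact (Fin.castSucc_lt_last l).ne ha'.symm
      · rw [← hκ] at ha'
        exact hl' ⟨j, Fin.castSucc_injective _ ha'⟩
    · intro a _ b _ hab
      exact Fin.castSucc_injective _ (σ.symm.injective hab)
    · intro l hl
      have hl' := (Finset.mem_filter.mp hl).2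
      have h2 : σ l ≠ Fin.last M := by
        intro h3
        rw [← hσ] at h3
        exact hl' ⟨_, (σ.injective h3).symm⟩
      refine ⟨(σ l).castPred h2, ?_, ?_⟩
      · rw [Finset.mem_filter]
        refine ⟨Finset.mem_univ _, ?_⟩
        rintro ⟨a, ha⟩
        have h4 := congrArg Fin.castSucc ha
        rw [hκ, Fin.castSucc_castPred] at h4
        exact hl' ⟨_, σ.injective h4⟩
      · rw [Fin.castSucc_castPred, Equiv.symm_apply_apply]
    · intro l _
      rw [map_pow, rename_X, map_pow, Equiv.apply_symm_apply]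
      simp [deh]

theorem hart_rename {K : Type} [Field K] {m : ℕ} (σ : Equiv.Perm (Fin m))
    (V : MvPolynomial (Fin m) K) (j : ℕ) (h : Hart V j) : Hart (rename σ V) j := by
  apply hart_equiv (RingEquiv.refl K) (renameEquiv K σ.symm).toRingEquiv
  · intro a
    change rename _ (C a) = C a
    rw [rename_C]
  · intro f a hf
    exact hf.rename_isHomogeneous
  · intro f a hf
    exact hf.rename_isHomogeneous
  · have : (renameEquiv K σ.symm).toRingEquiv (rename σ V) = V := by
      change rename σ.symm (rename σ V) = V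
      rw [rename_rename]
      have : (σ.symm : Fin m → Fin m) ∘ σ = id := by
        funext x
        simp
      rw [this, rename_id, AlgHom.id_apply]
    rw [this]
    exact h

theorem lin_mul {K : Type} [Field K] {m : ℕ} (A B : Matrix (Fin m) (Fin m) K)
    (F : MvPolynomial (Fin m) K) : lin A (lin B F) = lin (B * A) F := by
  have h : (lin A : MvPolynomial (Fin m) K →ₐ[K] MvPolynomial (Fin m) K).comp (lin B) =
      lin (B * A) := by
    apply MvPolynomial.algHom_ext
    intro a
    simp only [AlgHom.comp_apply, lin, aeval_X, map_sum, map_mul, aeval_C, algebraMap_eq,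
      Matrix.mul_apply, Finset.mul_sum, Finset.sum_mul]
    rw [Finset.sum_comm]
    apply Finset.sum_congr rfl
    intro k _
    apply Finset.sum_congr rfl
    intro b _
    rw [mul_assoc]
  exact congrArg (fun φ : MvPolynomial (Fin m) K →ₐ[K] MvPolynomial (Fin m) K => φ F) h

theorem lin_one {K : Type} [Field K] {m : ℕ} (F : MvPolynomial (Fin m) K) :
    lin (1 : Matrix (Fin m) (Fin m) K) F = F := by
  classical
  have h : (lin 1 : MvPolynomial (Fin m) K →ₐ[K] MvPolynomial (Fin m) K) = AlgHom.id K _ := by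
    apply MvPolynomial.algHom_ext
    intro a
    simp only [lin, aeval_X, AlgHom.id_apply]
    rw [Finset.sum_eq_single a]
    · rw [Matrix.one_apply_eq, C_1, one_mul]
    · intro b _ hb
      rw [Matrix.one_apply_ne hb.symm, C_0, zero_mul]
    · intro ha
      exact absurd (Finset.mem_univ a) ha
  rw [h, AlgHom.id_apply]

theorem hart_lin {K : Type} [Field K] {m : ℕ} (A : Matrix (Fin m) (Fin m) K) (hA : A.det ≠ 0)
    (F : MvPolynomial (Fin m) K) (j : ℕ) (h : Hart (lin A F) j) : Hart F j := by
  have hu : IsUnit A.det := isUnit_iff_ne_zero.mpr hA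
  let Φ : MvPolynomial (Fin m) K ≃+* MvPolynomial (Fin m) K :=
    { toFun := lin A
      invFun := lin A⁻¹
      left_inv := fun x => by rw [lin_mul, Matrix.mul_nonsing_inv A hu, lin_one]
      right_inv := fun x => by rw [lin_mul, Matrix.nonsing_inv_mul A hu, lin_one]
      map_mul' := map_mul _
      map_add' := map_add _ }
  apply hart_equiv (RingEquiv.refl K) Φ
  · intro a
    exact (lin A).commutes a
  · intro f a hf
    exact lin_homog A f hf
  · intro f a hf
    exact lin_homog A⁻¹ f hf
  · exact h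

theorem smooth_lin {m : ℕ} (A : Matrix (Fin m) (Fin m) ℂ) (hA : A.det ≠ 0)
    (F : MvPolynomial (Fin m) ℂ) (hs : Smooth F) : Smooth (lin A F) := by
  intro x hx
  have hu : IsUnit A.det := isUnit_iff_ne_zero.mpr hA
  have h1 : (Matrix.vecMul (fun a => eval (A.mulVec x) (pderiv a F)) A) = 0 := by
    funext k
    have h2 := hx k
    rw [pderiv_lin, map_sum] at h2
    rw [Matrix.vecMul, dotProduct, Pi.zero_apply, ← h2]
    apply Finset.sum_congr rfl
    intro a _
    rw [map_mul, eval_lin, eval_C]
  have h3 : (fun a => eval (A.mulVec x) (pderiv a F)) = 0 := by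
    have h4 : Matrix.vecMul (Matrix.vecMul (fun a => eval (A.mulVec x) (pderiv a F)) A) A⁻¹ =
        (fun a => eval (A.mulVec x) (pderiv a F)) := by
      rw [Matrix.vecMul_vecMul, Matrix.mul_nonsing_inv A hu, Matrix.vecMul_one]
    rw [← h4, h1, Matrix.zero_vecMul]
  have h5 : A.mulVec x = 0 := hs _ (fun k => congrFun h3 k)
  have h9 : A⁻¹.mulVec (A.mulVec x) = x := by
    rw [Matrix.mulVec_mulVec, Matrix.nonsing_inv_mul A hu, Matrix.one_mulVec]
  rw [← h9, h5, Matrix.mulVec_zero]

theorem expand_homog {K : Type} [Field K] {m e d : ℕ} (F : MvPolynomial (Fin m) K)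
    (hF : F.IsHomogeneous d) : (expand e F).IsHomogeneous (e * d) := by
  have := hF.aeval (fun a => (X a : MvPolynomial (Fin m) K) ^ e) (n := e) (fun a => by
    have := (isHomogeneous_X K a).pow e
    rwa [one_mul] at this)
  exact this

theorem susp_homog {K : Type} [Field K] {m M D : ℕ} (G : MvPolynomial (Fin m) K)
    (V : MvPolynomial (Fin M) K) (h : IsSusp D G V) (hG : G.IsHomogeneous D) :
    V.IsHomogeneous D := by
  classical
  obtain ⟨ι, hι, rfl⟩ := h
  apply hG.rename_isHomogeneous.add
  apply IsHomogeneous.sum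
  intro l _
  have := (isHomogeneous_X K l).pow D
  rwa [one_mul] at this

/-- One critical case follows from one of its suspended coverings. -/
theorem hart_red {j r k d : ℕ} (hj : 1 ≤ j) (hk : 1 ≤ k) (hd : 2 ≤ d)
    (F : MvPolynomial (Fin (2 * j + 1 + 2)) ℂ) (hF : F.IsHomogeneous d) (hs : Smooth F)
    (A : Matrix (Fin (2 * j + 1 + 2)) (Fin (2 * j + 1 + 2)) ℂ) (hA : A.det ≠ 0)
    (V : MvPolynomial (Fin (2 * (j + r) + 1 + 2)) ℂ)
    (hV : IsSusp (d * k) (expand k (lin A F)) V) (hlow : Hart (rhoI (lin A F)) (j - 1))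
    (h : Hart V (j + r)) : Hart F j := by
  have hGh : (expand k (lin A F)).IsHomogeneous (d * k) := by
    rw [mul_comm d k]
    exact expand_homog _ (lin_homog A F hF)
  obtain ⟨σ, hσ⟩ := susp_deh _ V hV
  have hVh : (rename σ V).IsHomogeneous (d * k) := (susp_homog _ V hV hGh).rename_isHomogeneous
  have h1 : Hart (rename σ V) (j + r) := hart_rename σ V _ h
  have h2 := hart_affine (rename σ V) hVh (j + r) (by omega) (by omega) h1
  have h3 : AT ℂ (deh (expand k (lin A F))) (j + 1) := by
    apply AT_susp (d * k) (by nlinarith) _ _ hσ (j + 1) r (by omega) (by omega)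
    have e1 : 2 * (j + r) + 1 - (j + r) = j + 1 + r := by omega
    rw [e1] at h2
    exact h2
  have h4 := AT_cover hk (lin A F) (j + 1) h3
  have hs' := sg_of_smooth (lin A F) (smooth_lin A hA F hs)
  obtain ⟨hp, hdm⟩ := prime_of_sg (lin A F) (lin_homog A F hF) (by omega) 0 hs' (by omega)
  apply hart_lin A hA F j
  apply hart_of_affine (lin A F) (lin_homog A F hF) hp hdm j hj (by omega) hlow
  have e2 : 2 * j + 1 - j = j + 1 := by omega
  rw [e2]
  exact h4

end Pool.Agent.HCF
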