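import Pool.Agent.HCF.N4
import Pool.Agent.HCF.N7
import Pool.Agent.HCH.Final

namespace Pool.Agent.HCF

open MvPolynomial Pool.Agent.HCH

theorem cl_rhoI_lin {Cl : ∀ m : ℕ, MvPolynomial (Fin m) ℂ → Prop} (hCl : SecClosed Cl) {m : ℕ}
    (A : Matrix (Fin (m + 1)) (Fin (m + 1)) ℂ) (F : MvPolynomial (Fin (m + 1)) ℂ)
    (h : Cl _ F) : Cl _ (rhoI (lin A F)) := by
  have h1 := hCl (m + 1) m (RingHom.id ℂ) (fun k => rhoI (lin A (X k)))
    (fun k => rhoI_homog _ (lin_homog A _ (isHomogeneous_X ℂ k))) F h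
  have h2 : lsec (RingHom.id ℂ) (fun k => rhoI (lin A (X k))) F = rhoI (lin A F) := by
    have h3 : (aeval (fun k => rhoI (lin A (X k))) :
        MvPolynomial (Fin (m + 1)) ℂ →ₐ[ℂ] MvPolynomial (Fin m) ℂ) =
        (rhoI : MvPolynomial (Fin (m + 1)) ℂ →ₐ[ℂ] MvPolynomial (Fin m) ℂ).comp (lin A) := by
      apply MvPolynomial.algHom_ext
      intro k
      rw [aeval_X, AlgHom.comp_apply]
    unfold lsec
    rw [RingHom.comp_id]
    exact congrArg (fun φ : MvPolynomial (Fin (m + 1)) ℂ →ₐ[ℂ] MvPolynomial (Fin m) ℂ => φ F) h3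
  rwa [h2] at h1

/-- The descent: every critical case may be replaced by one of its suspended coverings. -/
theorem final1 (d i : ℕ) (hd : 2 ≤ d) (Cl : ∀ m : ℕ, MvPolynomial (Fin m) ℂ → Prop)
    (hCl : SecClosed Cl) (hdeg : ∀ m F, Cl m F → F.IsHomogeneous d) :
    (∀ j, 1 ≤ j → j ≤ i → ∀ F : MvPolynomial (Fin (2 * j + 1 + 2)) ℂ, Cl _ F → Smooth F →
      ∃ (r k : ℕ) (A : Matrix (Fin (2 * j + 1 + 2)) (Fin (2 * j + 1 + 2)) ℂ)
        (V : MvPolynomial (Fin (2 * (j + r) + 1 + 2)) ℂ), 1 ≤ k ∧ A.det ≠ 0 ∧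
        IsSusp (d * k) (expand k (lin A F)) V ∧ ChowTriv V (j + r)) ↔
    ∀ j, 1 ≤ j → j ≤ i → ∀ n r, 2 * j + r + 1 ≤ n → ∀ F : MvPolynomial (Fin (n + 2)) ℂ,
      Cl _ F → SgLe F r → ChowTriv F j := by
  constructor
  · intro h
    have hcrit : ∀ i' ≤ i, ∀ j, 1 ≤ j → j ≤ i' → ∀ F : MvPolynomial (Fin (2 * j + 1 + 2)) ℂ,
        Cl _ F → Smooth F → ChowTriv F j := by
      intro i'
      induction i' with
      | zero => intro _ j h1 h2; omega
      | succ i' ih =>
        intro hi' j hj hji F hc hs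
        by_cases hlt : j ≤ i'
        · exact ih (by omega) j hj hlt F hc hs
        · have hji' : j = i' + 1 := by omega
          subst hji'
          obtain ⟨r, k, A, V, hk, hA, hV, hct⟩ := h (i' + 1) hj hi' F hc hs
          have hF := hdeg _ F hc
          have hsl : SgLe (rhoI (lin A F)) 1 :=
            sg_rhoI _ (lin_homog A F hF) hd 0 (sg_of_smooth _ (smooth_lin A hA F hs))
          have hlow : Hart (rhoI (lin A F)) (i' + 1 - 1) := by
            rw [Nat.add_sub_cancel]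
            by_cases h0 : i' = 0
            · subst h0
              obtain ⟨hp, hdm⟩ := prime_of_sg (rhoI (lin A F)) (rhoI_homog _ (lin_homog A F hF))
                (by omega) 1 hsl (by omega)
              exact hart_zero _ hp hdm
            · apply hart_of_ct
              exact (final d i' hd Cl hCl hdeg).mp (ih (by omega)) i' (by omega) le_rfl
                (2 * (i' + 1)) 1 (by omega) (rhoI (lin A F)) (cl_rhoI_lin hCl A F hc) hsl
          have h5 := hart_red hj hk hd F hF hs A hA V hV hlow (hart_of_ct V _ hct)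
          exact ct_of_hart F hF _ h5
    exact (final d i hd Cl hCl hdeg).mp (hcrit i le_rfl)
  · intro h j hj hji F hc hs
    refine ⟨0, 1, 1, F, le_rfl, ?_, ?_, ?_⟩
    · rw [Matrix.det_one]
      exact one_ne_zero
    · rw [expand_one_apply, lin_one]
      exact isSusp_self F
    · exact h j hj hji (2 * j + 1) 0 (by omega) F hc (sg_of_smooth F hs)

end Pool.Agent.HCF
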