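import Pool.Agent.HCF.N0

namespace Pool.Agent.HCF

open MvPolynomial

/-- The span of the `D`-th powers of linear forms. -/
noncomputable def pw (m D : ℕ) : Submodule ℂ (MvPolynomial (Fin m) ℂ) :=
  Submodule.span ℂ {f | ∃ l : MvPolynomial (Fin m) ℂ, l.IsHomogeneous 1 ∧ f = l ^ D}

theorem pw_mul {m D : ℕ} (x l : MvPolynomial (Fin m) ℂ) (hx : x.IsHomogeneous 1)
    (hl : l.IsHomogeneous 1) : x * l ^ D ∈ pw m (D + 1) := by
  classical
  by_contra hcon
  obtain ⟨φ, hφ, hker⟩ := Submodule.exists_le_ker_of_notMem hcon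
  let p : Polynomial ℂ := ∑ k ∈ Finset.range (D + 1 + 1),
    Polynomial.monomial k (φ (((D + 1).choose k : MvPolynomial (Fin m) ℂ) *
      (x ^ k * l ^ (D + 1 - k))))
  have hp : ∀ t : ℂ, p.eval t = 0 := by
    intro t
    have h1 : (C t * x + l) ^ (D + 1) ∈ pw m (D + 1) := by
      apply Submodule.subset_span
      refine ⟨C t * x + l, ?_, rfl⟩
      apply IsHomogeneous.add _ hl
      have := (isHomogeneous_C (Fin m) t).mul hx
      rwa [zero_add] at this
    have h2 : φ ((C t * x + l) ^ (D + 1)) = 0 := LinearMap.mem_ker.mp (hker h1)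
    rw [add_pow, map_sum] at h2
    rw [← h2]
    simp only [p]
    rw [Polynomial.eval_finsetSum]
    apply Finset.sum_congr rfl
    intro k _
    rw [Polynomial.eval_monomial]
    have h3 : (C t * x) ^ k * l ^ (D + 1 - k) * ((D + 1).choose k : MvPolynomial (Fin m) ℂ) =
        (t ^ k) • (((D + 1).choose k : MvPolynomial (Fin m) ℂ) * (x ^ k * l ^ (D + 1 - k))) := by
      rw [mul_pow, ← C_pow, smul_eq_C_mul]
      ring
    rw [h3, map_smul, smul_eq_mul, mul_comm]
  have hp0 : p = 0 := Polynomial.funext (fun t => by rw [hp t, Polynomial.eval_zero])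
  have h4 : p.coeff 1 = 0 := by rw [hp0, Polynomial.coeff_zero]
  have h5 : p.coeff 1 = φ (((D + 1).choose 1 : MvPolynomial (Fin m) ℂ) *
      (x ^ 1 * l ^ (D + 1 - 1))) := by
    simp only [p]
    rw [Polynomial.finsetSum_coeff, Finset.sum_eq_single 1]
    · rw [Polynomial.coeff_monomial, if_pos rfl]
    · intro k _ hk
      rw [Polynomial.coeff_monomial, if_neg hk]
    · intro h
      exact absurd (Finset.mem_range.mpr (by omega)) h
  rw [h5, Nat.choose_one_right, pow_one, Nat.add_sub_cancel] at h4
  have h6 : ((D + 1 : ℕ) : MvPolynomial (Fin m) ℂ) * (x * l ^ D) =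
      ((D + 1 : ℕ) : ℂ) • (x * l ^ D) := by
    rw [smul_eq_C_mul]
    congr 1
  rw [h6, map_smul, smul_eq_mul] at h4
  rcases mul_eq_zero.mp h4 with h7 | h7
  · rw [Nat.cast_eq_zero] at h7
    omega
  · exact hφ h7

theorem pw_monomial {m : ℕ} (D : ℕ) (n : Fin m →₀ ℕ) (hn : n.degree = D) (c : ℂ) :
    monomial n c ∈ pw m D := by
  classical
  induction D generalizing n with
  | zero =>
    have h0 : n = 0 := by
      rwa [Finsupp.degree_eq_zero_iff] at hn
    subst h0
    have h1 : monomial (0 : Fin m →₀ ℕ) c = c • ((0 : MvPolynomial (Fin m) ℂ) ^ 0) := by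
      rw [pow_zero, smul_eq_C_mul, mul_one]
      rfl
    rw [h1]
    exact Submodule.smul_mem _ _ (Submodule.subset_span ⟨0, isHomogeneous_zero _ _ _, rfl⟩)
  | succ D ih =>
    obtain ⟨i, hi⟩ : ∃ i, n i ≠ 0 := by
      by_contra hcon
      push Not at hcon
      have : n = 0 := Finsupp.ext hcon
      rw [this, map_zero] at hn
      omega
    have h1 : n = Finsupp.single i 1 + (n - Finsupp.single i 1) := by
      ext k
      rw [Finsupp.add_apply, Finsupp.tsub_apply, Finsupp.single_apply]
      split_ifs with h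
      · subst h
        omega
      · omega
    have h2 : (n - Finsupp.single i 1).degree = D := by
      have h3 := congrArg Finsupp.degree h1
      rw [map_add, Finsupp.degree_single, hn] at h3
      omega
    have h3 := ih _ h2
    have h4 : monomial n c = X i * monomial (n - Finsupp.single i 1) c := by
      conv_lhs => rw [h1]
      rw [X, monomial_mul, one_mul]
    rw [h4]
    generalize monomial (n - Finsupp.single i 1) c = q at h3
    unfold pw at h3
    induction h3 using Submodule.span_induction with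
    | mem f hf =>
      obtain ⟨l, hl, rfl⟩ := hf
      exact pw_mul _ l (isHomogeneous_X ℂ i) hl
    | zero => rw [mul_zero]; exact Submodule.zero_mem _
    | add f g _ _ hf hg => rw [mul_add]; exact Submodule.add_mem _ hf hg
    | smul a f _ hf => rw [mul_smul_comm]; exact Submodule.smul_mem _ _ hf

/-- Waring: every form is a sum of powers of linear forms. -/
theorem waring {m D : ℕ} (hD : 1 ≤ D) (F : MvPolynomial (Fin m) ℂ) (hF : F.IsHomogeneous D) :
    ∃ (N : ℕ) (L : Fin N → MvPolynomial (Fin m) ℂ), (∀ l, (L l).IsHomogeneous 1) ∧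
      F = ∑ l, L l ^ D := by
  classical
  have h1 : F ∈ pw m D := by
    rw [← support_sum_monomial_coeff F]
    apply Submodule.sum_mem
    intro n hn
    apply pw_monomial
    rw [Finsupp.degree_eq_weight_one]
    exact hF (mem_support_iff.mp hn)
  unfold pw at h1
  rw [Submodule.mem_span_set'] at h1
  obtain ⟨N, f, g, hfg⟩ := h1
  have h2 : ∀ i, ∃ z : ℂ, z ^ D = f i := fun i => IsAlgClosed.exists_pow_nat_eq (f i) (by omega)
  choose z hz using h2
  have h3 : ∀ i, ∃ l : MvPolynomial (Fin m) ℂ, l.IsHomogeneous 1 ∧ (g i).1 = l ^ D :=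
    fun i => (g i).2
  choose l hl hgl using h3
  refine ⟨N, fun i => C (z i) * l i, ?_, ?_⟩
  · intro i
    have := (isHomogeneous_C (Fin m) (z i)).mul (hl i)
    rwa [zero_add] at this
  · rw [← hfg]
    apply Finset.sum_congr rfl
    intro i _
    rw [mul_pow, ← C_pow, hz, hgl, smul_eq_C_mul]

end Pool.Agent.HCF
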