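import Pool.Agent.HCF.N3
import Pool.Agent.HCF.N8
import Pool.Agent.HCF.NW

namespace Pool.Agent.HCF

open MvPolynomial Pool.Agent.HCH

theorem secClosed_homog (d : ℕ) :
    SecClosed (fun m (F : MvPolynomial (Fin m) ℂ) => F.IsHomogeneous d) := by
  intro m m' σ L hL F hF
  have h : lsec σ L F = aeval L (MvPolynomial.map σ F) := by
    unfold lsec
    rw [aeval_def, eval₂_map]
    rfl
  rw [h]
  have := (hF.map σ).aeval L hL
  rwa [one_mul] at this

/-- The reduction to linear sections of fixed codimension of Fermat hypersurfaces. -/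
theorem final2 (D : ℕ) (hD : 2 ≤ D) :
    (∀ c N : ℕ, ∃ i ≥ N, ∀ V : MvPolynomial (Fin (2 * i + 1 + 2)) ℂ,
      FermatSec D c V → Smooth V → ChowTriv V i) ↔
    ∀ d, 2 ≤ d → d ∣ D → ∀ j n r, 2 * j + r + 1 ≤ n → ∀ F : MvPolynomial (Fin (n + 2)) ℂ,
      F.IsHomogeneous d → SgLe F r → ChowTriv F j := by
  classical
  constructor
  · intro h d hd hdD j n r hn F hF hr
    rcases Nat.eq_zero_or_pos j with h0 | hj
    · subst h0
      obtain ⟨hp, hdm⟩ := prime_of_sg F hF (by omega) r hr (by omega)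
      exact ct_of_hart F hF 0 (hart_zero F hp hdm)
    refine (final1 d j hd (fun m (F : MvPolynomial (Fin m) ℂ) => F.IsHomogeneous d)
      (secClosed_homog d) (fun _ _ h => h)).mp ?_ j hj le_rfl n r hn F hF hr
    intro j' hj' _ F' hF' hs
    obtain ⟨k, rfl⟩ := hdD
    have hk : 1 ≤ k := by
      rcases Nat.eq_zero_or_pos k with h0 | h0
      · rw [h0, mul_zero] at hD
        omega
      · exact h0
    obtain ⟨A, hA, hT⟩ := good_lin F' hF' (by omega) hs
    have hG : Smooth (expand k (lin A F')) := smooth_expand hk (lin A F') hT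
    have hGh : (expand k (lin A F')).IsHomogeneous (d * k) := by
      rw [mul_comm d k]
      exact expand_homog _ (lin_homog A F' hF')
    obtain ⟨N, L, hL, hLG⟩ := waring (by omega) _ hGh
    have hfs := fermat_of_sum (by omega) _ L hL hLG
    obtain ⟨i, hi, hV⟩ := h N j'
    obtain ⟨r', rfl⟩ := Nat.exists_eq_add_of_le hi
    have hle : 2 * j' + 1 + 2 ≤ 2 * (j' + r') + 1 + 2 := by omega
    let ι : Fin (2 * j' + 1 + 2) → Fin (2 * (j' + r') + 1 + 2) := Fin.castLE hle
    let V : MvPolynomial (Fin (2 * (j' + r') + 1 + 2)) ℂ := rename ι (expand k (lin A F')) +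
      ∑ l ∈ Finset.univ.filter (fun l => l ∉ Set.range ι), X l ^ (d * k)
    have hVs : IsSusp (d * k) (expand k (lin A F')) V :=
      ⟨ι, Fin.castLE_injective hle, rfl⟩
    exact ⟨r', k, A, V, hk, hA, hVs, hV V (fermat_susp _ V hVs hfs) (smooth_susp hD _ V hVs hG)⟩
  · intro h c N
    refine ⟨N, le_rfl, ?_⟩
    intro V hV hs
    refine h D hD dvd_rfl N (2 * N + 1) 0 (by omega) V ?_ (sg_of_smooth V hs)
    obtain ⟨L, hL, rfl⟩ := hV
    apply IsHomogeneous.sum
    intro l _
    have := (hL l).pow D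
    rwa [one_mul] at this

end Pool.Agent.HCF
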