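import Pool.Agent.HCF.B0

/-!
The quadric fibration `f = y g`. In `Polynomial (Polynomial A)` the inner variable `C X` is `g` and the
outer variable `X` is `y`.
-/

namespace Pool.Agent.HCF

open Pool.Agent.HCH Polynomial

/-- The equation `f = y g`. -/
noncomputable def rel {A : Type} [CommRing A] (f : A) : Polynomial (Polynomial A) :=
  C (C f) - X * C X

/-- The prime of `A[g]` under a prime of `A[g, y]`. -/
noncomputable def low {A : Type} [CommRing A] (E : PrimeSpectrum (Polynomial (Polynomial A))) :
    PrimeSpectrum (Polynomial A) :=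
  PrimeSpectrum.comap (C : Polynomial A →+* Polynomial (Polynomial A)) E

/-- The exchange of the two variables. -/
noncomputable def swH (A : Type) [CommRing A] :
    Polynomial (Polynomial A) →+* Polynomial (Polynomial A) :=
  ((Polynomial.Bivariate.swap (R := A)).toRingEquiv : _ →+* _)

/-- The exchange of the two variables on primes. -/
noncomputable def sw {A : Type} [CommRing A] (E : PrimeSpectrum (Polynomial (Polynomial A))) :
    PrimeSpectrum (Polynomial (Polynomial A)) := PrimeSpectrum.comap (swH A) E

theorem swH_X (A : Type) [CommRing A] : swH A X = C X := Polynomial.Bivariate.swap_Y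

theorem swH_CX (A : Type) [CommRing A] : swH A (C X) = X := Polynomial.Bivariate.swap_X

theorem swH_CC (A : Type) [CommRing A] (a : A) : swH A (C (C a)) = C (C a) :=
  Polynomial.Bivariate.swap_C_C a

theorem swH_swH (A : Type) [CommRing A] (p : Polynomial (Polynomial A)) :
    swH A (swH A p) = p := Polynomial.Bivariate.swap_swap_apply p

theorem swH_C (A : Type) [CommRing A] (p : Polynomial A) : swH A (C p) = p.map C :=
  Polynomial.Bivariate.swap_C p

theorem swH_rel {A : Type} [CommRing A] (f : A) : swH A (rel f) = rel f := by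
  unfold rel
  rw [map_sub, map_mul, swH_X, swH_CX, swH_CC]
  ring

theorem swH_bij (A : Type) [CommRing A] : Function.Bijective (swH A) :=
  Function.bijective_iff_has_inverse.mpr ⟨swH A, swH_swH A, swH_swH A⟩

theorem sw_sw {A : Type} [CommRing A] (E : PrimeSpectrum (Polynomial (Polynomial A))) :
    sw (sw E) = E := by
  apply PrimeSpectrum.ext
  ext p
  change swH A (swH A p) ∈ E.asIdeal ↔ _
  rw [swH_swH]

theorem mem_sw {A : Type} [CommRing A] (E : PrimeSpectrum (Polynomial (Polynomial A)))
    (p : Polynomial (Polynomial A)) : p ∈ (sw E).asIdeal ↔ swH A p ∈ E.asIdeal := Iff.rfl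

theorem mem_low {A : Type} [CommRing A] (E : PrimeSpectrum (Polynomial (Polynomial A)))
    (p : Polynomial A) : p ∈ (low E).asIdeal ↔ C p ∈ E.asIdeal := Iff.rfl

instance ft_poly (K A : Type) [Field K] [CommRing A] [Algebra K A] [Algebra.FiniteType K A] :
    Algebra.FiniteType K (Polynomial A) :=
  Algebra.FiniteType.trans (S := A) inferInstance inferInstance

open Classical in
/-- The closures in the space of `(x, g)` of the components not contained in `g = 0`. -/
noncomputable def mo (A : Type) [CommRing A] :
    (PrimeSpectrum (Polynomial (Polynomial A)) →₀ ℤ) →+ (PrimeSpectrum (Polynomial A) →₀ ℤ) :=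
  Finsupp.liftAddHom (fun E => zmultiplesHom (PrimeSpectrum (Polynomial A) →₀ ℤ)
    (if C X ∈ E.asIdeal then 0 else Finsupp.single (low E) 1))

open Classical in
theorem mo_single {A : Type} [CommRing A] (E : PrimeSpectrum (Polynomial (Polynomial A))) (n : ℤ) :
    mo A (Finsupp.single E n) = n • (if C X ∈ E.asIdeal then 0 else Finsupp.single (low E) 1) := by
  simp [mo]

/-- The exchange of the variables on cycles. -/
noncomputable def swz (A : Type) [CommRing A] :
    (PrimeSpectrum (Polynomial (Polynomial A)) →₀ ℤ) →+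
      (PrimeSpectrum (Polynomial (Polynomial A)) →₀ ℤ) :=
  Finsupp.mapDomain.addMonoidHom sw

/-- Restriction of cycles to a closed subvariety. -/
noncomputable def rs {K R R' : Type} [Field K] [CommRing R] [CommRing R'] [Algebra K R]
    [Algebra K R'] (π : R →ₐ[K] R') (hπ : Function.Surjective π) :
    (PrimeSpectrum R →₀ ℤ) →+ (PrimeSpectrum R' →₀ ℤ) :=
  Finsupp.comapDomain.addMonoidHom (f := PrimeSpectrum.comap (π : R →+* R'))
    (PrimeSpectrum.comap_injective_of_surjective (π : R →+* R') hπ)

theorem rs_apply {K R R' : Type} [Field K] [CommRing R] [CommRing R'] [Algebra K R]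
    [Algebra K R'] (π : R →ₐ[K] R') (hπ : Function.Surjective π) (z : PrimeSpectrum R →₀ ℤ)
    (Q : PrimeSpectrum R') : rs π hπ z Q = z (PrimeSpectrum.comap (π : R →+* R') Q) := rfl

/-- Evaluation at `a`. -/
noncomputable def ev (K : Type) {A : Type} [Field K] [CommRing A] [Algebra K A] (a : A) :
    Polynomial A →ₐ[K] A := (Polynomial.aeval (R := A) a).restrictScalars K

theorem ev_apply (K : Type) {A : Type} [Field K] [CommRing A] [Algebra K A] (a : A)
    (p : Polynomial A) : ev K a p = p.eval a := by
  change Polynomial.aeval a p = _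
  rw [Polynomial.coe_aeval_eq_eval]

theorem ev_surj (K : Type) {A : Type} [Field K] [CommRing A] [Algebra K A] (a : A) :
    Function.Surjective (ev K a) := fun b => ⟨C b, by rw [ev_apply, eval_C]⟩

theorem ev_ker (K : Type) {A : Type} [Field K] [CommRing A] [Algebra K A] (a : A) :
    RingHom.ker (ev K a : Polynomial A →+* A) = Ideal.span {X - C a} := by
  ext p
  rw [RingHom.mem_ker, Ideal.mem_span_singleton, Polynomial.dvd_iff_isRoot, Polynomial.IsRoot.def]
  change ev K a p = 0 ↔ _
  rw [ev_apply]

/-- The map on cycles: the fibre at `y = c` through the coordinates `(x, g)` minus the fibre through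
the coordinates `(x, y)`. -/
noncomputable def rho (K : Type) {A : Type} [Field K] [CommRing A] [Algebra K A] (f : A) (c : K)
    (e : ℕ) : (PrimeSpectrum (Polynomial (Polynomial A)) →₀ ℤ) →+ (PrimeSpectrum A →₀ ℤ) :=
  (rs (ev K (algebraMap K A c⁻¹ * f)) (ev_surj K _)).comp
      ((gys K (X - C (algebraMap K A c⁻¹ * f)) e).comp (mo A)) -
    (rs (ev K (algebraMap K A c)) (ev_surj K _)).comp
      ((gys K (X - C (algebraMap K A c)) e).comp ((mo A).comp (swz A)))

theorem rho_apply (K : Type) {A : Type} [Field K] [CommRing A] [Algebra K A] (f : A) (c : K)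
    (e : ℕ) (z : PrimeSpectrum (Polynomial (Polynomial A)) →₀ ℤ) :
    rho K f c e z = rs (ev K (algebraMap K A c⁻¹ * f)) (ev_surj K _)
        (gys K (X - C (algebraMap K A c⁻¹ * f)) e (mo A z)) -
      rs (ev K (algebraMap K A c)) (ev_surj K _)
        (gys K (X - C (algebraMap K A c)) e (mo A (swz A z))) := rfl

/-- Rational equivalence on `V(f)` and the divisors of `f`. -/
noncomputable def JJ (K : Type) {A : Type} [Field K] [CommRing A] [Algebra K A] (f : A) (e : ℕ) :
    AddSubgroup (PrimeSpectrum A →₀ ℤ) :=
  Rt K (Ideal.span {f}) e ⊔ AddSubgroup.closure {z | ∃ V : PrimeSpectrum A,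
    dm K V.asIdeal = e + 1 ∧ f ∉ V.asIdeal ∧ z = fdiv K V.asIdeal f e}

end Pool.Agent.HCF
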