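import Pool.Agent.HCF.S0
import Pool.Agent.HCF.T1

namespace Pool.Agent.HCF

open Pool.Agent.HCH Polynomial

variable {K R R' : Type} [Field K] [CommRing R] [CommRing R'] [Algebra K R] [Algebra K R']
  [Algebra.FiniteType K R] [Algebra.FiniteType K R'] (π : R →ₐ[K] R')
  (hπ : Function.Surjective π)

/-
PROOF. Ext Q. If dm Q = e: both sides are od (fdiv_apply; dm (comap π V) = dm V, dm (comap π Q) = dm Q
by HCH.dm_comap in B2): od (comap π V ⊔ span {g}) (comap π Q) = od (V ⊔ span {π g}) Q by mlt_surj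
(HCH/A2) with J = comap π V ⊔ span {g} ≥ ker π, J.map π = V ⊔ span {π g} (Ideal.map_sup,
Ideal.map_comap_of_surjective, Ideal.map_span). If dm Q ≠ e both sides are 0 (fdiv_supp).
-/
theorem rs_fdiv (V : PrimeSpectrum R') (g : R) (hg : π g ∉ V.asIdeal) (e : ℕ)
    (hd : dm K V.asIdeal = e + 1) :
    rs π hπ (fdiv K (PrimeSpectrum.comap (π : R →+* R') V).asIdeal g e) =
      fdiv K V.asIdeal (π g) e := by
  have hd' : dm K (PrimeSpectrum.comap (π : R →+* R') V).asIdeal = e + 1 := by
    rw [← hd]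
    exact dm_comap π hπ V.asIdeal
  ext Q
  rw [rs_apply]
  have hQ : dm K (PrimeSpectrum.comap (π : R →+* R') Q).asIdeal = dm K Q.asIdeal :=
    dm_comap π hπ Q.asIdeal
  by_cases h : dm K Q.asIdeal = e
  · have h1 := fdiv_apply (K := K) (PrimeSpectrum.comap (π : R →+* R') V).asIdeal g
      (fun h2 => hg h2) e hd' (PrimeSpectrum.comap (π : R →+* R') Q) (hQ.trans h)
    have h2 := fdiv_apply (K := K) V.asIdeal (π g) hg e hd Q h
    rw [h1, h2]
    have hJ : RingHom.ker (π : R →+* R') ≤
        (PrimeSpectrum.comap (π : R →+* R') V).asIdeal ⊔ Ideal.span {g} := by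
      refine le_trans ?_ le_sup_left
      intro x hx
      change (π : R →+* R') x ∈ V.asIdeal
      rw [(RingHom.mem_ker).1 hx]
      exact V.asIdeal.zero_mem
    have h3 := mlt_surj (π : R →+* R') hπ _ hJ Q
    have h4 : ((PrimeSpectrum.comap (π : R →+* R') V).asIdeal ⊔ Ideal.span {g}).map
        (π : R →+* R') = V.asIdeal ⊔ Ideal.span {π g} := by
      rw [Ideal.map_sup, Ideal.map_span, Set.image_singleton]
      have h5 : (PrimeSpectrum.comap (π : R →+* R') V).asIdeal.map (π : R →+* R') = V.asIdeal :=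
        Ideal.map_comap_of_surjective (π : R →+* R') hπ V.asIdeal
      rw [h5]
      rfl
    rw [h4] at h3
    unfold od
    rw [h3]
  · have h1 : fdiv K (PrimeSpectrum.comap (π : R →+* R') V).asIdeal g e
        (PrimeSpectrum.comap (π : R →+* R') Q) = 0 := by
      by_contra hne
      exact h (hQ.symm.trans (fdiv_supp _ _ _ _ hne).1)
    have h2 : fdiv K V.asIdeal (π g) e Q = 0 := by
      by_contra hne
      exact h (fdiv_supp _ _ _ _ hne).1
    rw [h1, h2]

/-
PROOF. A prime W ≥ ker π is comap π V for a unique prime V (PrimeSpectrum.range_comap_of_surjective).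
-/
theorem exists_comap (W : PrimeSpectrum R) (hW : RingHom.ker (π : R →+* R') ≤ W.asIdeal)
    (hπ : Function.Surjective π) :
    ∃ V : PrimeSpectrum R', PrimeSpectrum.comap (π : R →+* R') V = W := by
  have h1 := range_comap_of_surjective R' (π : R →+* R') hπ
  have h2 : W ∈ Set.range (PrimeSpectrum.comap (π : R →+* R')) := by
    rw [h1]
    exact hW
  exact h2

/-
PROOF. AddSubgroup.closure_induction; generator fdiv K W g e with J ≤ W: W = comap π V
(exists_comap), rs_fdiv, fdiv_mem_Rt: J.map π ≤ V (Ideal.map_le_iff_le_comap), dm V = dm W, π g ∉ V.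
-/
theorem rs_Rt (J : Ideal R) (hJ : RingHom.ker (π : R →+* R') ≤ J) (e : ℕ)
    (z : PrimeSpectrum R →₀ ℤ) (hz : z ∈ Rt K J e) :
    rs π hπ z ∈ Rt K (J.map (π : R →+* R')) e := by
  unfold Rt at hz
  induction hz using AddSubgroup.closure_induction with
  | mem z hz =>
    obtain ⟨W, g, hI, hd, hg, rfl⟩ := hz
    obtain ⟨V, rfl⟩ := exists_comap π W (hJ.trans hI) hπ
    have hd' : dm K V.asIdeal = e + 1 := by
      rw [← hd]
      exact (dm_comap π hπ V.asIdeal).symm
    have hg' : π g ∉ V.asIdeal := fun h => hg h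
    rw [rs_fdiv π hπ V g hg' e hd']
    exact fdiv_mem_Rt _ e V (π g) (Ideal.map_le_iff_le_comap.2 hI) hd' hg'
  | zero => rw [map_zero]; exact AddSubgroup.zero_mem _
  | add a b _ _ ha hb => rw [map_add]; exact AddSubgroup.add_mem _ ha hb
  | neg a _ ha => rw [map_neg]; exact AddSubgroup.neg_mem _ ha

/- PROOF. Ext Q; comap π is injective. -/
theorem rs_single (V : PrimeSpectrum R') (n : ℤ) :
    rs π hπ (Finsupp.single (PrimeSpectrum.comap (π : R →+* R') V) n) = Finsupp.single V n := by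
  classical
  ext Q
  rw [rs_apply, Finsupp.single_apply, Finsupp.single_apply]
  have hinj := PrimeSpectrum.comap_injective_of_surjective (π : R →+* R') hπ
  by_cases h : V = Q
  · rw [h, if_pos rfl, if_pos rfl]
  · rw [if_neg h, if_neg (fun h1 => h (hinj h1))]

/-
PROOF. Write z = sum of single E (z E) over its support (Finsupp.sum_single / induction on z, or the
finite sum formula gys_eq_sum): each E = comap π V (exists_comap), dm V = e + 1, and for one prime:
gys K ψ e (single E n) = n • (if ψ ∈ E then 0 else fdiv K E ψ e), ψ ∈ E ↔ π ψ ∈ V, rs_fdiv,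
rs_single, gys_single.
-/
theorem rs_gys (ψ : R) (e : ℕ) (z : PrimeSpectrum R →₀ ℤ)
    (hz : ∀ E : PrimeSpectrum R, z E ≠ 0 → RingHom.ker (π : R →+* R') ≤ E.asIdeal ∧
      dm K E.asIdeal = e + 1) :
    rs π hπ (gys K ψ e z) = gys K (π ψ) e (rs π hπ z) := by
  classical
  have hsum : ∀ F : (PrimeSpectrum R →₀ ℤ) →+ (PrimeSpectrum R' →₀ ℤ),
      F z = ∑ E ∈ z.support, F (Finsupp.single E (z E)) := by
    intro F
    have h1 : z = ∑ E ∈ z.support, Finsupp.single E (z E) := (Finsupp.sum_single z).symm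
    conv_lhs => rw [h1]
    rw [map_sum]
  have h2 := hsum ((rs π hπ).comp (gys K ψ e))
  have h3 := hsum ((gys K (π ψ) e).comp (rs π hπ))
  simp only [AddMonoidHom.comp_apply] at h2 h3
  rw [h2, h3]
  apply Finset.sum_congr rfl
  intro E hE
  obtain ⟨hk, hd⟩ := hz E (Finsupp.mem_support_iff.1 hE)
  obtain ⟨V, rfl⟩ := exists_comap π E hk hπ
  have hd' : dm K V.asIdeal = e + 1 := by
    rw [← hd]
    exact (dm_comap π hπ V.asIdeal).symm
  rw [gys_single, rs_single, gys_single, map_zsmul]
  congr 1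
  by_cases h : π ψ ∈ V.asIdeal
  · rw [if_pos h, if_pos (show ψ ∈ (PrimeSpectrum.comap (π : R →+* R') V).asIdeal from h), map_zero]
  · rw [if_neg h, if_neg (show ψ ∉ (PrimeSpectrum.comap (π : R →+* R') V).asIdeal from h)]
    exact rs_fdiv π hπ V ψ h e hd'

end Pool.Agent.HCF
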