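import Pool.Agent.HCF.S0
import Pool.Agent.HCH.B3

namespace Pool.Agent.HCF

open Pool.Agent.HCH Polynomial

variable {A : Type} [CommRing A] (f : A)

/-
PROOF. Polynomial.induction_on' / induction on r: for r = C p: n = 0; sums: common exponent (multiply
by powers of C X); r = r' * X (outer): C X ^ (n + 1) * (r' * X) - C (p * C f) =
(C X ^ n * r' - C p) * (X * C X) + C p * (X * C X - C (C f)).
-/
theorem low_red (r : Polynomial (Polynomial A)) : ∃ (n : ℕ) (p : Polynomial A),
    C X ^ n * r - C p ∈ Ideal.span {rel f} := by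
  induction r using Polynomial.induction_on' with
  | add r1 r2 h1 h2 =>
    obtain ⟨n1, p1, h1⟩ := h1
    obtain ⟨n2, p2, h2⟩ := h2
    refine ⟨n1 + n2, X ^ n2 * p1 + X ^ n1 * p2, ?_⟩
    have h3 : C X ^ (n1 + n2) * (r1 + r2) - C (X ^ n2 * p1 + X ^ n1 * p2) =
        C X ^ n2 * (C X ^ n1 * r1 - C p1) + C X ^ n1 * (C X ^ n2 * r2 - C p2) := by
      rw [C_add, C_mul, C_mul, C_pow, C_pow]
      ring
    rw [h3]
    exact Ideal.add_mem _ (Ideal.mul_mem_left _ _ h1) (Ideal.mul_mem_left _ _ h2)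
  | monomial m a =>
    rw [← C_mul_X_pow_eq_monomial]
    induction m with
    | zero =>
      refine ⟨0, a, ?_⟩
      have h3 : C X ^ 0 * (C a * X ^ 0) - C a = (0 : Polynomial (Polynomial A)) := by ring
      rw [h3]
      exact Ideal.zero_mem _
    | succ m ih =>
      obtain ⟨n, p, h⟩ := ih
      refine ⟨n + 1, p * C f, ?_⟩
      have h3 : C X ^ (n + 1) * (C a * X ^ (m + 1)) - C (p * C f) =
          (X * C X) * (C X ^ n * (C a * X ^ m) - C p) + (- C p) * rel f := by
        unfold rel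
        rw [C_mul]
        ring
      rw [h3]
      exact Ideal.add_mem _ (Ideal.mul_mem_left _ _ h)
        (Ideal.mul_mem_left _ _ (Ideal.subset_span rfl))

/-
PROOF. r ∈ E; low_red: C X ^ n * r - C p ∈ span {rel f} ≤ E, so C p ∈ E, p ∈ low E ≤ low E', so
C p ∈ E' and C X ^ n * r ∈ E', and C X ∉ E'.
-/
theorem le_of_low (E E' : PrimeSpectrum (Polynomial (Polynomial A))) (hE : rel f ∈ E.asIdeal)
    (hE' : rel f ∈ E'.asIdeal) (hX : C X ∉ E'.asIdeal) (h : (low E).asIdeal ≤ (low E').asIdeal) :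
    E.asIdeal ≤ E'.asIdeal := by
  intro r hr
  obtain ⟨n, p, hp⟩ := low_red f r
  have h1 : C X ^ n * r - C p ∈ E.asIdeal :=
    (Ideal.span_singleton_le_iff_mem _).mpr hE hp
  have h2 : C X ^ n * r - C p ∈ E'.asIdeal :=
    (Ideal.span_singleton_le_iff_mem _).mpr hE' hp
  have h3 : C p ∈ E.asIdeal := by
    have h4 := Ideal.sub_mem _ (Ideal.mul_mem_left _ (C X ^ n) hr) h1
    rwa [sub_sub_cancel] at h4
  have h5 : C p ∈ E'.asIdeal := h h3
  have h6 : C X ^ n * r ∈ E'.asIdeal := by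
    have h7 := Ideal.add_mem _ h2 h5
    rwa [sub_add_cancel] at h7
  rcases E'.isPrime.mem_or_mem h6 with h8 | h8
  · exact absurd (E'.isPrime.mem_of_pow_mem n h8) hX
  · exact h8

theorem low_inj (E E' : PrimeSpectrum (Polynomial (Polynomial A))) (hE : rel f ∈ E.asIdeal)
    (hE' : rel f ∈ E'.asIdeal) (hX : C X ∉ E.asIdeal) (hX' : C X ∉ E'.asIdeal)
    (h : low E = low E') : E = E' :=
  PrimeSpectrum.ext (le_antisymm (le_of_low f E E' hE hE' hX' (by rw [h]))
    (le_of_low f E' E hE' hE hX (by rw [h])))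

/-
PROOF. L = FractionRing (A[X] ⧸ E1); the image x of X in L is not 0. Let
θ = Polynomial.eval₂RingHom (A[X] → L) (image of C f / x) : A[X][X] → L and E = ker θ (prime:
RingHom.ker_isPrime). θ (rel f) = f - (f / x) x = 0, θ (C X) = x ≠ 0, θ (C p) = 0 ↔ p ∈ E1.
-/
theorem low_surj (E1 : PrimeSpectrum (Polynomial A)) (hX : X ∉ E1.asIdeal) :
    ∃ E : PrimeSpectrum (Polynomial (Polynomial A)), rel f ∈ E.asIdeal ∧ C X ∉ E.asIdeal ∧
      low E = E1 := by
  let L := FractionRing (Polynomial A ⧸ E1.asIdeal)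
  let ι : Polynomial A →+* L :=
    (algebraMap (Polynomial A ⧸ E1.asIdeal) L).comp (Ideal.Quotient.mk E1.asIdeal)
  have hι : ∀ p : Polynomial A, ι p = 0 ↔ p ∈ E1.asIdeal := by
    intro p
    have h1 : ι p = algebraMap (Polynomial A ⧸ E1.asIdeal) L (Ideal.Quotient.mk E1.asIdeal p) := rfl
    rw [h1, map_eq_zero_iff _ (IsFractionRing.injective (Polynomial A ⧸ E1.asIdeal) L),
      Ideal.Quotient.eq_zero_iff_mem]
  have hx : ι X ≠ 0 := fun h => hX ((hι X).1 h)
  let θ : Polynomial (Polynomial A) →+* L := Polynomial.eval₂RingHom ι (ι (C f) / ι X)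
  have hθC : ∀ p : Polynomial A, θ (C p) = ι p := fun p => by
    show Polynomial.eval₂ ι (ι (C f) / ι X) (C p) = ι p
    rw [eval₂_C]
  have hθX : θ X = ι (C f) / ι X := by
    show Polynomial.eval₂ ι (ι (C f) / ι X) X = _
    rw [eval₂_X]
  refine ⟨⟨RingHom.ker θ, RingHom.ker_isPrime θ⟩, ?_, ?_, ?_⟩
  · show θ (rel f) = 0
    unfold rel
    rw [map_sub, map_mul, hθC, hθC, hθX, div_mul_cancel₀ _ hx, sub_self]
  · intro h
    have h1 : θ (C X) = 0 := h
    rw [hθC] at h1
    exact hx h1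
  · apply PrimeSpectrum.ext
    ext p
    have h1 : p ∈ (low (⟨RingHom.ker θ, RingHom.ker_isPrime θ⟩ :
        PrimeSpectrum (Polynomial (Polynomial A)))).asIdeal ↔ θ (C p) = 0 := Iff.rfl
    rw [h1, hθC, hι]

/-
PROOF. A[X] ⧸ low E → A[X][X] ⧸ E is injective; every element b of the second satisfies
x ^ n * b = image of p for some n, p (low_red), x = class of C X ≠ 0: so b is a root of the polynomial
x ^ n T - p over A[X] ⧸ low E, algebraic: trdeg_alg_top in HCH/B3 (add that import), or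
Algebra.trdeg facts.
-/
theorem dm_low {K : Type} [Field K] [Algebra K A]
    (E : PrimeSpectrum (Polynomial (Polynomial A))) (hE : rel f ∈ E.asIdeal)
    (hX : C X ∉ E.asIdeal) : dm K (low E).asIdeal = dm K E.asIdeal := by
  unfold dm
  congr 1
  let φ : Polynomial A →ₐ[K] Polynomial (Polynomial A) := Polynomial.CAlgHom
  have hφ : ∀ p, φ p = C p := fun p => rfl
  let g : (Polynomial A ⧸ (low E).asIdeal) →ₐ[K] (Polynomial (Polynomial A) ⧸ E.asIdeal) :=
    Ideal.quotientMapₐ E.asIdeal φ le_rfl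
  have hg : Function.Injective g := Ideal.quotientMap_injective' (H := le_rfl) le_rfl
  have hgmk : ∀ a, g (Ideal.Quotient.mk _ a) = Ideal.Quotient.mk E.asIdeal (C a) := fun a => rfl
  apply trdeg_alg_top K _ _ g hg
  intro b
  obtain ⟨r, rfl⟩ := Ideal.Quotient.mk_surjective b
  obtain ⟨n, p, hp⟩ := low_red f r
  have h1 : C X ^ n * r - C p ∈ E.asIdeal :=
    (Ideal.span_singleton_le_iff_mem _).mpr hE hp
  have hx : Ideal.Quotient.mk (low E).asIdeal X ≠ 0 := by
    intro h
    rw [Ideal.Quotient.eq_zero_iff_mem] at h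
    exact hX h
  refine ⟨C (Ideal.Quotient.mk (low E).asIdeal X ^ n) * X - C (Ideal.Quotient.mk (low E).asIdeal p),
    ?_, ?_⟩
  · intro h
    have h2 := congrArg (fun q => Polynomial.coeff q 1) h
    simp only [coeff_sub, coeff_C_mul, coeff_X_one, mul_one, coeff_zero] at h2
    rw [coeff_C_of_ne_zero one_ne_zero, sub_zero] at h2
    exact pow_ne_zero n hx h2
  · rw [eval₂_sub, eval₂_mul, eval₂_C, eval₂_X, eval₂_C]
    have h2 : (g : (Polynomial A ⧸ (low E).asIdeal) →+* (Polynomial (Polynomial A) ⧸ E.asIdeal))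
        (Ideal.Quotient.mk (low E).asIdeal X ^ n) = Ideal.Quotient.mk E.asIdeal (C X ^ n) := by
      rw [map_pow, map_pow]
      rfl
    have h3 : (g : (Polynomial A ⧸ (low E).asIdeal) →+* (Polynomial (Polynomial A) ⧸ E.asIdeal))
        (Ideal.Quotient.mk (low E).asIdeal p) = Ideal.Quotient.mk E.asIdeal (C p) := rfl
    rw [h2, h3, ← map_mul, ← map_sub, Ideal.Quotient.eq_zero_iff_mem]
    exact h1

end Pool.Agent.HCF
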