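import Pool.Agent.HCF.S2a
import Pool.Agent.HCH.A1b
import Pool.Agent.HCH.A2

namespace Pool.Agent.HCF

open Pool.Agent.HCH Polynomial

variable {A : Type} [CommRing A] (f : A)

/-- a prime of a localisation generates the maximal ideal of its local ring -/
theorem s2b_max {B L : Type} [CommRing B] [CommRing L] [Algebra B L] (M : Submonoid B) [IsLocalization M L]
    (q : PrimeSpectrum L) :
    ((q.asIdeal.comap (algebraMap B L)).map (algebraMap B L)).map
      (algebraMap L (Localization.AtPrime q.asIdeal)) =
      IsLocalRing.maximalIdeal (Localization.AtPrime q.asIdeal) := by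
  rw [IsLocalization.map_under M L, Localization.AtPrime.map_eq_maximalIdeal]

theorem s2b_loc {B L : Type} [CommRing B] [CommRing L] [Algebra B L] (M : Submonoid B) [IsLocalization M L]
    (q : PrimeSpectrum L) (J : Ideal B) :
    mlt (J.map (algebraMap B L)) q = mlt J (PrimeSpectrum.comap (algebraMap B L) q) :=
  mlt_flat (algebraMap B L) (RingHom.flat_algebraMap_iff.2 (IsLocalization.flat L M)) q (s2b_max M q) J

theorem s2b_poly {B L : Type} [CommRing B] [CommRing L] [Algebra B L] (M : Submonoid B) [IsLocalization M L]
    (q : PrimeSpectrum (Polynomial L)) (J : Ideal (Polynomial B)) :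
    mlt (J.map (mapRingHom (algebraMap B L))) q =
      mlt J (PrimeSpectrum.comap (mapRingHom (algebraMap B L)) q) := by
  let _ : Algebra (Polynomial B) (Polynomial L) := Polynomial.algebra B L
  have : IsLocalization (M.map (C : B →+* Polynomial B)) (Polynomial L) := Polynomial.isLocalization M L
  exact s2b_loc (M.map (C : B →+* Polynomial B)) q J

/-- the substitution `y = f / g` -/
noncomputable def s2b_th {B L : Type} [CommRing B] [CommRing L] [Algebra B L] (a : L) : Polynomial B →+* L :=
  (evalRingHom a).comp (mapRingHom (algebraMap B L))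

theorem s2b_th_C {B L : Type} [CommRing B] [CommRing L] [Algebra B L] (a : L) (p : B) :
    s2b_th a (C p) = algebraMap B L p := by
  simp [s2b_th]

theorem s2b_th_X {B L : Type} [CommRing B] [CommRing L] [Algebra B L] (a : L) :
    s2b_th (B := B) a X = a := by
  simp [s2b_th]

/-
The local rings of V(f - y g) in (x, y, g)-space and of (x, g)-space agree outside g = 0.
PROOF. Let L = Localization.Away (X : A[X]) and
θ = eval₂RingHom (algebraMap A[X] L) (algebraMap (C f) * inverse of X) : A[X][X] → L, so that
θ (C p) = algebraMap p. There is a prime q of L with comap (algebraMap A[X] L) q = low E and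
comap θ q = E: q = the prime of the localisation over low E (X ∉ low E;
IsLocalization.AtPrime or PrimeSpectrum.localization_away_comap_range); comap θ q contains rel f, not
C X, and low of it is low E, so it is E by low_inj.
(1) mlt (J1.map (algebraMap A[X] L)) q = mlt J1 (low E) by mlt_flat (HCH/A1b): A[X] → L is flat, and
 ((q.comap).map).map = maximal ideal because (q.comap).map = q for localisations.
(2) mlt (J.map θ) q = mlt J E: θ is the composition of α : A[X][X] → L[X]
 (Polynomial.mapRingHom (algebraMap A[X] L)), a localisation at the powers of C X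
 (Polynomial.isLocalization), hence flat, and β : L[X] → L, evaluation at a = f / X, surjective with
 kernel span {X - C a}. mlt_flat for α and the prime q' = comap β q of L[X]; mlt_surj (HCH/A2) for β
 and the ideal J.map α: it contains the kernel since X - C a is the unit - 1 / X times
 α (rel f) = C f - X * C X.
(3) J.map θ = J1.map (algebraMap A[X] L): ≥ by h1; ≤: r ∈ J, by h2 C X ^ n * r - C p ∈ span {rel f},
 p ∈ J1, so X ^ n * θ r = image of p, X is a unit in L.
-/
theorem mlt_low (E : PrimeSpectrum (Polynomial (Polynomial A))) (hE : rel f ∈ E.asIdeal)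
    (hX : C X ∉ E.asIdeal) (J : Ideal (Polynomial (Polynomial A))) (hJ : rel f ∈ J)
    (J1 : Ideal (Polynomial A)) (h1 : ∀ p ∈ J1, C p ∈ J)
    (h2 : ∀ r ∈ J, ∃ (n : ℕ) (p : Polynomial A), p ∈ J1 ∧ C X ^ n * r - C p ∈ Ideal.span {rel f}) :
    mlt J E = mlt J1 (low E) := by
  let L : Type := Localization.Away (X : Polynomial A)
  have hloc : IsLocalization (Submonoid.powers (X : Polynomial A)) L :=
    inferInstanceAs (IsLocalization.Away (X : Polynomial A) (Localization.Away (X : Polynomial A)))
  have hu : IsUnit (algebraMap (Polynomial A) L X) := IsLocalization.Away.algebraMap_isUnit (X : Polynomial A)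
  obtain ⟨i, hi⟩ := hu.exists_right_inv
  obtain ⟨a, ha⟩ : ∃ a : L, algebraMap (Polynomial A) L X * a = algebraMap (Polynomial A) L (C f) := by
    refine ⟨algebraMap (Polynomial A) L (C f) * i, ?_⟩
    calc _ = algebraMap (Polynomial A) L (C f) * (algebraMap (Polynomial A) L X * i) := by ring
      _ = _ := by rw [hi, mul_one]
  have hrel : s2b_th (B := Polynomial A) a (rel f) = 0 := by
    unfold rel
    rw [map_sub, map_mul, s2b_th_C, s2b_th_C, s2b_th_X, mul_comm, ha, sub_self]
  -- the prime
  have hlow : X ∉ (low E).asIdeal := hX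
  obtain ⟨q, hq⟩ : ∃ q : PrimeSpectrum L, PrimeSpectrum.comap (algebraMap (Polynomial A) L) q = low E := by
    have h3 : low E ∈ PrimeSpectrum.basicOpen (X : Polynomial A) := hlow
    have h4 := PrimeSpectrum.localization_away_comap_range L (X : Polynomial A)
    have h5 : low E ∈ Set.range (PrimeSpectrum.comap (algebraMap (Polynomial A) L)) := by
      rw [h4]
      exact h3
    exact h5
  have hqE : PrimeSpectrum.comap (s2b_th (B := Polynomial A) a) q = E := by
    apply low_inj f
    · show s2b_th (B := Polynomial A) a (rel f) ∈ q.asIdeal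
      rw [hrel]
      exact q.asIdeal.zero_mem
    · exact hE
    · show s2b_th (B := Polynomial A) a (C X) ∉ q.asIdeal
      rw [s2b_th_C]
      intro h
      exact q.isPrime.ne_top (Ideal.eq_top_of_isUnit_mem _ h hu)
    · exact hX
    · rw [← hq]
      apply PrimeSpectrum.ext
      ext p
      show s2b_th (B := Polynomial A) a (C p) ∈ q.asIdeal ↔ _
      rw [s2b_th_C]
      rfl
  -- (1)
  have e1 : mlt (J1.map (algebraMap (Polynomial A) L)) q = mlt J1 (low E) := by
    rw [s2b_loc (Submonoid.powers (X : Polynomial A)) q J1, hq]
  -- (2)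
  have e2 : mlt (J.map (s2b_th (B := Polynomial A) a)) q = mlt J E := by
    have h3 : J.map (s2b_th (B := Polynomial A) a) =
        (J.map (mapRingHom (algebraMap (Polynomial A) L))).map (evalRingHom a) := by
      rw [Ideal.map_map]
      rfl
    have hker : RingHom.ker (evalRingHom a) ≤ J.map (mapRingHom (algebraMap (Polynomial A) L)) := by
      rw [ker_evalRingHom, Ideal.span_singleton_le_iff_mem]
      have h4 : (X - C a : Polynomial L) = -(C i) * mapRingHom (algebraMap (Polynomial A) L) (rel f) := by
        unfold rel
        rw [map_sub, map_mul, coe_mapRingHom, map_C, map_C, map_X]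
        rw [← ha, C_mul]
        have h5 : (C i : Polynomial L) * C (algebraMap (Polynomial A) L X) = 1 := by
          rw [← C_mul, mul_comm, hi, C_1]
        linear_combination (C a - X) * h5
      rw [h4]
      exact Ideal.mul_mem_left _ _ (Ideal.mem_map_of_mem _ hJ)
    have hs : Function.Surjective (evalRingHom a) := fun b => ⟨C b, by simp⟩
    rw [h3, mlt_surj (evalRingHom a) hs _ hker q, s2b_poly (Submonoid.powers (X : Polynomial A))]
    have h6 : PrimeSpectrum.comap (mapRingHom (algebraMap (Polynomial A) L))
        (PrimeSpectrum.comap (evalRingHom a) q) = PrimeSpectrum.comap (s2b_th (B := Polynomial A) a) q := rfl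
    rw [h6, hqE]
  -- (3)
  have e3 : J.map (s2b_th (B := Polynomial A) a) = J1.map (algebraMap (Polynomial A) L) := by
    apply le_antisymm
    · rw [Ideal.map_le_iff_le_comap]
      intro r hr
      obtain ⟨n, p, hp, hrp⟩ := h2 r hr
      obtain ⟨t, ht⟩ := Ideal.mem_span_singleton'.1 hrp
      rw [Ideal.mem_comap]
      have h7 : algebraMap (Polynomial A) L X ^ n * s2b_th (B := Polynomial A) a r =
          algebraMap (Polynomial A) L p := by
        have h8 := congrArg (s2b_th (B := Polynomial A) a) ht
        rw [map_mul, hrel, mul_zero, map_sub, map_mul, map_pow, s2b_th_C, s2b_th_C] at h8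
        exact (sub_eq_zero.1 h8.symm)
      have h9 : s2b_th (B := Polynomial A) a r = i ^ n * algebraMap (Polynomial A) L p := by
        rw [← h7, ← mul_assoc, ← mul_pow, mul_comm i, hi, one_pow, one_mul]
      rw [h9]
      exact Ideal.mul_mem_left _ _ (Ideal.mem_map_of_mem _ hp)
    · rw [Ideal.map_le_iff_le_comap]
      intro p hp
      rw [Ideal.mem_comap, ← s2b_th_C a p]
      exact Ideal.mem_map_of_mem _ (h1 p hp)
  rw [← e1, ← e2, e3]

end Pool.Agent.HCF
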