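import Pool.Agent.HCF.S2c

namespace Pool.Agent.HCF

open Pool.Agent.HCH Polynomial

variable {K A : Type} [Field K] [CommRing A] [Algebra K A] [Algebra.FiniteType K A] (f : A)

open Classical in
private theorem s3_mo_apply {A : Type} [CommRing A]
    (z : PrimeSpectrum (Polynomial (Polynomial A)) →₀ ℤ) (E1 : PrimeSpectrum (Polynomial A)) :
    mo A z E1 = ∑ E ∈ z.support,
      z E * (if C X ∈ E.asIdeal then 0 else if low E = E1 then 1 else 0) := by
  have h1 : mo A z = z.sum (fun E n => n • (if C X ∈ E.asIdeal then (0 : PrimeSpectrum (Polynomial A) →₀ ℤ)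
      else Finsupp.single (low E) 1)) := rfl
  rw [h1, Finsupp.sum, Finsupp.finsetSum_apply]
  refine Finset.sum_congr rfl fun E _ => ?_
  rw [Finsupp.smul_apply, smul_eq_mul]
  congr 1
  split_ifs with h2 h3
  · rfl
  · rw [h3, Finsupp.single_eq_same]
  · rw [Finsupp.single_eq_of_ne (Ne.symm h3)]

/-
PROOF. mo A z = sum over the support of z of z E • (0 or single (low E) 1); by low_inj the primes
low E with rel f ∈ E, C X ∉ E are different. (Induction on z is not convenient because of the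
hypothesis; use Finsupp.sum and Finset.sum_eq_single.)
-/
theorem mo_low (z : PrimeSpectrum (Polynomial (Polynomial A)) →₀ ℤ)
    (hz : ∀ E : PrimeSpectrum (Polynomial (Polynomial A)), z E ≠ 0 → rel f ∈ E.asIdeal)
    (E : PrimeSpectrum (Polynomial (Polynomial A))) (hE : rel f ∈ E.asIdeal)
    (hX : C X ∉ E.asIdeal) : mo A z (low E) = z E := by
  classical
  rw [s3_mo_apply, Finset.sum_eq_single E]
  · rw [if_neg hX, if_pos rfl, mul_one]
  · intro E' hE' hne
    by_cases h1 : C X ∈ E'.asIdeal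
    · rw [if_pos h1, mul_zero]
    · rw [if_neg h1, if_neg, mul_zero]
      intro h2
      exact hne (low_inj f E' E (hz E' (Finsupp.mem_support_iff.mp hE')) hE h1 hX h2)
  · intro h1
    rw [Finsupp.notMem_support_iff.mp h1, zero_mul]

/- PROOF. If C X ∉ E then X ∉ low E, so no term of the sum contributes. -/
theorem mo_X (z : PrimeSpectrum (Polynomial (Polynomial A)) →₀ ℤ)
    (E1 : PrimeSpectrum (Polynomial A)) (hX : X ∈ E1.asIdeal) : mo A z E1 = 0 := by
  classical
  rw [s3_mo_apply]
  refine Finset.sum_eq_zero fun E _ => ?_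
  by_cases h1 : C X ∈ E.asIdeal
  · rw [if_pos h1, mul_zero]
  · rw [if_neg h1, if_neg, mul_zero]
    intro h2
    apply h1
    rw [← mem_low, h2]
    exact hX

/-
PROOF. z = fdiv K W φ k is supported on primes containing W, so rel f (fdiv_supp). X ∈ E1: mo_X.
X ∉ E1: E1 = low E with rel f ∈ E, C X ∉ E (low_surj), mo_low. dm E = k iff dm E1 = k (dm_low); if so
fdiv_apply on both sides (φ1 ∉ low W as C X ∉ W and φ ∉ W; dm (low W) = k + 1) and od_low;
otherwise both are 0.
-/
open Classical in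
theorem mo_fdiv (W : PrimeSpectrum (Polynomial (Polynomial A))) (hW : rel f ∈ W.asIdeal)
    (hX : C X ∉ W.asIdeal) (k : ℕ) (hd : dm K W.asIdeal = k + 1)
    (φ : Polynomial (Polynomial A)) (hφ : φ ∉ W.asIdeal) (φ1 : Polynomial A) (n : ℕ)
    (h1 : C X ^ n * φ - C φ1 ∈ W.asIdeal) (E1 : PrimeSpectrum (Polynomial A)) :
    mo A (fdiv K W.asIdeal φ k) E1 =
      if X ∈ E1.asIdeal then 0 else fdiv K (low W).asIdeal φ1 k E1 := by
  by_cases hX1 : X ∈ E1.asIdeal
  · rw [if_pos hX1]
    exact mo_X _ E1 hX1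
  · rw [if_neg hX1]
    obtain ⟨E, hE, hXE, rfl⟩ := low_surj f E1 hX1
    rw [mo_low f _ (fun E' hE' => (fdiv_supp _ _ _ _ hE').2 (Submodule.mem_sup_left hW)) E hE hXE]
    have hφ1 : φ1 ∉ (low W).asIdeal := by
      intro h2
      have h3 : C X ^ n * φ ∈ W.asIdeal := by
        have h4 := W.asIdeal.add_mem h1 ((mem_low W φ1).1 h2)
        rwa [sub_add_cancel] at h4
      rcases W.2.mem_or_mem h3 with h5 | h5
      · exact hX (W.2.mem_of_pow_mem n h5)
      · exact hφ h5
    have hdl : dm K (low W).asIdeal = k + 1 := by rw [dm_low f W hW hX, hd]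
    by_cases hk : dm K E.asIdeal = k
    · have : W.asIdeal.IsPrime := W.2
      have : (low W).asIdeal.IsPrime := (low W).2
      rw [fdiv_apply W.asIdeal φ hφ k hd E hk,
        fdiv_apply (low W).asIdeal φ1 hφ1 k hdl (low E) (by rw [dm_low f E hE hXE, hk])]
      exact od_low f W hW φ φ1 n h1 E hE hXE
    · have h6 : fdiv K W.asIdeal φ k E = 0 := by
        by_contra h7
        exact hk (fdiv_supp _ _ _ _ h7).1
      have h8 : fdiv K (low W).asIdeal φ1 k (low E) = 0 := by
        by_contra h7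
        apply hk
        rw [← dm_low f E hE hXE]
        exact (fdiv_supp _ _ _ _ h7).1
      rw [h6, h8]

/-
PROOF. Ext E: swz A z = z.mapDomain sw, sw is an involution (sw_sw): (swz A z) E = z (sw E)
(Finsupp.mapDomain_apply). Then od_sw, dm_sw, swH_swH, fdiv_apply.
-/
theorem swz_fdiv (W : PrimeSpectrum (Polynomial (Polynomial A))) (k : ℕ)
    (hd : dm K W.asIdeal = k + 1) (φ : Polynomial (Polynomial A)) (hφ : φ ∉ W.asIdeal) :
    swz A (fdiv K W.asIdeal φ k) = fdiv K (sw W).asIdeal (swH A φ) k := by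
  ext E
  have hinj : Function.Injective (sw (A := A)) := fun E1 E2 h => by
    rw [← sw_sw E1, ← sw_sw E2, h]
  have h1 : swz A (fdiv K W.asIdeal φ k) E = fdiv K W.asIdeal φ k (sw E) := by
    conv_lhs => rw [← sw_sw E]
    exact Finsupp.mapDomain_apply hinj _ _
  rw [h1]
  have hd' : dm K (sw W).asIdeal = k + 1 := by rw [dm_sw, hd]
  have hφ' : swH A φ ∉ (sw W).asIdeal := by
    intro h2
    rw [mem_sw, swH_swH] at h2
    exact hφ h2
  by_cases hk : dm K E.asIdeal = k
  · have : W.asIdeal.IsPrime := W.2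
    have : (sw W).asIdeal.IsPrime := (sw W).2
    rw [fdiv_apply W.asIdeal φ hφ k hd (sw E) (by rw [dm_sw, hk]),
      fdiv_apply (sw W).asIdeal _ hφ' k hd' E hk, ← od_sw W φ (sw E), sw_sw]
  · have h6 : fdiv K W.asIdeal φ k (sw E) = 0 := by
      by_contra h7
      apply hk
      rw [← dm_sw (K := K) E]
      exact (fdiv_supp _ _ _ _ h7).1
    have h8 : fdiv K (sw W).asIdeal (swH A φ) k E = 0 := by
      by_contra h7
      exact hk (fdiv_supp _ _ _ _ h7).1
    rw [h6, h8]

/- PROOF. If C X ∈ W then every component E of the divisor contains C X, so mo kills it. -/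
theorem mo_zero (W : PrimeSpectrum (Polynomial (Polynomial A))) (hX : C X ∈ W.asIdeal) (k : ℕ)
    (φ : Polynomial (Polynomial A)) : mo A (fdiv K W.asIdeal φ k) = 0 := by
  classical
  ext E1
  rw [s3_mo_apply]
  refine Finset.sum_eq_zero fun E hE => ?_
  rw [if_pos, mul_zero]
  exact (fdiv_supp _ _ _ _ (Finsupp.mem_support_iff.mp hE)).2 (Submodule.mem_sup_left hX)

end Pool.Agent.HCF
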