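import Pool.Agent.HCF.X1

namespace Pool.Agent.HCF

variable {R : Type} [CommRing R]

/-- the pairs `(x, y)` with `h x - φ y ∈ W` -/
def x3b_U (W : Ideal R) (φ h : R) : Submodule R (R × R) where
  carrier := {p | h * p.1 - φ * p.2 ∈ W}
  add_mem' := by
    rintro ⟨a, b⟩ ⟨c, d⟩ h1 h2
    have h3 : h * (a + c) - φ * (b + d) = (h * a - φ * b) + (h * c - φ * d) := by ring
    show h * (a + c) - φ * (b + d) ∈ W
    rw [h3]
    exact W.add_mem h1 h2
  zero_mem' := by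
    show h * 0 - φ * 0 ∈ W
    rw [mul_zero, mul_zero, sub_zero]
    exact W.zero_mem
  smul_mem' := by
    rintro c ⟨a, b⟩ h1
    have h3 : h * (c * a) - φ * (c * b) = c * (h * a - φ * b) := by ring
    show h * (c * a) - φ * (c * b) ∈ W
    rw [h3]
    exact W.mul_mem_left c h1

theorem x3b_mem_sup (W : Ideal R) (φ x : R) : x ∈ W ⊔ Ideal.span {φ} ↔ ∃ z : R, x - φ * z ∈ W := by
  rw [Submodule.mem_sup]
  constructor
  · rintro ⟨w, hw, y, hy, rfl⟩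
    obtain ⟨z, rfl⟩ := Ideal.mem_span_singleton'.1 hy
    refine ⟨z, ?_⟩
    have : w + z * φ - φ * z = w := by ring
    rw [this]
    exact hw
  · rintro ⟨z, hz⟩
    exact ⟨x - φ * z, hz, φ * z, Ideal.mem_span_singleton'.2 ⟨z, by ring⟩, by ring⟩

/-- the projection to the kernel of `h` on `R ⧸ (W + (φ))` -/
noncomputable def x3b_p (W : Ideal R) (φ h : R) : x3b_U W φ h →ₗ[R] ke h (R ⧸ (W ⊔ Ideal.span {φ})) :=
  LinearMap.codRestrict _ ((Submodule.mkQ (W ⊔ Ideal.span {φ})) ∘ₗ (LinearMap.fst R R R) ∘ₗ (x3b_U W φ h).subtype)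
    (by
      rintro ⟨⟨a, b⟩, hab⟩
      rw [mem_ke]
      show (Submodule.Quotient.mk (h * a) : R ⧸ (W ⊔ Ideal.span {φ})) = 0
      rw [Submodule.Quotient.mk_eq_zero]
      exact (x3b_mem_sup W φ _).2 ⟨b, hab⟩)

theorem x3b_p_surj (W : Ideal R) (φ h : R) : Function.Surjective (x3b_p W φ h) := by
  rintro ⟨x, hx⟩
  obtain ⟨x, rfl⟩ := Submodule.Quotient.mk_surjective _ x
  rw [mem_ke] at hx
  have h1 : (Submodule.Quotient.mk (h * x) : R ⧸ (W ⊔ Ideal.span {φ})) = 0 := hx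
  rw [Submodule.Quotient.mk_eq_zero] at h1
  obtain ⟨y, hy⟩ := (x3b_mem_sup W φ _).1 h1
  exact ⟨⟨(x, y), hy⟩, rfl⟩

theorem x3b_p_ker (W : Ideal R) (φ h : R) (u : x3b_U W φ h) :
    u ∈ LinearMap.ker (x3b_p W φ h) ↔ (u : R × R).1 ∈ W ⊔ Ideal.span {φ} := by
  rw [LinearMap.mem_ker]
  constructor
  · intro hu
    have h1 : (Submodule.Quotient.mk (u : R × R).1 : R ⧸ (W ⊔ Ideal.span {φ})) = 0 :=
      congrArg (fun z : ke h (R ⧸ (W ⊔ Ideal.span {φ})) => (z : R ⧸ (W ⊔ Ideal.span {φ}))) hu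
    exact (Submodule.Quotient.mk_eq_zero _).1 h1
  · intro hu
    apply Subtype.ext
    exact (Submodule.Quotient.mk_eq_zero _).2 hu

/-- the swap -/
theorem x3b_swap_mem (W : Ideal R) (φ h : R) {a b : R} (hab : (a, b) ∈ x3b_U W φ h) :
    (b, a) ∈ x3b_U W h φ := by
  show φ * b - h * a ∈ W
  have h1 : φ * b - h * a = -(h * a - φ * b) := by ring
  rw [h1]
  exact W.neg_mem hab

noncomputable def x3b_swap (W : Ideal R) (φ h : R) : x3b_U W φ h ≃ₗ[R] x3b_U W h φ where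
  toFun u := ⟨((u : R × R).2, (u : R × R).1), x3b_swap_mem W φ h u.2⟩
  invFun u := ⟨((u : R × R).2, (u : R × R).1), x3b_swap_mem W h φ u.2⟩
  map_add' _ _ := rfl
  map_smul' _ _ := rfl
  left_inv _ := rfl
  right_inv _ := rfl

theorem x3b_key (W : Ideal R) [W.IsPrime] (φ h : R) (hφ : φ ∉ W) {a b : R}
    (hab : h * a - φ * b ∈ W) (ha : a ∈ W ⊔ Ideal.span {φ}) : b ∈ W ⊔ Ideal.span {h} := by
  obtain ⟨z, hz⟩ := (x3b_mem_sup W φ a).1 ha
  refine (x3b_mem_sup W h b).2 ⟨z, ?_⟩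
  have h1 : φ * (b - h * z) ∈ W := by
    have h2 : φ * (b - h * z) = h * (a - φ * z) - (h * a - φ * b) := by ring
    rw [h2]
    exact W.sub_mem (W.mul_mem_left h hz) hab
  exact (Ideal.IsPrime.mem_or_mem ‹W.IsPrime› h1).resolve_left hφ

/-- the quotient by the image -/
theorem x3b_coker (W : Ideal R) (φ h : R) :
    Nonempty (((R ⧸ (W ⊔ Ideal.span {φ})) ⧸ im h (R ⧸ (W ⊔ Ideal.span {φ}))) ≃ₗ[R]
      (R ⧸ (W ⊔ Ideal.span {φ} ⊔ Ideal.span {h}))) := by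
  let f : R →ₗ[R] ((R ⧸ (W ⊔ Ideal.span {φ})) ⧸ im h (R ⧸ (W ⊔ Ideal.span {φ}))) :=
    (Submodule.mkQ (im h (R ⧸ (W ⊔ Ideal.span {φ})))) ∘ₗ (Submodule.mkQ (W ⊔ Ideal.span {φ}))
  have hf : Function.Surjective f := (Submodule.mkQ_surjective _).comp (Submodule.mkQ_surjective _)
  have hk : LinearMap.ker f = W ⊔ Ideal.span {φ} ⊔ Ideal.span {h} := by
    ext x
    rw [LinearMap.mem_ker, x3b_mem_sup]
    constructor
    · intro hx
      have h1 : (Submodule.Quotient.mk (Submodule.Quotient.mk x : R ⧸ (W ⊔ Ideal.span {φ})) :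
          (R ⧸ (W ⊔ Ideal.span {φ})) ⧸ im h (R ⧸ (W ⊔ Ideal.span {φ}))) = 0 := hx
      rw [Submodule.Quotient.mk_eq_zero, mem_im] at h1
      obtain ⟨y, hy⟩ := h1
      obtain ⟨y, rfl⟩ := Submodule.Quotient.mk_surjective _ y
      have h2 : (Submodule.Quotient.mk (h * y) : R ⧸ (W ⊔ Ideal.span {φ})) = Submodule.Quotient.mk x := hy
      exact ⟨y, (Submodule.Quotient.eq _).1 h2.symm⟩
    · rintro ⟨z, hz⟩
      show (Submodule.Quotient.mk (Submodule.Quotient.mk x : R ⧸ (W ⊔ Ideal.span {φ})) :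
          (R ⧸ (W ⊔ Ideal.span {φ})) ⧸ im h (R ⧸ (W ⊔ Ideal.span {φ}))) = 0
      rw [Submodule.Quotient.mk_eq_zero, mem_im]
      exact ⟨Submodule.Quotient.mk z, ((Submodule.Quotient.eq _).2 hz).symm⟩
  exact ⟨(f.quotKerEquivOfSurjective hf).symm.trans (Submodule.quotEquivOfEq _ _ hk)⟩

/-
The kernel and the cokernel of h on R ⧸ (W + (φ)) are those of φ on R ⧸ (W + (h)).
PROOF. Cokernels: both are R ⧸ (W + (φ) + (h)) (surjection R → quotient, kernel computation).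
Kernels: x in R with h x = φ y + w0, w0 ∈ W; y is unique modulo W + (h)?: the map class of x ↦ class of
y, where h x - φ y ∈ W: well defined: if x ∈ W + (φ), x = w1 + φ z, then φ (y - h z) ∈ W, so
y - h z ∈ W as φ ∉ W and W is prime, so y ∈ W + (h). By symmetry it is bijective. Concretely: let
U = {(x, y) ∈ R × R | h x - φ y ∈ W} (submodule); U → ke h (R ⧸ (W + (φ))), (x, y) ↦ class of x is
surjective with kernel {(x, y) ∈ U | x ∈ W + (φ)} = W × W + R (φ, h) = {(x, y) ∈ U | y ∈ W + (h)};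
the same for y. Then LinearMap.quotKerEquivOfSurjective twice.
-/
theorem koszul (W : Ideal R) [W.IsPrime] (φ h : R) (hφ : φ ∉ W) (hh : h ∉ W) :
    Nonempty (((R ⧸ (W ⊔ Ideal.span {φ})) ⧸ im h (R ⧸ (W ⊔ Ideal.span {φ}))) ≃ₗ[R]
      ((R ⧸ (W ⊔ Ideal.span {h})) ⧸ im φ (R ⧸ (W ⊔ Ideal.span {h})))) ∧
    Nonempty (ke h (R ⧸ (W ⊔ Ideal.span {φ})) ≃ₗ[R] ke φ (R ⧸ (W ⊔ Ideal.span {h}))) := by
  constructor
  · obtain ⟨e1⟩ := x3b_coker W φ h
    obtain ⟨e2⟩ := x3b_coker W h φ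
    have h3 : W ⊔ Ideal.span {φ} ⊔ Ideal.span {h} = W ⊔ Ideal.span {h} ⊔ Ideal.span {φ} := by
      rw [sup_assoc, sup_assoc, sup_comm (Ideal.span {φ})]
    exact ⟨(e1.trans (Submodule.quotEquivOfEq _ _ h3)).trans e2.symm⟩
  · let f : x3b_U W φ h →ₗ[R] ke φ (R ⧸ (W ⊔ Ideal.span {h})) :=
      (x3b_p W h φ) ∘ₗ (x3b_swap W φ h : x3b_U W φ h →ₗ[R] x3b_U W h φ)
    have hf : Function.Surjective f := (x3b_p_surj W h φ).comp (x3b_swap W φ h).surjective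
    have hk : LinearMap.ker (x3b_p W φ h) = LinearMap.ker f := by
      ext u
      rw [x3b_p_ker]
      have h4 : u ∈ LinearMap.ker f ↔ (u : R × R).2 ∈ W ⊔ Ideal.span {h} :=
        x3b_p_ker W h φ (x3b_swap W φ h u)
      rw [h4]
      have hu : h * (u : R × R).1 - φ * (u : R × R).2 ∈ W := u.2
      have hu' : φ * (u : R × R).2 - h * (u : R × R).1 ∈ W := x3b_swap_mem W φ h u.2
      exact ⟨fun h5 => x3b_key W φ h hφ hu h5, fun h5 => x3b_key W h φ hh hu' h5⟩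
    exact ⟨((x3b_p W φ h).quotKerEquivOfSurjective (x3b_p_surj W φ h)).symm.trans
      ((Submodule.quotEquivOfEq _ _ hk).trans (f.quotKerEquivOfSurjective hf))⟩

end Pool.Agent.HCF
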