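import Pool.Agent.HCF.X3a
import Pool.Agent.HCF.X3b

namespace Pool.Agent.HCF

open Pool.Agent.HCH

variable {K R : Type} [Field K] [CommRing R] [Algebra K R] [Algebra.FiniteType K R]

/-
Reciprocity. PROOF. M = R ⧸ (W + (φ)): by Fil.exists there is a filtration with
S = {P | W + (φ) ≤ P}; by Fil.mono it has the property of Chi.fil: dm P < dm W = e + 2
(dm_le_of_sup), and if h ∈ P: dm P ≤ e + 1, and if dm P = e + 1 the hypothesis hG applies; if
dm P ≤ e then P is good. pt K (e + 1) w = fdiv K W φ (e + 1) by Fil.pt_fdiv. So Chi.fil gives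
filtrations w1, w2 of M ⧸ im h M, ke h M with pt (w1 - w2) - gys h (fdiv W φ (e + 1)) ∈ G. Similarly
w1', w2' for M' = R ⧸ (W + (h)) and φ. By koszul, Fil.congr, Fil.uniq: pt (w1 - w1') ∈ G,
pt (w2 - w2') ∈ G. Combine.
-/
theorem recip (G : AddSubgroup (PrimeSpectrum R →₀ ℤ)) (e : ℕ) (W : Ideal R) [W.IsPrime]
    (hd : dm K W = e + 2) (φ h : R) (hφ : φ ∉ W) (hh : h ∉ W)
    (hG : ∀ E : PrimeSpectrum R, W ≤ E.asIdeal → φ ∈ E.asIdeal → h ∈ E.asIdeal →
      dm K E.asIdeal = e + 1 → Gd K G e E) :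
    gys K h e (fdiv K W φ (e + 1)) - gys K φ e (fdiv K W h (e + 1)) ∈ G := by
  have : IsNoetherianRing R := Algebra.FiniteType.isNoetherianRing K R
  -- one side
  have side : ∀ (φ h : R), φ ∉ W → (∀ E : PrimeSpectrum R, W ≤ E.asIdeal → φ ∈ E.asIdeal →
      h ∈ E.asIdeal → dm K E.asIdeal = e + 1 → Gd K G e E) →
      Chi K G e h (R ⧸ (W ⊔ Ideal.span {φ})) (gys K h e (fdiv K W φ (e + 1))) := by
    intro φ h hφ hG
    obtain ⟨n, w, hw⟩ := Fil.exists (R := R)
      (S := fun Q => W ⊔ Ideal.span {φ} ≤ Q.asIdeal) (R ⧸ (W ⊔ Ideal.span {φ})) (by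
        intro Q hQ
        rwa [Ideal.annihilator_quotient] at hQ)
    have hdm : ∀ P : PrimeSpectrum R, W ⊔ Ideal.span {φ} ≤ P.asIdeal →
        dm K P.asIdeal ≤ e + 1 := by
      intro P hP
      have := dm_le_of_sup (K := K) W φ hφ P hP
      omega
    have hw' : Fil (fun P : PrimeSpectrum R => dm K P.asIdeal ≤ e + 1 ∧
        (h ∈ P.asIdeal → Gd K G e P)) n (R ⧸ (W ⊔ Ideal.span {φ})) w := by
      refine Fil.mono ?_ hw
      intro P hP
      refine ⟨hdm P hP, fun hhP => ?_⟩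
      by_cases hde : dm K P.asIdeal = e + 1
      · exact hG P (le_sup_left.trans hP)
          (hP (Submodule.mem_sup_right (Ideal.mem_span_singleton_self φ))) hhP hde
      · exact ⟨hdm P hP, fun h1 => absurd h1 hde⟩
    have hpt := Fil.pt_fdiv (K := K) (k := e + 1)
      (S := fun Q => W ⊔ Ideal.span {φ} ≤ Q.asIdeal) hdm W φ hφ hd hw
    have := Chi.fil G e h hw'
    rwa [hpt] at this
  obtain ⟨a, b, w1, w2, f1, f2, f3⟩ := side φ h hφ hG
  obtain ⟨a', b', w1', w2', f1', f2', f3'⟩ := side h φ hh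
    (fun E hE h1 h2 h3 => hG E hE h2 h1 h3)
  obtain ⟨⟨e1⟩, ⟨e2⟩⟩ := koszul W φ h hφ hh
  have u1 := Fil.uniq G e (Fil.congr e1 f1) f1'
  have u2 := Fil.uniq G e (Fil.congr e2 f2) f2'
  have key : gys K h e (fdiv K W φ (e + 1)) - gys K φ e (fdiv K W h (e + 1)) =
      (pt K e (w1 - w1') - pt K e (w2 - w2')) -
        (pt K e (w1 - w2) - gys K h e (fdiv K W φ (e + 1))) +
        (pt K e (w1' - w2') - gys K φ e (fdiv K W h (e + 1))) := by
    simp only [map_sub]
    abel
  rw [key]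
  exact G.add_mem (G.sub_mem (G.sub_mem u1 u2) f3) f3'

/-
PROOF. AddSubgroup.closure_induction. Generator z = fdiv K W g (e + 1), I ≤ W, dm W = e + 2, g ∉ W.
If h ∈ W: every E with z E ≠ 0 contains W (fdiv_supp), so gys_mem with no condition: gys z ∈ G since
h ∉ E never happens. If h ∉ W: recip with G = Rt K (I ⊔ (h)) e: a prime E ≥ W containing g and h with
dm E = e + 1 is good since its divisors are in Rt (fdiv_mem_Rt). And gys K g e (fdiv K W h (e + 1)) ∈ G
by gys_mem: every E with nonzero coefficient contains W + (h) ≥ I + (h) and has dm E = e + 1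
(fdiv_supp), so fdiv K E g e ∈ Rt for g ∉ E.
-/
theorem gys_Rt (I : Ideal R) (h : R) (e : ℕ) (z : PrimeSpectrum R →₀ ℤ)
    (hz : z ∈ Rt K I (e + 1)) : gys K h e z ∈ Rt K (I ⊔ Ideal.span {h}) e := by
  have key : ∀ z ∈ Rt K I (e + 1), gys K h e z ∈ Rt K (I ⊔ Ideal.span {h}) e := by
    intro z hz
    unfold Rt at hz
    induction hz using AddSubgroup.closure_induction with
    | mem z hz =>
      obtain ⟨W, g, hI, hd, hg, rfl⟩ := hz
      by_cases hh : h ∈ W.asIdeal
      · refine gys_mem h e _ _ ?_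
        intro E hE hhE
        exact absurd ((le_sup_left.trans (fdiv_supp _ _ _ _ hE).2) hh) hhE
      · have hr := recip (K := K) (Rt K (I ⊔ Ideal.span {h}) e) e W.asIdeal hd g h hg hh (by
          intro E hWE _ hhE hdE
          refine ⟨hdE.le, fun _ x hx => fdiv_mem_Rt _ e E x ?_ hdE hx⟩
          exact sup_le (hI.trans hWE) ((Ideal.span_singleton_le_iff_mem _).mpr hhE))
        have hg2 : gys K g e (fdiv K W.asIdeal h (e + 1)) ∈ Rt K (I ⊔ Ideal.span {h}) e := by
          refine gys_mem g e _ _ ?_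
          intro E hE hgE
          obtain ⟨hdE, hle⟩ := fdiv_supp _ _ _ _ hE
          exact fdiv_mem_Rt _ e E g ((sup_le_sup_right hI _).trans hle) hdE hgE
        have := AddSubgroup.add_mem _ hr hg2
        simpa using this
    | zero => rw [map_zero]; exact AddSubgroup.zero_mem _
    | add a b _ _ ha hb => rw [map_add]; exact AddSubgroup.add_mem _ ha hb
    | neg a _ ha => rw [map_neg]; exact AddSubgroup.neg_mem _ ha
  exact key z hz

end Pool.Agent.HCF
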