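import Pool.Agent.HCF.S1
import Pool.Agent.HCF.S3
import Pool.Agent.HCF.X3

namespace Pool.Agent.HCF

open Pool.Agent.HCH Polynomial

variable {K A : Type} [Field K] [CommRing A] [Algebra K A] [Algebra.FiniteType K A] (f : A)

/-
PROOF. gys_Rt (X3) with I = span {C f}: gys K (X - C a) e z ∈ Rt K (span {C f} ⊔ span {X - C a}) e, the
ideal contains ker (ev K a) = span {X - C a} (ev_ker), rs_Rt (S1) and the image of the ideal under
ev K a is span {f} (Ideal.map_sup, map_span; ev (X - C a) = 0, ev (C f) = f).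
-/
theorem rs_gys_Rt (a : A) (e : ℕ) (z : PrimeSpectrum (Polynomial A) →₀ ℤ)
    (hz : z ∈ Rt K (Ideal.span {C f}) (e + 1)) :
    rs (ev K a) (ev_surj K a) (gys K (X - C a) e z) ∈ Rt K (Ideal.span {f}) e := by
  have h1 := gys_Rt (K := K) (Ideal.span {C f}) (X - C a) e z hz
  have h2 := rs_Rt (ev K a) (ev_surj K a) (Ideal.span {C f} ⊔ Ideal.span {X - C a})
    (by rw [ev_ker]; exact le_sup_right) e _ h1
  have h3 : (Ideal.span {C f} ⊔ Ideal.span {X - C a}).map (ev K a : Polynomial A →+* A) =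
      Ideal.span {f} := by
    rw [Ideal.map_sup, Ideal.map_span, Ideal.map_span, Set.image_singleton, Set.image_singleton]
    have e1 : (ev K a : Polynomial A →+* A) (C f) = f := by
      change ev K a (C f) = f
      rw [ev_apply, eval_C]
    have e2 : (ev K a : Polynomial A →+* A) (X - C a) = 0 := by
      change ev K a (X - C a) = 0
      rw [ev_apply]
      simp
    rw [e1, e2, Ideal.span_singleton_eq_bot.2 rfl, sup_bot_eq]
  rwa [h3] at h2

theorem s4_aux (e : ℕ) (W : PrimeSpectrum (Polynomial (Polynomial A)))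
    (hW : rel f ∈ W.asIdeal) (hd : dm K W.asIdeal = e + 2) (hy : X ∈ W.asIdeal)
    (φ : Polynomial (Polynomial A)) (hφ : φ ∉ W.asIdeal) (a : A)
    (H : ∀ E1 : PrimeSpectrum (Polynomial A), X ∈ E1.asIdeal → C f ∈ E1.asIdeal →
      X - C a ∉ E1.asIdeal → fdiv K E1.asIdeal (X - C a) e = 0) :
    rs (ev K a) (ev_surj K a) (gys K (X - C a) e (mo A (fdiv K W.asIdeal φ (e + 1)))) ∈
      Rt K (Ideal.span {f}) e := by
  by_cases hX : C X ∈ W.asIdeal
  · rw [mo_zero W hX, map_zero, map_zero]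
    exact zero_mem _
  · have hCf : C (C f) ∈ W.asIdeal := by
      have h1 : C (C f) = rel f + X * C X := by
        unfold rel
        ring
      rw [h1]
      exact W.asIdeal.add_mem hW (W.asIdeal.mul_mem_right _ hy)
    obtain ⟨n, φ1, hn⟩ := low_red f φ
    have hn' : C X ^ n * φ - C φ1 ∈ W.asIdeal :=
      (Ideal.span_singleton_le_iff_mem _).2 hW hn
    have hφ1 : φ1 ∉ (low W).asIdeal := by
      intro h1
      have h2 : C φ1 ∈ W.asIdeal := h1
      have h3 : C X ^ n * φ ∈ W.asIdeal := by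
        have h4 := W.asIdeal.add_mem hn' h2
        rwa [sub_add_cancel] at h4
      rcases W.isPrime.mem_or_mem h3 with h4 | h4
      · exact hX (W.isPrime.mem_of_pow_mem _ h4)
      · exact hφ h4
    have hdl : dm K (low W).asIdeal = e + 2 := by
      rw [dm_low f W hW hX, hd]
    have hD : fdiv K (low W).asIdeal φ1 (e + 1) ∈ Rt K (Ideal.span {C f}) (e + 1) :=
      fdiv_mem_Rt _ _ _ _ ((Ideal.span_singleton_le_iff_mem _).2 hCf) hdl hφ1
    have hzero : gys K (X - C a) e (fdiv K (low W).asIdeal φ1 (e + 1) -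
        mo A (fdiv K W.asIdeal φ (e + 1))) = 0 := by
      have h1 := gys_mem (K := K) (X - C a) e ⊥ (fdiv K (low W).asIdeal φ1 (e + 1) -
        mo A (fdiv K W.asIdeal φ (e + 1))) (by
        intro E1 hE1 hE1'
        have hmo := mo_fdiv f W hW hX (e + 1) hd φ hφ φ1 n hn' E1
        rw [Finsupp.sub_apply, hmo] at hE1
        by_cases hXE : X ∈ E1.asIdeal
        · rw [if_pos hXE, sub_zero] at hE1
          have h2 := (fdiv_supp _ _ _ _ hE1).2
          have h3 : C f ∈ E1.asIdeal := h2 (Ideal.mem_sup_left hCf)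
          rw [H E1 hXE h3 hE1']
          exact zero_mem _
        · rw [if_neg hXE, sub_self] at hE1
          exact absurd rfl hE1)
      exact (AddSubgroup.mem_bot).1 h1
    rw [map_sub, sub_eq_zero] at hzero
    rw [← hzero]
    exact rs_gys_Rt f a e _ hD

/-
The case y ∈ W, g ∉ W. PROOF. rel f ∈ W and X ∈ W give C (C f) ∈ W, so C f ∈ low W.
Second term of rho: swz (fdiv W φ) = fdiv (sw W) (swH φ) (swz_fdiv), C X ∈ sw W (swH_CX): mo_zero.
First term: choose n, φ1 with C X ^ n * φ - C φ1 ∈ span {rel f} ≤ W (low_red). Let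
d = fdiv K (low W) φ1 (e + 1) - mo A (fdiv K W φ (e + 1)); by mo_fdiv d E1 = 0 unless X ∈ E1, and if
d E1 ≠ 0 then E1 ≥ low W (fdiv_supp) so C f ∈ E1 and X - C (c⁻¹ f) ∈ E1. So gys K (X - C (..)) e d = 0
(gys_mem with G = ⊥, or gys_eq_sum). Hence the first term is rs (gys (fdiv K (low W) φ1 (e + 1))),
which is in Rt by rs_gys_Rt and fdiv_mem_Rt (dm (low W) = e + 2 by dm_low, φ1 ∉ low W).
-/
theorem rho_case_y (c : K) (e : ℕ) (W : PrimeSpectrum (Polynomial (Polynomial A)))
    (hW : rel f ∈ W.asIdeal) (hd : dm K W.asIdeal = e + 2) (hy : X ∈ W.asIdeal)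
    (φ : Polynomial (Polynomial A)) (hφ : φ ∉ W.asIdeal) :
    rho K f c e (fdiv K W.asIdeal φ (e + 1)) ∈ Rt K (Ideal.span {f}) e := by
  have hX' : C X ∈ (sw W).asIdeal := by
    rw [mem_sw, swH_CX]
    exact hy
  rw [rho_apply, swz_fdiv W (e + 1) hd φ hφ, mo_zero (sw W) hX', map_zero, map_zero, sub_zero]
  refine s4_aux f e W hW hd hy φ hφ _ ?_
  intro E1 h1 h2 h3
  exfalso
  apply h3
  rw [C_mul]
  exact E1.asIdeal.sub_mem h1 (E1.asIdeal.mul_mem_left _ h2)

/-
The case g ∈ W. PROOF. The first term of rho is 0 by mo_zero. Second term: swz (fdiv W φ) =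
fdiv (sw W) (swH φ), X ∈ sw W; if C X ∈ sw W it is 0 by mo_zero. Otherwise as in rho_case_y for
W' = sw W, φ' = swH φ: C f ∈ low W'; d = fdiv K (low W') φ1 (e + 1) - mo A (fdiv K W' φ' (e + 1)) is
supported on primes E1 containing X, and for such a prime fdiv K E1 (X - C c) e = 0 since
E1 ⊔ span {X - C c} contains the unit c (c ≠ 0): fdiv_supp. So gys K (X - C c) e d = 0, and rs_gys_Rt.
-/
theorem rho_case_g (c : K) (hc : c ≠ 0) (e : ℕ) (W : PrimeSpectrum (Polynomial (Polynomial A)))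
    (hW : rel f ∈ W.asIdeal) (hd : dm K W.asIdeal = e + 2) (hg : C X ∈ W.asIdeal)
    (φ : Polynomial (Polynomial A)) (hφ : φ ∉ W.asIdeal) :
    rho K f c e (fdiv K W.asIdeal φ (e + 1)) ∈ Rt K (Ideal.span {f}) e := by
  rw [rho_apply, mo_zero W hg, map_zero, map_zero, zero_sub, swz_fdiv W (e + 1) hd φ hφ]
  apply neg_mem
  refine s4_aux f e (sw W) ?_ ?_ ?_ _ ?_ _ ?_
  · rw [mem_sw, swH_rel]
    exact hW
  · rw [dm_sw, hd]
  · rw [mem_sw, swH_X]
    exact hg
  · rw [mem_sw, swH_swH]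
    exact hφ
  · intro E1 h1 _ _
    ext Q
    by_contra hne
    have h2 := (fdiv_supp _ _ _ _ hne).2
    have h3 : (X : Polynomial A) ∈ Q.asIdeal := h2 (Ideal.mem_sup_left h1)
    have h4 : (X - C (algebraMap K A c) : Polynomial A) ∈ Q.asIdeal :=
      h2 (Ideal.mem_sup_right (Ideal.mem_span_singleton_self _))
    have h5 : C (algebraMap K A c) ∈ Q.asIdeal := by
      have h6 := Q.asIdeal.sub_mem h3 h4
      rwa [sub_sub_cancel] at h6
    apply Q.isPrime.ne_top
    rw [Ideal.eq_top_iff_one]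
    have h6 := Q.asIdeal.mul_mem_left (C (algebraMap K A c⁻¹)) h5
    rwa [← C_mul, ← map_mul, inv_mul_cancel₀ hc, map_one, C_1] at h6

end Pool.Agent.HCF
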