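import Pool.Agent.HCF.S5b
import Pool.Agent.HCF.S3

namespace Pool.Agent.HCF

open Pool.Agent.HCH Polynomial

variable {K A : Type} [Field K] [CommRing A] [Algebra K A] [Algebra.FiniteType K A] (f : A)

/-- the difference of the two cycles is supported on primes containing `X` -/
theorem s5_supp (e : ℕ) (W : PrimeSpectrum (Polynomial (Polynomial A)))
    (hW : rel f ∈ W.asIdeal) (hX : C X ∉ W.asIdeal) (hd : dm K W.asIdeal = e + 2)
    (φ : Polynomial (Polynomial A)) (hφ : φ ∉ W.asIdeal) (φ1 : Polynomial A) (n : ℕ)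
    (h1 : C X ^ n * φ - C φ1 ∈ W.asIdeal) (E1 : PrimeSpectrum (Polynomial A))
    (hne : (mo A (fdiv K W.asIdeal φ (e + 1)) - fdiv K (low W).asIdeal φ1 (e + 1)) E1 ≠ 0) :
    X ∈ E1.asIdeal ∧ dm K E1.asIdeal = e + 1 := by
  rw [Finsupp.sub_apply, mo_fdiv f W hW hX (e + 1) hd φ hφ φ1 n h1 E1] at hne
  by_cases hXE : X ∈ E1.asIdeal
  · rw [if_pos hXE, zero_sub, neg_ne_zero] at hne
    exact ⟨hXE, (fdiv_supp _ _ _ _ hne).1⟩
  · rw [if_neg hXE, sub_self] at hne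
    exact absurd rfl hne

/-
PROOF. Let z1 = mo A (fdiv K W φ (e + 1)), z2 = fdiv K (low W) φ1 (e + 1) and d = z2 - z1. By mo_fdiv
d E1 = 0 unless X ∈ E1; if d E1 ≠ 0 then dm E1 = e + 1 (fdiv_supp). By additivity it is enough that
rs (gys h e d) ∈ JJ for h = X - C (c⁻¹ f): gys_mem with G = (JJ K f e).comap rs: for E1 with
d E1 ≠ 0 and h ∉ E1: rs_X.
-/
theorem diff_g (c : K) (hc : c ≠ 0) (e : ℕ) (W : PrimeSpectrum (Polynomial (Polynomial A)))
    (hW : rel f ∈ W.asIdeal) (hX : C X ∉ W.asIdeal) (hd : dm K W.asIdeal = e + 2)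
    (φ : Polynomial (Polynomial A)) (hφ : φ ∉ W.asIdeal) (φ1 : Polynomial A) (n : ℕ)
    (h1 : C X ^ n * φ - C φ1 ∈ W.asIdeal) :
    rs (ev K (algebraMap K A c⁻¹ * f)) (ev_surj K _)
        (gys K (X - C (algebraMap K A c⁻¹ * f)) e (mo A (fdiv K W.asIdeal φ (e + 1)))) -
      rs (ev K (algebraMap K A c⁻¹ * f)) (ev_surj K _)
        (gys K (X - C (algebraMap K A c⁻¹ * f)) e (fdiv K (low W).asIdeal φ1 (e + 1))) ∈
      JJ K f e := by
  rw [← map_sub, ← map_sub]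
  have h2 := gys_mem (K := K) (X - C (algebraMap K A c⁻¹ * f)) e
    ((JJ K f e).comap (rs (ev K (algebraMap K A c⁻¹ * f)) (ev_surj K _)))
    (mo A (fdiv K W.asIdeal φ (e + 1)) - fdiv K (low W).asIdeal φ1 (e + 1))
    (fun E1 hne hh => by
      obtain ⟨hXE, hdE⟩ := s5_supp f e W hW hX hd φ hφ φ1 n h1 E1 hne
      exact rs_X f c⁻¹ (inv_ne_zero hc) e E1 hXE hdE hh)
  exact h2

/-
PROOF. As diff_g: d is supported on primes E1 containing X, and for those
fdiv K E1 (X - C c) e = 0, because a prime containing X and X - C c contains the unit C c.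
-/
theorem diff_y (c : K) (hc : c ≠ 0) (e : ℕ) (W : PrimeSpectrum (Polynomial (Polynomial A)))
    (hW : rel f ∈ W.asIdeal) (hX : C X ∉ W.asIdeal) (hd : dm K W.asIdeal = e + 2)
    (φ : Polynomial (Polynomial A)) (hφ : φ ∉ W.asIdeal) (φ1 : Polynomial A) (n : ℕ)
    (h1 : C X ^ n * φ - C φ1 ∈ W.asIdeal) :
    gys K (X - C (algebraMap K A c)) e (mo A (fdiv K W.asIdeal φ (e + 1))) =
      gys K (X - C (algebraMap K A c)) e (fdiv K (low W).asIdeal φ1 (e + 1)) := by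
  rw [← sub_eq_zero, ← map_sub, ← AddSubgroup.mem_bot]
  refine gys_mem _ e ⊥ _ fun E1 hne _ => ?_
  obtain ⟨hXE, -⟩ := s5_supp f e W hW hX hd φ hφ φ1 n h1 E1 hne
  rw [AddSubgroup.mem_bot]
  ext Q
  rw [Finsupp.zero_apply]
  by_contra hQ
  have h2 := (fdiv_supp _ _ _ _ hQ).2
  have h3 : X ∈ Q.asIdeal := h2 (Submodule.mem_sup_left hXE)
  have h4 : X - C (algebraMap K A c) ∈ Q.asIdeal :=
    h2 (Submodule.mem_sup_right (Ideal.mem_span_singleton_self _))
  have h5 : C (algebraMap K A c) ∈ Q.asIdeal := by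
    have h6 := Q.asIdeal.sub_mem h3 h4
    rwa [sub_sub_cancel] at h6
  have h7 : IsUnit (C (algebraMap K A c)) :=
    ((IsUnit.mk0 c hc).map (algebraMap K A)).map (C : A →+* Polynomial A)
  exact Q.isPrime.ne_top (Ideal.eq_top_of_isUnit_mem _ h5 h7)

end Pool.Agent.HCF
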