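import Pool.Agent.HCF.S1
import Pool.Agent.HCF.X3

namespace Pool.Agent.HCF

open Pool.Agent.HCH Polynomial

variable {K A : Type} [Field K] [CommRing A] [Algebra K A] [Algebra.FiniteType K A] (f : A)

/-
PROOF. recip (X3) for the ring A[X], W = W1, φ = φ1, h = X - C a and
G = (Rt K (span {f}) e).comap (rs (ev K a) _): a common component E1 with dm e + 1 is good: it contains
X - C a, so E1 = comap (ev K a) V (exists_comap, ev_ker), f ∈ V since C f ∈ E1 (hc), and for ψ ∉ E1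
rs (fdiv K E1 ψ e) = fdiv K V (ev ψ) e ∈ Rt (rs_fdiv, fdiv_mem_Rt). So
rs (gys (X - C a) (fdiv W1 φ1) - gys φ1 (fdiv W1 (X - C a))) ∈ Rt, and
rs (gys φ1 e (fdiv K W1 (X - C a) (e + 1))) = gys (ev φ1) e (rs (...)) by rs_gys (the components contain
X - C a: fdiv_supp).
-/
theorem rec_ev (W1 : PrimeSpectrum (Polynomial A)) (e : ℕ) (hd : dm K W1.asIdeal = e + 2)
    (φ1 : Polynomial A) (hφ : φ1 ∉ W1.asIdeal) (a : A) (ha : X - C a ∉ W1.asIdeal)
    (hc : ∀ E1 : PrimeSpectrum (Polynomial A), W1.asIdeal ≤ E1.asIdeal → φ1 ∈ E1.asIdeal →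
      X - C a ∈ E1.asIdeal → dm K E1.asIdeal = e + 1 → C f ∈ E1.asIdeal) :
    rs (ev K a) (ev_surj K a) (gys K (X - C a) e (fdiv K W1.asIdeal φ1 (e + 1))) -
      gys K (ev K a φ1) e
        (rs (ev K a) (ev_surj K a) (fdiv K W1.asIdeal (X - C a) (e + 1))) ∈
      Rt K (Ideal.span {f}) e := by
  have hXa : ∀ E : PrimeSpectrum (Polynomial A), X - C a ∈ E.asIdeal →
      RingHom.ker (ev K a : Polynomial A →+* A) ≤ E.asIdeal := by
    intro E hE
    rw [ev_ker, Ideal.span_singleton_le_iff_mem]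
    exact hE
  have key := recip (K := K) ((Rt K (Ideal.span {f}) e).comap (rs (ev K a) (ev_surj K a))) e
    W1.asIdeal hd φ1 (X - C a) hφ ha (by
      intro E1 hW hE1 hE2 hdE
      refine ⟨hdE.le, ?_⟩
      intro _ x hx
      obtain ⟨V, hV⟩ := exists_comap (ev K a) E1 (hXa E1 hE2) (ev_surj K a)
      have hCf := hc E1 hW hE1 hE2 hdE
      rw [← hV] at hx hdE hCf ⊢
      have hdV : dm K V.asIdeal = e + 1 := by
        rw [← hdE]
        exact (dm_comap (ev K a) (ev_surj K a) V.asIdeal).symm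
      have hxV : ev K a x ∉ V.asIdeal := hx
      have hfV : f ∈ V.asIdeal := by
        have h1 : ev K a (C f) ∈ V.asIdeal := hCf
        rw [ev_apply, eval_C] at h1
        exact h1
      rw [AddSubgroup.mem_comap, rs_fdiv (ev K a) (ev_surj K a) V x hxV e hdV]
      exact fdiv_mem_Rt _ e V _ ((Ideal.span_singleton_le_iff_mem _).2 hfV) hdV hxV)
  rw [AddSubgroup.mem_comap, map_sub] at key
  rw [rs_gys (ev K a) (ev_surj K a) φ1 e (fdiv K W1.asIdeal (X - C a) (e + 1))] at key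
  · exact key
  · intro E hE
    have h1 := fdiv_supp _ _ _ _ hE
    exact ⟨hXa E (h1.2 (Submodule.mem_sup_right (Ideal.mem_span_singleton_self _))), h1.1⟩

end Pool.Agent.HCF
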