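import Pool.Agent.HCF.S1

namespace Pool.Agent.HCF

open Pool.Agent.HCH Polynomial

variable {K A : Type} [Field K] [CommRing A] [Algebra K A] [Algebra.FiniteType K A] (f : A)

/-
PROOF. E1 contains X. Let V = comap C E1 (C : A → A[X]); A[X] ⧸ E1 ≃ A ⧸ V, dm V = e + 1, and f ∉ V
(otherwise X - C (u f) ∈ E1). Ext Q, dm Q = e (otherwise 0 = 0). If f ∉ Q: both sides are 0
(fdiv_supp: the left hand side would give X ∈ E1 ≤ comap ev Q, i.e. u f ∈ Q; u is a unit). If f ∈ Q:
comap (ev (u f)) Q = comap (ev 0) Q (p.eval (u f) - p.eval 0 ∈ (f)), and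
E1 ⊔ span {X - C (u f)} = E1 ⊔ span {C f} (as X ∈ E1, u unit), so od is
od (E1 ⊔ span {C f}) (comap (ev 0) Q) = od (V ⊔ span {f}) Q: here E1 = comap (ev 0) V, so this is
rs_fdiv for ev 0 and g = C f.
-/
theorem rs_X (u : K) (hu : u ≠ 0) (e : ℕ) (E1 : PrimeSpectrum (Polynomial A))
    (hX : X ∈ E1.asIdeal) (hd : dm K E1.asIdeal = e + 1)
    (hh : X - C (algebraMap K A u * f) ∉ E1.asIdeal) :
    rs (ev K (algebraMap K A u * f)) (ev_surj K _)
        (fdiv K E1.asIdeal (X - C (algebraMap K A u * f)) e) ∈ JJ K f e := by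
  have hker : RingHom.ker (ev K (0 : A) : Polynomial A →+* A) ≤ E1.asIdeal := by
    rw [ev_ker, Ideal.span_singleton_le_iff_mem, map_zero, sub_zero]
    exact hX
  obtain ⟨V, hV⟩ := exists_comap (ev K (0 : A)) E1 hker (ev_surj K 0)
  have hdV : dm K V.asIdeal = e + 1 := by
    rw [← hd, ← hV]
    exact (dm_comap (ev K (0 : A)) (ev_surj K 0) V.asIdeal).symm
  have hmem : ∀ p : Polynomial A, p ∈ E1.asIdeal ↔ ev K (0 : A) p ∈ V.asIdeal := by
    intro p
    rw [← hV]
    exact Iff.rfl
  have hCf : C f ∉ E1.asIdeal := by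
    intro h
    apply hh
    rw [map_mul]
    exact E1.asIdeal.sub_mem hX (E1.asIdeal.mul_mem_left _ h)
  have hfV : f ∉ V.asIdeal := by
    intro h
    apply hCf
    rw [hmem, ev_apply, eval_C]
    exact h
  have hmain : rs (ev K (algebraMap K A u * f)) (ev_surj K _)
      (fdiv K E1.asIdeal (X - C (algebraMap K A u * f)) e) = fdiv K V.asIdeal f e := by
    ext Q
    rw [rs_apply]
    have hQ1 : dm K (PrimeSpectrum.comap (ev K (algebraMap K A u * f) : Polynomial A →+* A) Q).asIdeal
        = dm K Q.asIdeal := dm_comap (ev K (algebraMap K A u * f)) (ev_surj K _) Q.asIdeal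
    by_cases hdQ : dm K Q.asIdeal = e
    · by_cases hfQ : f ∈ Q.asIdeal
      · have hQQ : PrimeSpectrum.comap (ev K (algebraMap K A u * f) : Polynomial A →+* A) Q
            = PrimeSpectrum.comap (ev K (0 : A) : Polynomial A →+* A) Q := by
          apply PrimeSpectrum.ext
          ext p
          change ev K (algebraMap K A u * f) p ∈ Q.asIdeal ↔ ev K (0 : A) p ∈ Q.asIdeal
          rw [ev_apply, ev_apply]
          have h1 : p.eval (algebraMap K A u * f) - p.eval 0 ∈ Q.asIdeal := by
            obtain ⟨t, ht⟩ := Polynomial.sub_dvd_eval_sub (algebraMap K A u * f) 0 p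
            rw [ht, sub_zero]
            exact Q.asIdeal.mul_mem_right _ (Q.asIdeal.mul_mem_left _ hfQ)
          constructor
          · intro h2
            have h3 := Q.asIdeal.sub_mem h2 h1
            rwa [sub_sub_cancel] at h3
          · intro h2
            have h3 := Q.asIdeal.add_mem h1 h2
            rwa [sub_add_cancel] at h3
        have hsup : E1.asIdeal ⊔ Ideal.span {X - C (algebraMap K A u * f)}
            = E1.asIdeal ⊔ Ideal.span {C f} := by
          apply le_antisymm
          · apply sup_le le_sup_left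
            rw [Ideal.span_singleton_le_iff_mem, map_mul]
            exact Ideal.sub_mem _ (Ideal.mem_sup_left hX)
              (Ideal.mul_mem_left _ _ (Ideal.mem_sup_right (Ideal.mem_span_singleton_self _)))
          · apply sup_le le_sup_left
            rw [Ideal.span_singleton_le_iff_mem]
            have h1 : (C f : Polynomial A) = C (algebraMap K A u⁻¹) *
                (X - (X - C (algebraMap K A u * f))) := by
              rw [sub_sub_cancel, ← map_mul, ← mul_assoc, ← map_mul, inv_mul_cancel₀ hu, map_one, one_mul]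
            rw [h1]
            exact Ideal.mul_mem_left _ _ (Ideal.sub_mem _ (Ideal.mem_sup_left hX)
              (Ideal.mem_sup_right (Ideal.mem_span_singleton_self _)))
        rw [fdiv_apply E1.asIdeal _ hh e hd _ (hQ1.trans hdQ), hsup, hQQ]
        have h2 := rs_fdiv (ev K (0 : A)) (ev_surj K 0) V (C f)
          (by rw [ev_apply, eval_C]; exact hfV) e hdV
        have h3 := DFunLike.congr_fun h2 Q
        rw [rs_apply, hV, ev_apply, eval_C] at h3
        rw [← h3]
        have hQ0 : dm K (PrimeSpectrum.comap (ev K (0 : A) : Polynomial A →+* A) Q).asIdeal = e :=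
          (dm_comap (ev K (0 : A)) (ev_surj K _) Q.asIdeal).trans hdQ
        rw [fdiv_apply E1.asIdeal _ hCf e hd _ hQ0]
      · have hR : fdiv K V.asIdeal f e Q = 0 := by
          by_contra h
          exact hfQ ((fdiv_supp _ _ _ _ h).2
            (Submodule.mem_sup_right (Ideal.mem_span_singleton_self _)))
        rw [hR]
        by_contra h
        apply hfQ
        have h1 : X ∈ (PrimeSpectrum.comap
            (ev K (algebraMap K A u * f) : Polynomial A →+* A) Q).asIdeal :=
          (fdiv_supp _ _ _ _ h).2 (Submodule.mem_sup_left hX)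
        have h2 : ev K (algebraMap K A u * f) X ∈ Q.asIdeal := h1
        rw [ev_apply, eval_X] at h2
        have h3 := Q.asIdeal.mul_mem_left (algebraMap K A u⁻¹) h2
        rwa [← mul_assoc, ← map_mul, inv_mul_cancel₀ hu, map_one, one_mul] at h3
    · have hR : fdiv K V.asIdeal f e Q = 0 := by
        by_contra h
        exact hdQ (fdiv_supp _ _ _ _ h).1
      rw [hR]
      by_contra h
      exact hdQ (hQ1.symm.trans (fdiv_supp _ _ _ _ h).1)
  rw [hmain]
  exact (le_sup_right : _ ≤ JJ K f e) (AddSubgroup.subset_closure ⟨V, hdV, hfV, rfl⟩)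

end Pool.Agent.HCF
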