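import Pool.Agent.HCF.S1
import Pool.Agent.HCF.S2c

namespace Pool.Agent.HCF

open Pool.Agent.HCH Polynomial

section
variable {K A : Type} [Field K] [CommRing A] [Algebra K A] (f : A)

theorem s6_cc (c : K) (hc : c ≠ 0) : algebraMap K A c * (algebraMap K A c⁻¹ * f) = f := by
  rw [← mul_assoc, ← map_mul, mul_inv_cancel₀ hc, map_one, one_mul]

/-- the point of `(x, g, y)`-space -/
noncomputable def s6_E {A : Type} [CommRing A] (a b : A) (D : PrimeSpectrum A) :
    PrimeSpectrum (Polynomial (Polynomial A)) :=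
  PrimeSpectrum.comap (evalEvalRingHom a b) D

theorem s6_mem {A : Type} [CommRing A] {a b : A} {D : PrimeSpectrum A} (p : Polynomial (Polynomial A)) :
    p ∈ (s6_E a b D).asIdeal ↔ evalEval a b p ∈ D.asIdeal := Iff.rfl

theorem s6_low (a b : A) (D : PrimeSpectrum A) :
    low (s6_E a b D) = PrimeSpectrum.comap (ev K a : Polynomial A →+* A) D := by
  apply PrimeSpectrum.ext
  ext p
  rw [mem_low, s6_mem, evalEval_C]
  change _ ↔ ev K a p ∈ D.asIdeal
  rw [ev_apply]

theorem s6_low_sw (a b : A) (D : PrimeSpectrum A) :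
    low (sw (s6_E a b D)) = PrimeSpectrum.comap (ev K b : Polynomial A →+* A) D := by
  apply PrimeSpectrum.ext
  ext p
  rw [mem_low, mem_sw, swH_C, s6_mem, evalEval_map_C]
  change _ ↔ ev K b p ∈ D.asIdeal
  rw [ev_apply]

theorem s6_dm (b : A) (D : PrimeSpectrum A) :
    dm K (PrimeSpectrum.comap (ev K b : Polynomial A →+* A) D).asIdeal = dm K D.asIdeal :=
  dm_comap (ev K b) (ev_surj K b) D.asIdeal

theorem s6_span (c : K) (hc : c ≠ 0) :
    Ideal.span {C f - C (algebraMap K A c) * X} =
      Ideal.span {(X - C (algebraMap K A c⁻¹ * f) : Polynomial A)} := by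
  have h1 : C f - C (algebraMap K A c) * X =
      (C (algebraMap K A (-c))) * (X - C (algebraMap K A c⁻¹ * f)) := by
    rw [mul_sub, ← C_mul, map_neg, neg_mul, s6_cc f c hc, C_neg, C_neg]
    ring
  rw [h1]
  apply Ideal.span_singleton_mul_left_unit
  exact ((Ne.isUnit (neg_ne_zero.2 hc)).map (algebraMap K A)).map C

end

variable {K A : Type} [Field K] [CommRing A] [Algebra K A] [Algebra.FiniteType K A] (f : A)

/-
The two fibres at y = c agree outside f = 0. PROOF. If dm D ≠ e + 1 both sides are 0 (rs_apply,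
fdiv_supp and dm_comap). Let dm D = e + 1, a = c⁻¹ f, W' = sw W. The left hand side is
od (low W ⊔ span {X - C a}) (comap (ev a) D), the right hand side
od (low W' ⊔ span {X - C c}) (comap (ev c) D) (rs_apply, fdiv_apply).
Let E = comap (evalEvalRingHom a c) D (inner variable ↦ a, outer ↦ c): rel f ∈ E since f - c a = 0,
C X ∉ E as a ∉ D (f ∉ D, c⁻¹ unit), X ∉ E as c is a unit. low E = comap (ev a) D.
od_low for W, φ = X - C (C c), n = 1, φ1 = C f - C c * X: C X * (X - C (C c)) - C (C f - C c * X) =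
- rel f ∈ W. So od (W ⊔ span {X - C (C c)}) E = od (low W ⊔ span {C f - C c * X}) (low E), and
span {C f - C c * X} = span {X - C a} (the elements differ by the unit - c).
Exchange: E' = sw E contains rel f (swH_rel), C X ∉ E', low E' = comap (ev c) D
(swH (C p) = p.map C, swH_C). od_low for W', φ = C X - C (C c) = C (X - C c), n = 0,
φ1 = X - C c: od (W' ⊔ span {C (X - C c)}) E' = od (low W' ⊔ span {X - C c}) (low E').
od_sw for W and X - C (C c): swH (X - C (C c)) = C X - C (C c).
Here c stands for algebraMap K A c.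
-/
theorem fibre_eq (c : K) (hc : c ≠ 0) (e : ℕ) (W : PrimeSpectrum (Polynomial (Polynomial A)))
    (hW : rel f ∈ W.asIdeal) (hX : C X ∉ W.asIdeal) (hY : X ∉ W.asIdeal)
    (hd : dm K W.asIdeal = e + 2)
    (h1 : X - C (algebraMap K A c⁻¹ * f) ∉ (low W).asIdeal)
    (h2 : X - C (algebraMap K A c) ∉ (low (sw W)).asIdeal)
    (D : PrimeSpectrum A) (hD : f ∉ D.asIdeal) :
    rs (ev K (algebraMap K A c⁻¹ * f)) (ev_surj K _)
        (fdiv K (low W).asIdeal (X - C (algebraMap K A c⁻¹ * f)) (e + 1)) D =
      rs (ev K (algebraMap K A c)) (ev_surj K _)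
        (fdiv K (low (sw W)).asIdeal (X - C (algebraMap K A c)) (e + 1)) D := by
  rw [rs_apply, rs_apply]
  by_cases hdD : dm K D.asIdeal = e + 1
  · have hsW : rel f ∈ (sw W).asIdeal := by
      rw [mem_sw, swH_rel]
      exact hW
    have hsX : C X ∉ (sw W).asIdeal := by
      rw [mem_sw, swH_CX]
      exact hY
    have hd1 : dm K (low W).asIdeal = (e + 1) + 1 := by
      rw [dm_low f W hW hX]
      exact hd
    have hd2 : dm K (low (sw W)).asIdeal = (e + 1) + 1 := by
      rw [dm_low f (sw W) hsW hsX, dm_sw]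
      exact hd
    rw [fdiv_apply (low W).asIdeal _ h1 (e + 1) hd1 _ ((s6_dm _ D).trans hdD),
      fdiv_apply (low (sw W)).asIdeal _ h2 (e + 1) hd2 _ ((s6_dm _ D).trans hdD)]
    rw [← s6_low (K := K) (algebraMap K A c⁻¹ * f) (algebraMap K A c) D,
      ← s6_low_sw (K := K) (algebraMap K A c⁻¹ * f) (algebraMap K A c) D]
    set E := s6_E (algebraMap K A c⁻¹ * f) (algebraMap K A c) D with hEdef
    have hE : rel f ∈ E.asIdeal := by
      rw [hEdef, s6_mem]
      have h3 : evalEval (algebraMap K A c⁻¹ * f) (algebraMap K A c) (rel f) = 0 := by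
        unfold rel
        rw [evalEval_sub, evalEval_mul, evalEval_C, evalEval_C, eval_C, eval_X, evalEval_X, s6_cc f c hc,
          sub_self]
      rw [h3]
      exact D.asIdeal.zero_mem
    have hEX : C X ∉ E.asIdeal := by
      rw [hEdef, s6_mem, evalEval_C, eval_X]
      intro h3
      apply hD
      rw [← s6_cc f c hc]
      exact D.asIdeal.mul_mem_left _ h3
    have hEY : X ∉ E.asIdeal := by
      rw [hEdef, s6_mem, evalEval_X]
      intro h3
      apply D.isPrime.ne_top
      exact Ideal.eq_top_of_isUnit_mem _ h3 ((Ne.isUnit hc).map (algebraMap K A))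
    have hsE : rel f ∈ (sw E).asIdeal := by
      rw [mem_sw, swH_rel]
      exact hE
    have hsEX : C X ∉ (sw E).asIdeal := by
      rw [mem_sw, swH_CX]
      exact hEY
    have k1 := od_low f W hW (X - C (C (algebraMap K A c))) (C f - C (algebraMap K A c) * X) 1 (by
      have h3 : C X ^ 1 * (X - C (C (algebraMap K A c))) - C (C f - C (algebraMap K A c) * X) = -rel f := by
        unfold rel
        rw [C_sub, C_mul]
        ring
      rw [h3]
      exact W.asIdeal.neg_mem hW) E hE hEX
    rw [s6_span f c hc] at k1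
    have k2 := od_low f (sw W) hsW (C (X - C (algebraMap K A c))) (X - C (algebraMap K A c)) 0 (by
      rw [pow_zero, one_mul, sub_self]
      exact (sw W).asIdeal.zero_mem) (sw E) hsE hsEX
    have k3 := od_sw W (X - C (C (algebraMap K A c))) E
    have h4 : swH A (X - C (C (algebraMap K A c))) = C (X - C (algebraMap K A c)) := by
      rw [map_sub, swH_X, swH_CC, C_sub]
    rw [h4] at k3
    rw [← k1, ← k2, k3]
  · have z1 : fdiv K (low W).asIdeal (X - C (algebraMap K A c⁻¹ * f)) (e + 1)
        (PrimeSpectrum.comap (ev K (algebraMap K A c⁻¹ * f) : Polynomial A →+* A) D) = 0 := by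
      by_contra h
      exact hdD ((s6_dm _ D).symm.trans (fdiv_supp _ _ _ _ h).1)
    have z2 : fdiv K (low (sw W)).asIdeal (X - C (algebraMap K A c)) (e + 1)
        (PrimeSpectrum.comap (ev K (algebraMap K A c) : Polynomial A →+* A) D) = 0 := by
      by_contra h
      exact hdD ((s6_dm _ D).symm.trans (fdiv_supp _ _ _ _ h).1)
    rw [z1, z2]

end Pool.Agent.HCF
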