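import Pool.Agent.HCF.S1
import Pool.Agent.HCF.S2c

namespace Pool.Agent.HCF

open Pool.Agent.HCH Polynomial

variable {K A : Type} [Field K] [CommRing A] [Algebra K A] [Algebra.FiniteType K A] (f : A)

/-
The functions on the fibre. PROOF. Let a = c⁻¹ f and E = comap (evalEvalRingHom a c) D as in
fibre_eq. W ≤ E: u D ≠ 0 gives low W ≤ comap (ev a) D = low E (fdiv_supp, rs_apply), so W ≤ E by
le_of_low. Now C X ^ n * φ - C φ1 ∈ W ≤ E gives a ^ n * φ(a, c) - φ1(a) ∈ D, and
C X ^ m * swH φ - C φ2 ∈ sw W gives X ^ m * φ - swH (C φ2) ∈ W, so c ^ m * φ(a, c) - φ2(c) ∈ D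
(swH (C φ2) = φ2.map C evaluates to φ2(c)). Combine: c ^ m * φ1(a) - a ^ n * φ2(c) ∈ D, a = c⁻¹ f.
-/
theorem fibre_fun (c : K) (hc : c ≠ 0) (e : ℕ) (W : PrimeSpectrum (Polynomial (Polynomial A)))
    (hW : rel f ∈ W.asIdeal) (φ : Polynomial (Polynomial A)) (φ1 φ2 : Polynomial A) (n m : ℕ)
    (h1 : C X ^ n * φ - C φ1 ∈ W.asIdeal) (h2 : C X ^ m * swH A φ - C φ2 ∈ (sw W).asIdeal)
    (D : PrimeSpectrum A) (hD : f ∉ D.asIdeal)
    (hu : rs (ev K (algebraMap K A c⁻¹ * f)) (ev_surj K _)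
        (fdiv K (low W).asIdeal (X - C (algebraMap K A c⁻¹ * f)) (e + 1)) D ≠ 0) :
    algebraMap K A (c ^ m) * ev K (algebraMap K A c⁻¹ * f) φ1 -
      algebraMap K A (c⁻¹ ^ n) * f ^ n * ev K (algebraMap K A c) φ2 ∈ D.asIdeal := by
  set a : A := algebraMap K A c⁻¹ * f with ha
  set c' : A := algebraMap K A c with hc'
  have hcc : c' * a = f := by
    rw [ha, hc', ← mul_assoc, ← map_mul, mul_inv_cancel₀ hc, map_one, one_mul]
  let E : PrimeSpectrum (Polynomial (Polynomial A)) :=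
    PrimeSpectrum.comap (Polynomial.evalEvalRingHom a c') D
  have hmem : ∀ p : Polynomial (Polynomial A), p ∈ E.asIdeal ↔ evalEval a c' p ∈ D.asIdeal :=
    fun p => Iff.rfl
  have hEr : rel f ∈ E.asIdeal := by
    rw [hmem]
    have : evalEval a c' (rel f) = 0 := by
      unfold rel
      simp only [evalEval_sub, evalEval_mul, evalEval_X, evalEval_C, eval_X, eval_C]
      rw [hcc, sub_self]
    rw [this]
    exact D.asIdeal.zero_mem
  have hXE : C X ∉ E.asIdeal := by
    rw [hmem]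
    have : evalEval a c' (C X : Polynomial (Polynomial A)) = a := by
      rw [evalEval_C, eval_X]
    rw [this]
    intro hcon
    apply hD
    rw [← hcc]
    exact Ideal.mul_mem_left _ _ hcon
  have hlow : (low W).asIdeal ≤ (low E).asIdeal := by
    rw [rs_apply] at hu
    have h3 := (fdiv_supp _ _ _ _ hu).2
    intro p hp
    have h4 : p ∈ (PrimeSpectrum.comap ((ev K a : Polynomial A →ₐ[K] A) : Polynomial A →+* A) D).asIdeal :=
      h3 (Submodule.mem_sup_left hp)
    have h5 : ev K a p ∈ D.asIdeal := h4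
    rw [mem_low, hmem, evalEval_C]
    rw [ev_apply] at h5
    exact h5
  have hWE : W.asIdeal ≤ E.asIdeal := le_of_low f W E hW hEr hXE hlow
  have h3 : a ^ n * evalEval a c' φ - φ1.eval a ∈ D.asIdeal := by
    have h4 := (hmem _).1 (hWE h1)
    rw [evalEval_sub, evalEval_mul, evalEval_pow, evalEval_C, eval_X, evalEval_C] at h4
    exact h4
  have h4 : c' ^ m * evalEval a c' φ - φ2.eval c' ∈ D.asIdeal := by
    have h5 := (mem_sw W _).1 h2
    rw [map_sub, map_mul, map_pow, swH_CX, swH_swH, swH_C] at h5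
    have h6 := (hmem _).1 (hWE h5)
    rw [evalEval_sub, evalEval_mul, evalEval_pow, evalEval_X] at h6
    have h7 : evalEval a c' (φ2.map C) = φ2.eval c' := by
      unfold evalEval
      rw [eval_map, eval₂_at_apply, eval_C]
    rw [h7] at h6
    exact h6
  have h5 : algebraMap K A (c ^ m) * ev K a φ1 -
      algebraMap K A (c⁻¹ ^ n) * f ^ n * ev K c' φ2 =
      a ^ n * (c' ^ m * evalEval a c' φ - φ2.eval c') -
        c' ^ m * (a ^ n * evalEval a c' φ - φ1.eval a) := by
    rw [ev_apply, ev_apply, map_pow, map_pow, ← mul_pow, ← ha, ← hc']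
    ring
  rw [h5]
  exact D.asIdeal.sub_mem (Ideal.mul_mem_left _ _ h4) (Ideal.mul_mem_left _ _ h3)

end Pool.Agent.HCF
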