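import Pool.Agent.HCF.S0
import Pool.Agent.HCH.G6

namespace Pool.Agent.HCF

open Pool.Agent.HCH

variable {K A : Type} [Field K] [CommRing A] [Algebra K A] [Algebra.FiniteType K A] (f : A)

/-
PROOF. fdiv of a product: for a prime D with dm D = e + 1 and g, h ∉ D:
fdiv K D (g * h) e = fdiv K D g e + fdiv K D h e (fdiv_apply, mlt_mul in HCH/A2m, finiteness
mlt_ne_top for toNat), and fdiv does not change if g is multiplied by a unit algebraMap K A b, b ≠ 0,
or by an element of D (HCH sup_congr in G6).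
-/
theorem fdiv_mul (D : PrimeSpectrum A) (e : ℕ) (hd : dm K D.asIdeal = e + 1) (g h : A)
    (hg : g ∉ D.asIdeal) (hh : h ∉ D.asIdeal) :
    fdiv K D.asIdeal (g * h) e = fdiv K D.asIdeal g e + fdiv K D.asIdeal h e := by
  ext P
  rw [Finsupp.add_apply]
  by_cases hP : dm K P.asIdeal = e
  · have hgh : g * h ∉ D.asIdeal := fun hc => by
      rcases D.isPrime.mem_or_mem hc with h1 | h1
      · exact hg h1
      · exact hh h1
    rw [fdiv_apply D.asIdeal (g * h) hgh e hd P hP, fdiv_apply D.asIdeal g hg e hd P hP,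
      fdiv_apply D.asIdeal h hh e hd P hP]
    unfold od
    rw [mlt_mul D.asIdeal g h hg hh P, ENat.toNat_add
      (mlt_ne_top (K := K) D.asIdeal g hg P (by rw [hd, hP]))
      (mlt_ne_top (K := K) D.asIdeal h hh P (by rw [hd, hP]))]
    push_cast
    rfl
  · have h0 : ∀ g' : A, fdiv K D.asIdeal g' e P = 0 := by
      intro g'
      by_contra hne
      exact hP (fdiv_supp _ _ _ _ hne).1
    rw [h0, h0, h0, add_zero]

omit [Algebra.FiniteType K A] in
theorem s7_eq (W : Ideal A) (e : ℕ) (g h : A) (H : W ⊔ Ideal.span {g} = W ⊔ Ideal.span {h}) :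
    fdiv K W g e = fdiv K W h e := by
  have h1 : adiv K W g e = adiv K W h e := by
    unfold adiv
    rw [H]
  unfold fdiv
  rw [h1]

/- PROOF. The ideals D ⊔ span {g} and D ⊔ span {b g} are equal. -/
theorem fdiv_unit (D : PrimeSpectrum A) (e : ℕ) (b : K) (hb : b ≠ 0) (g : A) :
    fdiv K D.asIdeal (algebraMap K A b * g) e = fdiv K D.asIdeal g e := by
  apply s7_eq
  congr 1
  exact Ideal.span_singleton_mul_left_unit ((IsUnit.mk0 b hb).map (algebraMap K A)) g

/- PROOF. sup_congr: the ideals are equal. -/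
theorem fdiv_congr (D : PrimeSpectrum A) (e : ℕ) (g h : A) (hgh : g - h ∈ D.asIdeal) :
    fdiv K D.asIdeal g e = fdiv K D.asIdeal h e :=
  s7_eq _ _ _ _ (sup_congr D.asIdeal g h hgh)

theorem s7_pow (D : PrimeSpectrum A) (e : ℕ) (hd : dm K D.asIdeal = e + 1) (g : A)
    (hf : f ∉ D.asIdeal) (hg : g ∉ D.asIdeal) (n : ℕ) :
    fdiv K D.asIdeal (f ^ n * g) e = n • fdiv K D.asIdeal f e + fdiv K D.asIdeal g e := by
  induction n with
  | zero => simp
  | succ n ih =>
    have h1 : f ^ (n + 1) * g = f * (f ^ n * g) := by ring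
    have h2 : f ^ n * g ∉ D.asIdeal := fun hc => by
      rcases D.isPrime.mem_or_mem hc with h1 | h1
      · exact hf (D.isPrime.mem_of_pow_mem n h1)
      · exact hg h1
    rw [h1, fdiv_mul D e hd f (f ^ n * g) hf h2, ih, succ_nsmul]
    abel

open Classical in
/-
PROOF. For D with f ∉ D, dm D = e + 1 and b g1 - b' f ^ n g2 ∈ D (b, b' ≠ 0 constants):
g1 ∈ D ↔ g2 ∈ D. If both are in D both terms are 0. Otherwise fdiv D g1 = fdiv D (b g1) =
fdiv D (b' f ^ n g2) = n • fdiv D f + fdiv D g2 (fdiv_unit, fdiv_congr, fdiv_mul, induction on n), and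
fdiv D f e ∈ JJ. For D with f ∈ D: both terms are in Rt K (span {f}) e (fdiv_mem_Rt).
So gys K g1 e u1 - gys K g2 e u2 ∈ JJ: write gys as the sum over the union of the supports of u1 and
u2 (gys_eq_sum); for each D the term u1 D • (..g1..) - u2 D • (..g2..) is in JJ:
if f ∈ D both are in JJ; if f ∉ D then u1 D = u2 D and the difference is as above.
-/
theorem s7_term (e : ℕ) (D : PrimeSpectrum A) (m : ℤ) (hd : m ≠ 0 → dm K D.asIdeal = e + 1)
    (hf : f ∉ D.asIdeal) (g1 g2 : A) (b b' : K) (hb : b ≠ 0) (hb' : b' ≠ 0) (n : ℕ)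
    (hg : m ≠ 0 → algebraMap K A b * g1 - algebraMap K A b' * f ^ n * g2 ∈ D.asIdeal) :
    m • (if g1 ∈ D.asIdeal then (0 : PrimeSpectrum A →₀ ℤ) else fdiv K D.asIdeal g1 e) -
      m • (if g2 ∈ D.asIdeal then (0 : PrimeSpectrum A →₀ ℤ) else fdiv K D.asIdeal g2 e) ∈
      JJ K f e := by
  by_cases hm : m = 0
  · rw [hm, zero_smul, zero_smul, sub_zero]
    exact AddSubgroup.zero_mem _
  · have hd' := hd hm
    have hg' := hg hm
    have hub : IsUnit (algebraMap K A b) := (IsUnit.mk0 b hb).map (algebraMap K A)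
    have hub' : IsUnit (algebraMap K A b') := (IsUnit.mk0 b' hb').map (algebraMap K A)
    have hnb : algebraMap K A b ∉ D.asIdeal := fun hc =>
      D.isPrime.ne_top (Ideal.eq_top_of_isUnit_mem _ hc hub)
    have hnb' : algebraMap K A b' ∉ D.asIdeal := fun hc =>
      D.isPrime.ne_top (Ideal.eq_top_of_isUnit_mem _ hc hub')
    by_cases h2 : g2 ∈ D.asIdeal
    · have h1 : g1 ∈ D.asIdeal := by
        have h3 : algebraMap K A b * g1 ∈ D.asIdeal := by
          have h4 : algebraMap K A b' * f ^ n * g2 ∈ D.asIdeal := Ideal.mul_mem_left _ _ h2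
          have h5 := D.asIdeal.add_mem hg' h4
          rwa [sub_add_cancel] at h5
        exact (D.isPrime.mem_or_mem h3).resolve_left hnb
      rw [if_pos h1, if_pos h2, sub_self]
      exact AddSubgroup.zero_mem _
    · have h1 : g1 ∉ D.asIdeal := by
        intro hc
        have h3 : algebraMap K A b' * f ^ n * g2 ∈ D.asIdeal := by
          have h4 : algebraMap K A b * g1 ∈ D.asIdeal := Ideal.mul_mem_left _ _ hc
          have h5 := D.asIdeal.sub_mem h4 hg'
          rwa [sub_sub_cancel] at h5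
        rcases D.isPrime.mem_or_mem h3 with h4 | h4
        · rcases D.isPrime.mem_or_mem h4 with h5 | h5
          · exact hnb' h5
          · exact hf (D.isPrime.mem_of_pow_mem n h5)
        · exact h2 h4
      rw [if_neg h1, if_neg h2]
      have h3 : fdiv K D.asIdeal g1 e = n • fdiv K D.asIdeal f e + fdiv K D.asIdeal g2 e := by
        rw [← fdiv_unit D e b hb g1, fdiv_congr D e _ _ hg', mul_assoc,
          fdiv_unit D e b' hb', s7_pow f D e hd' g2 hf h2 n]
      rw [h3, ← smul_sub, add_sub_cancel_right]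
      refine AddSubgroup.zsmul_mem _ (AddSubgroup.nsmul_mem _ ?_ n) m
      exact AddSubgroup.mem_sup_right (AddSubgroup.subset_closure ⟨D, hd', hf, rfl⟩)

omit [Algebra.FiniteType K A] in
open Classical in
theorem s7_one (e : ℕ) (D : PrimeSpectrum A) (m : ℤ) (hd : m ≠ 0 → dm K D.asIdeal = e + 1)
    (hf : f ∈ D.asIdeal) (g : A) :
    m • (if g ∈ D.asIdeal then (0 : PrimeSpectrum A →₀ ℤ) else fdiv K D.asIdeal g e) ∈
      JJ K f e := by
  by_cases hm : m = 0
  · rw [hm, zero_smul]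
    exact AddSubgroup.zero_mem _
  · refine AddSubgroup.zsmul_mem _ ?_ m
    split_ifs with h
    · exact AddSubgroup.zero_mem _
    · refine AddSubgroup.mem_sup_left (fdiv_mem_Rt _ e D g ?_ (hd hm) h)
      rw [Ideal.span_singleton_le_iff_mem]
      exact hf

/-
PROOF. See s7_term.
-/
theorem gys_diff (e : ℕ) (u1 u2 : PrimeSpectrum A →₀ ℤ)
    (hd1 : ∀ D : PrimeSpectrum A, u1 D ≠ 0 → dm K D.asIdeal = e + 1)
    (hd2 : ∀ D : PrimeSpectrum A, u2 D ≠ 0 → dm K D.asIdeal = e + 1)
    (hu : ∀ D : PrimeSpectrum A, f ∉ D.asIdeal → u1 D = u2 D) (g1 g2 : A) (b b' : K)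
    (hb : b ≠ 0) (hb' : b' ≠ 0) (n : ℕ)
    (hg : ∀ D : PrimeSpectrum A, f ∉ D.asIdeal → u1 D ≠ 0 →
      algebraMap K A b * g1 - algebraMap K A b' * f ^ n * g2 ∈ D.asIdeal) :
    gys K g1 e u1 - gys K g2 e u2 ∈ JJ K f e := by
  classical
  have e1 := Finsupp.sum_of_support_subset u1 (s := u1.support ∪ u2.support)
    Finset.subset_union_left (fun (E : PrimeSpectrum A) (n : ℤ) =>
      n • (if g1 ∈ E.asIdeal then (0 : PrimeSpectrum A →₀ ℤ) else fdiv K E.asIdeal g1 e))
    (fun _ _ => zero_smul _ _)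
  have e2 := Finsupp.sum_of_support_subset u2 (s := u1.support ∪ u2.support)
    Finset.subset_union_right (fun (E : PrimeSpectrum A) (n : ℤ) =>
      n • (if g2 ∈ E.asIdeal then (0 : PrimeSpectrum A →₀ ℤ) else fdiv K E.asIdeal g2 e))
    (fun _ _ => zero_smul _ _)
  rw [gys_eq_sum, gys_eq_sum]
  refine (congrArg₂ (fun a b => a - b ∈ JJ K f e) e1 e2).mpr ?_
  rw [← Finset.sum_sub_distrib]
  refine AddSubgroup.sum_mem _ fun D _ => ?_
  by_cases hf : f ∈ D.asIdeal
  · exact AddSubgroup.sub_mem _ (s7_one f e D (u1 D) (hd1 D) hf g1)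
      (s7_one f e D (u2 D) (hd2 D) hf g2)
  · rw [← hu D hf]
    exact s7_term f e D (u1 D) (hd1 D) hf g1 g2 b b' hb hb' n (hg D hf)

end Pool.Agent.HCF
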