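import Pool.Agent.HCF.S0

namespace Pool.Agent.HCF

open Pool.Agent.HCH Polynomial

variable {K A : Type} [Field K] [CommRing A] [Algebra K A] [Algebra.FiniteType K A] (f : A)

/-
PROOF. For a prime E1 with X ∉ E1 there is at most one c ≠ 0 with X - C (c⁻¹ f) ∈ E1: for two of them
the difference (c⁻¹ - c'⁻¹) C f ∈ E1 gives C f ∈ E1 and then X ∈ E1. T = the union over the finite set
s of the (at most one) exceptional c (classical choice: for each E1 take the exceptional c if there is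
one, otherwise 0; T = s.image of it).
-/
theorem avoid_g (s : Finset (PrimeSpectrum (Polynomial A))) (hs : ∀ E1 ∈ s, X ∉ E1.asIdeal) :
    ∃ T : Finset K, ∀ c : K, c ≠ 0 → c ∉ T → ∀ E1 ∈ s,
      X - C (algebraMap K A c⁻¹ * f) ∉ E1.asIdeal := by
  classical
  have key : ∀ E1 : PrimeSpectrum (Polynomial A), X ∉ E1.asIdeal → ∀ c c' : K, c ≠ 0 → c' ≠ 0 →
      X - C (algebraMap K A c⁻¹ * f) ∈ E1.asIdeal →
      X - C (algebraMap K A c'⁻¹ * f) ∈ E1.asIdeal → c = c' := by
    intro E1 hX c c' hc hc' h h'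
    by_contra hne
    have h1 : C (algebraMap K A (c'⁻¹ - c⁻¹) * f) ∈ E1.asIdeal := by
      have h2 := E1.asIdeal.sub_mem h h'
      have h3 : (X - C (algebraMap K A c⁻¹ * f)) - (X - C (algebraMap K A c'⁻¹ * f)) =
          C (algebraMap K A (c'⁻¹ - c⁻¹) * f) := by
        rw [map_sub, sub_mul, C_sub]
        ring
      rwa [h3] at h2
    have hd : c'⁻¹ - c⁻¹ ≠ 0 := sub_ne_zero.mpr fun h4 => hne (inv_injective h4).symm
    have h5 : C f ∈ E1.asIdeal := by
      have h6 := E1.asIdeal.mul_mem_left (C (algebraMap K A (c'⁻¹ - c⁻¹)⁻¹)) h1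
      rw [← C_mul, ← mul_assoc, ← map_mul, inv_mul_cancel₀ hd, map_one, one_mul] at h6
      exact h6
    apply hX
    have h7 := E1.asIdeal.add_mem h (E1.asIdeal.mul_mem_left (C (algebraMap K A c⁻¹)) h5)
    rwa [← C_mul, sub_add_cancel] at h7
  let g : PrimeSpectrum (Polynomial A) → K := fun E1 =>
    if h : ∃ c : K, c ≠ 0 ∧ X - C (algebraMap K A c⁻¹ * f) ∈ E1.asIdeal then h.choose else 0
  refine ⟨s.image g, ?_⟩
  intro c hc hcT E1 hE1 hmem
  have h : ∃ c : K, c ≠ 0 ∧ X - C (algebraMap K A c⁻¹ * f) ∈ E1.asIdeal := ⟨c, hc, hmem⟩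
  have hg : g E1 = h.choose := dif_pos h
  have heq := key E1 (hs E1 hE1) c h.choose hc h.choose_spec.1 hmem h.choose_spec.2
  apply hcT
  rw [Finset.mem_image]
  exact ⟨E1, hE1, by rw [hg, ← heq]⟩

/- PROOF. The same: for two different c the difference is a unit. -/
theorem avoid_y (s : Finset (PrimeSpectrum (Polynomial A))) :
    ∃ T : Finset K, ∀ c : K, c ∉ T → ∀ E1 ∈ s, X - C (algebraMap K A c) ∉ E1.asIdeal := by
  classical
  have key : ∀ E1 : PrimeSpectrum (Polynomial A), ∀ c c' : K,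
      X - C (algebraMap K A c) ∈ E1.asIdeal → X - C (algebraMap K A c') ∈ E1.asIdeal → c = c' := by
    intro E1 c c' h h'
    by_contra hne
    have h1 : C (algebraMap K A (c' - c)) ∈ E1.asIdeal := by
      have h2 := E1.asIdeal.sub_mem h h'
      have h3 : (X - C (algebraMap K A c)) - (X - C (algebraMap K A c')) =
          C (algebraMap K A (c' - c)) := by
        rw [map_sub, C_sub]
        ring
      rwa [h3] at h2
    have hd : c' - c ≠ 0 := sub_ne_zero.mpr fun h4 => hne h4.symm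
    have h6 := E1.asIdeal.mul_mem_left (C (algebraMap K A (c' - c)⁻¹)) h1
    rw [← C_mul, ← map_mul, inv_mul_cancel₀ hd, map_one, C_1] at h6
    exact E1.isPrime.ne_top ((Ideal.eq_top_iff_one _).mpr h6)
  let g : PrimeSpectrum (Polynomial A) → K := fun E1 =>
    if h : ∃ c : K, X - C (algebraMap K A c) ∈ E1.asIdeal then h.choose else 0
  refine ⟨s.image g, ?_⟩
  intro c hcT E1 hE1 hmem
  have h : ∃ c : K, X - C (algebraMap K A c) ∈ E1.asIdeal := ⟨c, hmem⟩
  have hg : g E1 = h.choose := dif_pos h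
  have heq := key E1 c h.choose hmem h.choose_spec
  apply hcT
  rw [Finset.mem_image]
  exact ⟨E1, hE1, by rw [hg, ← heq]⟩

/- PROOF. fdiv has finite support; a prime E1 ≥ W1 ⊔ span {φ1} with dm E1 = k, dm W1 = k + 1,
φ1 ∉ W1 is in the support of fdiv K W1 φ1 k: it is minimal over W1 ⊔ span {φ1} (min_of_dm, HCH/A4); the
set of minimal primes is finite (Ideal.finite_minimalPrimes_of_isNoetherianRing). Take for s the finite
set of the minimal primes. -/
theorem exists_fin (k : ℕ) (W1 : PrimeSpectrum (Polynomial A)) (hd : dm K W1.asIdeal = k + 1)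
    (φ1 : Polynomial A) (hφ : φ1 ∉ W1.asIdeal) :
    ∃ s : Finset (PrimeSpectrum (Polynomial A)), ∀ E1 : PrimeSpectrum (Polynomial A),
      W1.asIdeal ≤ E1.asIdeal → φ1 ∈ E1.asIdeal → dm K E1.asIdeal = k → E1 ∈ s := by
  have hN : IsNoetherianRing (Polynomial A) := Algebra.FiniteType.isNoetherianRing K _
  have hf := Ideal.finite_minimalPrimes_of_isNoetherianRing (Polynomial A)
    (W1.asIdeal ⊔ Ideal.span {φ1})
  have hf' : {P : PrimeSpectrum (Polynomial A) |
      P.asIdeal ∈ (W1.asIdeal ⊔ Ideal.span {φ1}).minimalPrimes}.Finite :=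
    hf.preimage (f := PrimeSpectrum.asIdeal) (fun x _ y _ h => PrimeSpectrum.ext h)
  refine ⟨hf'.toFinset, ?_⟩
  intro E1 h1 h2 h3
  rw [Set.Finite.mem_toFinset]
  refine min_of_dm (K := K) W1.asIdeal φ1 hφ E1.asIdeal (by rw [hd, h3]) ?_
  exact sup_le h1 ((Ideal.span_singleton_le_iff_mem _).mpr h2)

end Pool.Agent.HCF
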