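import Pool.Agent.HCF.S9a

namespace Pool.Agent.HCF

open Pool.Agent.HCH Polynomial

variable {K A : Type} [Field K] [CommRing A] [Algebra K A] [Algebra.FiniteType K A] (f : A)

/-
PROOF. closure_induction: the generators fdiv K W φ (e + 1) with rel f ∈ W: cases C X ∈ W
(rho_case_g), X ∈ W (rho_case_y), neither (rho_main); Rt ≤ JJ. Sums: union of the finite sets;
negatives, zero: clear.
-/
theorem rho_Rt (e : ℕ) (z : PrimeSpectrum (Polynomial (Polynomial A)) →₀ ℤ)
    (hz : z ∈ Rt K (Ideal.span {rel f}) (e + 1)) :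
    ∃ T : Finset K, ∀ c : K, c ≠ 0 → c ∉ T → rho K f c e z ∈ JJ K f e := by
  classical
  have hle : Rt K (Ideal.span {f}) e ≤ JJ K f e := le_sup_left
  unfold Rt at hz
  induction hz using AddSubgroup.closure_induction with
  | mem z hz =>
    obtain ⟨W, φ, hIW, hd, hφ, rfl⟩ := hz
    have hW : rel f ∈ W.asIdeal := hIW (Ideal.mem_span_singleton_self _)
    have hd' : dm K W.asIdeal = e + 2 := hd
    by_cases hg : C X ∈ W.asIdeal
    · exact ⟨∅, fun c hc _ => hle (rho_case_g f c hc e W hW hd' hg φ hφ)⟩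
    by_cases hy : X ∈ W.asIdeal
    · exact ⟨∅, fun c hc _ => hle (rho_case_y f c e W hW hd' hy φ hφ)⟩
    exact rho_main f e W hW hg hy hd' φ hφ
  | zero =>
    refine ⟨∅, fun c _ _ => ?_⟩
    rw [map_zero]
    exact zero_mem _
  | add x y _ _ hx hy =>
    obtain ⟨T1, h1⟩ := hx
    obtain ⟨T2, h2⟩ := hy
    refine ⟨T1 ∪ T2, fun c hc hT => ?_⟩
    rw [Finset.mem_union, not_or] at hT
    rw [map_add]
    exact add_mem (h1 c hc hT.1) (h2 c hc hT.2)
  | neg x _ hx =>
    obtain ⟨T1, h1⟩ := hx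
    refine ⟨T1, fun c hc hT => ?_⟩
    rw [map_neg]
    exact neg_mem (h1 c hc hT)

end Pool.Agent.HCF
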