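import Pool.Agent.HCF.S4
import Pool.Agent.HCF.S5
import Pool.Agent.HCF.S5a
import Pool.Agent.HCF.S6
import Pool.Agent.HCF.S6a
import Pool.Agent.HCF.S7
import Pool.Agent.HCF.S8

namespace Pool.Agent.HCF

open Pool.Agent.HCH Polynomial

variable {K A : Type} [Field K] [CommRing A] [Algebra K A] [Algebra.FiniteType K A] (f : A)

omit [Algebra.FiniteType K A] [Algebra K A] in
theorem s9a_nmem (W : PrimeSpectrum (Polynomial (Polynomial A)))
    (hX : C X ∉ W.asIdeal) (φ : Polynomial (Polynomial A)) (hφ : φ ∉ W.asIdeal)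
    (φ1 : Polynomial A) (n : ℕ) (hn : C X ^ n * φ - C φ1 ∈ W.asIdeal) :
    φ1 ∉ (low W).asIdeal := by
  intro h1
  have h2 : C φ1 ∈ W.asIdeal := h1
  have h3 : C X ^ n * φ ∈ W.asIdeal := by
    have h4 := W.asIdeal.add_mem hn h2
    rwa [sub_add_cancel] at h4
  rcases W.isPrime.mem_or_mem h3 with h4 | h4
  · exact hX (W.isPrime.mem_of_pow_mem _ h4)
  · exact hφ h4

omit [Algebra.FiniteType K A] in
theorem s9a_supp (a : A) (e : ℕ) (W1 : PrimeSpectrum (Polynomial A)) (g : Polynomial A)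
    (D : PrimeSpectrum A)
    (hD : rs (ev K a) (ev_surj K a) (fdiv K W1.asIdeal g (e + 1)) D ≠ 0) :
    dm K D.asIdeal = e + 1 := by
  rw [rs_apply] at hD
  have h1 := (fdiv_supp _ _ _ _ hD).1
  rw [← h1]
  exact (dm_comap (ev K a) (ev_surj K a) D.asIdeal).symm

/-
The main case. PROOF. low_red: n, φ1 with C X ^ n * φ - C φ1 ∈ span {rel f}; W' = sw W, m, φ2 with
C X ^ m * swH φ - C φ2 ∈ span {rel f} (rel f ∈ W' by swH_rel; C X ∉ W' since swH (C X) = X ∉ W;
X ∉ W'). W1 = low W, W2 = low W', dm = e + 2 (dm_low, dm_sw), φ1 ∉ W1, φ2 ∉ W2.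
s1 = the finite set of exists_fin for W1, φ1, k = e + 1, filtered by X ∉ E1, together with W1
(X ∉ W1); s2 = the finite set for W2, φ2 together with W2. T = T1 ∪ T2 from avoid_g, avoid_y.
Let c ≠ 0, c ∉ T, a = algebraMap c⁻¹ * f, b = algebraMap c. Then X - C a ∉ W1, X - C b ∉ W2.
u1 = rs (ev a) (fdiv K W1 (X - C a) (e + 1)), u2 = rs (ev b) (fdiv K W2 (X - C b) (e + 1)).
rho z = [rs (gys h1 (mo z)) - rs (gys h1 (fdiv W1 φ1))]          in JJ by diff_g
 + [rs (gys h1 (fdiv W1 φ1)) - gys (ev a φ1) u1]                 in Rt by rec_ev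
 + [gys (ev a φ1) u1 - gys (ev b φ2) u2]                         in JJ by gys_diff
 + [gys (ev b φ2) u2 - rs (gys h2 (fdiv W2 φ2))]                 in Rt by rec_ev
 + [rs (gys h2 (fdiv W2 φ2)) - rs (gys h2 (mo (swz z)))]         = 0 by swz_fdiv and diff_y for W'.
rec_ev for W1: a common component E1 ∋ φ1, X - C a of dimension e + 1: if X ∉ E1 it is in s1,
contradiction; so X ∈ E1 and C a = X - (X - C a) ∈ E1, C f ∈ E1 (c⁻¹ is a unit).
rec_ev for W2: a common component is in s2: impossible.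
gys_diff with b := c ^ m, b' := c⁻¹ ^ n, g1 = ev a φ1, g2 = ev b φ2: fibre_eq and fibre_fun;
u1, u2 are supported on dm D = e + 1 (fdiv_supp, dm_comap).
-/
theorem rho_main (e : ℕ) (W : PrimeSpectrum (Polynomial (Polynomial A)))
    (hW : rel f ∈ W.asIdeal) (hX : C X ∉ W.asIdeal) (hY : X ∉ W.asIdeal)
    (hd : dm K W.asIdeal = e + 2) (φ : Polynomial (Polynomial A)) (hφ : φ ∉ W.asIdeal) :
    ∃ T : Finset K, ∀ c : K, c ≠ 0 → c ∉ T →
      rho K f c e (fdiv K W.asIdeal φ (e + 1)) ∈ JJ K f e := by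
  classical
  obtain ⟨n, φ1, hn⟩ := low_red f φ
  obtain ⟨m, φ2, hm⟩ := low_red f (swH A φ)
  have hn' : C X ^ n * φ - C φ1 ∈ W.asIdeal := (Ideal.span_singleton_le_iff_mem _).2 hW hn
  have hW' : rel f ∈ (sw W).asIdeal := by
    rw [mem_sw, swH_rel]
    exact hW
  have hX' : C X ∉ (sw W).asIdeal := by
    rw [mem_sw, swH_CX]
    exact hY
  have hφ' : swH A φ ∉ (sw W).asIdeal := by
    rw [mem_sw, swH_swH]
    exact hφ
  have hm' : C X ^ m * swH A φ - C φ2 ∈ (sw W).asIdeal :=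
    (Ideal.span_singleton_le_iff_mem _).2 hW' hm
  have hd' : dm K (sw W).asIdeal = e + 2 := by rw [dm_sw, hd]
  have hd1 : dm K (low W).asIdeal = e + 2 := by rw [dm_low f W hW hX, hd]
  have hd2 : dm K (low (sw W)).asIdeal = e + 2 := by rw [dm_low f (sw W) hW' hX', hd']
  have hφ1 : φ1 ∉ (low W).asIdeal := s9a_nmem W hX φ hφ φ1 n hn'
  have hφ2 : φ2 ∉ (low (sw W)).asIdeal := s9a_nmem (sw W) hX' (swH A φ) hφ' φ2 m hm'
  obtain ⟨s1, hs1⟩ := exists_fin (K := K) (e + 1) (low W) hd1 φ1 hφ1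
  obtain ⟨s2, hs2⟩ := exists_fin (K := K) (e + 1) (low (sw W)) hd2 φ2 hφ2
  obtain ⟨T1, hT1⟩ := avoid_g (K := K) f
    (insert (low W) (s1.filter (fun E1 => (X : Polynomial A) ∉ E1.asIdeal))) (by
      intro E1 hE1
      rcases Finset.mem_insert.1 hE1 with h | h
      · rw [h]
        exact hX
      · exact (Finset.mem_filter.1 h).2)
  obtain ⟨T2, hT2⟩ := avoid_y (K := K) (A := A) (insert (low (sw W)) s2)
  refine ⟨T1 ∪ T2, ?_⟩
  intro c hc hcT
  have hcT1 : c ∉ T1 := fun h => hcT (Finset.mem_union_left _ h)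
  have hcT2 : c ∉ T2 := fun h => hcT (Finset.mem_union_right _ h)
  have h1 := hT1 c hc hcT1 (low W) (Finset.mem_insert_self _ _)
  have h2 := hT2 c hcT2 (low (sw W)) (Finset.mem_insert_self _ _)
  have hRJ : Rt K (Ideal.span {f}) e ≤ JJ K f e := le_sup_left
  have A1 := diff_g f c hc e W hW hX hd φ hφ φ1 n hn'
  have A2 := rec_ev f (low W) e hd1 φ1 hφ1 (algebraMap K A c⁻¹ * f) h1 (by
    intro E1 hE hφE hXE hdE
    have hEs := hs1 E1 hE hφE hdE
    by_cases hXE1 : (X : Polynomial A) ∈ E1.asIdeal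
    · have h3 : C (algebraMap K A c⁻¹ * f) ∈ E1.asIdeal := by
        have h4 := E1.asIdeal.sub_mem hXE1 hXE
        rwa [sub_sub_cancel] at h4
      have h4 := E1.asIdeal.mul_mem_left (C (algebraMap K A c)) h3
      rwa [← C_mul, ← mul_assoc, ← map_mul, mul_inv_cancel₀ hc, map_one, one_mul] at h4
    · exact absurd hXE (hT1 c hc hcT1 E1
        (Finset.mem_insert_of_mem (Finset.mem_filter.2 ⟨hEs, hXE1⟩))))
  have A4 := rec_ev f (low (sw W)) e hd2 φ2 hφ2 (algebraMap K A c) h2 (by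
    intro E1 hE hφE hXE hdE
    exact absurd hXE (hT2 c hcT2 E1 (Finset.mem_insert_of_mem (hs2 E1 hE hφE hdE))))
  have A3 := gys_diff f e
    (rs (ev K (algebraMap K A c⁻¹ * f)) (ev_surj K _)
        (fdiv K (low W).asIdeal (X - C (algebraMap K A c⁻¹ * f)) (e + 1)))
    (rs (ev K (algebraMap K A c)) (ev_surj K _)
        (fdiv K (low (sw W)).asIdeal (X - C (algebraMap K A c)) (e + 1)))
    (fun D hD => s9a_supp _ e _ _ D hD) (fun D hD => s9a_supp _ e _ _ D hD)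
    (fun D hD => fibre_eq f c hc e W hW hX hY hd h1 h2 D hD)
    (ev K (algebraMap K A c⁻¹ * f) φ1) (ev K (algebraMap K A c) φ2) (c ^ m) (c⁻¹ ^ n)
    (pow_ne_zero _ hc) (pow_ne_zero _ (inv_ne_zero hc)) n
    (fun D hD hu => fibre_fun f c hc e W hW φ φ1 φ2 n m hn' hm' D hD hu)
  have A5 := diff_y f c hc e (sw W) hW' hX' hd' (swH A φ) hφ' φ2 m hm'
  rw [rho_apply, swz_fdiv W (e + 1) hd φ hφ, A5]
  have key := sub_mem (add_mem (add_mem A1 (hRJ A2)) A3) (hRJ A4)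
  rwa [sub_add_sub_cancel, sub_add_sub_cancel, sub_sub_sub_cancel_right] at key

end Pool.Agent.HCF
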