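import Pool.Agent.HCF.C3
import Pool.Agent.HCH.B3

namespace Pool.Agent.HCF

open Pool.Agent.HCH

variable {K R R' : Type} [Field K] [CommRing R] [CommRing R'] [Algebra K R] [Algebra K R']
  [Algebra R R'] [IsScalarTower K R R']

/-- The prime of `R` under a prime of `R'`. -/
noncomputable def un (R : Type) {R' : Type} [CommRing R] [CommRing R'] [Algebra R R']
    (P : PrimeSpectrum R') : PrimeSpectrum R := PrimeSpectrum.comap (algebraMap R R') P

/-- The degree of the residue field extension (as a length). -/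
noncomputable def rdeg (R : Type) {R' : Type} [CommRing R] [CommRing R'] [Algebra R R']
    (P : PrimeSpectrum R') : ℤ :=
  ((Module.length (Localization.AtPrime (un R P).asIdeal)
    (LocalizedModule (un R P).asIdeal.primeCompl (R' ⧸ P.asIdeal))).toNat : ℤ)

/-- Push-forward of cycles. -/
noncomputable def psh (R R' : Type) [CommRing R] [CommRing R'] [Algebra R R'] :
    (PrimeSpectrum R' →₀ ℤ) →+ (PrimeSpectrum R →₀ ℤ) :=
  Finsupp.liftAddHom (fun P : PrimeSpectrum R' => zmultiplesHom (PrimeSpectrum R →₀ ℤ)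
    (Finsupp.single (un R P) (rdeg R P)))

theorem psh_single (P : PrimeSpectrum R') (n : ℤ) :
    psh R R' (Finsupp.single P n) = n • Finsupp.single (un R P) (rdeg R P) := by
  simp [psh]

/-
PROOF. R ⧸ P → R' ⧸ P' is an injective integral extension of domains (Module.Finite R R'), so the
transcendence degrees over K are equal (trdeg_alg_top in HCH/B3 or Mathlib Algebra.trdeg_eq..., the
extension of domains is algebraic).
-/
theorem dm_un [Module.Finite R R'] (P : PrimeSpectrum R') :
    dm K (un R P).asIdeal = dm K P.asIdeal := by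
  have hle : (un R P).asIdeal ≤ P.asIdeal.comap (IsScalarTower.toAlgHom K R R') := le_rfl
  let f : (R ⧸ (un R P).asIdeal) →ₐ[K] (R' ⧸ P.asIdeal) :=
    Ideal.quotientMapₐ P.asIdeal (IsScalarTower.toAlgHom K R R') hle
  have hf : Function.Injective f := Ideal.quotientMap_injective' (H := hle) le_rfl
  have h1 : Algebra.trdeg K (R ⧸ (un R P).asIdeal) = Algebra.trdeg K (R' ⧸ P.asIdeal) := by
    apply trdeg_alg_top K _ _ f hf
    intro b
    obtain ⟨b, rfl⟩ := Ideal.Quotient.mk_surjective b
    obtain ⟨p, hpm, hp0⟩ := Algebra.IsIntegral.isIntegral (R := R) b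
    refine ⟨p.map (Ideal.Quotient.mk _), (hpm.map _).ne_zero, ?_⟩
    rw [Polynomial.eval₂_map]
    have h2 : (f : (R ⧸ (un R P).asIdeal) →+* (R' ⧸ P.asIdeal)).comp (Ideal.Quotient.mk _) =
        (Ideal.Quotient.mk P.asIdeal).comp (algebraMap R R') := rfl
    rw [h2, ← Polynomial.hom_eval₂, hp0, map_zero]
  unfold dm
  rw [h1]

end Pool.Agent.HCF
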