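import Pool.Agent.HCF.U1

namespace Pool.Agent.HCF

open Pool.Agent.HCH

variable {K R R' : Type} [Field K] [CommRing R] [CommRing R'] [Algebra K R] [Algebra K R']
  [Algebra R R'] [IsScalarTower K R R']

/-- the annihilator -/
theorem u1b_ann (P : PrimeSpectrum R') (r : R) :
    r ∈ Module.annihilator R (R' ⧸ P.asIdeal) ↔ r ∈ (un R P).asIdeal := by
  rw [Module.mem_annihilator]
  constructor
  · intro h
    have h1 := h 1
    have h2 : algebraMap R (R' ⧸ P.asIdeal) r = 0 := by
      rw [Algebra.algebraMap_eq_smul_one]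
      exact h1
    have h3 : Ideal.Quotient.mk P.asIdeal (algebraMap R R' r) = 0 := h2
    rw [Ideal.Quotient.eq_zero_iff_mem] at h3
    exact h3
  · intro h x
    have h3 : Ideal.Quotient.mk P.asIdeal (algebraMap R R' r) = 0 := by
      rw [Ideal.Quotient.eq_zero_iff_mem]
      exact h
    rw [Algebra.smul_def]
    have h2 : algebraMap R (R' ⧸ P.asIdeal) r = 0 := h3
    rw [h2, zero_mul]

theorem u1b_fil (K : Type) [Field K] [Algebra K R] [Algebra.FiniteType K R] [Module.Finite R R']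
    (P : PrimeSpectrum R') : ∃ (n : ℕ) (w : PrimeSpectrum R →₀ ℤ),
      Fil (fun Q : PrimeSpectrum R => (un R P).asIdeal ≤ Q.asIdeal) n (R' ⧸ P.asIdeal) w := by
  have hN : IsNoetherianRing R := Algebra.FiniteType.isNoetherianRing K R
  have hF : Module.Finite R (R' ⧸ P.asIdeal) :=
    Module.Finite.of_surjective (Ideal.Quotient.mkₐ R P.asIdeal).toLinearMap
      Ideal.Quotient.mk_surjective
  refine Fil.exists (R' ⧸ P.asIdeal) ?_
  intro Q hQ r hr
  exact hQ ((u1b_ann P r).2 hr)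

theorem u1b_len {n : ℕ} {w : PrimeSpectrum R →₀ ℤ} (P : PrimeSpectrum R')
    (h : Fil (fun Q : PrimeSpectrum R => (un R P).asIdeal ≤ Q.asIdeal) n (R' ⧸ P.asIdeal) w) :
    ∃ k : ℕ, w (un R P) = k ∧ Module.length (Localization.AtPrime (un R P).asIdeal)
      (LocalizedModule (un R P).asIdeal.primeCompl (R' ⧸ P.asIdeal)) = k ∧ rdeg R P = k := by
  obtain ⟨k, h1, h2⟩ := h.length (un R P)
    (fun Q hQ hle => PrimeSpectrum.ext (le_antisymm hle hQ))
  refine ⟨k, h1, h2, ?_⟩
  unfold rdeg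
  rw [h2]
  rfl

/-
PROOF. R' ⧸ P' is a finite R-module with annihilator un R P. By Fil.exists there is a filtration with
S = {Q | un R P ≤ Q}. For Q with dm Q = k = dm P: w Q is the length of (R' ⧸ P')_Q (Fil.length: Q' ≤ Q
with un R P ≤ Q' has dm Q' ≤ dm (un R P) = k = dm Q, so Q' = Q by eq_of_le); w Q ≠ 0 implies
un R P ≤ Q (Fil.supp) so Q = un R P by eq_of_le, and then w Q = rdeg.
For dm Q = k > dm P: w Q = 0 by Fil.supp and dm_le.
-/
theorem fil_res [Algebra.FiniteType K R] [Module.Finite R R'] (P : PrimeSpectrum R') (k : ℕ)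
    (hk : dm K P.asIdeal ≤ k) :
    ∃ (n : ℕ) (w : PrimeSpectrum R →₀ ℤ),
      Fil (fun Q : PrimeSpectrum R => (un R P).asIdeal ≤ Q.asIdeal) n (R' ⧸ P.asIdeal) w ∧
      pt K k w = pt K k (psh R R' (Finsupp.single P 1)) := by
  obtain ⟨n, w, hw⟩ := u1b_fil (R := R) K P
  obtain ⟨l, hl1, hl2, hl3⟩ := u1b_len P hw
  refine ⟨n, w, hw, ?_⟩
  ext Q
  rw [psh_single, one_smul]
  by_cases hQ : dm K Q.asIdeal = k
  · rw [pt_apply k _ Q hQ, pt_apply k _ Q hQ]
    by_cases hu : Q = un R P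
    · rw [hu, Finsupp.single_eq_same, hl1, hl3]
    · rw [Finsupp.single_eq_of_ne hu]
      by_contra hne
      have hS := (hw.supp Q).2 hne
      apply hu
      symm
      apply eq_of_le (K := K) _ _ hS
      rw [dm_un, hQ]
      exact hk
  · rw [pt_apply_ne k _ Q hQ, pt_apply_ne k _ Q hQ]

/-
PROOF. As in fil_res, the length of the localisation at P0 = un R P of R' ⧸ P is finite and equal to
w P0; it is not 0 because (R' ⧸ P)_P0 is not trivial: R ⧸ P0 → R' ⧸ P is injective, so no element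
outside P0 kills 1 (Module.length_eq_zero_iff).
-/
theorem rdeg_pos [Algebra.FiniteType K R] [Module.Finite R R'] (P : PrimeSpectrum R') :
    0 < rdeg R P := by
  obtain ⟨n, w, hw⟩ := u1b_fil (R := R) K P
  obtain ⟨l, hl1, hl2, hl3⟩ := u1b_len P hw
  rw [hl3]
  rcases Nat.eq_zero_or_pos l with h0 | h0
  · exfalso
    rw [h0, Nat.cast_zero, Module.length_eq_zero_iff] at hl2
    have h1 : (LocalizedModule.mk (1 : R' ⧸ P.asIdeal) 1 :
        LocalizedModule (un R P).asIdeal.primeCompl (R' ⧸ P.asIdeal)) = LocalizedModule.mk 0 1 :=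
      Subsingleton.elim _ _
    rw [LocalizedModule.mk_eq] at h1
    obtain ⟨u, hu⟩ := h1
    have h2 : (u : R) • (1 : R' ⧸ P.asIdeal) = 0 := by
      have h3 : u • (1 : (un R P).asIdeal.primeCompl) • (1 : R' ⧸ P.asIdeal) =
        u • (1 : (un R P).asIdeal.primeCompl) • (0 : R' ⧸ P.asIdeal) := hu
      rw [one_smul, one_smul, smul_zero] at h3
      exact h3
    apply u.2
    rw [← Algebra.algebraMap_eq_smul_one] at h2
    have h3 : Ideal.Quotient.mk P.asIdeal (algebraMap R R' (u : R)) = 0 := h2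
    rw [Ideal.Quotient.eq_zero_iff_mem] at h3
    exact h3
  · exact_mod_cast h0

end Pool.Agent.HCF
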