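import Pool.Agent.HCF.U1b

namespace Pool.Agent.HCF

open Pool.Agent.HCH

variable {K R R' : Type} [Field K] [CommRing R] [CommRing R'] [Algebra K R] [Algebra K R']
  [Algebra R R'] [IsScalarTower K R R'] [Algebra.FiniteType K R] [Algebra.FiniteType K R']
  [Module.Finite R R']

/-
A filtration of an R'-module by R' ⧸ P gives one over R. PROOF. Induction on n for all M.
n = 0: triv. n + 1: N ≤ M over R', P, w', N ≃ R' ⧸ P over R', dm P ≤ e, Fil n (M ⧸ N) w'. Over R:
Fil of R' ⧸ P by fil_res with k = e; its primes Q have un R P ≤ Q so dm Q ≤ dm P ≤ e: they are good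
(Fil.mono). Restrict scalars: N.restrictScalars R, exact sequence N → M → M ⧸ N over R, Fil.exact.
-/
theorem fil_down (G : AddSubgroup (PrimeSpectrum R →₀ ℤ)) (e : ℕ) {n : ℕ} {M : Type}
    [AddCommGroup M] [Module R' M] [Module R M] [IsScalarTower R R' M]
    {w : PrimeSpectrum R' →₀ ℤ}
    (h : Fil (fun P : PrimeSpectrum R' => dm K P.asIdeal ≤ e) n M w) :
    ∃ (n' : ℕ) (w' : PrimeSpectrum R →₀ ℤ), Fil (Gd K G e) n' M w' ∧
      pt K e w' = pt K e (psh R R' w) := by
  induction n generalizing M w with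
  | zero =>
    obtain ⟨h1, h2⟩ := h
    refine ⟨0, 0, ⟨h1, rfl⟩, ?_⟩
    rw [h2, map_zero, map_zero, map_zero]
  | succ n ih =>
    obtain ⟨N, P, w1, ⟨f⟩, hP, hfil, hw⟩ := h
    obtain ⟨n2, w2, h2, h2'⟩ := ih hfil
    obtain ⟨n1, w3, h3, h3'⟩ := fil_res (K := K) (R := R) P e hP
    have h4 : Fil (Gd K G e) n1 (R' ⧸ P.asIdeal) w3 := by
      refine Fil.mono (fun Q hQ => ?_) h3
      have h5 : dm K Q.asIdeal ≤ dm K (un R P).asIdeal := dm_le _ _ hQ
      rw [dm_un (K := K) P] at h5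
      exact ⟨by omega, fun h6 => by omega⟩
    have h5 : Fil (Gd K G e) n1 N w3 := Fil.congr (f.restrictScalars R) h4
    have h6 : Fil (Gd K G e) (n1 + n2) M (w3 + w2) := by
      refine Fil.exact (N.subtype.restrictScalars R) (N.mkQ.restrictScalars R) ?_ ?_ ?_ h5 h2
      · exact N.subtype_injective
      · exact N.mkQ_surjective
      · exact LinearMap.exact_subtype_mkQ N
    refine ⟨n1 + n2, w3 + w2, h6, ?_⟩
    rw [hw, map_add, map_add, map_add, h2', h3', add_comm]

end Pool.Agent.HCF
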