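import Pool.Agent.HCF.U2a

namespace Pool.Agent.HCF

open Pool.Agent.HCH

variable {K R R' : Type} [Field K] [CommRing R] [CommRing R'] [Algebra K R] [Algebra K R']
  [Algebra R R'] [IsScalarTower K R R'] [Algebra.FiniteType K R] [Algebra.FiniteType K R']
  [Module.Finite R R']

omit [Algebra.FiniteType K R] [Algebra.FiniteType K R'] in
private theorem u2b_pt_psh (e : ℕ) (w : PrimeSpectrum R' →₀ ℤ) :
    pt K e (psh R R' w) = psh R R' (pt K e w) := by
  have h : (pt K e).comp (psh R R') = (psh R R').comp (pt K e) := by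
    apply Finsupp.addHom_ext
    intro P n
    have hdm : dm K (un R P).asIdeal = dm K P.asIdeal := dm_un P
    rw [AddMonoidHom.comp_apply, AddMonoidHom.comp_apply, psh_single]
    by_cases hP : dm K P.asIdeal = e
    · rw [pt_single e P n hP, psh_single, map_zsmul, pt_single e (un R P) _ (hdm.trans hP)]
    · rw [pt_single_ne e P n hP, map_zsmul,
        pt_single_ne e (un R P) _ (fun h1 => hP (hdm.symm.trans h1)), map_zero, smul_zero]
  exact DFunLike.congr_fun h w

/-
Push-forward preserves rational equivalence. PROOF. AddSubgroup.closure_induction; generator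
z = fdiv K W' g e, I.map ≤ W', dm W' = e + 1, g ∉ W', G = Rt K I e. Let W = un R W' ≥ I,
dm W = e + 1 (dm_un). (1) Over R the module R' ⧸ W' has a filtration with S = {Q | W ≤ Q} (fil_res),
all these Q are good: dm Q ≤ e + 1, and if dm Q = e + 1 then Q = W and its divisors are in Rt
(fdiv_mem_Rt). So Fil Gd a (R' ⧸ W') u. (2) M' = R' ⧸ (W' + (g)) has over R' a filtration with
S = {P | W' + (g) ≤ P}, dm P ≤ e (dm_le_of_sup), w with pt K e w = fdiv K W' g e (Fil.pt_fdiv).
fil_down: Fil Gd n' M' w' over R with pt w' = pt (psh w). (3) exact sequence over R: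
0 → R' ⧸ W' → R' ⧸ W' → M' → 0, multiplication by g (injective, W' prime), so by Fil.exact
Fil Gd _ (R' ⧸ W') (u + w'), and by Fil.uniq pt K e ((u + w') - u) = pt K e w' ∈ G.
(4) pt K e (psh w) = psh (pt K e w) because dm_un (check on single), and psh (fdiv ..) has only
components of dimension e.
-/
theorem psh_Rt (I : Ideal R) (e : ℕ) (z : PrimeSpectrum R' →₀ ℤ)
    (hz : z ∈ Rt K (I.map (algebraMap R R')) e) : psh R R' z ∈ Rt K I e := by
  refine AddSubgroup.closure_induction (p := fun z _ => psh R R' z ∈ Rt K I e) ?_ ?_ ?_ ?_ hz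
  · rintro z ⟨W', g, hI, hd, hg, rfl⟩
    have hW'p := W'.isPrime
    have hWp := (un R W').isPrime
    have hIW : I ≤ (un R W').asIdeal := Ideal.map_le_iff_le_comap.1 hI
    have hdW : dm K (un R W').asIdeal = e + 1 := (dm_un W').trans hd
    -- (1)
    obtain ⟨n, u, hu, -⟩ := fil_res (K := K) (R := R) W' (e + 1) hd.le
    have hu' : Fil (Gd K (Rt K I e) e) n (R' ⧸ W'.asIdeal) u := by
      refine Fil.mono (fun Q hQ => ?_) hu
      have hQp := Q.isPrime
      have hle : dm K Q.asIdeal ≤ e + 1 := (dm_le (K := K) _ _ hQ).trans hdW.le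
      refine ⟨hle, fun hdQ x hx => ?_⟩
      have hQW : un R W' = Q := eq_of_le (K := K) _ _ hQ (by rw [hdW, hdQ])
      subst hQW
      exact AddSubgroup.subset_closure ⟨_, x, hIW, hdW, hx, rfl⟩
    -- (2)
    have hnoeth : IsNoetherianRing R' := Algebra.FiniteType.isNoetherianRing K R'
    obtain ⟨n1, w, hw⟩ := Fil.exists (R := R') (S := fun P : PrimeSpectrum R' => dm K P.asIdeal ≤ e)
      (R' ⧸ (W'.asIdeal ⊔ Ideal.span {g})) (fun P hP => by
        rw [Ideal.annihilator_quotient] at hP
        have := dm_le_of_sup (K := K) W'.asIdeal g hg P hP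
        show dm K P.asIdeal ≤ e
        omega)
    have hptw : pt K e w = fdiv K W'.asIdeal g e :=
      Fil.pt_fdiv (fun P hP => hP) W'.asIdeal g hg hd hw
    obtain ⟨n2, w', hw', hpt'⟩ := fil_down (K := K) (R := R) (Rt K I e) e hw
    -- (3)
    have hle : W'.asIdeal ≤ W'.asIdeal ⊔ Ideal.span {g} := le_sup_left
    set f : (R' ⧸ W'.asIdeal) →ₗ[R] (R' ⧸ W'.asIdeal) :=
      LinearMap.mulLeft R (Ideal.Quotient.mk W'.asIdeal g) with hf
    set q : (R' ⧸ W'.asIdeal) →ₗ[R] (R' ⧸ (W'.asIdeal ⊔ Ideal.span {g})) :=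
      (Ideal.Quotient.factorₐ R hle).toLinearMap with hq
    have hg0 : Ideal.Quotient.mk W'.asIdeal g ≠ 0 := fun h0 => hg (Ideal.Quotient.eq_zero_iff_mem.1 h0)
    have hfinj : Function.Injective f := by
      intro a b hab
      exact mul_left_cancel₀ hg0 hab
    have hqmk : ∀ y : R', q (Ideal.Quotient.mk W'.asIdeal y) =
        Ideal.Quotient.mk (W'.asIdeal ⊔ Ideal.span {g}) y := fun y => rfl
    have hqsurj : Function.Surjective q := by
      intro a
      obtain ⟨y, rfl⟩ := Ideal.Quotient.mk_surjective a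
      exact ⟨Ideal.Quotient.mk W'.asIdeal y, hqmk y⟩
    have hex : Function.Exact f q := by
      intro a
      obtain ⟨y, rfl⟩ := Ideal.Quotient.mk_surjective a
      rw [hqmk, Ideal.Quotient.eq_zero_iff_mem]
      constructor
      · intro hy
        obtain ⟨a, ha, b, hb, hab⟩ := Submodule.mem_sup.1 hy
        obtain ⟨c, rfl⟩ := Ideal.mem_span_singleton'.1 hb
        refine ⟨Ideal.Quotient.mk W'.asIdeal c, ?_⟩
        show Ideal.Quotient.mk W'.asIdeal g * Ideal.Quotient.mk W'.asIdeal c = _
        rw [← hab, map_add, Ideal.Quotient.eq_zero_iff_mem.2 ha, zero_add, map_mul, mul_comm]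
      · rintro ⟨b, hb⟩
        obtain ⟨c, rfl⟩ := Ideal.Quotient.mk_surjective b
        have h1 : Ideal.Quotient.mk W'.asIdeal (g * c) = Ideal.Quotient.mk W'.asIdeal y := by
          rw [map_mul]; exact hb
        rw [Ideal.Quotient.eq] at h1
        have h2 : y = -(g * c - y) + c * g := by ring
        rw [h2]
        exact Submodule.add_mem_sup (neg_mem h1) (Ideal.mul_mem_left _ _ (Ideal.mem_span_singleton_self g))
    have hnew := Fil.exact f q hfinj hqsurj hex hu' hw'
    have huniq := Fil.uniq (Rt K I e) e hnew hu'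
    rw [add_sub_cancel_left, hpt', u2b_pt_psh, hptw] at huniq
    exact huniq
  · rw [map_zero]
    exact zero_mem _
  · intro x y _ _ hx hy
    rw [map_add]
    exact add_mem hx hy
  · intro x _ hx
    rw [map_neg]
    exact neg_mem hx

end Pool.Agent.HCF
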