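import Pool.Agent.HCF.S0

namespace Pool.Agent.HCF

open Polynomial

/-
PROOF. Let M have degree n ≥ 1 and leading coefficient a unit. Let Θ : B[X] → B[X], Θ p = p.comp M
(a B-algebra homomorphism, aeval M). Finite: B[X] is generated as a module over the image by
1, X, .., X ^ (n - 1): X is a root of the polynomial M(T) - M over the image (coefficients of M in B,
constant coefficient changed by the element M of the image), which is monic up to the unit leading
coefficient (n ≥ 1). So X is integral over B[X] (via Θ), and B[X] = B[X] (via Θ) adjoin X:
Algebra.IsIntegral / IsIntegral.fg_adjoin_singleton gives finiteness (Module.Finite). The algebra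
structure is Θ.toRingHom.toAlgebra; state finiteness as RingHom.Finite.
-/
theorem comp_finite {B : Type} [CommRing B] (M : Polynomial B) (hn : 1 ≤ M.natDegree)
    (hu : IsUnit M.leadingCoeff) :
    ((Polynomial.aeval M : Polynomial B →ₐ[B] Polynomial B) : Polynomial B →+* Polynomial B).Finite := by
  set Θ : Polynomial B →+* Polynomial B :=
    ((Polynomial.aeval M : Polynomial B →ₐ[B] Polynomial B) : Polynomial B →+* Polynomial B) with hΘ
  have hC : ∀ b : B, Θ (C b) = C b := by
    intro b
    change Polynomial.aeval M (C b) = C b
    rw [aeval_C]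
    rfl
  have hX : Θ X = M := by
    change Polynomial.aeval M X = M
    rw [aeval_X]
  have hcomp : Θ.comp (C : B →+* Polynomial B) = C := RingHom.ext hC
  have hft : Θ.FiniteType := by
    have h1 : (C : B →+* Polynomial B).FiniteType := by
      have h2 : (algebraMap B (Polynomial B)).FiniteType :=
        RingHom.finiteType_algebraMap.2 inferInstance
      exact h2
    have h3 : (Θ.comp (C : B →+* Polynomial B)).FiniteType := by
      rw [hcomp]
      exact h1
    exact h3.of_comp_finiteType
  have hXi : Θ.IsIntegralElem X := by
    obtain ⟨u, hu⟩ := hu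
    set q : Polynomial (Polynomial B) := M.map C - C X with hq
    have hMd : (M.map (C : B →+* Polynomial B)).natDegree = M.natDegree :=
      natDegree_map_eq_of_injective C_injective M
    have hMl : (M.map (C : B →+* Polynomial B)).leadingCoeff = C M.leadingCoeff :=
      leadingCoeff_map_of_injective C_injective M
    have hql : q.leadingCoeff = C M.leadingCoeff := by
      rw [hq, leadingCoeff_sub_of_degree_lt, hMl]
      apply degree_lt_degree
      rw [natDegree_C, hMd]
      omega
    refine ⟨C (C ((u⁻¹ : Bˣ) : B)) * q, ?_, ?_⟩
    · apply monic_C_mul_of_mul_leadingCoeff_eq_one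
      rw [hql, ← hu, ← C_mul, Units.inv_mul, C_1]
    · rw [eval₂_mul, hq, eval₂_sub, eval₂_map, hcomp, eval₂_C, eval₂_C, hX]
      have h2 : eval₂ C X M = M := eval₂_C_X
      rw [h2, sub_self, mul_zero]
  apply RingHom.IsIntegral.to_finite _ hft
  intro p
  induction p using Polynomial.induction_on' with
  | add p q hp hq => exact hp.add Θ hq
  | monomial n b =>
    rw [← C_mul_X_pow_eq_monomial]
    apply RingHom.IsIntegralElem.mul
    · rw [← hC b]
      exact Θ.isIntegralElem_map
    · induction n with
      | zero => rw [pow_zero]; exact Θ.isIntegralElem_one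
      | succ n ih => rw [pow_succ]; exact ih.mul Θ hXi

/-
PROOF. B a domain: Polynomial.comp_eq_zero_iff: p.comp M = 0 implies p = 0 or M constant
(natDegree ≥ 1 excludes the second case). aeval M p = p.comp M.
-/
theorem comp_inj {B : Type} [CommRing B] [IsDomain B] (M : Polynomial B) (hn : 1 ≤ M.natDegree) :
    Function.Injective (Polynomial.aeval M : Polynomial B →ₐ[B] Polynomial B) := by
  rw [injective_iff_map_eq_zero]
  intro p hp
  have h1 : p.comp M = 0 := hp
  rcases Polynomial.comp_eq_zero_iff.1 h1 with h | h
  · exact h
  · exfalso
    rw [h.2, natDegree_C] at hn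
    omega

end Pool.Agent.HCF
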