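import Pool.Agent.HCF.W3d

namespace Pool.Agent.HCF

/-
PROOF. MvPolynomial.finSuccEquiv K (m + 1) : MvPolynomial (Fin (m + 2)) K ≃ Polynomial
(MvPolynomial (Fin (m + 1)) K) with X 0 ↦ X, X i.succ ↦ C (X i), followed by Polynomial.mapAlgEquiv of
finSuccEquiv K m. So X 0 ↦ X (outer), X 1 ↦ C X, X i.succ.succ ↦ C (C (X i)), and rename F ↦ C (C F).
-/
theorem exists_equiv {K : Type} [Field K] (d m : ℕ) (F : MvPolynomial (Fin m) K) :
    ∃ φ : MvPolynomial (Fin (m + 2)) K ≃ₐ[K] Polynomial (Polynomial (MvPolynomial (Fin m) K)),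
      φ (suspA d F) = Polynomial.C (Polynomial.C F) + Polynomial.C Polynomial.X ^ d +
        Polynomial.X ^ d := by
  let e1 : MvPolynomial (Fin (m + 2)) K ≃ₐ[K] Polynomial (MvPolynomial (Fin (m + 1)) K) :=
    MvPolynomial.finSuccEquiv K (m + 1)
  let e2 : Polynomial (MvPolynomial (Fin (m + 1)) K) ≃ₐ[K]
      Polynomial (Polynomial (MvPolynomial (Fin m) K)) :=
    Polynomial.mapAlgEquiv (MvPolynomial.finSuccEquiv K m)
  have he2 : ∀ p, e2 p = p.map ((MvPolynomial.finSuccEquiv K m :
      MvPolynomial (Fin (m + 1)) K →+* Polynomial (MvPolynomial (Fin m) K))) := fun p => rfl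
  have hX0 : e1 (MvPolynomial.X 0) = Polynomial.X := MvPolynomial.finSuccEquiv_X_zero
  have hXs : ∀ i : Fin (m + 1), e1 (MvPolynomial.X i.succ) =
      Polynomial.C (MvPolynomial.X i) := fun i => MvPolynomial.finSuccEquiv_X_succ
  have hX0' : MvPolynomial.finSuccEquiv K m (MvPolynomial.X 0) = Polynomial.X :=
    MvPolynomial.finSuccEquiv_X_zero
  have hXs' : ∀ i : Fin m, MvPolynomial.finSuccEquiv K m (MvPolynomial.X i.succ) =
      Polynomial.C (MvPolynomial.X i) := fun i => MvPolynomial.finSuccEquiv_X_succ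
  refine ⟨e1.trans e2, ?_⟩
  have h0 : (e1.trans e2) (MvPolynomial.X 0) = Polynomial.X := by
    rw [AlgEquiv.trans_apply, hX0, he2, Polynomial.map_X]
  have h1 : (e1.trans e2) (MvPolynomial.X 1) = Polynomial.C Polynomial.X := by
    have h2 : (1 : Fin (m + 2)) = (0 : Fin (m + 1)).succ := rfl
    rw [AlgEquiv.trans_apply, h2, hXs, he2, Polynomial.map_C]
    exact congrArg Polynomial.C hX0'
  have hss : ∀ i : Fin m, (e1.trans e2) (MvPolynomial.X i.succ.succ) =
      Polynomial.C (Polynomial.C (MvPolynomial.X i)) := by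
    intro i
    rw [AlgEquiv.trans_apply, hXs, he2, Polynomial.map_C]
    exact congrArg Polynomial.C (hXs' i)
  have hr : (e1.trans e2) (MvPolynomial.rename (Fin.succ ∘ Fin.succ) F) =
      Polynomial.C (Polynomial.C F) := by
    induction F using MvPolynomial.induction_on with
    | C a =>
      rw [MvPolynomial.rename_C]
      exact (e1.trans e2).commutes a
    | add p q hp hq =>
      rw [map_add, map_add, hp, hq, Polynomial.C_add, Polynomial.C_add]
    | mul_X p i hp =>
      rw [map_mul, map_mul, hp, MvPolynomial.rename_X, Polynomial.C_mul, Polynomial.C_mul]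
      congr 1
      exact hss i
  unfold suspA
  rw [map_add, map_add, map_pow, map_pow, h0, h1, hr]
  ring

end Pool.Agent.HCF
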