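import Mathlib

namespace Pool.Agent.HCF

open MvPolynomial

/-- The suspension: two new variables `X 0`, `X 1` and the summands `X 0 ^ d + X 1 ^ d`. -/
noncomputable def suspA {K : Type} [Field K] {m : ℕ} (d : ℕ) (f : MvPolynomial (Fin m) K) :
    MvPolynomial (Fin (m + 2)) K := rename (Fin.succ ∘ Fin.succ) f + X 0 ^ d + X 1 ^ d

end Pool.Agent.HCF
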