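import Pool.Agent.HCF.C3

namespace Pool.Agent.HCF

open Pool.Agent.HCH

variable {K R : Type} [Field K] [CommRing R] [Algebra K R] [Algebra.FiniteType K R]

/-- The submodule `h M`. -/
def im (h : R) (M : Type) [AddCommGroup M] [Module R M] : Submodule R M :=
  LinearMap.range (LinearMap.lsmul R M h)

/-- The elements of `M` killed by `h`. -/
def ke (h : R) (M : Type) [AddCommGroup M] [Module R M] : Submodule R M :=
  LinearMap.ker (LinearMap.lsmul R M h)

theorem mem_im (h : R) (M : Type) [AddCommGroup M] [Module R M] (x : M) :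
    x ∈ im h M ↔ ∃ y : M, h • y = x := Iff.rfl

theorem mem_ke (h : R) (M : Type) [AddCommGroup M] [Module R M] (x : M) :
    x ∈ ke h M ↔ h • x = 0 := Iff.rfl

/-- `M / h M` and `M[h]` have filtrations by good primes whose difference is `t` in dimension `e`,
up to elements of `G`. -/
def Chi (K : Type) {R : Type} [Field K] [CommRing R] [Algebra K R]
    (G : AddSubgroup (PrimeSpectrum R →₀ ℤ)) (e : ℕ) (h : R) (M : Type) [AddCommGroup M]
    [Module R M] (t : PrimeSpectrum R →₀ ℤ) : Prop :=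
  ∃ (a b : ℕ) (w1 w2 : PrimeSpectrum R →₀ ℤ), Fil (Gd K G e) a (M ⧸ im h M) w1 ∧
    Fil (Gd K G e) b (ke h M) w2 ∧ pt K e (w1 - w2) - t ∈ G

theorem im_map {R : Type} [CommRing R] {h : R} {M M' : Type}
    [AddCommGroup M] [Module R M] [AddCommGroup M'] [Module R M'] (f : M ≃ₗ[R] M') :
    (im h M).map (f : M →ₗ[R] M') = im h M' := by
  ext x
  rw [Submodule.mem_map]
  constructor
  · rintro ⟨y, hy, rfl⟩
    obtain ⟨z, rfl⟩ := (mem_im h M y).mp hy
    exact (mem_im h M' _).mpr ⟨f z, by simp⟩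
  · intro hx
    obtain ⟨z, rfl⟩ := (mem_im h M' x).mp hx
    exact ⟨h • f.symm z, (mem_im h M _).mpr ⟨f.symm z, rfl⟩, by simp⟩

theorem ke_map {R : Type} [CommRing R] {h : R} {M M' : Type}
    [AddCommGroup M] [Module R M] [AddCommGroup M'] [Module R M'] (f : M ≃ₗ[R] M') :
    (ke h M).map (f : M →ₗ[R] M') = ke h M' := by
  ext x
  rw [Submodule.mem_map]
  constructor
  · rintro ⟨y, hy, rfl⟩
    rw [mem_ke] at hy ⊢
    rw [LinearEquiv.coe_coe, ← map_smul, hy, map_zero]
  · intro hx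
    rw [mem_ke] at hx
    refine ⟨f.symm x, ?_, by simp⟩
    rw [mem_ke, ← map_smul, hx, map_zero]

/-
PROOF. Let M = R ⧸ P. Transport along M ≃ M' (M ⧸ im h M ≃ M' ⧸ im h M', ke h M ≃ ke h M').
-/
theorem Chi.congr {G : AddSubgroup (PrimeSpectrum R →₀ ℤ)} {e : ℕ} {h : R} {M M' : Type}
    [AddCommGroup M] [Module R M] [AddCommGroup M'] [Module R M'] (f : M ≃ₗ[R] M')
    {t : PrimeSpectrum R →₀ ℤ} (hM : Chi K G e h M t) : Chi K G e h M' t := by
  obtain ⟨a, b, w1, w2, h1, h2, h3⟩ := hM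
  refine ⟨a, b, w1, w2, ?_, ?_, h3⟩
  · exact Fil.congr (Submodule.Quotient.equiv (im h M) (im h M') f (im_map f)) h1
  · exact Fil.congr ((f.submoduleMap (ke h M)).trans (LinearEquiv.ofEq _ _ (ke_map f))) h2

/-
PROOF. h ∈ P: h kills R ⧸ P, im = ⊥, ke = ⊤, both sides are R ⧸ P (Submodule.quotEquivOfEqBot,
LinearEquiv of ⊤), Fil.prime (P is good), w1 = w2 = single P 1.
h ∉ P: ke = ⊥ (R ⧸ P is a domain), w2 = 0; (R ⧸ P) ⧸ im h ≃ R ⧸ (P + (h)) (im h is the span of
the class of h: quot_equiv in C1), all primes containing P + (h) have dimension < dm P ≤ e + 1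
(dm_le_of_sup), so Fil.exists with S = {dm ≤ e} and then Fil.mono (such primes are good); if
dm P = e + 1 then pt K e w1 = fdiv K P h e (Fil.pt_fdiv), otherwise pt K e w1 = 0 (Fil.pt_zero).
-/
open Classical in
theorem Chi.prime (G : AddSubgroup (PrimeSpectrum R →₀ ℤ)) (e : ℕ) (h : R) (P : PrimeSpectrum R)
    (hd : dm K P.asIdeal ≤ e + 1) (hP : h ∈ P.asIdeal → Gd K G e P) :
    Chi K G e h (R ⧸ P.asIdeal)
      (if dm K P.asIdeal = e + 1 ∧ h ∉ P.asIdeal then fdiv K P.asIdeal h e else 0) := by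
  by_cases hh : h ∈ P.asIdeal
  · have hsm : ∀ y : R ⧸ P.asIdeal, h • y = 0 := by
      intro y
      obtain ⟨r, rfl⟩ := Ideal.Quotient.mk_surjective y
      have : h • (Ideal.Quotient.mk P.asIdeal r : R ⧸ P.asIdeal) =
          Ideal.Quotient.mk P.asIdeal (h * r) := rfl
      rw [this, Ideal.Quotient.eq_zero_iff_mem]
      exact P.asIdeal.mul_mem_right r hh
    have him : im h (R ⧸ P.asIdeal) = ⊥ := by
      rw [eq_bot_iff]
      intro x hx
      obtain ⟨y, rfl⟩ := (mem_im _ _ _).mp hx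
      rw [hsm y]
      exact Submodule.zero_mem _
    have hke : ke h (R ⧸ P.asIdeal) = ⊤ := by
      rw [eq_top_iff]
      intro x _
      exact (mem_ke _ _ _).mpr (hsm x)
    refine ⟨1, 1, Finsupp.single P 1, Finsupp.single P 1, ?_, ?_, ?_⟩
    · exact Fil.congr (Submodule.quotEquivOfEqBot _ him).symm (Fil.prime P (hP hh))
    · exact Fil.congr (LinearEquiv.ofTop _ hke).symm (Fil.prime P (hP hh))
    · rw [if_neg (fun h' => h'.2 hh)]
      simp
  · haveI : IsNoetherianRing R := Algebra.FiniteType.isNoetherianRing K R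
    have hke : ke h (R ⧸ P.asIdeal) = ⊥ := by
      rw [eq_bot_iff]
      intro x hx
      rw [mem_ke] at hx
      obtain ⟨r, rfl⟩ := Ideal.Quotient.mk_surjective x
      have e1 : h • (Ideal.Quotient.mk P.asIdeal r : R ⧸ P.asIdeal) =
          Ideal.Quotient.mk P.asIdeal (h * r) := rfl
      rw [e1, Ideal.Quotient.eq_zero_iff_mem] at hx
      rw [Submodule.mem_bot, Ideal.Quotient.eq_zero_iff_mem]
      exact (P.isPrime.mem_or_mem hx).resolve_left hh
    haveI hsub : Subsingleton (ke h (R ⧸ P.asIdeal)) := by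
      rw [hke]
      infer_instance
    have him : im h (R ⧸ P.asIdeal) =
        Submodule.span R {(Ideal.Quotient.mk P.asIdeal h : R ⧸ P.asIdeal)} := by
      ext x
      rw [mem_im, Submodule.mem_span_singleton]
      constructor
      · rintro ⟨y, rfl⟩
        obtain ⟨r, rfl⟩ := Ideal.Quotient.mk_surjective y
        refine ⟨r, ?_⟩
        change Ideal.Quotient.mk P.asIdeal (r * h) = Ideal.Quotient.mk P.asIdeal (h * r)
        rw [mul_comm]
      · rintro ⟨r, rfl⟩
        refine ⟨Ideal.Quotient.mk P.asIdeal r, ?_⟩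
        change Ideal.Quotient.mk P.asIdeal (h * r) = Ideal.Quotient.mk P.asIdeal (r * h)
        rw [mul_comm]
    set J : Ideal R := P.asIdeal ⊔ Ideal.span {h} with hJ
    obtain ⟨n, w, hw⟩ := Fil.exists (R := R) (S := fun Q => dm K Q.asIdeal ≤ e) (R ⧸ J) (by
      intro Q hQ
      rw [Ideal.annihilator_quotient] at hQ
      have := dm_le_of_sup (K := K) P.asIdeal h hh Q hQ
      omega)
    obtain ⟨eq⟩ := quot_equiv P h
    refine ⟨n, 0, w, 0, ?_, Fil.triv, ?_⟩
    · have hw' : Fil (Gd K G e) n (R ⧸ J) w := by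
        refine Fil.mono ?_ hw
        intro Q hQ
        exact ⟨hQ.trans (Nat.le_succ e), fun h1 => by omega⟩
      rw [him]
      exact Fil.congr eq.symm hw'
    · rw [sub_zero]
      by_cases hde : dm K P.asIdeal = e + 1
      · rw [if_pos ⟨hde, hh⟩]
        have := Fil.pt_fdiv (K := K) (k := e) (S := fun Q => dm K Q.asIdeal ≤ e)
          (fun Q hQ => hQ) P.asIdeal h hh hde hw
        rw [this, sub_self]
        exact G.zero_mem
      · rw [if_neg (fun h' => hde h'.1), sub_zero]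
        have := Fil.pt_zero (K := K) (k := e) (S := fun Q => dm K Q.asIdeal ≤ e)
          P.asIdeal h hh (by omega) hw
        rw [this]
        exact G.zero_mem

end Pool.Agent.HCF
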