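import Pool.Agent.HCF.X1

namespace Pool.Agent.HCF

open Pool.Agent.HCH

variable {K R : Type} [Field K] [CommRing R] [Algebra K R] [Algebra.FiniteType K R]

/-- a six term exact sequence -/
theorem x2_six {G : AddSubgroup (PrimeSpectrum R →₀ ℤ)} {e : ℕ}
    {A1 A2 A3 A4 A5 A6 : Type} [AddCommGroup A1] [Module R A1] [AddCommGroup A2] [Module R A2]
    [AddCommGroup A3] [Module R A3] [AddCommGroup A4] [Module R A4] [AddCommGroup A5]
    [Module R A5] [AddCommGroup A6] [Module R A6]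
    (f1 : A1 →ₗ[R] A2) (f2 : A2 →ₗ[R] A3) (f3 : A3 →ₗ[R] A4) (f4 : A4 →ₗ[R] A5)
    (f5 : A5 →ₗ[R] A6) (i1 : Function.Injective f1) (e12 : Function.Exact f1 f2)
    (e23 : Function.Exact f2 f3) (e34 : Function.Exact f3 f4) (e45 : Function.Exact f4 f5)
    (s5 : Function.Surjective f5) {n1 n3 n4 n6 : ℕ} {u2 v2 u1 v1 : PrimeSpectrum R →₀ ℤ}
    (h1 : Fil (Gd K G e) n1 A1 u2) (h3 : Fil (Gd K G e) n3 A3 v2)
    (h4 : Fil (Gd K G e) n4 A4 u1) (h6 : Fil (Gd K G e) n6 A6 v1) :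
    ∃ (n2 n5 : ℕ) (w2 w1 : PrimeSpectrum R →₀ ℤ), Fil (Gd K G e) n2 A2 w2 ∧
      Fil (Gd K G e) n5 A5 w1 ∧ pt K e ((w1 - w2) - (u1 - u2) - (v1 - v2)) ∈ G := by
  obtain ⟨a, b, p1, p2, hp1, hp2, hp⟩ := Fil.sub G e h3 (LinearMap.range f2)
  obtain ⟨c, d, q1, q2, hq1, hq2, hq⟩ := Fil.sub G e h4 (LinearMap.range f3)
  have e1 : (A3 ⧸ LinearMap.range f2) ≃ₗ[R] LinearMap.range f3 :=
    (Submodule.quotEquivOfEq _ _ e23.linearMap_ker_eq.symm).trans f3.quotKerEquivRange
  have r := Fil.uniq G e (Fil.congr e1 hp2) hq1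
  have ex2 : Function.Exact f1 f2.rangeRestrict := by
    intro x
    rw [← e12 x]
    constructor
    · intro hx
      exact congrArg Subtype.val hx
    · intro hx
      exact Subtype.ext hx
  have t2 := Fil.exact f1 f2.rangeRestrict i1 f2.surjective_rangeRestrict ex2 h1 hp1
  have hle : LinearMap.range f3 ≤ LinearMap.ker f4 := by
    rw [e34.linearMap_ker_eq]
  have hinj : Function.Injective ((LinearMap.range f3).liftQ f4 hle) := by
    rw [← LinearMap.ker_eq_bot, Submodule.ker_liftQ, e34.linearMap_ker_eq,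
      Submodule.mkQ_map_self]
  have ex5 : Function.Exact ((LinearMap.range f3).liftQ f4 hle) f5 := by
    intro x
    rw [e45 x]
    constructor
    · rintro ⟨y, hy⟩
      exact ⟨Submodule.Quotient.mk y, by rw [Submodule.liftQ_apply]; exact hy⟩
    · rintro ⟨y, hy⟩
      obtain ⟨z, rfl⟩ := Submodule.Quotient.mk_surjective _ y
      exact ⟨z, by rw [Submodule.liftQ_apply] at hy; exact hy⟩
  have t5 := Fil.exact _ f5 hinj s5 ex5 hq2 h6
  refine ⟨_, _, _, _, t2, t5, ?_⟩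
  have key : (q2 + v1 - (u2 + p1)) - (u1 - u2) - (v1 - v2) =
      (v2 - p1 - p2) - (u1 - q1 - q2) + (p2 - q1) := by abel
  rw [key, map_add, map_sub]
  exact G.add_mem (G.sub_mem hp hq) r

/-
PROOF (snake lemma). Write Q = M ⧸ N. Data: Fil a1 (N ⧸ im h N) u1, Fil a2 (ke h N) u2,
pt (u1 - u2) - s ∈ G; Fil b1 (Q ⧸ im h Q) v1, Fil b2 (ke h Q) v2, pt (v1 - v2) - t ∈ G.
Let I = image of ke h M in ke h Q (I = (ke h M).map N.mkQ seen inside ke h Q) and
J = the submodule (N ⊓ h M) / h N of N ⧸ im h N, i.e. the image in N ⧸ im h N of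
{n ∈ N | n ∈ im h M}.
Fil.sub for I ≤ ke h Q: Fil I p1, Fil (ke h Q ⧸ I) p2, pt (v2 - p1 - p2) ∈ G.
Fil.sub for J ≤ N ⧸ im h N: Fil J q1, Fil ((N ⧸ im h N) ⧸ J) q2, pt (u1 - q1 - q2) ∈ G.
(1) ke h Q ⧸ I ≃ J: for U = {m ∈ M | h m ∈ N}, the map U → J, m ↦ class of h m, is surjective with
 kernel N + M[h] (h m = h n means m - n ∈ M[h]); the map U → ke h Q ⧸ I, m ↦ class of m, is surjective
 with the same kernel. So both are quotients of U by the same submodule
 (LinearMap.quotKerEquivOfSurjective twice). Hence Fil J p2 and pt (p2 - q1) ∈ G by Fil.uniq.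
(2) 0 → ke h N → ke h M → I → 0 exact: Fil (ke h M) (u2 + p1).
(3) 0 → (N ⧸ im h N) ⧸ J → M ⧸ im h M → Q ⧸ im h Q → 0 exact: Fil (M ⧸ im h M) (q2 + v1).
So with w1 = q2 + v1, w2 = u2 + p1:
w1 - w2 = (u1 - u2) + (v1 - v2) - (u1 - q1 - q2) + (v2 - p1 - p2) + (p2 - q1).
Suggestion: it is convenient to prove (1), (2), (3) as separate lemmas about modules.
-/
theorem Chi.exact {G : AddSubgroup (PrimeSpectrum R →₀ ℤ)} {e : ℕ} {h : R} {M : Type}
    [AddCommGroup M] [Module R M] (N : Submodule R M) {s t : PrimeSpectrum R →₀ ℤ}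
    (h1 : Chi K G e h N s) (h2 : Chi K G e h (M ⧸ N) t) : Chi K G e h M (s + t) := by
  obtain ⟨a1, b1, u1, u2, hu1, hu2, hu⟩ := h1
  obtain ⟨a2, b2, v1, v2, hv1, hv2, hv⟩ := h2
  have hf : Function.Exact N.subtype N.mkQ := by
    rw [LinearMap.exact_iff, Submodule.ker_mkQ, Submodule.range_subtype]
  have c1 : N.subtype.comp (LinearMap.lsmul R N h) = (LinearMap.lsmul R M h).comp N.subtype := by
    ext x
    rfl
  have c2 : N.mkQ.comp (LinearMap.lsmul R M h) = (LinearMap.lsmul R (M ⧸ N) h).comp N.mkQ := by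
    ext x
    rfl
  have k2 : Function.Exact (ke h M).subtype (LinearMap.lsmul R M h) := by
    rw [LinearMap.exact_iff, Submodule.range_subtype]
    rfl
  have k3 : Function.Exact (ke h (M ⧸ N)).subtype (LinearMap.lsmul R (M ⧸ N) h) := by
    rw [LinearMap.exact_iff, Submodule.range_subtype]
    rfl
  have l1 : Function.Exact (LinearMap.lsmul R N h) (im h N).mkQ := by
    rw [LinearMap.exact_iff, Submodule.ker_mkQ]
    rfl
  have l2 : Function.Exact (LinearMap.lsmul R M h) (im h M).mkQ := by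
    rw [LinearMap.exact_iff, Submodule.ker_mkQ]
    rfl
  have m1 : ∀ x ∈ ke h N, N.subtype x ∈ ke h M := by
    intro x hx
    rw [mem_ke] at hx ⊢
    have := congrArg N.subtype hx
    rw [map_smul, map_zero] at this
    exact this
  have m2 : ∀ x ∈ ke h M, N.mkQ x ∈ ke h (M ⧸ N) := by
    intro x hx
    rw [mem_ke] at hx ⊢
    rw [← map_smul, hx, map_zero]
  have m4 : im h N ≤ (im h M).comap N.subtype := by
    intro x hx
    rw [mem_im] at hx
    obtain ⟨y, rfl⟩ := hx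
    rw [Submodule.mem_comap, mem_im]
    exact ⟨N.subtype y, rfl⟩
  have m5 : im h M ≤ (im h (M ⧸ N)).comap N.mkQ := by
    intro x hx
    rw [mem_im] at hx
    obtain ⟨y, rfl⟩ := hx
    rw [Submodule.mem_comap, mem_im]
    exact ⟨N.mkQ y, rfl⟩
  let f1 : ke h N →ₗ[R] ke h M := N.subtype.restrict m1
  let f2 : ke h M →ₗ[R] ke h (M ⧸ N) := N.mkQ.restrict m2
  let f4 : (N ⧸ im h N) →ₗ[R] (M ⧸ im h M) := (im h N).mapQ (im h M) N.subtype m4
  let f5 : (M ⧸ im h M) →ₗ[R] ((M ⧸ N) ⧸ im h (M ⧸ N)) :=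
    (im h M).mapQ (im h (M ⧸ N)) N.mkQ m5
  have hF : N.mkQ.comp (ke h M).subtype = (ke h (M ⧸ N)).subtype.comp f2 := by
    ext x
    rfl
  have hG : f4.comp (im h N).mkQ = (im h M).mkQ.comp N.subtype := by
    ext x
    rfl
  have e23 := SnakeLemma.exact_δ'_right (LinearMap.lsmul R N h) (LinearMap.lsmul R M h)
    (LinearMap.lsmul R (M ⧸ N) h) N.subtype N.mkQ hf N.subtype N.mkQ hf c1 c2
    (ke h M).subtype k2 (ke h (M ⧸ N)).subtype k3 (im h N).mkQ l1 N.mkQ_surjective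
    N.injective_subtype f2 hF (ke h (M ⧸ N)).injective_subtype
  have e34 := SnakeLemma.exact_δ'_left (LinearMap.lsmul R N h) (LinearMap.lsmul R M h)
    (LinearMap.lsmul R (M ⧸ N) h) N.subtype N.mkQ hf N.subtype N.mkQ hf c1 c2
    (ke h (M ⧸ N)).subtype k3 (im h N).mkQ l1 (im h M).mkQ l2 N.mkQ_surjective
    N.injective_subtype f4 hG (im h N).mkQ_surjective
  have i1 : Function.Injective f1 := by
    intro x y hxy
    have h3 : ((f1 x : ke h M) : M) = ((f1 y : ke h M) : M) := congrArg _ hxy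
    exact Subtype.ext (Subtype.ext h3)
  have e12 : Function.Exact f1 f2 := by
    intro x
    constructor
    · intro hx
      have h3 : N.mkQ (x : M) = 0 := congrArg Subtype.val hx
      rw [Submodule.mkQ_apply, Submodule.Quotient.mk_eq_zero] at h3
      refine ⟨⟨⟨(x : M), h3⟩, ?_⟩, ?_⟩
      · rw [mem_ke]
        have h4 : h • (x : M) = 0 := (mem_ke h M _).1 x.2
        exact Subtype.ext h4
      · exact Subtype.ext rfl
    · rintro ⟨y, rfl⟩
      refine Subtype.ext ?_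
      show N.mkQ ((y : N) : M) = 0
      rw [Submodule.mkQ_apply, Submodule.Quotient.mk_eq_zero]
      exact (y : N).2
  have e45 : Function.Exact f4 f5 := by
    intro x
    obtain ⟨m, rfl⟩ := Submodule.Quotient.mk_surjective _ x
    constructor
    · intro hx
      have h3 : (Submodule.Quotient.mk (N.mkQ m) : (M ⧸ N) ⧸ im h (M ⧸ N)) = 0 := hx
      rw [Submodule.Quotient.mk_eq_zero, mem_im] at h3
      obtain ⟨y, hy⟩ := h3
      obtain ⟨m', rfl⟩ := Submodule.Quotient.mk_surjective _ y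
      have h4 : (Submodule.Quotient.mk (h • m') : M ⧸ N) = Submodule.Quotient.mk m := hy
      rw [Submodule.Quotient.eq] at h4
      refine ⟨Submodule.Quotient.mk (-⟨h • m' - m, h4⟩), ?_⟩
      show (Submodule.Quotient.mk (N.subtype (-⟨h • m' - m, h4⟩)) : M ⧸ im h M) =
        Submodule.Quotient.mk m
      rw [Submodule.Quotient.eq, mem_im]
      refine ⟨-m', ?_⟩
      simp
    · rintro ⟨y, hy⟩
      rw [← hy]
      obtain ⟨n, rfl⟩ := Submodule.Quotient.mk_surjective _ y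
      show (Submodule.Quotient.mk (N.mkQ (N.subtype n)) : (M ⧸ N) ⧸ im h (M ⧸ N)) = 0
      have h3 : N.mkQ (N.subtype n) = 0 := by
        rw [Submodule.mkQ_apply, Submodule.Quotient.mk_eq_zero]
        exact n.2
      rw [h3]
      rfl
  have s5 : Function.Surjective f5 := by
    intro x
    obtain ⟨y, rfl⟩ := Submodule.Quotient.mk_surjective _ x
    obtain ⟨m, rfl⟩ := Submodule.Quotient.mk_surjective _ y
    exact ⟨Submodule.Quotient.mk m, rfl⟩
  obtain ⟨n2, n5, w2, w1, g2, g5, g⟩ := x2_six f1 f2 _ f4 f5 i1 e12 e23 e34 e45 s5 hu2 hv2 hu1 hv1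
  refine ⟨n5, n2, w1, w2, g5, g2, ?_⟩
  have key : pt K e (w1 - w2) - (s + t) = pt K e ((w1 - w2) - (u1 - u2) - (v1 - v2)) +
      (pt K e (u1 - u2) - s) + (pt K e (v1 - v2) - t) := by
    rw [map_sub (pt K e) (w1 - w2 - (u1 - u2)) (v1 - v2),
      map_sub (pt K e) (w1 - w2) (u1 - u2)]
    abel
  rw [key]
  exact G.add_mem (G.add_mem g hu) hv

end Pool.Agent.HCF
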