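import Pool.Agent.HCF.X2

namespace Pool.Agent.HCF

open Pool.Agent.HCH

variable {K R : Type} [Field K] [CommRing R] [Algebra K R] [Algebra.FiniteType K R]

/-
PROOF. Induction on n. n = 0: M trivial, all filtrations trivial, w = 0, gys 0 = 0.
n + 1: N ≤ M, P, w', R ⧸ P ≃ N, dm P ≤ e + 1 and (h ∈ P → good), Fil n (M ⧸ N) w',
w = w' + single P 1. Chi.prime and Chi.congr for N, induction for M ⧸ N, Chi.exact. The value:
gys K h e (pt K (e + 1) (single P 1)) = (if dm P = e + 1 ∧ h ∉ P then fdiv K P h e else 0)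
(pt_single, pt_single_ne, gys_single in B0).
-/
theorem Chi.fil (G : AddSubgroup (PrimeSpectrum R →₀ ℤ)) (e : ℕ) (h : R) {n : ℕ} {M : Type}
    [AddCommGroup M] [Module R M] {w : PrimeSpectrum R →₀ ℤ}
    (hw : Fil (fun P : PrimeSpectrum R => dm K P.asIdeal ≤ e + 1 ∧
      (h ∈ P.asIdeal → Gd K G e P)) n M w) :
    Chi K G e h M (gys K h e (pt K (e + 1) w)) := by
  classical
  induction n generalizing M w with
  | zero =>
    obtain ⟨hM, rfl⟩ := hw
    rw [map_zero, map_zero]
    have i1 : Subsingleton (M ⧸ im h M) := inferInstance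
    have i2 : Subsingleton (ke h M) := inferInstance
    exact ⟨0, 0, 0, 0, ⟨i1, rfl⟩, ⟨i2, rfl⟩, by
      rw [sub_self, map_zero, sub_zero]; exact G.zero_mem⟩
  | succ n ih =>
    obtain ⟨N, P, w', ⟨f⟩, ⟨hd, hg⟩, hF, rfl⟩ := hw
    have h1 := Chi.congr f (Chi.prime (K := K) G e h P hd hg)
    have h3 := Chi.exact N h1 (ih hF)
    have h4 : (if dm K P.asIdeal = e + 1 ∧ h ∉ P.asIdeal then fdiv K P.asIdeal h e else 0) +
        gys K h e (pt K (e + 1) w') = gys K h e (pt K (e + 1) (w' + Finsupp.single P 1)) := by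
      rw [map_add, map_add, add_comm]
      congr 1
      by_cases hP : dm K P.asIdeal = e + 1
      · rw [pt_single (e + 1) P 1 hP, gys_single, one_smul]
        by_cases hh : h ∈ P.asIdeal
        · rw [if_neg (fun h' => h'.2 hh), if_pos hh]
        · rw [if_pos ⟨hP, hh⟩, if_neg hh]
      · rw [pt_single_ne (e + 1) P 1 hP, map_zero, if_neg (fun h' => hP h'.1)]
    rwa [h4] at h3

end Pool.Agent.HCF
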