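import Pool.Agent.HCF.U1b

/-!
The degree of a residue field extension in the case of a free quotient.
-/

namespace Pool.Agent.HCF

open Pool.Agent.HCH

theorem fil_pow {R : Type} [CommRing R] {S : PrimeSpectrum R → Prop} (P : PrimeSpectrum R)
    (hP : S P) (k : ℕ) :
    Fil S k (Fin k → R ⧸ P.asIdeal) (k • Finsupp.single P (1 : ℤ)) := by
  induction k with
  | zero =>
    rw [zero_smul]
    exact Fil.triv
  | succ k ih =>
    have h1 : Fil S (1 + k) (Fin (k + 1) → R ⧸ P.asIdeal)
        (Finsupp.single P (1 : ℤ) + k • Finsupp.single P (1 : ℤ)) := by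
      refine Fil.exact (A := R ⧸ P.asIdeal) (C := Fin k → R ⧸ P.asIdeal)
        (LinearMap.single R (fun _ : Fin (k + 1) => R ⧸ P.asIdeal) 0)
        (LinearMap.pi fun j : Fin k => LinearMap.proj j.succ) ?_ ?_ ?_ (Fil.prime P hP) ih
      · intro x y hxy
        have := congrFun hxy 0
        simpa using this
      · intro y
        refine ⟨Fin.cons 0 y, ?_⟩
        funext j
        simp
      · intro y
        constructor
        · intro hy
          refine ⟨y 0, ?_⟩
          funext j
          refine Fin.cases ?_ (fun j => ?_) j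
          · simp
          · have := congrFun hy j
            simp only [LinearMap.pi_apply, LinearMap.proj_apply, Pi.zero_apply] at this
            rw [this]
            simp
        · rintro ⟨x, rfl⟩
          funext j
          simp
    rw [add_comm 1 k] at h1
    have h2 : Finsupp.single P (1 : ℤ) + k • Finsupp.single P (1 : ℤ) =
        (k + 1) • Finsupp.single P (1 : ℤ) := by
      rw [add_smul, one_smul, add_comm]
    rwa [h2] at h1

variable {R R' : Type} [CommRing R] [CommRing R'] [Algebra R R']

theorem rdeg_of_equiv (P : PrimeSpectrum R') (k : ℕ)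
    (e : (Fin k → R ⧸ (un R P).asIdeal) ≃ₗ[R] (R' ⧸ P.asIdeal)) : rdeg R P = k := by
  have h1 : Fil (fun Q : PrimeSpectrum R => (un R P).asIdeal ≤ Q.asIdeal) k (R' ⧸ P.asIdeal)
      (k • Finsupp.single (un R P) (1 : ℤ)) := Fil.congr e (fil_pow (un R P) le_rfl k)
  obtain ⟨l, h2, h3, h4⟩ := u1b_len P h1
  rw [h4, ← h2]
  simp

theorem rdeg_eq (P : PrimeSpectrum R') (k : ℕ) {T T' : Type} [CommRing T] [CommRing T']
    (a : R →+* T) (b : R' →+* T') (ha : Function.Surjective a) (hb : Function.Surjective b)
    (hka : RingHom.ker a = (un R P).asIdeal) (hkb : RingHom.ker b = P.asIdeal) (h : T →+* T')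
    (hab : ∀ r, h (a r) = b (algebraMap R R' r)) (L : (Fin k → T) →+ T')
    (hL : Function.Bijective L) (hLs : ∀ (t : T) (q : Fin k → T), L (fun j => t * q j) = h t * L q) :
    rdeg R P = k := by
  let ea : (R ⧸ (un R P).asIdeal) ≃+* T :=
    (Ideal.quotEquivOfEq hka.symm).trans (RingHom.quotientKerEquivOfSurjective ha)
  let eb : (R' ⧸ P.asIdeal) ≃+* T' :=
    (Ideal.quotEquivOfEq hkb.symm).trans (RingHom.quotientKerEquivOfSurjective hb)
  have hea : ∀ r : R, ea (Ideal.Quotient.mk _ r) = a r := fun r => rfl
  have heb : ∀ r : R', eb (Ideal.Quotient.mk _ r) = b r := fun r => rfl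
  let φ : (Fin k → R ⧸ (un R P).asIdeal) →ₗ[R] (R' ⧸ P.asIdeal) :=
    { toFun := fun q => eb.symm (L (fun j => ea (q j)))
      map_add' := by
        intro q q'
        rw [← map_add, ← map_add]
        congr 2
        funext j
        rw [Pi.add_apply, map_add]
        rfl
      map_smul' := by
        intro r q
        apply eb.injective
        rw [RingHom.id_apply, eb.apply_symm_apply]
        have h1 : ∀ j, ea ((r • q) j) = a r * ea (q j) := by
          intro j
          rw [Pi.smul_apply, Algebra.smul_def, map_mul]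
          rfl
        have h2 : (fun j => ea ((r • q) j)) = fun j => a r * ea (q j) := funext h1
        rw [h2, hLs, hab]
        have h3 : r • eb.symm (L fun j => ea (q j)) =
            Ideal.Quotient.mk P.asIdeal (algebraMap R R' r) * eb.symm (L fun j => ea (q j)) := by
          rw [Algebra.smul_def]
          rfl
        rw [h3, map_mul, heb, eb.apply_symm_apply] }
  have hφ : Function.Bijective φ := by
    have h1 : (φ : (Fin k → R ⧸ (un R P).asIdeal) → (R' ⧸ P.asIdeal)) =
        eb.symm ∘ L ∘ (Equiv.piCongrRight fun _ : Fin k => ea.toEquiv) := rfl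
    rw [h1]
    exact eb.symm.bijective.comp (hL.comp (Equiv.bijective _))
  exact rdeg_of_equiv P k (LinearEquiv.ofBijective φ hφ)

/-- The case of a surjection. -/
theorem rdeg_surj (P : PrimeSpectrum R') {T' : Type} [CommRing T'] (b : R' →+* T')
    (hkb : RingHom.ker b = P.asIdeal)
    (hs : Function.Surjective (b.comp (algebraMap R R'))) : rdeg R P = 1 := by
  have hb : Function.Surjective b := by
    intro t
    obtain ⟨r, hr⟩ := hs t
    exact ⟨_, hr⟩
  have := rdeg_eq P 1 (b.comp (algebraMap R R')) b hs hb (by
    ext r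
    rw [RingHom.mem_ker, RingHom.comp_apply, ← RingHom.mem_ker, hkb]
    rfl) hkb (RingHom.id T') (fun r => rfl) (Pi.evalAddMonoidHom (fun _ : Fin 1 => T') 0) ?_ ?_
  · simpa using this
  · constructor
    · intro x y hxy
      funext j
      rw [Subsingleton.elim j 0]
      exact hxy
    · intro x
      exact ⟨fun _ => x, rfl⟩
  · intro t q
    rfl

end Pool.Agent.HCF
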