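import Pool.Agent.HCF.Y1
import Pool.Agent.HCF.W1
import Pool.Agent.HCF.S0

/-!
The finite maps from `f + Y ^ d + Z ^ d = 0` to `f = u v`.
-/

namespace Pool.Agent.HCF

open Polynomial

theorem hom2_ext {A T : Type} [CommRing A] [CommRing T] (f g : Polynomial (Polynomial A) →+* T)
    (h0 : ∀ a : A, f (C (C a)) = g (C (C a))) (h1 : f (C X) = g (C X)) (h2 : f X = g X) :
    f = g := by
  apply Polynomial.ringHom_ext'
  · apply Polynomial.ringHom_ext
    · exact h0
    · exact h1
  · exact h2

/-- The homomorphism with `C X ↦ b`, `X ↦ c`. -/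
noncomputable def hh {A : Type} [CommRing A] (b c : Polynomial A) :
    Polynomial (Polynomial A) →+* Polynomial A :=
  eval₂RingHom ((Polynomial.aeval b : Polynomial A →ₐ[A] Polynomial A) :
    Polynomial A →+* Polynomial A) c

theorem hh_CC {A : Type} [CommRing A] (b c : Polynomial A) (a : A) : hh b c (C (C a)) = C a := by
  unfold hh
  rw [coe_eval₂RingHom, eval₂_C]
  change Polynomial.aeval b (C a) = _
  rw [aeval_C]
  rfl

theorem hh_CX {A : Type} [CommRing A] (b c : Polynomial A) : hh b c (C X) = b := by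
  unfold hh
  rw [coe_eval₂RingHom, eval₂_C]
  change Polynomial.aeval b X = _
  rw [aeval_X]

theorem hh_X {A : Type} [CommRing A] (b c : Polynomial A) : hh b c X = c := by
  unfold hh
  rw [coe_eval₂RingHom, eval₂_X]

theorem hh_unique {A : Type} [CommRing A] (g : Polynomial (Polynomial A) →+* Polynomial A)
    (h0 : ∀ a : A, g (C (C a)) = C a) : g = hh (g (C X)) (g X) := by
  apply hom2_ext
  · intro a
    rw [h0, hh_CC]
  · rw [hh_CX]
  · rw [hh_X]

/-- The roots of `ζ ^ d = - 1`. -/
theorem exists_roots {K : Type} [Field K] [IsAlgClosed K] [CharZero K] (d : ℕ) (hd : 2 ≤ d) :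
    ∃ S : Finset K, S.card = d ∧ ∀ (A : Type) [CommRing A] [IsDomain A] [Algebra K A],
      ∏ ζ ∈ S, (C X - C (C (algebraMap K A ζ)) * X : Polynomial (Polynomial A)) =
        C X ^ d + X ^ d := by
  classical
  have hd0 : 0 < d := by omega
  have hdK : NeZero ((d : ℕ) : K) := ⟨by exact_mod_cast hd0.ne'⟩
  obtain ⟨η, hη⟩ := IsAlgClosed.exists_pow_nat_eq (-1 : K) hd0
  have hη0 : η ≠ 0 := by
    rintro rfl
    rw [zero_pow hd0.ne'] at hη
    exact (neg_ne_zero.2 one_ne_zero) hη.symm
  obtain ⟨z, hz⟩ : ∃ z : K, IsPrimitiveRoot z d := HasEnoughRootsOfUnity.exists_primitiveRoot K d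
  have hcard : (nthRootsFinset d (1 : K)).card = d := hz.card_nthRootsFinset
  have hinj : Function.Injective (fun w : K => w * η) := fun a b hab => mul_right_cancel₀ hη0 hab
  refine ⟨(nthRootsFinset d (1 : K)).image (fun w => w * η), ?_, ?_⟩
  · rw [Finset.card_image_of_injective _ hinj, hcard]
  · intro A _ _ _
    set φ : K →+* Polynomial (Polynomial A) :=
      (C : Polynomial A →+* Polynomial (Polynomial A)).comp
        ((C : A →+* Polynomial A).comp (algebraMap K A)) with hφ
    have hφi : Function.Injective φ := φ.injective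
    have hφz : IsPrimitiveRoot (φ z) d := hz.map_of_injective hφi
    have hμ : nthRootsFinset d (1 : Polynomial (Polynomial A)) =
        (nthRootsFinset d (1 : K)).image φ := by
      symm
      apply Finset.eq_of_subset_of_card_le
      · intro w hw
        obtain ⟨v, hv, rfl⟩ := Finset.mem_image.1 hw
        rw [mem_nthRootsFinset hd0] at hv ⊢
        rw [← map_pow, hv, map_one]
      · rw [Finset.card_image_of_injective _ hφi, hcard, hφz.card_nthRootsFinset]
    have h1 : (C X : Polynomial (Polynomial A)) ^ d + X ^ d =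
        (C X) ^ d - (φ η * X) ^ d := by
      have e : (φ η * X : Polynomial (Polynomial A)) ^ d = - X ^ d := by
        rw [mul_pow, ← map_pow, hη, map_neg, map_one]
        ring
      rw [e]
      ring
    rw [h1, hφz.pow_sub_pow_eq_prod_sub_mul _ _ hd0, hμ, Finset.prod_image (fun a _ b _ h => hφi h),
      Finset.prod_image (fun a _ b _ h => hinj h)]
    apply Finset.prod_congr rfl
    intro ζ _
    have e : (C (C (algebraMap K A (ζ * η))) : Polynomial (Polynomial A)) = φ (ζ * η) := rfl
    rw [e, map_mul]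
    ring

theorem exists_aut {K A : Type} [Field K] [CommRing A] [Algebra K A] (η : K) :
    ∃ ψ : Polynomial (Polynomial A) ≃ₐ[K] Polynomial (Polynomial A),
      ψ (C X) = C X - C (C (algebraMap K A η)) * X ∧ ψ X = X ∧ ∀ a : A, ψ (C (C a)) = C (C a) := by
  refine ⟨(((Polynomial.Bivariate.swap (R := A)).restrictScalars K).trans
    ((Polynomial.algEquivAevalXAddC (-(C (algebraMap K A η) * X) : Polynomial A)).restrictScalars
      K)).trans ((Polynomial.Bivariate.swap (R := A)).restrictScalars K), ?_, ?_, ?_⟩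
  · change Polynomial.Bivariate.swap (Polynomial.algEquivAevalXAddC
      (-(C (algebraMap K A η) * X) : Polynomial A) (Polynomial.Bivariate.swap (C X))) = _
    rw [Polynomial.Bivariate.swap_X]
    have h1 : Polynomial.algEquivAevalXAddC (-(C (algebraMap K A η) * X) : Polynomial A) X =
        X + C (-(C (algebraMap K A η) * X)) := Polynomial.aeval_X _
    rw [h1, map_add, Polynomial.Bivariate.swap_Y, map_neg C, map_mul C, map_neg, map_mul,
      Polynomial.Bivariate.swap_C_C, Polynomial.Bivariate.swap_X]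
    ring
  · change Polynomial.Bivariate.swap (Polynomial.algEquivAevalXAddC
      (-(C (algebraMap K A η) * X) : Polynomial A) (Polynomial.Bivariate.swap X)) = _
    rw [Polynomial.Bivariate.swap_Y]
    have h1 : Polynomial.algEquivAevalXAddC (-(C (algebraMap K A η) * X) : Polynomial A) (C X) =
        C X := Polynomial.aeval_C _ _
    rw [h1, Polynomial.Bivariate.swap_X]
  · intro a
    change Polynomial.Bivariate.swap (Polynomial.algEquivAevalXAddC
      (-(C (algebraMap K A η) * X) : Polynomial A) (Polynomial.Bivariate.swap (C (C a)))) = _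
    rw [Polynomial.Bivariate.swap_C_C]
    have h1 : Polynomial.algEquivAevalXAddC (-(C (algebraMap K A η) * X) : Polynomial A)
        (C (C a)) = C (C a) := Polynomial.aeval_C _ _
    rw [h1, Polynomial.Bivariate.swap_C_C]

/-- The finite map `u = Y - η Z`, `v = - ∏ (Y - ζ Z)`. -/
theorem exists_theta {K : Type} [Field K] (A : Type) [CommRing A] [IsDomain A] [Algebra K A]
    [DecidableEq K] (S : Finset K) (hc : 2 ≤ S.card) (η : K) (hη : η ∈ S) :
    ∃ Θ : Polynomial (Polynomial A) →ₐ[K] Polynomial (Polynomial A),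
      (Θ : Polynomial (Polynomial A) →+* Polynomial (Polynomial A)).Finite ∧
      (∀ a : A, Θ (C (C a)) = C (C a)) ∧ Θ (C X) = C X - C (C (algebraMap K A η)) * X ∧
      Θ X = - ∏ ζ ∈ S.erase η, (C X - C (C (algebraMap K A ζ)) * X) := by
  obtain ⟨ψ, hψX, hψY, hψC⟩ := exists_aut (A := A) η
  set M : Polynomial (Polynomial A) := ∏ ζ ∈ S.erase η,
    (C (C (algebraMap K A (η - ζ))) * X + C X) with hM
  have hcoef : ∀ ζ ∈ S.erase η, η - ζ ≠ 0 := by
    intro ζ hζ
    exact sub_ne_zero.2 (Finset.ne_of_mem_erase hζ).symm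
  have hcoef' : ∀ ζ ∈ S.erase η, (C (algebraMap K A (η - ζ)) : Polynomial A) ≠ 0 := by
    intro ζ hζ
    rw [Ne, C_eq_zero]
    exact (map_ne_zero_iff _ (algebraMap K A).injective).2 (hcoef ζ hζ)
  have hdeg : 1 ≤ M.natDegree := by
    rw [hM, natDegree_prod]
    · rw [Finset.sum_congr rfl fun ζ hζ => natDegree_linear (hcoef' ζ hζ)]
      rw [Finset.sum_const, Finset.card_erase_of_mem hη]
      simp
      omega
    · intro ζ hζ h0
      have h1 := natDegree_linear (b := (X : Polynomial A)) (hcoef' ζ hζ)
      rw [h0, natDegree_zero] at h1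
      exact zero_ne_one h1
  have hlead : IsUnit M.leadingCoeff := by
    rw [hM, leadingCoeff_prod]
    apply Finset.prod_induction _ IsUnit (fun a b ha hb => ha.mul hb) isUnit_one
    intro ζ hζ
    rw [leadingCoeff_linear (hcoef' ζ hζ)]
    exact ((IsUnit.mk0 _ (hcoef ζ hζ)).map (algebraMap K A)).map C
  have hM1' : 1 ≤ (-M).natDegree := by rwa [natDegree_neg]
  have hMu' : IsUnit (-M).leadingCoeff := by
    rw [leadingCoeff_neg]
    exact hlead.neg
  have hfin := comp_finite (-M) hM1' hMu'
  refine ⟨(ψ : Polynomial (Polynomial A) →ₐ[K] Polynomial (Polynomial A)).comp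
    ((Polynomial.aeval (R := Polynomial A) (-M)).restrictScalars K), ?_, ?_, ?_, ?_⟩
  · have h1 : ((ψ : Polynomial (Polynomial A) →ₐ[K] Polynomial (Polynomial A)) :
        Polynomial (Polynomial A) →+* Polynomial (Polynomial A)).Finite :=
      RingHom.Finite.of_surjective _ ψ.surjective
    exact h1.comp hfin
  · intro a
    change ψ (Polynomial.aeval (-M) (C (C a))) = _
    rw [aeval_C]
    exact hψC a
  · change ψ (Polynomial.aeval (-M) (C X)) = _
    rw [aeval_C]
    exact hψX
  · change ψ (Polynomial.aeval (-M) X) = _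
    rw [aeval_X, map_neg, hM, map_prod]
    congr 1
    apply Finset.prod_congr rfl
    intro ζ _
    rw [map_add, map_mul, hψC, hψX, hψY, map_sub (algebraMap K A), map_sub C, map_sub C]
    ring

end Pool.Agent.HCF
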