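import Pool.Agent.HCF.Y2

/-!
Powers of the variable: `B[X]` is free over `B[X]` for `X ↦ c X ^ k`.
-/

namespace Pool.Agent.HCF

open Polynomial

section

variable {B : Type} [CommRing B]

/-- `X ↦ c X ^ k` -/
noncomputable def pk (c : B) (k : ℕ) : Polynomial B →+* Polynomial B :=
  ((Polynomial.aeval (C c * X ^ k) : Polynomial B →ₐ[B] Polynomial B) :
    Polynomial B →+* Polynomial B)

theorem pk_eq (c : B) (k : ℕ) (q : Polynomial B) :
    pk c k q = expand B k (q.comp (C c * X)) := by
  have h : pk c k = ((expand B k : Polynomial B →ₐ[B] Polynomial B) :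
      Polynomial B →+* Polynomial B).comp (compRingHom (C c * X)) := by
    apply Polynomial.ringHom_ext
    · intro a
      change Polynomial.aeval _ (C a) = expand B k ((C a).comp (C c * X))
      rw [aeval_C, C_comp, expand_C]
      rfl
    · change Polynomial.aeval _ X = expand B k (X.comp (C c * X))
      rw [aeval_X, X_comp, map_mul, expand_C, expand_X]
  rw [h]
  rfl

theorem pk_coeff (c : B) (k : ℕ) (hk : 0 < k) (q : Polynomial B) (n : ℕ) :
    (pk c k q).coeff n = if k ∣ n then q.coeff (n / k) * c ^ (n / k) else 0 := by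
  rw [pk_eq, coeff_expand hk]
  split_ifs with h
  · rw [comp_C_mul_X_coeff]
  · rfl

/-- The sum `∑ X ^ j q_j (c X ^ k)`. -/
noncomputable def LL (c : B) (k : ℕ) : (Fin k → Polynomial B) →+ Polynomial B where
  toFun q := ∑ j : Fin k, X ^ (j : ℕ) * pk c k (q j)
  map_zero' := by simp
  map_add' q q' := by
    rw [← Finset.sum_add_distrib]
    apply Finset.sum_congr rfl
    intro j _
    rw [Pi.add_apply, map_add, mul_add]

theorem LL_smul (c : B) (k : ℕ) (t : Polynomial B) (q : Fin k → Polynomial B) :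
    LL c k (fun j => t * q j) = pk c k t * LL c k q := by
  change ∑ j : Fin k, X ^ (j : ℕ) * pk c k (t * q j) = pk c k t * ∑ j : Fin k, X ^ (j : ℕ) * pk c k (q j)
  rw [Finset.mul_sum]
  apply Finset.sum_congr rfl
  intro j _
  rw [map_mul]
  ring

theorem LL_coeff (c : B) (k : ℕ) (hk : 0 < k) (q : Fin k → Polynomial B) (n : ℕ) :
    (LL c k q).coeff n = (q ⟨n % k, Nat.mod_lt n hk⟩).coeff (n / k) * c ^ (n / k) := by
  change (∑ j : Fin k, X ^ (j : ℕ) * pk c k (q j)).coeff n = _
  rw [finset_sum_coeff, Finset.sum_eq_single (⟨n % k, Nat.mod_lt n hk⟩ : Fin k)]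
  · rw [coeff_X_pow_mul', if_pos (Nat.mod_le n k), pk_coeff c k hk]
    have h1 : n - n % k = k * (n / k) := by
      have := Nat.div_add_mod n k
      omega
    rw [h1, if_pos (dvd_mul_right k _), Nat.mul_div_cancel_left _ hk]
  · intro j _ hj
    rw [coeff_X_pow_mul']
    split_ifs with h1
    · rw [pk_coeff c k hk, if_neg]
      intro h2
      apply hj
      apply Fin.ext
      change (j : ℕ) = n % k
      obtain ⟨t, ht⟩ := h2
      have h3 : n = (j : ℕ) + k * t := by omega
      rw [h3, Nat.add_mul_mod_self_left, Nat.mod_eq_of_lt j.2]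
    · rfl
  · intro h
    exact absurd (Finset.mem_univ _) h

theorem LL_bij (c : B) (hc : IsUnit c) (k : ℕ) (hk : 0 < k) : Function.Bijective (LL c k) := by
  obtain ⟨u, rfl⟩ := hc
  constructor
  · intro q q' h
    funext j
    ext i
    have h1 : (LL (u : B) k q).coeff (k * i + j) = (LL (u : B) k q').coeff (k * i + j) := by rw [h]
    rw [LL_coeff _ k hk, LL_coeff _ k hk] at h1
    have h2 : (k * i + (j : ℕ)) / k = i := by
      rw [Nat.mul_add_div hk, Nat.div_eq_of_lt j.2, add_zero]
    have h3 : (⟨(k * i + (j : ℕ)) % k, Nat.mod_lt _ hk⟩ : Fin k) = j := by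
      apply Fin.ext
      change (k * i + (j : ℕ)) % k = j
      rw [Nat.mul_add_mod, Nat.mod_eq_of_lt j.2]
    rw [h2, h3] at h1
    exact ((u.isUnit).pow i).mul_right_cancel h1
  · intro r
    refine ⟨fun j => ∑ i ∈ Finset.range (r.natDegree + 1),
      monomial i (r.coeff (k * i + j) * ((u⁻¹ : Bˣ) : B) ^ i), ?_⟩
    ext n
    rw [LL_coeff _ k hk, finset_sum_coeff]
    have h1 : ∀ i, (monomial i (r.coeff (k * i + (n % k)) * ((u⁻¹ : Bˣ) : B) ^ i)).coeff (n / k) =
        if i = n / k then r.coeff (k * i + (n % k)) * ((u⁻¹ : Bˣ) : B) ^ i else 0 := by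
      intro i
      rw [coeff_monomial]
    have h4 : k * (n / k) + n % k = n := Nat.div_add_mod n k
    simp only [h1]
    rw [Finset.sum_ite_eq']
    split_ifs with h2
    · rw [h4, mul_assoc, ← mul_pow, Units.inv_mul, one_pow, mul_one]
    · rw [zero_mul]
      rw [Finset.mem_range, not_lt] at h2
      symm
      apply coeff_eq_zero_of_natDegree_lt
      have h3 : n / k ≤ n := Nat.div_le_self n k
      omega

end

end Pool.Agent.HCF
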