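import Pool.Agent.HCF.Y3
import Pool.Agent.HCF.S2c
import Pool.Agent.HCF.S10

/-!
The primes over the lines `Y = ζ Z` and their images under the finite maps.
-/

namespace Pool.Agent.HCF

open Pool.Agent.HCH Polynomial

section

variable {A : Type} [CommRing A]

/-- The cylinder over `p`. -/
noncomputable def cylP (p : PrimeSpectrum A) : PrimeSpectrum (Polynomial A) :=
  ⟨p.asIdeal.map C, by
    have := p.isPrime
    exact Ideal.isPrime_map_C_of_isPrime⟩

theorem mem_cylP (p : PrimeSpectrum A) (q : Polynomial A) :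
    q ∈ (cylP p).asIdeal ↔ ∀ n, q.coeff n ∈ p.asIdeal := Ideal.mem_map_C_iff

theorem comap_pk (c : A) (hc : IsUnit c) (k : ℕ) (hk : 0 < k) (p : PrimeSpectrum A) :
    PrimeSpectrum.comap (pk c k) (cylP p) = cylP p := by
  apply PrimeSpectrum.ext
  ext q
  change pk c k q ∈ (cylP p).asIdeal ↔ _
  rw [mem_cylP, mem_cylP]
  constructor
  · intro h n
    have h1 := h (k * n)
    rw [pk_coeff c k hk, if_pos (dvd_mul_right k n), Nat.mul_div_cancel_left _ hk] at h1
    rcases p.isPrime.mem_or_mem h1 with h2 | h2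
    · exact h2
    · exfalso
      exact p.isPrime.ne_top (Ideal.eq_top_of_isUnit_mem _ h2 (hc.pow n))
  · intro h n
    rw [pk_coeff c k hk]
    split_ifs
    · exact Ideal.mul_mem_right _ _ (h _)
    · exact p.asIdeal.zero_mem

/-- The prime of the cycle `Y = ζ Z` over `p`; `Y` is the inner variable. -/
noncomputable def PZ (ζ : A) (p : PrimeSpectrum A) : PrimeSpectrum (Polynomial (Polynomial A)) :=
  PrimeSpectrum.comap (hh (C ζ * X) X) (cylP p)

/-- The prime `v = 0` over `p`; `v` is the outer variable. -/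
noncomputable def P0 (p : PrimeSpectrum A) : PrimeSpectrum (Polynomial (Polynomial A)) :=
  PrimeSpectrum.comap (hh X 0) (cylP p)

/-- The prime `u = 0` over `p`; `u` is the inner variable. -/
noncomputable def P1 (p : PrimeSpectrum A) : PrimeSpectrum (Polynomial (Polynomial A)) :=
  PrimeSpectrum.comap (hh 0 X) (cylP p)

theorem comap_hh0 (c : A) (hc : IsUnit c) (p : PrimeSpectrum A) :
    PrimeSpectrum.comap (hh (C c * X) 0) (cylP p) = P0 p := by
  have h : hh (C c * X : Polynomial A) 0 = (pk c 1).comp (hh X 0) := by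
    have h0 := hh_unique ((pk c 1).comp (hh X 0)) (fun a => by
      rw [RingHom.comp_apply, hh_CC]
      change Polynomial.aeval _ (C a) = _
      rw [aeval_C]
      rfl)
    rw [h0]
    congr 1
    · rw [RingHom.comp_apply, hh_CX]
      change _ = Polynomial.aeval _ X
      rw [aeval_X, pow_one]
    · rw [RingHom.comp_apply, hh_X, map_zero]
  rw [h]
  change PrimeSpectrum.comap (hh X 0) (PrimeSpectrum.comap (pk c 1) (cylP p)) = _
  rw [comap_pk c hc 1 one_pos]
  rfl

theorem hh_pow (c : A) (k : ℕ) :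
    hh 0 (C c * X ^ k : Polynomial A) = (pk c k).comp (hh 0 X) := by
  have h0 := hh_unique ((pk c k).comp (hh 0 X)) (fun a => by
    rw [RingHom.comp_apply, hh_CC]
    change Polynomial.aeval _ (C a) = _
    rw [aeval_C]
    rfl)
  rw [h0]
  congr 1
  · rw [RingHom.comp_apply, hh_CX, map_zero]
  · rw [RingHom.comp_apply, hh_X]
    change _ = Polynomial.aeval _ X
    rw [aeval_X]

theorem comap_hhk (c : A) (hc : IsUnit c) (k : ℕ) (hk : 0 < k) (p : PrimeSpectrum A) :
    PrimeSpectrum.comap (hh 0 (C c * X ^ k)) (cylP p) = P1 p := by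
  rw [hh_pow]
  change PrimeSpectrum.comap (hh 0 X) (PrimeSpectrum.comap (pk c k) (cylP p)) = _
  rw [comap_pk c hc k hk]
  rfl

end

section

variable {K A : Type} [Field K] [CommRing A] [Algebra K A] [DecidableEq K]

theorem prod_line_ne (S : Finset K) (η ζ : K) (hζ : ζ ∈ S.erase η) :
    hh (C (algebraMap K A ζ) * X) X (- ∏ ζ' ∈ S.erase η,
      (C X - C (C (algebraMap K A ζ')) * X)) = 0 := by
  rw [map_neg, map_prod, Finset.prod_eq_zero hζ, neg_zero]
  rw [map_sub, map_mul, hh_CX, hh_CC, hh_X, sub_self]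

theorem prod_line_eq (S : Finset K) (η : K) (hη : η ∈ S) :
    hh (C (algebraMap K A η) * X) X (- ∏ ζ' ∈ S.erase η,
      (C X - C (C (algebraMap K A ζ')) * X)) =
      C (algebraMap K A (- ∏ ζ' ∈ S.erase η, (η - ζ'))) * X ^ (S.card - 1) := by
  rw [map_neg, map_prod]
  have h1 : ∀ ζ' ∈ S.erase η, hh (C (algebraMap K A η) * X) X
      (C X - C (C (algebraMap K A ζ')) * X) = C (algebraMap K A (η - ζ')) * X := by
    intro ζ' _
    rw [map_sub, map_mul, hh_CX, hh_CC, hh_X, map_sub, map_sub]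
    ring
  rw [Finset.prod_congr rfl h1, Finset.prod_mul_distrib, Finset.prod_const,
    Finset.card_erase_of_mem hη, map_neg, map_neg, map_prod, map_prod]
  ring

variable (Θ : Polynomial (Polynomial A) →+* Polynomial (Polynomial A)) (S : Finset K) (η : K)
  (h0 : ∀ a : A, Θ (C (C a)) = C (C a)) (h1 : Θ (C X) = C X - C (C (algebraMap K A η)) * X)
  (h2 : Θ X = - ∏ ζ ∈ S.erase η, (C X - C (C (algebraMap K A ζ)) * X))

include h0 h1 h2

theorem comp_ne (ζ : K) (hζ : ζ ∈ S.erase η) : (hh (C (algebraMap K A ζ) * X) X).comp Θ =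
    hh (C (algebraMap K A (ζ - η)) * X) 0 := by
  have h := hh_unique ((hh (C (algebraMap K A ζ) * X) X).comp Θ) (fun a => by
    rw [RingHom.comp_apply, h0, hh_CC])
  rw [h]
  congr 1
  · rw [RingHom.comp_apply, h1, map_sub, map_mul, hh_CX, hh_CC, hh_X, map_sub, map_sub]
    ring
  · rw [RingHom.comp_apply, h2]
    exact prod_line_ne S η ζ hζ

theorem comp_eq (hη : η ∈ S) : (hh (C (algebraMap K A η) * X) X).comp Θ =
    hh 0 (C (algebraMap K A (- ∏ ζ' ∈ S.erase η, (η - ζ'))) * X ^ (S.card - 1)) := by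
  have h := hh_unique ((hh (C (algebraMap K A η) * X) X).comp Θ) (fun a => by
    rw [RingHom.comp_apply, h0, hh_CC])
  rw [h]
  congr 1
  · rw [RingHom.comp_apply, h1, map_sub, map_mul, hh_CX, hh_CC, hh_X, sub_self]
  · rw [RingHom.comp_apply, h2]
    exact prod_line_eq S η hη

theorem comap_ne (ζ : K) (hζ : ζ ∈ S.erase η) (p : PrimeSpectrum A) :
    PrimeSpectrum.comap Θ (PZ (algebraMap K A ζ) p) = P0 p := by
  change PrimeSpectrum.comap ((hh (C (algebraMap K A ζ) * X) X).comp Θ) (cylP p) = _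
  rw [comp_ne Θ S η h0 h1 h2 ζ hζ]
  apply comap_hh0
  exact (IsUnit.mk0 _ (sub_ne_zero.2 (Finset.ne_of_mem_erase hζ))).map (algebraMap K A)

omit h0 h1 h2 in
theorem unit_prod : IsUnit (algebraMap K A (- ∏ ζ' ∈ S.erase η, (η - ζ'))) := by
  apply IsUnit.map
  apply IsUnit.mk0
  rw [neg_ne_zero, Finset.prod_ne_zero_iff]
  intro ζ hζ
  exact sub_ne_zero.2 (Finset.ne_of_mem_erase hζ).symm

theorem comap_eq (hη : η ∈ S) (hc : 2 ≤ S.card) (p : PrimeSpectrum A) :
    PrimeSpectrum.comap Θ (PZ (algebraMap K A η) p) = P1 p := by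
  change PrimeSpectrum.comap ((hh (C (algebraMap K A η) * X) X).comp Θ) (cylP p) = _
  rw [comp_eq Θ S η h0 h1 h2 hη]
  apply comap_hhk _ (unit_prod S η)
  omega

end

section

variable {K A : Type} [Field K] [CommRing A] [Algebra K A] [Algebra.FiniteType K A]

theorem sw_P0 {A : Type} [CommRing A] (p : PrimeSpectrum A) : sw (P0 p) = P1 p := by
  have h : (hh (X : Polynomial A) 0).comp (swH A) = hh 0 X := by
    have h0 := hh_unique ((hh (X : Polynomial A) 0).comp (swH A)) (fun a => by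
      rw [RingHom.comp_apply, swH_CC, hh_CC])
    rw [h0]
    congr 1
    · rw [RingHom.comp_apply, swH_CX, hh_X]
    · rw [RingHom.comp_apply, swH_X, hh_CX]
  unfold sw P0 P1
  rw [← h]
  rfl

theorem X_mem_P0 {A : Type} [CommRing A] (p : PrimeSpectrum A) : X ∈ (P0 p).asIdeal := by
  change hh X 0 X ∈ (cylP p).asIdeal
  rw [hh_X]
  exact (cylP p).asIdeal.zero_mem

theorem CX_notMem_P0 {A : Type} [CommRing A] (p : PrimeSpectrum A) : C X ∉ (P0 p).asIdeal := by
  change hh X 0 (C X) ∉ (cylP p).asIdeal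
  rw [hh_CX, mem_cylP]
  intro h
  have h1 := h 1
  rw [coeff_X_one] at h1
  exact p.isPrime.ne_top ((Ideal.eq_top_iff_one _).2 h1)

theorem hh_left_comp {A : Type} [CommRing A] (c : Polynomial A) :
    (hh X c).comp (C : Polynomial A →+* Polynomial (Polynomial A)) = RingHom.id _ := by
  apply Polynomial.ringHom_ext
  · intro a
    rw [RingHom.comp_apply, hh_CC]
    rfl
  · rw [RingHom.comp_apply, hh_CX]
    rfl

theorem hh_right_comp {A : Type} [CommRing A] (b : Polynomial A) :
    (hh b X).comp (mapRingHom (C : A →+* Polynomial A)) = RingHom.id _ := by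
  apply Polynomial.ringHom_ext
  · intro a
    rw [RingHom.comp_apply, coe_mapRingHom, map_C, hh_CC]
    rfl
  · rw [RingHom.comp_apply, coe_mapRingHom, map_X, hh_X]
    rfl

theorem low_P0 {A : Type} [CommRing A] (p : PrimeSpectrum A) :
    (low (P0 p)).asIdeal = p.asIdeal.map C := by
  ext q
  rw [mem_low]
  change ((hh (X : Polynomial A) 0).comp (C : Polynomial A →+* Polynomial (Polynomial A))) q ∈
    (cylP p).asIdeal ↔ _
  rw [hh_left_comp]
  rfl

theorem rel_P0 {A : Type} [CommRing A] (f : A) (p : PrimeSpectrum A) (hf : f ∈ p.asIdeal) :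
    rel f ∈ (P0 p).asIdeal := by
  change hh X 0 (rel f) ∈ (cylP p).asIdeal
  unfold rel
  rw [map_sub, map_mul, hh_CC, hh_X, zero_mul, sub_zero]
  exact Ideal.mem_map_of_mem _ hf

theorem dm_cylP (e : ℕ) (p : PrimeSpectrum A) (hd : dm K p.asIdeal = e) :
    dm K (cylP p).asIdeal = e + 1 := by
  obtain ⟨E, hr, hE, hy, hg, hl⟩ := exists_cyl (K := K) (0 : A) e p (Ideal.zero_mem _) hd
  have h1 := dm_low (K := K) (0 : A) E hr hg
  rw [hl, hE] at h1
  exact h1

/-- `hh` as a homomorphism of `K`-algebras -/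
noncomputable def hhA (K : Type) {A : Type} [Field K] [CommRing A] [Algebra K A]
    (b c : Polynomial A) : Polynomial (Polynomial A) →ₐ[K] Polynomial A :=
  { hh b c with
    commutes' := fun r => hh_CC b c (algebraMap K A r) }

omit [Algebra.FiniteType K A] in
theorem dm_hh (b c : Polynomial A) (hs : Function.Surjective (hh b c))
    (P : PrimeSpectrum (Polynomial A)) :
    dm K (PrimeSpectrum.comap (hh b c) P).asIdeal = dm K P.asIdeal :=
  dm_comap (hhA K b c) hs P.asIdeal

theorem hh_surj_right {A : Type} [CommRing A] (b : Polynomial A) :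
    Function.Surjective (hh b X) := fun q =>
  ⟨q.map C, congrArg (fun g : Polynomial A →+* Polynomial A => g q) (hh_right_comp b)⟩

theorem hh_surj_left {A : Type} [CommRing A] (c : Polynomial A) :
    Function.Surjective (hh X c) := fun q =>
  ⟨C q, congrArg (fun g : Polynomial A →+* Polynomial A => g q) (hh_left_comp c)⟩

theorem dm_PZ (e : ℕ) (ζ : A) (p : PrimeSpectrum A) (hd : dm K p.asIdeal = e) :
    dm K (PZ ζ p).asIdeal = e + 1 :=
  (dm_hh _ _ (hh_surj_right _) _).trans (dm_cylP e p hd)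

theorem dm_P0 (e : ℕ) (p : PrimeSpectrum A) (hd : dm K p.asIdeal = e) :
    dm K (P0 p).asIdeal = e + 1 :=
  (dm_hh _ _ (hh_surj_left _) _).trans (dm_cylP e p hd)

omit [Algebra.FiniteType K A] in
/-- The prime over the line lies on the suspension. -/
theorem susp_mem_PZ [DecidableEq K] (d : ℕ) (S : Finset K)
    (hS : ∏ ζ ∈ S, (C X - C (C (algebraMap K A ζ)) * X : Polynomial (Polynomial A)) =
      C X ^ d + X ^ d) (f : A) (ζ : K) (hζ : ζ ∈ S) (p : PrimeSpectrum A) (hf : f ∈ p.asIdeal) :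
    (C (C f) + C X ^ d + X ^ d : Polynomial (Polynomial A)) ∈
      (PZ (algebraMap K A ζ) p).asIdeal := by
  change hh (C (algebraMap K A ζ) * X) X _ ∈ (cylP p).asIdeal
  rw [add_assoc, ← hS, map_add, map_prod, Finset.prod_eq_zero hζ, add_zero, hh_CC]
  · exact Ideal.mem_map_of_mem _ hf
  · rw [map_sub, map_mul, hh_CX, hh_CC, hh_X, sub_self]

end

end Pool.Agent.HCF
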