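import Pool.Agent.HCF.Y4

/-!
The map `rho` on the primes `P0`, `P1`, and the push-forward of the primes `PZ`.
-/

namespace Pool.Agent.HCF

open Pool.Agent.HCH Polynomial

section

variable {K A : Type} [Field K] [CommRing A] [Algebra K A] [Algebra.FiniteType K A] (f : A)

theorem rs_cyl (a : A) (e : ℕ) (p : PrimeSpectrum A) (hd : dm K p.asIdeal = e) :
    rs (ev K a) (ev_surj K _) (gys K (X - C a) e (Finsupp.single (cylP p) 1)) =
      Finsupp.single p 1 := by
  classical
  have hpp : p.asIdeal ≠ ⊤ := p.isPrime.ne_top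
  set h : Polynomial A := X - C a with hh
  have hl : (cylP p).asIdeal = p.asIdeal.map C := rfl
  have hhl : h ∉ (cylP p).asIdeal := by
    rw [hl, Ideal.mem_map_C_iff]
    intro h1
    apply hpp
    rw [Ideal.eq_top_iff_one]
    have h2 := h1 1
    rwa [hh, coeff_sub, coeff_X_one, coeff_C, if_neg one_ne_zero, sub_zero] at h2
  have hdl : dm K (cylP p).asIdeal = e + 1 := dm_cylP e p hd
  rw [gys_single, if_neg hhl, one_smul]
  ext Q
  rw [rs_apply]
  have hdQ : dm K (PrimeSpectrum.comap (ev K a : Polynomial A →+* A) Q).asIdeal =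
      dm K Q.asIdeal := dm_comap (ev K a) (ev_surj K a) Q.asIdeal
  by_cases hQ : dm K Q.asIdeal = e
  · have := (cylP p).isPrime
    rw [fdiv_apply (cylP p).asIdeal h hhl e hdl _ (hdQ.trans hQ)]
    have hJ : od ((cylP p).asIdeal ⊔ Ideal.span {h})
        (PrimeSpectrum.comap (ev K a : Polynomial A →+* A) Q) = od p.asIdeal Q := by
      unfold od
      congr 2
      have h1 := mlt_surj (ev K a : Polynomial A →+* A) (ev_surj K a)
        ((cylP p).asIdeal ⊔ Ideal.span {h}) (by
          rw [ev_ker]
          exact le_sup_right) Q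
      rw [← h1]
      have h2 : ((cylP p).asIdeal ⊔ Ideal.span {h}).map (ev K a : Polynomial A →+* A) =
          p.asIdeal := by
        rw [hl, Ideal.map_sup, Ideal.map_map, Ideal.map_span, Set.image_singleton]
        have h3 : (ev K a : Polynomial A →+* A).comp (C : A →+* Polynomial A) =
            RingHom.id A := by
          apply RingHom.ext
          intro x
          change ev K a (C x) = x
          rw [ev_apply, eval_C]
        have h4 : (ev K a : Polynomial A →+* A) h = 0 := by
          change ev K a h = 0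
          rw [ev_apply, hh, eval_sub, eval_X, eval_C, sub_self]
        rw [h3, h4, Ideal.map_id, Ideal.span_singleton_eq_bot.mpr rfl, sup_bot_eq]
      rw [h2]
    rw [hJ]
    by_cases hQp : p = Q
    · subst hQp
      rw [Finsupp.single_eq_same]
      unfold od
      rw [mlt_self]
      rfl
    · rw [Finsupp.single_apply, if_neg hQp]
      by_contra h5
      have h6 := le_of_od _ _ h5
      have h7 := p.isPrime
      have h8 := Q.isPrime
      exact hQp (PrimeSpectrum.ext (eq_of_dm_le (K := K) p.asIdeal Q.asIdeal h6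
        (by rw [hd, hQ])))
  · have hQp : p ≠ Q := by
      rintro rfl
      exact hQ hd
    rw [Finsupp.single_apply, if_neg hQp]
    by_contra h5
    have h6 := fdiv_supp _ _ _ _ h5
    exact hQ (hdQ.symm.trans h6.1)

theorem low_P0' (p : PrimeSpectrum A) : low (P0 p) = cylP p :=
  PrimeSpectrum.ext (low_P0 p)

theorem rho_P0 (c : K) (e : ℕ) (p : PrimeSpectrum A) (hd : dm K p.asIdeal = e) :
    rho K f c e (Finsupp.single (P0 p) 1) = Finsupp.single p 1 := by
  classical
  have hmo : mo A (Finsupp.single (P0 p) 1) = Finsupp.single (cylP p) 1 := by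
    rw [mo_single, if_neg (CX_notMem_P0 p), one_smul, low_P0']
  have hsw : mo A (swz A (Finsupp.single (P0 p) 1)) = 0 := by
    have h1 : swz A (Finsupp.single (P0 p) 1) = Finsupp.single (sw (P0 p)) 1 := by
      unfold swz
      exact Finsupp.mapDomain_single
    have h2 : (C X : Polynomial (Polynomial A)) ∈ (sw (P0 p)).asIdeal := by
      rw [mem_sw, swH_CX]
      exact X_mem_P0 p
    rw [h1, mo_single, if_pos h2, smul_zero]
  rw [rho_apply, hmo, hsw, map_zero, map_zero, sub_zero]
  exact rs_cyl _ e p hd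

theorem rho_P1 (c : K) (e : ℕ) (p : PrimeSpectrum A) (hd : dm K p.asIdeal = e) :
    rho K f c e (Finsupp.single (P1 p) 1) = - Finsupp.single p 1 := by
  classical
  have h0 : P1 p = sw (P0 p) := (sw_P0 p).symm
  have hmo : mo A (Finsupp.single (P1 p) 1) = 0 := by
    have h2 : (C X : Polynomial (Polynomial A)) ∈ (P1 p).asIdeal := by
      rw [h0, mem_sw, swH_CX]
      exact X_mem_P0 p
    rw [mo_single, if_pos h2, smul_zero]
  have hsw : mo A (swz A (Finsupp.single (P1 p) 1)) = Finsupp.single (cylP p) 1 := by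
    have h1 : swz A (Finsupp.single (P1 p) 1) = Finsupp.single (P0 p) 1 := by
      unfold swz
      rw [h0]
      refine Finsupp.mapDomain_single.trans ?_
      rw [sw_sw]
    rw [h1, mo_single, if_neg (CX_notMem_P0 p), one_smul, low_P0']
  rw [rho_apply, hmo, hsw, map_zero, map_zero, zero_sub]
  congr 1
  exact rs_cyl _ e p hd

end

section

variable {K A : Type} [Field K] [CommRing A] [Algebra K A] [DecidableEq K]
  (Θ : Polynomial (Polynomial A) →+* Polynomial (Polynomial A)) (S : Finset K) (η : K)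
  (h0 : ∀ a : A, Θ (C (C a)) = C (C a)) (h1 : Θ (C X) = C X - C (C (algebraMap K A η)) * X)
  (h2 : Θ X = - ∏ ζ ∈ S.erase η, (C X - C (C (algebraMap K A ζ)) * X))

theorem pk_map {B : Type} [CommRing B] (g : A →+* B) (c : A) (k : ℕ) :
    (mapRingHom g).comp (pk c k) = (pk (g c) k).comp (mapRingHom g) := by
  apply Polynomial.ringHom_ext
  · intro a
    rw [RingHom.comp_apply, RingHom.comp_apply, coe_mapRingHom, map_C]
    change Polynomial.map g (Polynomial.aeval (C c * X ^ k) (C a)) =
      Polynomial.aeval (C (g c) * X ^ k) (C (g a))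
    rw [aeval_C, aeval_C]
    exact map_C g
  · rw [RingHom.comp_apply, RingHom.comp_apply, coe_mapRingHom, map_X]
    change Polynomial.map g (Polynomial.aeval (C c * X ^ k) X) =
      Polynomial.aeval (C (g c) * X ^ k) X
    rw [aeval_X, aeval_X, Polynomial.map_mul, Polynomial.map_pow, map_C, map_X]

include h0 h1 h2

theorem rdeg_ne (ζ : K) (hζ : ζ ∈ S.erase η) (p : PrimeSpectrum A) :
    @rdeg _ _ _ _ Θ.toAlgebra (PZ (algebraMap K A ζ) p) = 1 := by
  let _ := Θ.toAlgebra
  apply rdeg_surj (PZ (algebraMap K A ζ) p)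
    ((Ideal.Quotient.mk (cylP p).asIdeal).comp (hh (C (algebraMap K A ζ) * X) X))
  · ext r
    rw [RingHom.mem_ker, RingHom.comp_apply, Ideal.Quotient.eq_zero_iff_mem]
    rfl
  · change Function.Surjective (((Ideal.Quotient.mk (cylP p).asIdeal).comp
      (hh (C (algebraMap K A ζ) * X) X)).comp Θ)
    rw [RingHom.comp_assoc, comp_ne Θ S η h0 h1 h2 ζ hζ, RingHom.coe_comp]
    apply Ideal.Quotient.mk_surjective.comp
    intro q
    have hne : ζ - η ≠ 0 := sub_ne_zero.2 (Finset.ne_of_mem_erase hζ)
    refine ⟨C (q.comp (C (algebraMap K A (ζ - η)⁻¹) * X)), ?_⟩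
    have h3 : ((hh (C (algebraMap K A (ζ - η)) * X) 0).comp
        (C : Polynomial A →+* Polynomial (Polynomial A))).comp
        (compRingHom (C (algebraMap K A (ζ - η)⁻¹) * X)) = RingHom.id _ := by
      apply Polynomial.ringHom_ext
      · intro a
        rw [RingHom.comp_apply, RingHom.comp_apply, coe_compRingHom_apply, C_comp, hh_CC]
        rfl
      · rw [RingHom.comp_apply, RingHom.comp_apply, coe_compRingHom_apply, X_comp, map_mul,
          map_mul, hh_CC, hh_CX, ← mul_assoc, ← C_mul, ← map_mul, inv_mul_cancel₀ hne, map_one,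
          C_1, one_mul]
        rfl
    exact congrArg (fun g : Polynomial A →+* Polynomial A => g q) h3

theorem rdeg_eta (hη : η ∈ S) (hc : 2 ≤ S.card) (p : PrimeSpectrum A) :
    @rdeg _ _ _ _ Θ.toAlgebra (PZ (algebraMap K A η) p) = (S.card - 1 : ℕ) := by
  let _ := Θ.toAlgebra
  set c : A := algebraMap K A (- ∏ ζ' ∈ S.erase η, (η - ζ')) with hcdef
  have hcu : IsUnit c := unit_prod S η
  have hk : 0 < S.card - 1 := by omega
  let mk := Ideal.Quotient.mk p.asIdeal
  have hmk : Function.Surjective (mapRingHom mk) := by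
    intro b
    obtain ⟨a, ha⟩ := Polynomial.map_surjective mk Ideal.Quotient.mk_surjective b
    exact ⟨a, ha⟩
  have hker : RingHom.ker (mapRingHom mk) = (cylP p).asIdeal := by
    rw [Polynomial.ker_mapRingHom, Ideal.mk_ker]
    rfl
  have hk2 : ∀ (g : Polynomial (Polynomial A) →+* Polynomial A),
      RingHom.ker ((mapRingHom mk).comp g) = (PrimeSpectrum.comap g (cylP p)).asIdeal := by
    intro g
    ext r
    rw [RingHom.mem_ker, RingHom.comp_apply, ← RingHom.mem_ker, hker]
    rfl
  have hun : un (Polynomial (Polynomial A)) (PZ (algebraMap K A η) p) = P1 p :=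
    comap_eq Θ S η h0 h1 h2 hη hc p
  refine rdeg_eq (PZ (algebraMap K A η) p) (S.card - 1) ((mapRingHom mk).comp (hh 0 X))
    ((mapRingHom mk).comp (hh (C (algebraMap K A η) * X) X))
    (hmk.comp (hh_surj_right _)) (hmk.comp (hh_surj_right _)) ?_ (hk2 _) (pk (mk c) (S.card - 1))
    ?_ (LL (mk c) (S.card - 1)) (LL_bij (mk c) (hcu.map mk) _ hk) (LL_smul (mk c) _)
  · rw [hun]
    exact hk2 _
  · intro r
    have h3 : ((pk (mk c) (S.card - 1)).comp ((mapRingHom mk).comp (hh 0 X))) =
        ((mapRingHom mk).comp (hh (C (algebraMap K A η) * X) X)).comp Θ := by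
      rw [RingHom.comp_assoc, comp_eq Θ S η h0 h1 h2 hη, hh_pow, ← RingHom.comp_assoc,
        ← RingHom.comp_assoc, pk_map]
    exact congrArg (fun g : Polynomial (Polynomial A) →+* Polynomial (A ⧸ p.asIdeal) => g r) h3

theorem psh_ne (ζ : K) (hζ : ζ ∈ S.erase η) (z : PrimeSpectrum A →₀ ℤ) :
    @psh _ _ _ _ Θ.toAlgebra (Finsupp.mapDomain (PZ (algebraMap K A ζ)) z) =
      Finsupp.mapDomain P0 z := by
  let _ := Θ.toAlgebra
  induction z using Finsupp.induction_linear with
  | zero => simp
  | add a b ha hb => rw [Finsupp.mapDomain_add, map_add, ha, hb, Finsupp.mapDomain_add]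
  | single p n =>
    rw [Finsupp.mapDomain_single, Finsupp.mapDomain_single, psh_single,
      rdeg_ne Θ S η h0 h1 h2 ζ hζ p]
    have hun : un (Polynomial (Polynomial A)) (PZ (algebraMap K A ζ) p) = P0 p :=
      comap_ne Θ S η h0 h1 h2 ζ hζ p
    rw [hun, Finsupp.smul_single, smul_eq_mul, mul_one]

theorem psh_eta (hη : η ∈ S) (hc : 2 ≤ S.card) (z : PrimeSpectrum A →₀ ℤ) :
    @psh _ _ _ _ Θ.toAlgebra (Finsupp.mapDomain (PZ (algebraMap K A η)) z) =
      (S.card - 1) • Finsupp.mapDomain P1 z := by
  let _ := Θ.toAlgebra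
  induction z using Finsupp.induction_linear with
  | zero => simp
  | add a b ha hb => rw [Finsupp.mapDomain_add, map_add, ha, hb, Finsupp.mapDomain_add, smul_add]
  | single p n =>
    rw [Finsupp.mapDomain_single, Finsupp.mapDomain_single, psh_single,
      rdeg_eta Θ S η h0 h1 h2 hη hc p]
    have hun : un (Polynomial (Polynomial A)) (PZ (algebraMap K A η) p) = P1 p :=
      comap_eq Θ S η h0 h1 h2 hη hc p
    rw [hun, Finsupp.smul_single, Finsupp.smul_single, smul_eq_mul, nsmul_eq_mul]
    congr 1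
    ring

end

end Pool.Agent.HCF
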