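import Pool.Agent.HCF.Y5
import Pool.Agent.HCF.S9
import Pool.Agent.HCF.G1
import Pool.Agent.HCF.U2

/-!
The rank of the Chow group grows by the factor `d - 1` under the suspension.
-/

namespace Pool.Agent.HCF

open Pool.Agent.HCH Polynomial

theorem psh_Rt_hom {K R R' : Type} [Field K] [CommRing R] [CommRing R'] [Algebra K R]
    [Algebra K R'] [Algebra.FiniteType K R] [Algebra.FiniteType K R'] (φ : R →ₐ[K] R')
    (hfin : (φ : R →+* R').Finite) (I : Ideal R) (e : ℕ) (z : PrimeSpectrum R' →₀ ℤ)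
    (hz : z ∈ Rt K (I.map (φ : R →+* R')) e) :
    @psh R R' _ _ (φ : R →+* R').toAlgebra z ∈ Rt K I e := by
  let _ : Algebra R R' := (φ : R →+* R').toAlgebra
  have : IsScalarTower K R R' := IsScalarTower.of_algebraMap_eq (fun x => (φ.commutes x).symm)
  have : Module.Finite R R' := hfin
  exact psh_Rt (K := K) I e z hz

/-- The cycles `Z a` of dimension `e` on `V(f)` are independent modulo rational equivalence. -/
def Ind (K : Type) {R : Type} [Field K] [CommRing R] [Algebra K R] (f : R) (e : ℕ) {ι : Type}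
    [Fintype ι] (Z : ι → (PrimeSpectrum R →₀ ℤ)) : Prop :=
  (∀ a P, Z a P ≠ 0 → f ∈ P.asIdeal ∧ dm K P.asIdeal = e) ∧
    ∀ c : ι → ℤ, (∑ a, c a • Z a) ∈ Rt K (Ideal.span {f}) e → ∀ a, c a = 0

section

variable {K A : Type} [Field K] [CommRing A] [Algebra K A] [Algebra.FiniteType K A] (f : A)

theorem rho_map0 (c : K) (e : ℕ) (w : PrimeSpectrum A →₀ ℤ)
    (hw : ∀ p, w p ≠ 0 → dm K p.asIdeal = e) :
    rho K f c e (Finsupp.mapDomain P0 w) = w := by
  have h1 : Finsupp.mapDomain P0 w = ∑ p ∈ w.support, w p • Finsupp.single (P0 p) (1 : ℤ) := by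
    unfold Finsupp.mapDomain
    rw [Finsupp.sum]
    apply Finset.sum_congr rfl
    intro p _
    rw [Finsupp.smul_single, smul_eq_mul, mul_one]
  rw [h1, map_sum]
  have h2 : ∀ p ∈ w.support, rho K f c e (w p • Finsupp.single (P0 p) (1 : ℤ)) =
      Finsupp.single p (w p) := by
    intro p hp
    rw [map_zsmul, rho_P0 f c e p (hw p (Finsupp.mem_support_iff.1 hp)), Finsupp.smul_single,
      smul_eq_mul, mul_one]
  rw [Finset.sum_congr rfl h2]
  exact Finsupp.sum_single w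

theorem rho_map1 (c : K) (e : ℕ) (w : PrimeSpectrum A →₀ ℤ)
    (hw : ∀ p, w p ≠ 0 → dm K p.asIdeal = e) :
    rho K f c e (Finsupp.mapDomain P1 w) = - w := by
  have h1 : Finsupp.mapDomain P1 w = ∑ p ∈ w.support, w p • Finsupp.single (P1 p) (1 : ℤ) := by
    unfold Finsupp.mapDomain
    rw [Finsupp.sum]
    apply Finset.sum_congr rfl
    intro p _
    rw [Finsupp.smul_single, smul_eq_mul, mul_one]
  rw [h1, map_sum]
  have h2 : ∀ p ∈ w.support, rho K f c e (w p • Finsupp.single (P1 p) (1 : ℤ)) =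
      - Finsupp.single p (w p) := by
    intro p hp
    rw [map_zsmul, rho_P1 f c e p (hw p (Finsupp.mem_support_iff.1 hp)), smul_neg,
      Finsupp.smul_single, smul_eq_mul, mul_one]
  rw [Finset.sum_congr rfl h2, Finset.sum_neg_distrib]
  congr 1
  exact Finsupp.sum_single w

end

theorem JJ_tors {K : Type} [Field K] [IsAlgClosed K] [CharZero K] {m e : ℕ} (he : e + 1 < m)
    (f : MvPolynomial (Fin m) K) (x : PrimeSpectrum (MvPolynomial (Fin m) K) →₀ ℤ)
    (hx : x ∈ JJ K f e) : ∃ N : ℕ, 0 < N ∧ (N : ℤ) • x ∈ Rt K (Ideal.span {f}) e :=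
  tors_closure (Rt K (Ideal.span {f}) e)
    {z | ∃ V : PrimeSpectrum (MvPolynomial (Fin m) K),
      dm K V.asIdeal = e + 1 ∧ f ∉ V.asIdeal ∧ z = fdiv K V.asIdeal f e}
    (by
      rintro t ⟨V, hdV, hfV, rfl⟩
      exact gys_tors m e he f V hdV hfV) _ hx

section

variable {K A : Type} [Field K] [IsAlgClosed K] [CommRing A] [IsDomain A] [Algebra K A]
  [Algebra.FiniteType K A] [DecidableEq K] (f : A)

/-- The image under `rho` of the push-forward of a sum of cycles `Y = ζ Z`. -/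
theorem push_sum (d : ℕ) (S : Finset K) (hc : 2 ≤ S.card)
    (hS : ∏ ζ ∈ S, (C X - C (C (algebraMap K A ζ)) * X : Polynomial (Polynomial A)) =
      C X ^ d + X ^ d) (e : ℕ) (w : K → (PrimeSpectrum A →₀ ℤ))
    (hw : ∀ ζ p, w ζ p ≠ 0 → dm K p.asIdeal = e)
    (hR : ∑ ζ ∈ S, Finsupp.mapDomain (PZ (algebraMap K A ζ)) (w ζ) ∈
      Rt K (Ideal.span {(C (C f) + C X ^ d + X ^ d : Polynomial (Polynomial A))}) (e + 1))
    (η : K) (hη : η ∈ S) :
    ∑ ζ ∈ S.erase η, w ζ - (S.card - 1) • w η ∈ JJ K f e := by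
  obtain ⟨Θ, hfin, h0, h1, h2⟩ := exists_theta (K := K) A S hc η hη
  have hrel : Θ (rel f) = C (C f) + C X ^ d + X ^ d := by
    unfold rel
    rw [map_sub, map_mul, h0, h1, h2, add_assoc, ← hS, ← Finset.mul_prod_erase S _ hη]
    ring
  have hmap : (Ideal.span {rel f}).map (Θ : Polynomial (Polynomial A) →+*
      Polynomial (Polynomial A)) =
      Ideal.span {(C (C f) + C X ^ d + X ^ d : Polynomial (Polynomial A))} := by
    rw [Ideal.map_span, Set.image_singleton, ← hrel]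
    rfl
  rw [← hmap] at hR
  have h3 := psh_Rt_hom Θ hfin (Ideal.span {rel f}) (e + 1) _ hR
  obtain ⟨T, hT⟩ := rho_Rt f e _ h3
  have hinf : Infinite K := IsAlgClosed.instInfinite
  obtain ⟨c, hc'⟩ := Infinite.exists_notMem_finset (insert 0 T)
  rw [Finset.mem_insert, not_or] at hc'
  have h4 := hT c hc'.1 hc'.2
  rw [map_sum, ← Finset.add_sum_erase S _ hη] at h4
  have h5 : ∀ ζ ∈ S.erase η, @psh (Polynomial (Polynomial A)) (Polynomial (Polynomial A)) _ _
      (Θ : Polynomial (Polynomial A) →+* Polynomial (Polynomial A)).toAlgebra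
      (Finsupp.mapDomain (PZ (algebraMap K A ζ)) (w ζ)) = Finsupp.mapDomain P0 (w ζ) :=
    fun ζ hζ => psh_ne (Θ : Polynomial (Polynomial A) →+* Polynomial (Polynomial A)) S η h0 h1 h2
      ζ hζ (w ζ)
  have h6 : @psh (Polynomial (Polynomial A)) (Polynomial (Polynomial A)) _ _
      (Θ : Polynomial (Polynomial A) →+* Polynomial (Polynomial A)).toAlgebra
      (Finsupp.mapDomain (PZ (algebraMap K A η)) (w η)) =
      (S.card - 1) • Finsupp.mapDomain P1 (w η) :=
    psh_eta (Θ : Polynomial (Polynomial A) →+* Polynomial (Polynomial A)) S η h0 h1 h2 hη hc (w η)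
  rw [Finset.sum_congr rfl h5, h6, map_add, map_sum, map_nsmul, rho_map1 f c e _ (hw η)] at h4
  have h7 : ∀ ζ ∈ S.erase η, rho K f c e (Finsupp.mapDomain P0 (w ζ)) = w ζ :=
    fun ζ _ => rho_map0 f c e _ (hw ζ)
  rw [Finset.sum_congr rfl h7] at h4
  have h8 : ∑ ζ ∈ S.erase η, w ζ - (S.card - 1) • w η =
      (S.card - 1) • (-w η) + ∑ ζ ∈ S.erase η, w ζ := by
    rw [smul_neg]
    abel
  rw [h8]
  exact h4

/-- If one of the cycles is zero then every other one is torsion. -/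
theorem push_tors (d : ℕ) (S : Finset K) (hc : 2 ≤ S.card)
    (hS : ∏ ζ ∈ S, (C X - C (C (algebraMap K A ζ)) * X : Polynomial (Polynomial A)) =
      C X ^ d + X ^ d) (e : ℕ) (w : K → (PrimeSpectrum A →₀ ℤ))
    (hw : ∀ ζ p, w ζ p ≠ 0 → dm K p.asIdeal = e)
    (hR : ∑ ζ ∈ S, Finsupp.mapDomain (PZ (algebraMap K A ζ)) (w ζ) ∈
      Rt K (Ideal.span {(C (C f) + C X ^ d + X ^ d : Polynomial (Polynomial A))}) (e + 1))
    (ζ₀ : K) (hζ₀ : ζ₀ ∈ S) (h0 : w ζ₀ = 0) (η : K) (hη : η ∈ S) :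
    S.card • w η ∈ JJ K f e := by
  have h1 := push_sum f d S hc hS e w hw hR ζ₀ hζ₀
  have h2 := push_sum f d S hc hS e w hw hR η hη
  have h3 : ∑ ζ ∈ S.erase ζ₀, w ζ = ∑ ζ ∈ S, w ζ := by
    rw [← Finset.add_sum_erase S w hζ₀, h0, zero_add]
  have h4 : ∑ ζ ∈ S.erase η, w ζ = ∑ ζ ∈ S, w ζ - w η := by
    rw [← Finset.add_sum_erase S w hη]
    abel
  rw [h0, smul_zero, sub_zero, h3] at h1
  rw [h4] at h2
  have h5 := sub_mem h1 h2
  have h6 : ∑ ζ ∈ S, w ζ - (∑ ζ ∈ S, w ζ - w η - (S.card - 1) • w η) = S.card • w η := by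
    obtain ⟨k, hk⟩ := Nat.exists_eq_add_of_le hc
    have h7 : S.card - 1 = k + 1 := by omega
    have h8 : S.card = (k + 1) + 1 := by omega
    rw [h7, h8, add_smul (k + 1) 1, one_smul]
    abel
  rw [h6] at h5
  exact h5

end

end Pool.Agent.HCF
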