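import Pool.Agent.HCF.Y6
import Pool.Agent.HCF.N6

/-!
Independent families on the suspensions.
-/

namespace Pool.Agent.HCF

open Pool.Agent.HCH Polynomial

/-- One suspension multiplies the number of independent cycles by `d - 1`. -/
theorem ind_step {K : Type} [Field K] [IsAlgClosed K] [CharZero K] {m e : ℕ} (he : e + 1 < m)
    (d : ℕ) (hd : 2 ≤ d) (f : MvPolynomial (Fin m) K) {ι : Type} [Fintype ι]
    (Z : ι → (PrimeSpectrum (MvPolynomial (Fin m) K) →₀ ℤ)) (h : Ind K f e Z) :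
    ∃ Z' : ι × Fin (d - 1) →
      (PrimeSpectrum (Polynomial (Polynomial (MvPolynomial (Fin m) K))) →₀ ℤ),
      Ind K (C (C f) + C X ^ d + X ^ d : Polynomial (Polynomial (MvPolynomial (Fin m) K)))
        (e + 1) Z' := by
  classical
  obtain ⟨S, hcard, hS⟩ := exists_roots (K := K) d hd
  have hSA := hS (MvPolynomial (Fin m) K)
  have hc : 2 ≤ S.card := hcard ▸ hd
  have hne : S.Nonempty := Finset.card_pos.1 (by omega)
  obtain ⟨ζ₀, hζ₀⟩ := hne
  have hcd : Fintype.card (S.erase ζ₀ : Finset K) = d - 1 := by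
    rw [Fintype.card_coe, Finset.card_erase_of_mem hζ₀, hcard]
  let ε : (S.erase ζ₀ : Finset K) ≃ Fin (d - 1) := Fintype.equivFinOfCardEq hcd
  have hZd : ∀ a p, Z a p ≠ 0 → dm K p.asIdeal = e := fun a p hp => (h.1 a p hp).2
  refine ⟨fun x => Finsupp.mapDomain (PZ (algebraMap K _ ((ε.symm x.2 : (S.erase ζ₀ : Finset K)) : K)))
    (Z x.1), ?_, ?_⟩
  · rintro ⟨a, k⟩ P hP
    have h1 := Finsupp.mapDomain_support (Finsupp.mem_support_iff.2 hP)
    obtain ⟨p, hp, rfl⟩ := Finset.mem_image.1 h1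
    obtain ⟨h2, h3⟩ := h.1 a p (Finsupp.mem_support_iff.1 hp)
    exact ⟨susp_mem_PZ d S hSA f _ (Finset.mem_of_mem_erase (ε.symm k).2) p h2, dm_PZ e _ p h3⟩
  · intro c hR
    let w : K → (PrimeSpectrum (MvPolynomial (Fin m) K) →₀ ℤ) := fun ζ =>
      if hζ : ζ ∈ S.erase ζ₀ then ∑ a, c (a, ε ⟨ζ, hζ⟩) • Z a else 0
    have hw0 : w ζ₀ = 0 := by
      simp only [w]
      rw [dif_neg (Finset.notMem_erase ζ₀ S)]
    have hwd : ∀ ζ p, w ζ p ≠ 0 → dm K p.asIdeal = e := by
      intro ζ p hp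
      simp only [w] at hp
      split_ifs at hp with hζ
      · rw [Finsupp.finsetSum_apply] at hp
        obtain ⟨a, _, ha⟩ := Finset.exists_ne_zero_of_sum_ne_zero hp
        apply hZd a p
        intro h0
        apply ha
        rw [Finsupp.smul_apply, h0, smul_zero]
      · exact absurd rfl hp
    have hwk : ∀ k, w ((ε.symm k : (S.erase ζ₀ : Finset K)) : K) = ∑ a, c (a, k) • Z a := by
      intro k
      simp only [w]
      rw [dif_pos (ε.symm k).2]
      simp
    have hsum : ∑ ζ ∈ S, Finsupp.mapDomain (PZ (algebraMap K _ ζ)) (w ζ) =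
        ∑ x : ι × Fin (d - 1), c x • Finsupp.mapDomain
          (PZ (algebraMap K _ ((ε.symm x.2 : (S.erase ζ₀ : Finset K)) : K))) (Z x.1) := by
      rw [← Finset.add_sum_erase S _ hζ₀, hw0, Finsupp.mapDomain_zero, zero_add,
        ← Finset.sum_coe_sort, ← Equiv.sum_comp ε.symm, Fintype.sum_prod_type_right]
      apply Finset.sum_congr rfl
      intro k _
      rw [hwk]
      rw [Finsupp.mapDomain_finsetSum]
      apply Finset.sum_congr rfl
      intro a _
      exact Finsupp.mapDomain_smul _ _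
    rw [← hsum] at hR
    rintro ⟨a, k⟩
    have hη : ((ε.symm k : (S.erase ζ₀ : Finset K)) : K) ∈ S :=
      Finset.mem_of_mem_erase (ε.symm k).2
    have h1 := push_tors f d S hc hSA e w hwd hR ζ₀ hζ₀ hw0 _ hη
    obtain ⟨N, hN, h2⟩ := JJ_tors he f _ h1
    rw [hwk, hcard] at h2
    have h3 : ∑ b, ((N : ℤ) * ((d : ℤ) * c (b, k))) • Z b ∈ Rt K (Ideal.span {f}) e := by
      have h4 : ∑ b, ((N : ℤ) * ((d : ℤ) * c (b, k))) • Z b =
          (N : ℤ) • (d • ∑ b, c (b, k) • Z b) := by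
        rw [← natCast_zsmul, Finset.smul_sum, Finset.smul_sum]
        apply Finset.sum_congr rfl
        intro b _
        rw [smul_smul, smul_smul]
        congr 1
        ring
      rw [h4]
      exact h2
    have h5 := h.2 _ h3 a
    have hN' : (N : ℤ) ≠ 0 := by exact_mod_cast hN.ne'
    have hd' : (d : ℤ) ≠ 0 := by
      have : d ≠ 0 := by omega
      exact_mod_cast this
    rcases mul_eq_zero.1 h5 with h6 | h6
    · exact absurd h6 hN'
    · rcases mul_eq_zero.1 h6 with h7 | h7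
      · exact absurd h7 hd'
      · exact h7

/-- Transport along an isomorphism. -/
theorem ind_equiv {K R R' : Type} [Field K] [CommRing R] [CommRing R'] [Algebra K R]
    [Algebra K R'] [Algebra.FiniteType K R] [Algebra.FiniteType K R'] (φ : R ≃ₐ[K] R') (f : R)
    (e : ℕ) {ι : Type} [Fintype ι] (Z : ι → (PrimeSpectrum R' →₀ ℤ)) (h : Ind K (φ f) e Z) :
    ∃ Z' : ι → (PrimeSpectrum R →₀ ℤ), Ind K f e Z' := by
  classical
  let _ : Algebra R' R := (φ.symm : R' →+* R).toAlgebra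
  have hst : IsScalarTower K R' R :=
    IsScalarTower.of_algebraMap_eq (fun x => (φ.symm.commutes x).symm)
  have hfin : Module.Finite R' R :=
    Module.Finite.of_surjective (Algebra.linearMap R' R) φ.symm.surjective
  let θ : PrimeSpectrum R' → PrimeSpectrum R := PrimeSpectrum.comap (φ : R →+* R')
  have hun : ∀ P, un R' (θ P) = P := by
    intro P
    apply PrimeSpectrum.ext
    ext x
    change φ (φ.symm x) ∈ P.asIdeal ↔ x ∈ P.asIdeal
    rw [AlgEquiv.apply_symm_apply]
  have hdeg : ∀ P, rdeg R' (θ P) = 1 := by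
    intro P
    refine rdeg_surj (R := R') (θ P) (Ideal.Quotient.mk (θ P).asIdeal) (Ideal.mk_ker) ?_
    exact Ideal.Quotient.mk_surjective.comp φ.symm.surjective
  have hp : ∀ z : PrimeSpectrum R' →₀ ℤ, psh R' R (Finsupp.mapDomain θ z) = z := by
    intro z
    induction z using Finsupp.induction_linear with
    | zero => simp
    | add a b ha hb => rw [Finsupp.mapDomain_add, map_add, ha, hb]
    | single p n =>
      rw [Finsupp.mapDomain_single, psh_single, hdeg, hun, Finsupp.smul_single, smul_eq_mul,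
        mul_one]
  refine ⟨fun a => Finsupp.mapDomain θ (Z a), ?_, ?_⟩
  · intro a P hP
    have h1 := Finsupp.mapDomain_support (Finsupp.mem_support_iff.2 hP)
    obtain ⟨p, hp', rfl⟩ := Finset.mem_image.1 h1
    obtain ⟨h2, h3⟩ := h.1 a p (Finsupp.mem_support_iff.1 hp')
    refine ⟨h2, ?_⟩
    have h4 := dm_un (K := K) (R := R') (θ p)
    rw [hun] at h4
    rw [← h3]
    exact h4.symm
  · intro c hR
    have h0 : (Ideal.span {φ f}).map (algebraMap R' R) = Ideal.span {f} := by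
      rw [Ideal.map_span, Set.image_singleton]
      congr 2
      exact φ.symm_apply_apply f
    rw [← h0] at hR
    have h1 := psh_Rt (K := K) (R := R') (Ideal.span {φ f}) e _ hR
    rw [map_sum] at h1
    have h2 : ∑ a, psh R' R (c a • Finsupp.mapDomain θ (Z a)) = ∑ a, c a • Z a := by
      apply Finset.sum_congr rfl
      intro a _
      rw [map_zsmul, hp]
    rw [h2] at h1
    exact h.2 c h1

theorem ind_reindex {K R : Type} [Field K] [CommRing R] [Algebra K R] (f : R)
    (e : ℕ) {ι κ : Type} [Fintype ι] [Fintype κ] (σ : κ ≃ ι) (Z : ι → (PrimeSpectrum R →₀ ℤ))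
    (h : Ind K f e Z) : Ind K f e (fun k => Z (σ k)) := by
  refine ⟨fun a => h.1 (σ a), ?_⟩
  intro c hR k
  have h1 := h.2 (fun a => c (σ.symm a)) (by
    rw [← Equiv.sum_comp σ]
    simpa using hR) (σ k)
  simpa using h1

theorem ind_susA {K : Type} [Field K] [IsAlgClosed K] [CharZero K] {m e : ℕ} (he : e + 1 < m)
    (d : ℕ) (hd : 2 ≤ d) (f : MvPolynomial (Fin m) K)
    (Z : Unit → (PrimeSpectrum (MvPolynomial (Fin m) K) →₀ ℤ)) (h : Ind K f e Z) (r : ℕ) :
    ∃ Z' : Fin ((d - 1) ^ r) → (PrimeSpectrum (MvPolynomial (Fin (m + 2 * r)) K) →₀ ℤ),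
      Ind K (susA d f r) (e + r) Z' := by
  induction r with
  | zero =>
    have σ : Fin ((d - 1) ^ 0) ≃ Unit := Fintype.equivOfCardEq (by simp)
    exact ⟨_, ind_reindex f e σ Z h⟩
  | succ r ih =>
    obtain ⟨Z1, h1⟩ := ih
    obtain ⟨Z2, h2⟩ := ind_step (by omega : e + r + 1 < m + 2 * r) d hd (susA d f r) Z1 h1
    obtain ⟨φ, hφ⟩ := exists_equiv (K := K) d (m + 2 * r) (susA d f r)
    rw [← hφ] at h2
    have h3' := ind_equiv (K := K) (R := MvPolynomial (Fin (m + 2 * r + 2)) K)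
      (R' := Polynomial (Polynomial (MvPolynomial (Fin (m + 2 * r)) K))) φ
      (suspA d (susA d f r)) (e + r + 1) Z2 h2
    obtain ⟨Z3, h3⟩ := h3'
    have σ : Fin ((d - 1) ^ (r + 1)) ≃ Fin ((d - 1) ^ r) × Fin (d - 1) :=
      Fintype.equivOfCardEq (by simp [pow_succ])
    exact ⟨_, ind_reindex _ _ σ Z3 h3⟩

/-- The `r`-fold suspension of a non-torsion cycle gives `(d - 1) ^ r` independent cycles. -/
theorem ind_susp {K : Type} [Field K] [IsAlgClosed K] [CharZero K] {m M e : ℕ} (he : e + 1 < m)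
    (d : ℕ) (hd : 2 ≤ d) (f : MvPolynomial (Fin m) K) (g : MvPolynomial (Fin M) K)
    (hg : IsSusp d f g) (Z : Unit → (PrimeSpectrum (MvPolynomial (Fin m) K) →₀ ℤ))
    (h : Ind K f e Z) (r : ℕ) (hM : M = m + 2 * r) :
    ∃ Z' : Fin ((d - 1) ^ r) → (PrimeSpectrum (MvPolynomial (Fin M) K) →₀ ℤ),
      Ind K g (e + r) Z' := by
  subst hM
  obtain ⟨σ, hσ⟩ := isSusp_perm hg (isSusp_susA d f r)
  obtain ⟨Z', h'⟩ := ind_susA he d hd f Z h r
  have h2 : (MvPolynomial.renameEquiv K σ) g = susA d f r := hσ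
  rw [← h2] at h'
  exact ind_equiv (MvPolynomial.renameEquiv K σ) g (e + r) Z' h'

end Pool.Agent.HCF
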