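import Pool.Agent.HCF.Y6
import Pool.Agent.HCF.T1
import Pool.Agent.HCH.Stmt
import Pool.Agent.HCH.I1
import Pool.Agent.HCH.P3

/-!
From independent cycles on the affine part to the rank of the projective Chow group.
-/

namespace Pool.Agent.HCF

open MvPolynomial Pool.Agent.HCH

variable {K : Type} [Field K]

/-- The subspace of the Chow group `A^i(V(F))` spanned by the classes of the linear sections of
codimension `i` of `V(F)` which are cut out by integral flags. -/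
noncomputable def HSp {n : ℕ} (F : MvPolynomial (Fin (n + 2)) K) (i : ℕ) :
    Submodule ℚ (Chow F (n + 1 - i)) :=
  Submodule.span ℚ {x | ∃ (l : ℕ → MvPolynomial (Fin (n + 2)) K) (S : Sub F (n + 1 - i)),
    (∀ k, (l k).IsHomogeneous 1) ∧
    (∀ k ≤ i, (flag F l k).IsPrime ∧ dm K (flag F l k) = n + 1 - k) ∧
    S.1.asIdeal = flag F l i ∧ x = (RatEq F (n + 1 - i)).mkQ (Finsupp.single S 1)}

/-- The dimension of `A^i(V(F)) / ℚ h^i` over `ℚ`. -/
noncomputable def chd {n : ℕ} (F : MvPolynomial (Fin (n + 2)) K) (i : ℕ) : Cardinal :=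
  Module.rank ℚ (Chow F (n + 1 - i) ⧸ HSp F i)

/-- The cycles on the projective variety whose restriction to the affine part is torsion. -/
def Tp {m : ℕ} (F : MvPolynomial (Fin (m + 1)) K) (e : ℕ) :
    Submodule ℚ (Sub F (e + 1) →₀ ℚ) where
  carrier := {v | ∃ N : ℕ, 0 < N ∧ ∃ Z ∈ ARat K (deh F) e,
    (∀ (p : PrimeSpectrum (MvPolynomial (Fin m) K)) (h : HgI (hm p).asIdeal ∧
      F ∈ (hm p).asIdeal ∧ dm K (hm p).asIdeal = e + 1), (Z p : ℚ) = N * v ⟨hm p, h⟩) ∧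
    ∀ p : PrimeSpectrum (MvPolynomial (Fin m) K), ¬ (HgI (hm p).asIdeal ∧
      F ∈ (hm p).asIdeal ∧ dm K (hm p).asIdeal = e + 1) → Z p = 0}
  add_mem' := by
    rintro x y ⟨N1, hN1, Z1, hZ1, h1, h1'⟩ ⟨N2, hN2, Z2, hZ2, h2, h2'⟩
    refine ⟨N1 * N2, Nat.mul_pos hN1 hN2, (N2 : ℤ) • Z1 + (N1 : ℤ) • Z2,
      (ARat K (deh F) e).add_mem ((ARat K (deh F) e).zsmul_mem hZ1 _)
        ((ARat K (deh F) e).zsmul_mem hZ2 _), ?_, ?_⟩
    · intro p h
      rw [Pi.add_apply, Pi.smul_apply, Pi.smul_apply, Finsupp.add_apply]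
      simp only [smul_eq_mul]
      push_cast
      rw [h1 p h, h2 p h]
      ring
    · intro p h
      rw [Pi.add_apply, Pi.smul_apply, Pi.smul_apply, h1' p h, h2' p h]
      simp
  zero_mem' := ⟨1, one_pos, 0, (ARat K (deh F) e).zero_mem, fun p h => by simp, fun _ _ => rfl⟩
  smul_mem' := by
    rintro a x ⟨N1, hN1, Z1, hZ1, h1, h1'⟩
    refine ⟨N1 * a.den, Nat.mul_pos hN1 a.den_pos, a.num • Z1,
      (ARat K (deh F) e).zsmul_mem hZ1 _, ?_, ?_⟩
    · intro p h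
      rw [Pi.smul_apply, Finsupp.smul_apply]
      simp only [smul_eq_mul]
      push_cast
      rw [h1 p h]
      have h3 : (a.num : ℚ) = a * a.den := by
        exact_mod_cast (Rat.mul_den_eq_num a).symm
      rw [h3]
      ring
    · intro p h
      rw [Pi.smul_apply, h1' p h, smul_zero]

theorem RatEq_le_Tp {m : ℕ} (F : MvPolynomial (Fin (m + 1)) K) (e : ℕ) :
    RatEq F (e + 1) ≤ Tp F e := by
  intro v hv
  obtain ⟨N, hN, Z, hZ, h1, h2⟩ := rat_int F (e + 1) v hv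
  exact ⟨N, hN, fun p => Z (hm p), res_PRat F e Z hZ, fun p h => h1 ⟨hm p, h⟩,
    fun p h => h2 (hm p) h⟩

theorem single_mem_Tp {m : ℕ} (F G : MvPolynomial (Fin (m + 1)) K) (e b : ℕ)
    (W : PrimeSpectrum (MvPolynomial (Fin (m + 1)) K)) (Q : Sub F (e + 1)) (hW : HgI W.asIdeal)
    (hF : F ∈ W.asIdeal) (hdW : dm K W.asIdeal = e + 2) (hG : G.IsHomogeneous b)
    (h : W.asIdeal ⊔ Ideal.span {G} = Q.1.asIdeal) :
    Finsupp.single Q 1 ∈ Tp F e := by
  classical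
  refine ⟨1, one_pos, fun p => cls Q.1 (hm p),
    res_cls F G e b W Q.1 hW Q.2.1 hF hdW Q.2.2.2 hG h, ?_, ?_⟩
  · intro p hp
    rw [Finsupp.single_apply]
    unfold cls
    beta_reduce
    by_cases hq : hm p = Q.1
    · rw [if_pos hq, if_pos (Subtype.ext hq.symm)]
      simp
    · rw [if_neg hq, if_neg (fun hc => hq (congrArg Subtype.val hc).symm)]
      simp
  · intro p hp
    unfold cls
    beta_reduce
    rw [if_neg]
    intro hq
    apply hp
    rw [hq]
    exact Q.2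

/-- The closure of an affine cycle. -/
noncomputable def clo {m : ℕ} (F : MvPolynomial (Fin (m + 1)) K) (e : ℕ)
    (w : PrimeSpectrum (MvPolynomial (Fin m) K) →₀ ℤ) : Sub F (e + 1) →₀ ℚ :=
  ((w.mapDomain hm).comapDomain (fun P : Sub F (e + 1) => P.1)
    (Subtype.val_injective.injOn)).mapRange (fun z : ℤ => (z : ℚ)) Int.cast_zero

theorem clo_apply {m : ℕ} (F : MvPolynomial (Fin (m + 1)) K) (e : ℕ)
    (w : PrimeSpectrum (MvPolynomial (Fin m) K) →₀ ℤ) (P : Sub F (e + 1)) :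
    clo F e w P = ((w.mapDomain hm) P.1 : ℚ) := rfl

theorem clo_sum {m : ℕ} (F : MvPolynomial (Fin (m + 1)) K) (e : ℕ) {ι : Type} [Fintype ι]
    (c : ι → ℤ) (w : ι → PrimeSpectrum (MvPolynomial (Fin m) K) →₀ ℤ) :
    clo F e (∑ a, c a • w a) = ∑ a, c a • clo F e (w a) := by
  ext P
  rw [clo_apply, Finsupp.mapDomain_finsetSum, Finsupp.finsetSum_apply, Finsupp.finsetSum_apply,
    Int.cast_sum]
  apply Finset.sum_congr rfl
  intro a _
  rw [Finsupp.mapDomain_smul, Finsupp.smul_apply, Finsupp.smul_apply, clo_apply, smul_eq_mul,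
    Int.cast_mul, zsmul_eq_mul]

theorem clo_Tp {m d : ℕ} (F : MvPolynomial (Fin (m + 1)) K) (hF : F.IsHomogeneous d) (e : ℕ)
    (w : PrimeSpectrum (MvPolynomial (Fin m) K) →₀ ℤ)
    (hw : ∀ p, w p ≠ 0 → deh F ∈ p.asIdeal ∧ dm K p.asIdeal = e) (h : clo F e w ∈ Tp F e) :
    ∃ N : ℕ, 0 < N ∧ (N : ℤ) • w ∈ Rt K (Ideal.span {deh F}) e := by
  obtain ⟨N, hN, Z, hZ, h1, h2⟩ := h
  refine ⟨N, hN, ?_⟩
  rw [Rt_iff]
  have h3 : (⇑((N : ℤ) • w) : PrimeSpectrum (MvPolynomial (Fin m) K) → ℤ) = Z := by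
    funext p
    rw [Finsupp.smul_apply, smul_eq_mul]
    by_cases hp : HgI (hm p).asIdeal ∧ F ∈ (hm p).asIdeal ∧ dm K (hm p).asIdeal = e + 1
    · have h4 := h1 p hp
      rw [clo_apply, Finsupp.mapDomain_apply hm_inj] at h4
      exact_mod_cast h4.symm
    · rw [h2 p hp]
      by_cases h0 : w p = 0
      · rw [h0, mul_zero]
      · exfalso
        obtain ⟨h5, h6⟩ := hw p h0
        exact hp ⟨hm_homog p, (mem_hm p F d hF).2 h5, by rw [dm_hm, h6]⟩
  rw [h3]
  exact hZ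

/-- The same as `HSp` with the dimension as a variable. -/
noncomputable def HSg {n : ℕ} (F : MvPolynomial (Fin (n + 2)) K) (i g : ℕ) :
    Submodule ℚ (Chow F g) :=
  Submodule.span ℚ {x | ∃ (l : ℕ → MvPolynomial (Fin (n + 2)) K) (S : Sub F g),
    (∀ k, (l k).IsHomogeneous 1) ∧
    (∀ k ≤ i, (flag F l k).IsPrime ∧ dm K (flag F l k) = n + 1 - k) ∧
    S.1.asIdeal = flag F l i ∧ x = (RatEq F g).mkQ (Finsupp.single S 1)}

theorem HSg_Tp {n d : ℕ} (F : MvPolynomial (Fin (n + 2)) K) (hF : F.IsHomogeneous d) (i e : ℕ)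
    (hi : 1 ≤ i) (hin : e + i = n) (v : Sub F (e + 1) →₀ ℚ)
    (hv : (RatEq F (e + 1)).mkQ v ∈ HSg F i (e + 1)) : v ∈ Tp F e := by
  have h1 : HSg F i (e + 1) ≤ (Tp F e).map (RatEq F (e + 1)).mkQ := by
    unfold HSg
    rw [Submodule.span_le]
    rintro x ⟨l, S, hl, hfl, hS, rfl⟩
    apply Submodule.mem_map_of_mem
    obtain ⟨j, rfl⟩ := Nat.exists_eq_add_of_le' hi
    obtain ⟨hfp, hfd⟩ := hfl j (Nat.le_succ j)
    refine single_mem_Tp F (l j) e 1 ⟨flag F l j, hfp⟩ S (flag_homog F d hF l hl j)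
      (Ideal.subset_span (Or.inl rfl)) ?_ (hl j) ?_
    · change dm K (flag F l j) = _
      rw [hfd]
      omega
    · rw [hS]
      exact (flag_succ F l j).symm
  obtain ⟨t, ht, hte⟩ := Submodule.mem_map.1 (h1 hv)
  have h2 : v - t ∈ RatEq F (e + 1) := by
    rw [← Submodule.ker_mkQ (RatEq F (e + 1)), LinearMap.mem_ker, map_sub, hte, sub_self]
  have h3 := (Tp F e).add_mem (RatEq_le_Tp F e h2) ht
  rwa [sub_add_cancel] at h3

theorem ind_rankg {n d : ℕ} (F : MvPolynomial (Fin (n + 2)) K) (hF : F.IsHomogeneous d) (i e : ℕ)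
    (hi : 1 ≤ i) (hin : e + i = n) {ι : Type} [Fintype ι]
    (Z : ι → (PrimeSpectrum (MvPolynomial (Fin (n + 1)) K) →₀ ℤ))
    (h : Ind K (deh F) e Z) :
    (Fintype.card ι : Cardinal) ≤ Module.rank ℚ (Chow F (e + 1) ⧸ HSg F i (e + 1)) := by
  have hli : LinearIndependent ℤ (fun a : ι =>
      (HSg F i (e + 1)).mkQ ((RatEq F (e + 1)).mkQ (clo F e (Z a)))) := by
    rw [Fintype.linearIndependent_iff]
    intro c hc
    have h1 : (HSg F i (e + 1)).mkQ ((RatEq F (e + 1)).mkQ (clo F e (∑ a, c a • Z a))) = 0 := by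
      rw [clo_sum, map_sum, map_sum, ← hc]
      apply Finset.sum_congr rfl
      intro a _
      rw [map_zsmul, map_zsmul]
    have h2 : (RatEq F (e + 1)).mkQ (clo F e (∑ a, c a • Z a)) ∈ HSg F i (e + 1) := by
      rw [← Submodule.ker_mkQ (HSg F i (e + 1)), LinearMap.mem_ker, h1]
    have h3 := HSg_Tp F hF i e hi hin _ h2
    obtain ⟨N, hN, h4⟩ := clo_Tp F hF e (∑ a, c a • Z a) (by
      intro p hp
      rw [Finsupp.finsetSum_apply] at hp
      obtain ⟨a, _, ha⟩ := Finset.exists_ne_zero_of_sum_ne_zero hp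
      apply h.1 a p
      intro h0
      apply ha
      rw [Finsupp.smul_apply, h0, smul_zero]) h3
    have h5 : ∑ a, ((N : ℤ) * c a) • Z a ∈ Rt K (Ideal.span {deh F}) e := by
      have h6 : ∑ a, ((N : ℤ) * c a) • Z a = (N : ℤ) • ∑ a, c a • Z a := by
        rw [Finset.smul_sum]
        apply Finset.sum_congr rfl
        intro a _
        rw [smul_smul]
      rw [h6]
      exact h4
    intro a
    have h7 := h.2 _ h5 a
    have hN' : (N : ℤ) ≠ 0 := by exact_mod_cast hN.ne'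
    rcases mul_eq_zero.1 h7 with h8 | h8
    · exact absurd h8 hN'
    · exact h8
  have h9 := (LinearIndependent.iff_fractionRing ℤ ℚ).1 hli
  have h10 := h9.cardinal_le_rank
  rwa [Cardinal.mk_fintype] at h10

/-- An independent family of affine cycles is independent in `A^i / ℚ h^i`. -/
theorem ind_rank {n d : ℕ} (F : MvPolynomial (Fin (n + 2)) K) (hF : F.IsHomogeneous d) (i : ℕ)
    (hi : 1 ≤ i) (hin : i ≤ n) {ι : Type} [Fintype ι]
    (Z : ι → (PrimeSpectrum (MvPolynomial (Fin (n + 1)) K) →₀ ℤ))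
    (h : Ind K (deh F) (n - i) Z) :
    (Fintype.card ι : Cardinal) ≤ chd F i := by
  change (Fintype.card ι : Cardinal) ≤ Module.rank ℚ (Chow F (n + 1 - i) ⧸ HSg F i (n + 1 - i))
  have e1 : n + 1 - i = (n - i) + 1 := by omega
  rw [e1]
  exact ind_rankg F hF i (n - i) hi (by omega) Z h

end Pool.Agent.HCF
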