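import Pool.Agent.HCF.Y7
import Pool.Agent.HCF.Y8
import Pool.Agent.HCF.N9

/-!
The growth dichotomy for the Chow groups of hypersurfaces.
-/

namespace Pool.Agent.HCF

open MvPolynomial Pool.Agent.HCH

theorem ind_unit {K R : Type} [Field K] [CommRing R] [Algebra K R] [Algebra.FiniteType K R]
    (f : R) (e : ℕ) (h : ¬ AT K f e) :
    ∃ Z : Unit → (PrimeSpectrum R →₀ ℤ), Ind K f e Z := by
  classical
  rw [AT_iff] at h
  push Not at h
  obtain ⟨p, hf, hd, hN⟩ := h
  refine ⟨fun _ => Finsupp.single p 1, ?_, ?_⟩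
  · intro a P hP
    rw [Finsupp.single_apply] at hP
    split_ifs at hP with h1
    · subst h1
      exact ⟨hf, hd⟩
    · exact absurd rfl hP
  · intro c hR a
    rw [Finset.univ_unique, Finset.sum_singleton] at hR
    by_contra hc
    have hc' : c default ≠ 0 := hc
    rcases Int.natAbs_eq (c default) with h1 | h1
    · rw [h1] at hR
      exact hN _ (Int.natAbs_pos.2 hc') hR
    · rw [h1, neg_smul] at hR
      exact hN _ (Int.natAbs_pos.2 hc') (by simpa using (Rt K (Ideal.span {f}) e).neg_mem hR)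

theorem exists_susp {K : Type} [Field K] {m M : ℕ} (D r : ℕ) (hM : M = m + 2 * r)
    (G : MvPolynomial (Fin m) K) : ∃ V : MvPolynomial (Fin M) K, IsSusp D G V := by
  subst hM
  exact ⟨susA D G r, isSusp_susA D G r⟩

theorem isSusp_ren {K : Type} [Field K] {m M D : ℕ} (f : MvPolynomial (Fin m) K)
    (g : MvPolynomial (Fin M) K) (h : IsSusp D f g) (σ : Equiv.Perm (Fin M)) :
    IsSusp D f (rename σ g) := by
  classical
  obtain ⟨ι, hι, rfl⟩ := h
  refine ⟨σ ∘ ι, σ.injective.comp hι, ?_⟩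
  rw [map_add, rename_rename, map_sum]
  congr 1
  refine Finset.sum_bij (fun l _ => σ l) ?_ ?_ ?_ ?_
  · intro l hl
    have hl' := (Finset.mem_filter.mp hl).2
    refine Finset.mem_filter.mpr ⟨Finset.mem_univ _, ?_⟩
    rintro ⟨a, ha⟩
    exact hl' ⟨a, σ.injective ha⟩
  · intro a _ b _ hab
    exact σ.injective hab
  · intro l hl
    have hl' := (Finset.mem_filter.mp hl).2
    refine ⟨σ.symm l, ?_, by simp⟩
    refine Finset.mem_filter.mpr ⟨Finset.mem_univ _, ?_⟩
    rintro ⟨a, ha⟩
    exact hl' ⟨a, by rw [Function.comp_apply, ha, Equiv.apply_symm_apply]⟩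
  · intro l _
    rw [map_pow, rename_X]

/-- One failure in the critical dimension propagates and grows. -/
theorem growth {d j : ℕ} (hd : 2 ≤ d) (hj : 1 ≤ j) (F : MvPolynomial (Fin (2 * j + 1 + 2)) ℂ)
    (hF : F.IsHomogeneous d) (hs : Smooth F)
    (hlow : ∀ A : Matrix (Fin (2 * j + 1 + 2)) (Fin (2 * j + 1 + 2)) ℂ, A.det ≠ 0 →
      Hart (rhoI (lin A F)) (j - 1)) (hn : ¬ Hart F j) (k r : ℕ) (hk : 1 ≤ k) :
    ∃ V : MvPolynomial (Fin (2 * (j + r) + 1 + 2)) ℂ, V.IsHomogeneous (d * k) ∧ Smooth V ∧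
      (((d * k - 1) ^ r : ℕ) : Cardinal) ≤ chd V (j + r) := by
  have hD : 2 ≤ d * k := by nlinarith
  obtain ⟨A, hA, hT⟩ := good_lin F hF (by omega) hs
  have hG : Smooth (expand k (lin A F)) := smooth_expand hk (lin A F) hT
  have hGh : (expand k (lin A F)).IsHomogeneous (d * k) := by
    rw [mul_comm d k]
    exact expand_homog _ (lin_homog A F hF)
  have hAT : ¬ AT ℂ (deh (expand k (lin A F))) (j + 1) := by
    intro h3
    apply hn
    have h4 := AT_cover hk (lin A F) (j + 1) h3
    have hs' := sg_of_smooth (lin A F) (smooth_lin A hA F hs)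
    obtain ⟨hp, hdm⟩ := prime_of_sg (lin A F) (lin_homog A F hF) (by omega) 0 hs' (by omega)
    apply hart_lin A hA F j
    apply hart_of_affine (lin A F) (lin_homog A F hF) hp hdm j hj (by omega) (hlow A hA)
    have e2 : 2 * j + 1 - j = j + 1 := by omega
    rw [e2]
    exact h4
  obtain ⟨Z, hZ⟩ := ind_unit _ _ hAT
  obtain ⟨V0, hV0⟩ := exists_susp (M := 2 * (j + r) + 1 + 2) (d * k) r (by omega)
    (expand k (lin A F))
  obtain ⟨σ, hσ⟩ := susp_deh _ V0 hV0
  have hVh : (rename σ V0).IsHomogeneous (d * k) := (susp_homog _ V0 hV0 hGh).rename_isHomogeneous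
  have hVs : Smooth (rename σ V0) := smooth_susp hD _ _ (isSusp_ren _ V0 hV0 σ) hG
  obtain ⟨Z', hZ'⟩ := ind_susp (by omega) (d * k) hD _ _ hσ Z hZ r (by omega)
  have e1 : 2 * (j + r) + 1 - (j + r) = j + 1 + r := by omega
  rw [← e1] at hZ'
  have h5 := ind_rank (rename σ V0) hVh (j + r) (by omega) (by omega) Z' hZ'
  rw [Fintype.card_fin] at h5
  exact ⟨rename σ V0, hVh, hVs, h5⟩

theorem rank_of_ct {K : Type} [Field K] {n : ℕ} (F : MvPolynomial (Fin (n + 2)) K) (i : ℕ)
    (h : ChowTriv F i) : chd F i = 0 := by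
  obtain ⟨l, hl, hfl, S, hS, hx⟩ := h
  have htop : HSp F i = ⊤ := by
    rw [eq_top_iff]
    intro x _
    obtain ⟨c, rfl⟩ := hx x
    exact Submodule.smul_mem _ _ (Submodule.subset_span ⟨l, S, hl, hfl, hS, rfl⟩)
  unfold chd
  rw [htop]
  have : Subsingleton (Chow F (n + 1 - i) ⧸ (⊤ : Submodule ℚ (Chow F (n + 1 - i)))) :=
    Submodule.Quotient.subsingleton_iff.2 rfl
  exact rank_subsingleton' _ _

/-- The growth dichotomy. -/
theorem final3 (d i : ℕ) (hd : 2 ≤ d) :
    (∃ k r, 1 ≤ k ∧ ∀ V : MvPolynomial (Fin (2 * (i + r) + 1 + 2)) ℂ,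
      V.IsHomogeneous (d * k) → Smooth V → chd V (i + r) < ((d * k - 1) ^ r : ℕ)) ↔
    ∀ j ≤ i, ∀ n r, 2 * j + r + 1 ≤ n → ∀ F : MvPolynomial (Fin (n + 2)) ℂ,
      F.IsHomogeneous d → SgLe F r → ChowTriv F j := by
  constructor
  · rintro ⟨k, r₀, hk, hV⟩ j hji n r hn F hF hr
    rcases Nat.eq_zero_or_pos j with h0 | hj
    · subst h0
      obtain ⟨hp, hdm⟩ := prime_of_sg F hF (by omega) r hr (by omega)
      exact ct_of_hart F hF 0 (hart_zero F hp hdm)
    have hD : 2 ≤ d * k := by nlinarith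
    have hbd : ∀ j r, j ≤ i → j + r = i + r₀ →
        ∀ V : MvPolynomial (Fin (2 * (j + r) + 1 + 2)) ℂ,
        V.IsHomogeneous (d * k) → Smooth V → chd V (j + r) < ((d * k - 1) ^ r : ℕ) := by
      intro j r hj hjr
      have hr : r₀ ≤ r := by omega
      rw [hjr]
      intro V h1 h2
      refine lt_of_lt_of_le (hV V h1 h2) ?_
      exact_mod_cast Nat.pow_le_pow_right (by omega) hr
    have hcrit : ∀ i' ≤ i, ∀ j, 1 ≤ j → j ≤ i' → ∀ F : MvPolynomial (Fin (2 * j + 1 + 2)) ℂ,
        F.IsHomogeneous d → Smooth F → ChowTriv F j := by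
      intro i'
      induction i' with
      | zero => intro _ j h1 h2; omega
      | succ i' ih =>
        intro hi' j hj hji F hF hs
        by_cases hlt : j ≤ i'
        · exact ih (by omega) j hj hlt F hF hs
        · have hji' : j = i' + 1 := by omega
          subst hji'
          by_contra hct
          have hnh : ¬ Hart F (i' + 1) := fun hh => hct (ct_of_hart F hF _ hh)
          obtain ⟨r, hr⟩ := Nat.exists_eq_add_of_le (show i' + 1 ≤ i + r₀ by omega)
          obtain ⟨V, hVh, hVs, hle⟩ := growth hd hj F hF hs (by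
            intro A hA
            have hsl : SgLe (rhoI (lin A F)) 1 :=
              sg_rhoI _ (lin_homog A F hF) hd 0 (sg_of_smooth _ (smooth_lin A hA F hs))
            rw [Nat.add_sub_cancel]
            by_cases h0 : i' = 0
            · subst h0
              obtain ⟨hp, hdm⟩ := prime_of_sg (rhoI (lin A F)) (rhoI_homog _ (lin_homog A F hF))
                (by omega) 1 hsl (by omega)
              exact hart_zero _ hp hdm
            · apply hart_of_ct
              exact (final d i' hd (fun m (F : MvPolynomial (Fin m) ℂ) => F.IsHomogeneous d)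
                (secClosed_homog d) (fun _ _ h => h)).mp
                (fun j h1 h2 F h3 h4 => ih (by omega) j h1 h2 F h3 h4)
                i' (by omega) le_rfl (2 * (i' + 1)) 1 (by omega) (rhoI (lin A F))
                (rhoI_homog _ (lin_homog A F hF)) hsl) hnh k r hk
          exact absurd (hbd (i' + 1) r hi' hr.symm V hVh hVs) (not_lt.2 hle)
    exact (final d j hd (fun m (F : MvPolynomial (Fin m) ℂ) => F.IsHomogeneous d)
      (secClosed_homog d) (fun _ _ h => h)).mp (fun j h1 h2 F h3 h4 => hcrit _ hji j h1 h2 F h3 h4)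
      j hj le_rfl n r hn F hF hr
  · intro h
    refine ⟨1, 0, le_rfl, ?_⟩
    intro V hV hs
    rw [mul_one] at hV
    have h1 := h (i + 0) le_rfl (2 * (i + 0) + 1) 0 (by omega) V hV (sg_of_smooth V hs)
    rw [rank_of_ct V _ h1, pow_zero, Nat.cast_one]
    exact one_pos

end Pool.Agent.HCF
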